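import Mathlib

/-!
# Ordered cochains of a simplex

`AW n Λ`: functions on the nonempty subsets (faces) of `Fin (n + 1)` with values in the commutative
ring `Λ` (all subsets, with value `0` at the empty one). The product is the Alexander-Whitney
product `(a b)(K) = ∑ v ∈ K, a {u ∈ K, u ≤ v} * b {u ∈ K, v ≤ u}`, the differential is
`(d a)(K) = ∑ w ∈ K, (-1)^(position of w) a (K \ {w})`, and `par` is the sign of the degree
(a face with `p + 1` elements has degree `p`).
-/

noncomputable section

namespace Pool.Agent.PHJ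

universe u v

/-- Cochains: functions on the subsets which vanish at the empty set. -/
def AWs (n : ℕ) (Λ : Type u) [CommRing Λ] : Submodule Λ (Finset (Fin (n + 1)) → Λ) where
  carrier := {c | c ∅ = 0}
  zero_mem' := rfl
  add_mem' := by
    intro a b ha hb
    change a ∅ = 0 at ha
    change b ∅ = 0 at hb
    change a ∅ + b ∅ = 0
    rw [ha, hb, add_zero]
  smul_mem' := by
    intro c a ha
    change a ∅ = 0 at ha
    change c * a ∅ = 0
    rw [ha, mul_zero]

/-- Ordered cochains of the simplex with vertices `Fin (n + 1)`, with values in `Λ`. -/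
def AW (n : ℕ) (Λ : Type u) [CommRing Λ] : Type u := AWs n Λ

namespace AW

variable {n : ℕ} {Λ : Type u} [CommRing Λ]

instance : AddCommGroup (AW n Λ) := Submodule.addCommGroup (AWs n Λ)

instance {R : Type*} [CommRing R] [Algebra R Λ] : Module R (AW n Λ) :=
  Submodule.module' (AWs n Λ)

/-- The value at a face. -/
def at' (a : AW n Λ) (K : Finset (Fin (n + 1))) : Λ := a.1 K

/-- A cochain from its values. -/
def mk (f : Finset (Fin (n + 1)) → Λ) (h : f ∅ = 0) : AW n Λ := ⟨f, h⟩

@[simp] theorem at_mk (f : Finset (Fin (n + 1)) → Λ) (h : f ∅ = 0) (K : Finset (Fin (n + 1))) :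
    (mk f h).at' K = f K := rfl

@[simp] theorem at_empty (a : AW n Λ) : a.at' ∅ = 0 := a.2

@[ext] theorem ext {a b : AW n Λ} (h : ∀ K, a.at' K = b.at' K) : a = b :=
  Subtype.ext (funext h)

@[simp] theorem at_add (a b : AW n Λ) (K) : (a + b).at' K = a.at' K + b.at' K := rfl

@[simp] theorem at_sub (a b : AW n Λ) (K) : (a - b).at' K = a.at' K - b.at' K := rfl

@[simp] theorem at_neg (a : AW n Λ) (K) : (-a).at' K = -a.at' K := rfl

@[simp] theorem at_zero (K) : (0 : AW n Λ).at' K = 0 := rfl

@[simp] theorem at_smul {R : Type*} [CommRing R] [Algebra R Λ] (c : R) (a : AW n Λ) (K) :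
    (c • a).at' K = c • a.at' K := rfl

instance {R R' : Type*} [CommRing R] [CommRing R'] [Algebra R Λ] [Algebra R' Λ] [Algebra R R']
    [IsScalarTower R R' Λ] : IsScalarTower R R' (AW n Λ) :=
  ⟨fun c c' a => by
    ext K
    simp only [at_smul, smul_assoc]⟩

/-- The value at a face, as a linear map. -/
def atL (K : Finset (Fin (n + 1))) : AW n Λ →ₗ[Λ] Λ where
  toFun a := a.at' K
  map_add' _ _ := rfl
  map_smul' _ _ := rfl

@[simp] theorem atL_apply (K) (a : AW n Λ) : atL K a = a.at' K := rfl

@[simp] theorem at_sum {ι : Type*} (s : Finset ι) (f : ι → AW n Λ) (K) :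
    (∑ i ∈ s, f i).at' K = ∑ i ∈ s, (f i).at' K := map_sum (atL K) f s

instance : Mul (AW n Λ) where
  mul a b := mk (fun K => ∑ v ∈ K, a.at' (K.filter (· ≤ v)) * b.at' (K.filter (v ≤ ·))) (by simp)

instance : One (AW n Λ) where
  one := mk (fun K => if K.card = 1 then 1 else 0) (by simp)

theorem at_mul (a b : AW n Λ) (K) :
    (a * b).at' K = ∑ v ∈ K, a.at' (K.filter (· ≤ v)) * b.at' (K.filter (v ≤ ·)) := rfl

theorem at_one (K) : (1 : AW n Λ).at' K = if K.card = 1 then 1 else 0 := rfl

private theorem assoc' (a b c : AW n Λ) : a * b * c = a * (b * c) := by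
  ext K
  rw [at_mul, at_mul]
  simp only [at_mul, Finset.sum_mul, Finset.mul_sum]
  rw [Finset.sum_comm' (t' := K) (s' := fun v => K.filter (v ≤ ·))]
  · refine Finset.sum_congr rfl fun v hv => Finset.sum_congr rfl fun w hw => ?_
    rw [Finset.mem_filter] at hw
    have h1 : (K.filter (· ≤ w)).filter (· ≤ v) = K.filter (· ≤ v) := by
      ext u
      simp only [Finset.mem_filter]
      exact ⟨fun h => ⟨h.1.1, h.2⟩, fun h => ⟨⟨h.1, h.2.trans hw.2⟩, h.2⟩⟩
    have h2 : (K.filter (v ≤ ·)).filter (w ≤ ·) = K.filter (w ≤ ·) := by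
      ext u
      simp only [Finset.mem_filter]
      exact ⟨fun h => ⟨h.1.1, h.2⟩, fun h => ⟨⟨h.1, hw.2.trans h.2⟩, h.2⟩⟩
    have h3 : (K.filter (· ≤ w)).filter (v ≤ ·) = (K.filter (v ≤ ·)).filter (· ≤ w) := by
      ext u
      simp only [Finset.mem_filter]
      tauto
    rw [h1, h2, h3, mul_assoc]
  · intro w v
    simp only [Finset.mem_filter]
    tauto

private theorem one_mul' (a : AW n Λ) : 1 * a = a := by
  ext K
  rw [at_mul]
  rcases K.eq_empty_or_nonempty with rfl | hK
  · simp
  · rw [Finset.sum_eq_single (K.min' hK)]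
    · have h1 : K.filter (· ≤ K.min' hK) = {K.min' hK} := by
        ext u
        rw [Finset.mem_filter, Finset.mem_singleton]
        exact ⟨fun h => le_antisymm h.2 (K.min'_le u h.1), fun h => by
          subst h; exact ⟨K.min'_mem hK, le_rfl⟩⟩
      have h2 : K.filter (K.min' hK ≤ ·) = K :=
        Finset.filter_true_of_mem fun u hu => K.min'_le u hu
      rw [h1, h2, at_one, Finset.card_singleton, if_pos rfl, one_mul]
    · intro v hv hne
      rw [at_one, if_neg, zero_mul]
      intro h
      obtain ⟨w, hw⟩ := Finset.card_eq_one.1 h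
      have h1 : v ∈ K.filter (· ≤ v) := Finset.mem_filter.2 ⟨hv, le_rfl⟩
      have h2 : K.min' hK ∈ K.filter (· ≤ v) :=
        Finset.mem_filter.2 ⟨K.min'_mem hK, K.min'_le v hv⟩
      rw [hw, Finset.mem_singleton] at h1 h2
      exact hne (h1.trans h2.symm)
    · intro h
      exact absurd (K.min'_mem hK) h

private theorem mul_one' (a : AW n Λ) : a * 1 = a := by
  ext K
  rw [at_mul]
  rcases K.eq_empty_or_nonempty with rfl | hK
  · simp
  · rw [Finset.sum_eq_single (K.max' hK)]
    · have h1 : K.filter (K.max' hK ≤ ·) = {K.max' hK} := by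
        ext u
        rw [Finset.mem_filter, Finset.mem_singleton]
        exact ⟨fun h => le_antisymm (K.le_max' u h.1) h.2, fun h => by
          subst h; exact ⟨K.max'_mem hK, le_rfl⟩⟩
      have h2 : K.filter (· ≤ K.max' hK) = K :=
        Finset.filter_true_of_mem fun u hu => K.le_max' u hu
      rw [h1, h2, at_one, Finset.card_singleton, if_pos rfl, mul_one]
    · intro v hv hne
      rw [at_one, if_neg, mul_zero]
      intro h
      obtain ⟨w, hw⟩ := Finset.card_eq_one.1 h
      have h1 : v ∈ K.filter (v ≤ ·) := Finset.mem_filter.2 ⟨hv, le_rfl⟩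
      have h2 : K.max' hK ∈ K.filter (v ≤ ·) :=
        Finset.mem_filter.2 ⟨K.max'_mem hK, K.le_max' v hv⟩
      rw [hw, Finset.mem_singleton] at h1 h2
      exact hne (h1.trans h2.symm)
    · intro h
      exact absurd (K.max'_mem hK) h

instance : Ring (AW n Λ) :=
  { (inferInstance : AddCommGroup (AW n Λ)), (inferInstance : Mul (AW n Λ)),
    (inferInstance : One (AW n Λ)) with
    left_distrib := fun a b c => by
      ext K
      rw [at_add, at_mul, at_mul, at_mul, ← Finset.sum_add_distrib]
      exact Finset.sum_congr rfl fun v _ => by rw [at_add, mul_add]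
    right_distrib := fun a b c => by
      ext K
      rw [at_add, at_mul, at_mul, at_mul, ← Finset.sum_add_distrib]
      exact Finset.sum_congr rfl fun v _ => by rw [at_add, add_mul]
    zero_mul := fun a => by
      ext K
      rw [at_mul, at_zero]
      exact Finset.sum_eq_zero fun v _ => by rw [at_zero, zero_mul]
    mul_zero := fun a => by
      ext K
      rw [at_mul, at_zero]
      exact Finset.sum_eq_zero fun v _ => by rw [at_zero, mul_zero]
    mul_assoc := assoc'
    one_mul := one_mul'
    mul_one := mul_one' }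

instance {R : Type*} [CommRing R] [Algebra R Λ] : Algebra R (AW n Λ) :=
  Algebra.ofModule
    (fun c a b => by
      ext K
      rw [at_mul, at_smul, at_mul, Finset.smul_sum]
      exact Finset.sum_congr rfl fun v _ => by rw [at_smul, smul_mul_assoc])
    (fun c a b => by
      ext K
      rw [at_mul, at_smul, at_mul, Finset.smul_sum]
      exact Finset.sum_congr rfl fun v _ => by rw [at_smul, mul_smul_comm])

/-- The position of a vertex in a face, as a sign. -/
def sg (K : Finset (Fin (n + 1))) (w : Fin (n + 1)) : ℤ := (-1) ^ (K.filter (· < w)).card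

/-- The differential. -/
def d : AW n Λ →ₗ[Λ] AW n Λ where
  toFun a := mk (fun K => ∑ w ∈ K, (sg K w : Λ) * a.at' (K.erase w)) (by simp)
  map_add' a b := by
    ext K
    simp only [at_mk, at_add, mul_add, Finset.sum_add_distrib]
  map_smul' c a := by
    ext K
    simp only [at_mk, at_smul, RingHom.id_apply, Finset.smul_sum, mul_smul_comm]

theorem at_d (a : AW n Λ) (K) : (d a).at' K = ∑ w ∈ K, (sg K w : Λ) * a.at' (K.erase w) := rfl

/-- The sign of the degree. -/
def par : AW n Λ →ₗ[Λ] AW n Λ where
  toFun a := mk (fun K => -(-1) ^ K.card * a.at' K) (by simp)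
  map_add' a b := by
    ext K
    simp only [at_mk, at_add, mul_add]
  map_smul' c a := by
    ext K
    simp only [at_mk, at_smul, RingHom.id_apply, mul_smul_comm]

theorem at_par (a : AW n Λ) (K) : (par a).at' K = -(-1) ^ K.card * a.at' K := rfl

end AW

end Pool.Agent.PHJ
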