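import Pool.Agent.PHJ.Alg

/-!
# The differential is a derivation

MODULE PHJ-AlgB. PLAN. `d_mul`: evaluate at `K`. Left side: the sum over `w ∈ K` and `v ∈ K \ {w}` of
`sg K w * (a ({u ∈ K \ w, u ≤ v}) * b ({u ∈ K \ w, v ≤ u}))`. In `d a * b` the terms with `w < v` (faces
`{u ∈ K, u ≤ v} \ {w}`) and in `par a * d b` the terms with `w > v` are the same as those on the
left (`sg K w = sg {u ∈ K, u ≤ v} w` for `w < v`; `sg K w = (-1)^(card {u ∈ K, u ≤ v} - 1) * sg {u ∈ K, v ≤ u} w`
for `v < w`, because the elements of `K` below `w` are those `≤ v` together with those `≥ v` below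
`w`, with `v` counted twice). The remaining terms are those with `w = v`:
`∑ v ∈ K, (-1)^card {u ∈ K, u < v} a {u ∈ K, u < v} * b {u ∈ K, v ≤ u}` and
`-∑ v ∈ K, (-1)^card {u ∈ K, u ≤ v} a {u ∈ K, u ≤ v} * b {u ∈ K, v < u}`. Their sum is zero: the term of
`v` in the second sum is the term of the successor of `v` in `K` in the first sum
(`Finset.sum_bij'` between `{v ∈ K, v is not the minimum}` and `{v ∈ K, v is not the maximum}` with the
maps `v ↦ max {u ∈ K, u < v}`, `v ↦ min {u ∈ K, v < u}`); for the minimum the first and for the maximum the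
second term is zero (`at_empty`).
`d_d`: `∑ w ∈ K, ∑ w' ∈ K \ w, sg K w * sg (K \ w) w' * a (K \ w \ w')`; the terms `(w, w')` and `(w', w)` have
opposite signs: for `w' < w`, `sg (K \ w) w' = sg K w'` and `sg (K \ w') w = -sg K w`
(`Finset.sum_involution` on the pairs, or a lemma `sg_erase`).
-/

noncomputable section

namespace Pool.Agent.PHJ

universe u v

namespace AW

variable {n : ℕ} {Λ : Type u} [CommRing Λ]

private theorem sg_erase_lt' {T : Finset (Fin (n + 1))} {t t' : Fin (n + 1)} (ht : t ∈ T)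
    (h : t < t') : sg (T.erase t) t' = -sg T t' := by
  unfold sg
  have h1 : (T.erase t).filter (· < t') = (T.filter (· < t')).erase t := by
    rw [Finset.filter_erase]
  have h2 : t ∈ T.filter (· < t') := Finset.mem_filter.2 ⟨ht, h⟩
  have h3 : 0 < (T.filter (· < t')).card := Finset.card_pos.2 ⟨t, h2⟩
  rw [h1, Finset.card_erase_of_mem h2]
  obtain ⟨m, hm⟩ : ∃ m, (T.filter (· < t')).card = m + 1 := ⟨_, (Nat.succ_pred_eq_of_pos h3).symm⟩
  rw [hm, Nat.add_sub_cancel, pow_succ]
  ring

private theorem sg_erase_ge' {T : Finset (Fin (n + 1))} {t t' : Fin (n + 1)}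
    (h : t' ≤ t) : sg (T.erase t) t' = sg T t' := by
  unfold sg
  have h1 : (T.erase t).filter (· < t') = T.filter (· < t') := by
    rw [Finset.filter_erase]
    apply Finset.erase_eq_of_notMem
    intro h2
    exact absurd (Finset.mem_filter.1 h2).2 (not_lt.2 h)
  rw [h1]

private theorem sg_anti' {T : Finset (Fin (n + 1))} {t t' : Fin (n + 1)} (ht : t ∈ T) (ht' : t' ∈ T)
    (h : t ≠ t') : sg T t * sg (T.erase t) t' = -(sg T t' * sg (T.erase t') t) := by
  rcases lt_or_gt_of_ne h with h1 | h1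
  · rw [sg_erase_lt' ht h1, sg_erase_ge' h1.le]
    ring
  · rw [sg_erase_lt' ht' h1, sg_erase_ge' h1.le]
    ring

private theorem double_zero' {M : Type*} [AddCommGroup M] (T : Finset (Fin (n + 1)))
    (G : Fin (n + 1) → Fin (n + 1) → M) (hG : ∀ t ∈ T, ∀ t' ∈ T, t ≠ t' → G t t' = -G t' t) :
    ∑ t ∈ T, ∑ t' ∈ T.erase t, G t t' = 0 := by
  classical
  have h1 : ∀ t ∈ T, ∑ t' ∈ T.erase t, G t t' = ∑ t' ∈ T, if t' ≠ t then G t t' else 0 := by
    intro t _
    rw [← Finset.sum_filter]
    refine Finset.sum_congr ?_ fun _ _ => rfl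
    ext x
    rw [Finset.mem_erase, Finset.mem_filter]
    tauto
  rw [Finset.sum_congr rfl h1, ← Finset.sum_product']
  refine Finset.sum_involution (fun p _ => (p.2, p.1)) ?_ ?_ ?_ ?_
  · rintro ⟨a, b⟩ hab
    rw [Finset.mem_product] at hab
    by_cases h : b = a
    · simp [h]
    · have h' : a ≠ b := fun h2 => h h2.symm
      simp only [ne_eq, h, not_false_eq_true, if_true, h']
      rw [hG a hab.1 b hab.2 h']
      abel
  · rintro ⟨a, b⟩ hab hne h
    apply hne
    have : b = a := congrArg Prod.fst h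
    simp [this]
  · rintro ⟨a, b⟩ hab
    rw [Finset.mem_product] at hab ⊢
    exact ⟨hab.2, hab.1⟩
  · rintro ⟨a, b⟩ hab
    rfl

private theorem tele {M : Type*} [AddCommGroup M] (g : Finset (Fin (n + 1)) → M)
    (K : Finset (Fin (n + 1))) :
    ∑ v ∈ K, (g (K.filter (· < v)) - g (K.filter (· ≤ v))) = g ∅ - g K := by
  classical
  induction K using Finset.induction_on_max with
  | empty => simp
  | insert m S hm ih =>
    have hmS : m ∉ S := fun h => lt_irrefl _ (hm m h)
    rw [Finset.sum_insert hmS]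
    have h1 : (insert m S).filter (· < m) = S := by
      ext x
      rw [Finset.mem_filter, Finset.mem_insert]
      constructor
      · rintro ⟨h | h, h2⟩
        · exact absurd h2 (by rw [h]; exact lt_irrefl _)
        · exact h
      · intro h
        exact ⟨Or.inr h, hm x h⟩
    have h2 : (insert m S).filter (· ≤ m) = insert m S := by
      apply Finset.filter_true_of_mem
      intro x hx
      rcases Finset.mem_insert.1 hx with h | h
      · exact h.le
      · exact (hm x h).le
    have h3 : ∀ v ∈ S, g ((insert m S).filter (· < v)) - g ((insert m S).filter (· ≤ v)) =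
        g (S.filter (· < v)) - g (S.filter (· ≤ v)) := by
      intro v hv
      have e1 : (insert m S).filter (· < v) = S.filter (· < v) := by
        rw [Finset.filter_insert, if_neg (not_lt.2 (hm v hv).le)]
      have e2 : (insert m S).filter (· ≤ v) = S.filter (· ≤ v) := by
        rw [Finset.filter_insert, if_neg (not_le.2 (hm v hv))]
      rw [e1, e2]
    rw [h1, h2, Finset.sum_congr rfl h3, ih]
    abel

private theorem erase_le_lt {K : Finset (Fin (n + 1))} {w v : Fin (n + 1)} :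
    (K.erase w).filter (· ≤ v) = (K.filter (· ≤ v)).erase w := by
  rw [Finset.filter_erase]

private theorem erase_ge_lt {K : Finset (Fin (n + 1))} {w v : Fin (n + 1)} (h : w < v) :
    (K.erase w).filter (v ≤ ·) = K.filter (v ≤ ·) := by
  rw [Finset.filter_erase]
  apply Finset.erase_eq_of_notMem
  intro h2
  exact absurd (Finset.mem_filter.1 h2).2 (not_le.2 h)

private theorem erase_le_gt {K : Finset (Fin (n + 1))} {w v : Fin (n + 1)} (h : v < w) :
    (K.erase w).filter (· ≤ v) = K.filter (· ≤ v) := by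
  rw [Finset.filter_erase]
  apply Finset.erase_eq_of_notMem
  intro h2
  exact absurd (Finset.mem_filter.1 h2).2 (not_le.2 h)

private theorem erase_ge_gt {K : Finset (Fin (n + 1))} {w v : Fin (n + 1)} :
    (K.erase w).filter (v ≤ ·) = (K.filter (v ≤ ·)).erase w := by
  rw [Finset.filter_erase]

private theorem sg_le {K : Finset (Fin (n + 1))} {w v : Fin (n + 1)} (h : w ≤ v) :
    sg (K.filter (· ≤ v)) w = sg K w := by
  unfold sg
  congr 2
  ext x
  simp only [Finset.mem_filter]
  constructor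
  · rintro ⟨⟨h1, _⟩, h3⟩
    exact ⟨h1, h3⟩
  · rintro ⟨h1, h3⟩
    exact ⟨⟨h1, (h3.trans_le h).le⟩, h3⟩

private theorem sg_ge {K : Finset (Fin (n + 1))} {w v : Fin (n + 1)} (hv : v ∈ K) (h : v < w) :
    sg K w = -(-1) ^ (K.filter (· ≤ v)).card * sg (K.filter (v ≤ ·)) w := by
  classical
  unfold sg
  have h1 : (K.filter (· < w)).card + 1 =
      (K.filter (· ≤ v)).card + ((K.filter (v ≤ ·)).filter (· < w)).card := by
    rw [← Finset.card_union_add_card_inter]
    have e1 : K.filter (· ≤ v) ∪ (K.filter (v ≤ ·)).filter (· < w) = K.filter (· < w) := by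
      ext x
      simp only [Finset.mem_union, Finset.mem_filter]
      constructor
      · rintro (⟨h1, h2⟩ | ⟨⟨h1, _⟩, h3⟩)
        · exact ⟨h1, h2.trans_lt h⟩
        · exact ⟨h1, h3⟩
      · rintro ⟨h1, h2⟩
        rcases le_total x v with h3 | h3
        · exact Or.inl ⟨h1, h3⟩
        · exact Or.inr ⟨⟨h1, h3⟩, h2⟩
    have e2 : K.filter (· ≤ v) ∩ (K.filter (v ≤ ·)).filter (· < w) = {v} := by
      ext x
      simp only [Finset.mem_inter, Finset.mem_filter, Finset.mem_singleton]
      constructor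
      · rintro ⟨⟨_, h2⟩, ⟨_, h3⟩, _⟩
        exact le_antisymm h2 h3
      · rintro rfl
        exact ⟨⟨hv, le_rfl⟩, ⟨hv, le_rfl⟩, h⟩
    rw [e1, e2, Finset.card_singleton]
  have h2 : (-1 : ℤ) ^ ((K.filter (· < w)).card + 1) =
      (-1) ^ ((K.filter (· ≤ v)).card + ((K.filter (v ≤ ·)).filter (· < w)).card) := by rw [h1]
  rw [pow_succ, pow_add] at h2
  linarith

private theorem filter_ge_sdiff (K : Finset (Fin (n + 1))) (v : Fin (n + 1)) :
    K.filter (v ≤ ·) = K \ K.filter (· < v) := by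
  ext x
  simp only [Finset.mem_filter, Finset.mem_sdiff]
  constructor
  · rintro ⟨h1, h2⟩
    exact ⟨h1, fun h => absurd h.2 (not_lt.2 h2)⟩
  · rintro ⟨h1, h2⟩
    exact ⟨h1, not_lt.1 fun h => h2 ⟨h1, h⟩⟩

private theorem filter_gt_sdiff (K : Finset (Fin (n + 1))) (v : Fin (n + 1)) :
    (K.filter (v ≤ ·)).erase v = K \ K.filter (· ≤ v) := by
  ext x
  simp only [Finset.mem_filter, Finset.mem_sdiff, Finset.mem_erase]
  constructor
  · rintro ⟨h0, h1, h2⟩
    exact ⟨h1, fun h => h0 (le_antisymm h.2 h2)⟩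
  · rintro ⟨h1, h2⟩
    have h3 : v < x := not_le.1 fun h => h2 ⟨h1, h⟩
    exact ⟨h3.ne', h1, h3.le⟩

private theorem filter_le_erase (K : Finset (Fin (n + 1))) (v : Fin (n + 1)) :
    (K.filter (· ≤ v)).erase v = K.filter (· < v) := by
  ext x
  simp only [Finset.mem_filter, Finset.mem_erase]
  constructor
  · rintro ⟨h0, h1, h2⟩
    exact ⟨h1, lt_of_le_of_ne h2 h0⟩
  · rintro ⟨h1, h2⟩
    exact ⟨h2.ne, h1, h2.le⟩

private theorem diag_zero (a b : AW n Λ) (K : Finset (Fin (n + 1))) :
    ∑ v ∈ K, ((sg (K.filter (· ≤ v)) v : Λ) * a.at' ((K.filter (· ≤ v)).erase v) *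
        b.at' (K.filter (v ≤ ·)) + -(-1) ^ (K.filter (· ≤ v)).card * a.at' (K.filter (· ≤ v)) *
        ((sg (K.filter (v ≤ ·)) v : Λ) * b.at' ((K.filter (v ≤ ·)).erase v))) = 0 := by
  have h := tele (fun S => ((-1 : Λ) ^ S.card) * (a.at' S * b.at' (K \ S))) K
  have e0 : ((-1 : Λ) ^ (∅ : Finset (Fin (n + 1))).card) * (a.at' ∅ * b.at' (K \ ∅)) -
      ((-1 : Λ) ^ K.card) * (a.at' K * b.at' (K \ K)) = 0 := by
    rw [at_empty, Finset.sdiff_self, at_empty]
    ring
  rw [e0] at h
  rw [← h]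
  refine Finset.sum_congr rfl fun v hv => ?_
  have s1 : sg (K.filter (· ≤ v)) v = (-1) ^ (K.filter (· < v)).card := by
    rw [sg_le le_rfl]
    rfl
  have s2 : sg (K.filter (v ≤ ·)) v = 1 := by
    unfold sg
    have : (K.filter (v ≤ ·)).filter (· < v) = ∅ := by
      ext x
      simp only [Finset.mem_filter, Finset.notMem_empty, iff_false]
      rintro ⟨⟨_, h2⟩, h3⟩
      exact absurd h3 (not_lt.2 h2)
    rw [this]
    rfl
  rw [s1, s2, filter_le_erase, filter_gt_sdiff, filter_ge_sdiff]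
  push_cast
  ring

theorem d_mul (a b : AW n Λ) : d (a * b) = d a * b + par a * d b := by
  classical
  ext K
  rw [at_d, at_add, at_mul, at_mul]
  simp only [at_mul, at_d, at_par, Finset.mul_sum, Finset.sum_mul]
  set F : Fin (n + 1) → Fin (n + 1) → Λ := fun w v =>
    (sg K w : Λ) * (a.at' ((K.erase w).filter (· ≤ v)) * b.at' ((K.erase w).filter (v ≤ ·)))
    with hF
  have h1 : ∑ w ∈ K, ∑ v ∈ K.erase w, F w v = ∑ v ∈ K, ∑ w ∈ K.erase v, F w v := by
    rw [Finset.sum_comm']
    intro x y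
    simp only [Finset.mem_erase]
    constructor
    · rintro ⟨h1, h2, h3⟩
      exact ⟨⟨fun h => h2 h.symm, h1⟩, h3⟩
    · rintro ⟨⟨h1, h2⟩, h3⟩
      exact ⟨h2, fun h => h1 h.symm, h3⟩
  have h2 : ∀ v ∈ K, ∑ w ∈ K.erase v, F w v =
      ∑ w ∈ K.filter (· < v), F w v + ∑ w ∈ K.filter (v < ·), F w v := by
    intro v _
    rw [← Finset.sum_union]
    · refine Finset.sum_congr ?_ fun _ _ => rfl
      ext x
      simp only [Finset.mem_erase, Finset.mem_union, Finset.mem_filter]
      constructor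
      · rintro ⟨h1, h2⟩
        rcases lt_or_gt_of_ne h1 with h | h
        · exact Or.inl ⟨h2, h⟩
        · exact Or.inr ⟨h2, h⟩
      · rintro (⟨h1, h2⟩ | ⟨h1, h2⟩)
        · exact ⟨h2.ne, h1⟩
        · exact ⟨h2.ne', h1⟩
    · rw [Finset.disjoint_left]
      intro x hx hx'
      exact lt_asymm (Finset.mem_filter.1 hx).2 (Finset.mem_filter.1 hx').2
  have h3 : ∀ v ∈ K, ∑ w ∈ K.filter (· ≤ v), (sg (K.filter (· ≤ v)) w : Λ) *
      a.at' ((K.filter (· ≤ v)).erase w) * b.at' (K.filter (v ≤ ·)) =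
      (sg (K.filter (· ≤ v)) v : Λ) * a.at' ((K.filter (· ≤ v)).erase v) *
        b.at' (K.filter (v ≤ ·)) + ∑ w ∈ K.filter (· < v), F w v := by
    intro v hv
    have hv' : v ∈ K.filter (· ≤ v) := Finset.mem_filter.2 ⟨hv, le_rfl⟩
    rw [← Finset.add_sum_erase _ _ hv', filter_le_erase]
    congr 1
    refine Finset.sum_congr rfl fun w hw => ?_
    have hwv : w < v := (Finset.mem_filter.1 hw).2
    rw [hF]
    simp only
    rw [erase_le_lt, erase_ge_lt hwv, sg_le hwv.le, mul_assoc]
  have h4 : ∀ v ∈ K, ∑ w ∈ K.filter (v ≤ ·), -(-1) ^ (K.filter (· ≤ v)).card *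
      a.at' (K.filter (· ≤ v)) * ((sg (K.filter (v ≤ ·)) w : Λ) *
        b.at' ((K.filter (v ≤ ·)).erase w)) =
      -(-1) ^ (K.filter (· ≤ v)).card * a.at' (K.filter (· ≤ v)) *
        ((sg (K.filter (v ≤ ·)) v : Λ) * b.at' ((K.filter (v ≤ ·)).erase v)) +
      ∑ w ∈ K.filter (v < ·), F w v := by
    intro v hv
    have hv' : v ∈ K.filter (v ≤ ·) := Finset.mem_filter.2 ⟨hv, le_rfl⟩
    rw [← Finset.add_sum_erase _ _ hv']
    congr 1
    have e1 : (K.filter (v ≤ ·)).erase v = K.filter (v < ·) := by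
      ext x
      simp only [Finset.mem_filter, Finset.mem_erase]
      constructor
      · rintro ⟨h0, h1, h2⟩
        exact ⟨h1, lt_of_le_of_ne h2 fun h => h0 h.symm⟩
      · rintro ⟨h1, h2⟩
        exact ⟨h2.ne', h1, h2.le⟩
    rw [e1]
    refine Finset.sum_congr rfl fun w hw => ?_
    have hwv : v < w := (Finset.mem_filter.1 hw).2
    rw [hF]
    simp only
    rw [erase_le_gt hwv, erase_ge_gt, sg_ge hv hwv]
    push_cast
    ring
  have h5 : ∑ w ∈ K, ∑ v ∈ K.erase w, (sg K w : Λ) *
      (a.at' ((K.erase w).filter (· ≤ v)) * b.at' ((K.erase w).filter (v ≤ ·))) =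
      ∑ w ∈ K, ∑ v ∈ K.erase w, F w v := rfl
  rw [h5, h1, Finset.sum_congr rfl h2, Finset.sum_congr rfl h3, Finset.sum_congr rfl h4]
  have h6 := diag_zero a b K
  rw [Finset.sum_add_distrib] at h6
  rw [Finset.sum_add_distrib, Finset.sum_add_distrib, Finset.sum_add_distrib]
  linear_combination -h6

theorem d_d (a : AW n Λ) : d (d a) = 0 := by
  classical
  ext K
  rw [at_d, at_zero]
  simp only [at_d, Finset.mul_sum]
  refine double_zero' K (fun w w' => (sg K w : Λ) * ((sg (K.erase w) w' : Λ) *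
    a.at' ((K.erase w).erase w'))) ?_
  intro t ht t' ht' hne
  have h2 : (K.erase t).erase t' = (K.erase t').erase t := Finset.erase_right_comm
  have h3 : (sg K t : Λ) * (sg (K.erase t) t' : Λ) =
      -((sg K t' : Λ) * (sg (K.erase t') t : Λ)) := by
    rw [← Int.cast_mul, ← Int.cast_mul, ← Int.cast_neg, sg_anti' ht ht' hne]
  rw [h2]
  linear_combination (a.at' ((K.erase t').erase t)) * h3

theorem d_par (a : AW n Λ) : d (par a) = -par (d a) := by
  ext K
  rw [at_d, at_neg, at_par, at_d, Finset.mul_sum, ← Finset.sum_neg_distrib]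
  refine Finset.sum_congr rfl fun w hw => ?_
  rw [at_par, Finset.card_erase_of_mem hw]
  have h1 : 0 < K.card := Finset.card_pos.2 ⟨w, hw⟩
  obtain ⟨m, hm⟩ : ∃ m, K.card = m + 1 := ⟨_, (Nat.succ_pred_eq_of_pos h1).symm⟩
  rw [hm, Nat.add_sub_cancel, pow_succ]
  ring

theorem par_mul (a b : AW n Λ) : par (a * b) = par a * par b := by
  classical
  ext K
  rw [at_par, at_mul, at_mul, Finset.mul_sum]
  refine Finset.sum_congr rfl fun v hv => ?_
  rw [at_par, at_par]
  have h1 : K.card + 1 = (K.filter (· ≤ v)).card + (K.filter (v ≤ ·)).card := by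
    rw [← Finset.card_union_add_card_inter]
    have e1 : K.filter (· ≤ v) ∪ K.filter (v ≤ ·) = K := by
      ext x
      simp only [Finset.mem_union, Finset.mem_filter]
      constructor
      · rintro (⟨h1, _⟩ | ⟨h1, _⟩) <;> exact h1
      · intro h1
        rcases le_total x v with h3 | h3
        · exact Or.inl ⟨h1, h3⟩
        · exact Or.inr ⟨h1, h3⟩
    have e2 : K.filter (· ≤ v) ∩ K.filter (v ≤ ·) = {v} := by
      ext x
      simp only [Finset.mem_inter, Finset.mem_filter, Finset.mem_singleton]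
      constructor
      · rintro ⟨⟨_, h2⟩, _, h3⟩
        exact le_antisymm h2 h3
      · rintro rfl
        exact ⟨⟨hv, le_rfl⟩, hv, le_rfl⟩
    rw [e1, e2, Finset.card_singleton]
  have h2 : (-1 : Λ) ^ (K.card + 1) =
      (-1) ^ ((K.filter (· ≤ v)).card + (K.filter (v ≤ ·)).card) := by rw [h1]
  rw [pow_succ, pow_add] at h2
  linear_combination (a.at' (K.filter (· ≤ v)) * b.at' (K.filter (v ≤ ·))) * h2

theorem par_par (a : AW n Λ) : par (par a) = a := by
  ext K
  rw [at_par, at_par]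
  have h2 : ((-1 : Λ) ^ K.card * (-1) ^ K.card) = 1 := by
    rw [← mul_pow]
    simp
  linear_combination (a.at' K) * h2

theorem par_one : par (1 : AW n Λ) = 1 := by
  ext K
  rw [at_par, at_one]
  by_cases h : K.card = 1
  · rw [if_pos h, h]
    ring
  · rw [if_neg h, mul_zero]

theorem d_one : d (1 : AW n Λ) = 0 := by
  have h := d_mul (1 : AW n Λ) 1
  rw [par_one, one_mul, mul_one, one_mul] at h
  have h2 : d (1 : AW n Λ) + 0 = d (1 : AW n Λ) + d 1 := by rw [add_zero, ← h]
  exact (add_left_cancel h2).symm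

end AW

end Pool.Agent.PHJ
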