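import Pool.Agent.PHJ.Cone

/-! # Exactness of the cone -/

noncomputable section

namespace Pool.Agent.PHJ

universe u v

open AW

variable {n : ℕ} {k : Type u} [CommRing k] {E F : Obj n k}

/-- The action of a matrix on the modules. -/
def push (f : E.I → F.I → Coc n k) (m : MM E) : MM F := fun l => ∑ i, m i * f i l

theorem push_gr {f : E.I → F.I → Coc n k} (hf : f ∈ Hm E F 0 0) {p t : ℤ} {m : MM E}
    (hm : m ∈ gr E p t) : push f m ∈ gr F p t := by
  intro l
  refine reg_sum _ fun i _ => ?_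
  have h1 := reg_mul (hm i) (hf i l)
  have h2 : p - E.s i + (0 + E.s i - F.s l) = p - F.s l := by ring
  have h3 : t + E.e i + (F.e l - E.e i + 0) = t + F.e l := by ring
  rw [h2, h3] at h1
  exact h1

theorem push_DD {f : E.I → F.I → Coc n k} (hf : f ∈ Cl E F 0 0) (m : MM E) :
    push f (DD E m) = DD F (push f m) := by
  have hc := (dif_zero_iff f).1 hf.2
  funext l
  change ∑ i, (d (m i) + ∑ j, par (m j) * E.δ j i) * f i l =
    d (∑ i, m i * f i l) + ∑ j, par (∑ i, m i * f i j) * F.δ j l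
  have h1 : d (∑ i, m i * f i l) = ∑ i, d (m i) * f i l + ∑ i, par (m i) * d (f i l) := by
    rw [map_sum, ← Finset.sum_add_distrib]
    exact Finset.sum_congr rfl fun i _ => d_mul _ _
  have h2 : ∑ j, par (∑ i, m i * f i j) * F.δ j l = ∑ i, par (m i) * ∑ j, par (f i j) * F.δ j l := by
    have h3 : ∀ j, par (∑ i, m i * f i j) * F.δ j l = ∑ i, par (m i) * (par (f i j) * F.δ j l) := by
      intro j
      rw [map_sum, Finset.sum_mul]
      refine Finset.sum_congr rfl fun i _ => ?_
      rw [par_mul, mul_assoc]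
    rw [Finset.sum_congr rfl fun j _ => h3 j, Finset.sum_comm]
    exact Finset.sum_congr rfl fun i _ => (Finset.mul_sum _ _ _).symm
  have h4 : ∑ i, (d (m i) + ∑ j, par (m j) * E.δ j i) * f i l =
      ∑ i, d (m i) * f i l + ∑ i, par (m i) * ∑ j, E.δ i j * f j l := by
    have h5 : ∀ i, (d (m i) + ∑ j, par (m j) * E.δ j i) * f i l =
        d (m i) * f i l + ∑ j, par (m j) * (E.δ j i * f i l) := by
      intro i
      rw [add_mul, Finset.sum_mul]
      congr 1
      exact Finset.sum_congr rfl fun j _ => mul_assoc _ _ _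
    rw [Finset.sum_congr rfl fun i _ => h5 i, Finset.sum_add_distrib]
    congr 1
    rw [Finset.sum_comm]
    exact Finset.sum_congr rfl fun i _ => (Finset.mul_sum _ _ _).symm
  have h6 : ∑ i, par (m i) * ∑ j, E.δ i j * f j l =
      ∑ i, par (m i) * d (f i l) + ∑ i, par (m i) * ∑ j, par (f i j) * F.δ j l := by
    rw [← Finset.sum_add_distrib]
    refine Finset.sum_congr rfl fun i _ => ?_
    rw [← mul_add, hc i l]
  rw [h4, h1, h2, h6, add_assoc]

private theorem conex_sub (f : E.I → F.I → Coc n k) (c y : MM E) : push f (c - y) = push f c - push f y := by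
  funext l
  change ∑ i, (c i - y i) * f i l = ∑ i, c i * f i l - ∑ i, y i * f i l
  rw [← Finset.sum_sub_distrib]
  exact Finset.sum_congr rfl fun i _ => sub_mul _ _ _

private theorem conex_DD {f : E.I → F.I → Coc n k} (hf : f ∈ Cl E F 0 0) (x : MM E) (w : MM F) :
    (∀ i : E.I, DD (cone f hf) (Sum.elim (fun i => par (x i)) w : E.I ⊕ F.I → Coc n k) (Sum.inl i) =
      -par (DD E x i)) ∧
    ∀ l : F.I, DD (cone f hf) (Sum.elim (fun i => par (x i)) w : E.I ⊕ F.I → Coc n k) (Sum.inr l) =
      DD F w l + push f x l := by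
  constructor
  · intro i
    change d (par (x i)) + ∑ j : E.I ⊕ F.I, par ((Sum.elim (fun i => par (x i)) w : E.I ⊕ F.I → Coc n k) j) *
      coneδ f j (Sum.inl i) = -par (d (x i) + ∑ j, par (x j) * E.δ j i)
    rw [Fintype.sum_sum_type]
    change d (par (x i)) + (∑ j, par (par (x j)) * -par (E.δ j i) + ∑ j, par (w j) * 0) = _
    simp only [mul_zero, Finset.sum_const_zero, add_zero]
    rw [d_par, map_add, neg_add, map_sum, ← Finset.sum_neg_distrib]
    congr 1
    refine Finset.sum_congr rfl fun j _ => ?_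
    rw [par_mul, mul_neg]
  · intro l
    change d (w l) + ∑ j : E.I ⊕ F.I, par ((Sum.elim (fun i => par (x i)) w : E.I ⊕ F.I → Coc n k) j) *
      coneδ f j (Sum.inr l) = d (w l) + ∑ j, par (w j) * F.δ j l + ∑ i, x i * f i l
    rw [Fintype.sum_sum_type]
    change d (w l) + (∑ j, par (par (x j)) * f j l + ∑ j, par (w j) * F.δ j l) = _
    have h1 : ∑ j, par (par (x j)) * f j l = ∑ i, x i * f i l :=
      Finset.sum_congr rfl fun j _ => by rw [par_par]
    rw [h1]
    abel

theorem exactAt_cone {f : E.I → F.I → Coc n k} (hf : f ∈ Cl E F 0 0) (t : ℤ)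
    (hinj : ∀ p, ∀ y ∈ gr E p t, DD E y = 0 → (∃ w ∈ gr F (p - 1) t, DD F w = push f y) →
      ∃ y' ∈ gr E (p - 1) t, DD E y' = y)
    (hsurj : ∀ p, ∀ z ∈ gr F p t, DD F z = 0 → ∃ c ∈ gr E p t, DD E c = 0 ∧
      ∃ w ∈ gr F (p - 1) t, z - push f c = DD F w) : ExactAt (cone f hf) t := by
  intro p z hz hDz
  obtain ⟨y, hy⟩ : ∃ y : MM E, y = fun i => par (z (Sum.inl i)) := ⟨_, rfl⟩
  obtain ⟨v, hv⟩ : ∃ v : MM F, v = fun l => z (Sum.inr l) := ⟨_, rfl⟩
  have hzz : z = (Sum.elim (fun i => par (y i)) v : E.I ⊕ F.I → Coc n k) := by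
    funext q
    rcases q with i | l
    · change z (Sum.inl i) = par (y i)
      rw [hy, par_par]
    · change z (Sum.inr l) = v l
      rw [hv]
  have hyg : y ∈ gr E (p + 1) t := by
    intro i
    rw [hy]
    have h1 := reg_par (hz (Sum.inl i))
    change par (z (Sum.inl i)) ∈ reg n k (p - (E.s i - 1)) (t + E.e i) at h1
    have h2 : p - (E.s i - 1) = p + 1 - E.s i := by ring
    rw [h2] at h1
    exact h1
  have hvg : v ∈ gr F p t := by
    intro l
    rw [hv]
    exact hz (Sum.inr l)
  obtain ⟨hD1, hD2⟩ := conex_DD hf y v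
  rw [← hzz, hDz] at hD1 hD2
  have hDy : DD E y = 0 := by
    funext i
    have h1 : (0 : Coc n k) = -par (DD E y i) := hD1 i
    have h2 : par (DD E y i) = 0 := by
      rw [← neg_eq_zero, ← h1]
    have h3 := congrArg par h2
    rw [par_par, map_zero] at h3
    exact h3
  have hDv : DD F (-v) = push f y := by
    funext l
    have h1 : (0 : Coc n k) = DD F v l + push f y l := hD2 l
    rw [map_neg, Pi.neg_apply]
    exact neg_eq_of_add_eq_zero_right h1.symm
  obtain ⟨y', hy', hDy'⟩ := hinj (p + 1) y hyg hDy ⟨-v, by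
    rw [add_sub_cancel_right]
    exact (gr F p t).neg_mem hvg, hDv⟩
  rw [add_sub_cancel_right] at hy'
  have hDv' : DD F v = -push f y := by
    rw [← hDv, map_neg, neg_neg]
  obtain ⟨c, hc, hDc, w, hw, hDw⟩ := hsurj p (v + push f y') ((gr F p t).add_mem hvg (push_gr hf.1 hy')) (by
    rw [map_add, ← push_DD hf, hDy', hDv', neg_add_cancel])
  refine ⟨(Sum.elim (fun i => par ((c - y') i)) w : E.I ⊕ F.I → Coc n k), ?_, ?_⟩
  · rintro (i | l)
    · change par (c i - y' i) ∈ reg n k (p - 1 - (E.s i - 1)) (t + E.e i)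
      have h2 : p - 1 - (E.s i - 1) = p - E.s i := by ring
      rw [h2]
      exact reg_par (reg_sub (hc i) (hy' i))
    · exact hw l
  · obtain ⟨h1, h2⟩ := conex_DD hf (c - y') w
    rw [hzz]
    funext q
    rcases q with i | l
    · refine (h1 i).trans ?_
      change -par (DD E (c - y') i) = par (y i)
      rw [map_sub, hDc, hDy', zero_sub, Pi.neg_apply, map_neg, neg_neg]
    · refine (h2 l).trans ?_
      change DD F w l + push f (c - y') l = v l
      rw [← hDw, conex_sub]
      simp only [Pi.add_apply, Pi.sub_apply]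
      abel

end Pool.Agent.PHJ
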