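import Mathlib

/-!
# The number of homogeneous polynomials

MODULE PHJ-LHs. PLAN. `MvPolynomial.homogeneousSubmodule_eq_finsupp_supported`: the homogeneous polynomials of degree
`j` are the functions supported on the exponents of degree `j`; the number of exponents
`Fin (n + 1) →₀ ℕ` of degree `j` is `choose (j + n) n` (`Finset.card_finsuppAntidiag`, `Sym.card_sym_eq_choose`,
or stars and bars by induction; only `≤` is needed).
-/

noncomputable section

namespace Pool.Agent.PHJ

universe u v

open MvPolynomial

theorem finrank_homogeneous (n j : ℕ) (k : Type u) [Field k] :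
    FiniteDimensional k (homogeneousSubmodule (Fin (n + 1)) k j) ∧
      Module.finrank k (homogeneousSubmodule (Fin (n + 1)) k j) ≤ (j + n).choose n := by
  classical
  have hfg : FiniteDimensional k (homogeneousSubmodule (Fin (n + 1)) k j) :=
    Module.Finite.iff_fg.2 (homogeneousSubmodule_fg (Fin (n + 1)) k j)
  refine ⟨hfg, ?_⟩
  set A : Finset (Fin (n + 1) →₀ ℕ) := (Finset.univ : Finset (Fin (n + 1))).finsuppAntidiag j
    with hA
  set B : Finset (MvPolynomial (Fin (n + 1)) k) := A.image fun d => monomial d (1 : k) with hB
  have hle : homogeneousSubmodule (Fin (n + 1)) k j ≤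
      Submodule.span k (B : Set (MvPolynomial (Fin (n + 1)) k)) := by
    intro p hp
    rw [mem_homogeneousSubmodule] at hp
    rw [p.as_sum]
    refine Submodule.sum_mem _ fun d hd => ?_
    have h1 : monomial d (coeff d p) = coeff d p • monomial d (1 : k) := by
      rw [smul_monomial, smul_eq_mul, mul_one]
    rw [h1]
    refine Submodule.smul_mem _ _ (Submodule.subset_span ?_)
    rw [hB, Finset.coe_image]
    refine ⟨d, ?_, rfl⟩
    rw [Finset.mem_coe, hA, Finset.mem_finsuppAntidiag]
    refine ⟨?_, Finset.subset_univ _⟩
    have h2 := hp (mem_support_iff.1 hd)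
    rw [Finsupp.weight_apply] at h2
    rw [← h2, Finsupp.sum_fintype _ _ (fun _ => by simp)]
    simp
  have hcard : B.card ≤ (j + n).choose n := by
    refine Finset.card_image_le.trans (le_of_eq ?_)
    rw [hA, Finset.card_finsuppAntidiag_nat_eq_choose, Finset.card_univ, Fintype.card_fin]
    have h3 : n + 1 + j - 1 = j + n := by omega
    rw [h3, Nat.choose_symm_add]
  have : FiniteDimensional k (Submodule.span k (B : Set (MvPolynomial (Fin (n + 1)) k))) :=
    FiniteDimensional.span_of_finite k B.finite_toSet
  exact (Submodule.finrank_mono hle).trans ((finrank_span_finset_le_card B).trans hcard)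

end Pool.Agent.PHJ
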