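import Pool.Agent.PHJ.LGen
import Pool.Agent.PHJ.LHs

/-!
# Freeness in large degrees

MODULE PHJ-LAsm. PLAN. `F₁ = {l | NG l l ≠ ⊥}` (`fin_pos`), `F₂ = {l | NG (l - n - 1) l ≠ ⊥}` (`fin_neg`). Index set: pairs of
`l ∈ F₁` and a basis index of `NG l l` (`Fin (finrank)`), renumbered by `Fin r`; `lam` = `l`, `b` = the basis vector.
`d₀` = a bound for all elements of `F₁` and `F₂`. For `d ≥ d₀` and `c ∈ F d` (`exists_pr`), `NG d c ≠ ⊥`: by
`int_of_NG`, `c = l ∈ ℤ` and `finrank (NG d l) ≠ 0` gives (by `finrank_NG`) `d ≥ l` and `NG l l ≠ ⊥`, or `d ≤ l - n - 1` and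
`NG (l - n - 1) l ≠ ⊥`; the second is impossible for `d ≥ d₀`. Existence of `g`: `y = ∑ l ∈ F₁, pr d l y` (terms not in
`F d` are zero) and `gen_all` with `j = d - l`. Uniqueness: the map
`(g_a) ↦ ∑ g_a • b_a` from `∏ a, homogeneousSubmodule (d - lam a)` onto `N d` is surjective, the dimension of the source
is at most `∑ a, choose (d - lam a + n) n = ∑ l ∈ F₁, choose (d - l + n) n * finrank (NG l l) = ∑ l ∈ F₁, finrank (NG d l) ≤ finrank (N d)`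
(`finrank_homogeneous`, `finrank_NG`, `sum_finrank_le`), so it is injective.
-/

noncomputable section

namespace Pool.Agent.PHJ

universe u v

open MvPolynomial

namespace Dat

variable {n : ℕ} {k : Type u} [Field k] {T : Type v} [AddCommGroup T] [Module k T]
  [Module (MvPolynomial (Fin (n + 1)) k) T] [IsScalarTower k (MvPolynomial (Fin (n + 1)) k) T]
  (𝒟 : Dat n k T)

private theorem fdNG (d : ℤ) (c : k) : FiniteDimensional k (𝒟.NG d c) := by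
  unfold NG
  infer_instance

private abbrev LIdx (F₁ : Finset ℤ) : Type :=
  Σ l : F₁, Fin (Module.finrank k (𝒟.NG l.1 ((l.1 : ℤ) : k)))

private def lbb (F₁ : Finset ℤ) (a : 𝒟.LIdx F₁) : T :=
  haveI := 𝒟.fdNG a.1.1 ((a.1.1 : ℤ) : k)
  ((Module.finBasis k (𝒟.NG a.1.1 ((a.1.1 : ℤ) : k))) a.2 : T)

private theorem lbb_mem (F₁ : Finset ℤ) (a : 𝒟.LIdx F₁) : 𝒟.lbb F₁ a ∈ 𝒟.N a.1.1 := by
  haveI := 𝒟.fdNG a.1.1 ((a.1.1 : ℤ) : k)
  exact ((Module.finBasis k (𝒟.NG a.1.1 ((a.1.1 : ℤ) : k))) a.2).2.1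

private def LPhi (F₁ : Finset ℤ) (d : ℤ) :
    ((a : 𝒟.LIdx F₁) → homogeneousSubmodule (Fin (n + 1)) k (d - a.1.1).toNat) →ₗ[k] T where
  toFun g := ∑ a, (g a).1 • 𝒟.lbb F₁ a
  map_add' g g' := by
    rw [← Finset.sum_add_distrib]
    refine Finset.sum_congr rfl fun a _ => ?_
    show ((g a).1 + (g' a).1) • 𝒟.lbb F₁ a = _
    rw [add_smul]
  map_smul' c g := by
    rw [RingHom.id_apply, Finset.smul_sum]
    refine Finset.sum_congr rfl fun a _ => ?_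
    show (c • (g a).1) • 𝒟.lbb F₁ a = _
    rw [smul_assoc]

private theorem LPhi_apply (F₁ : Finset ℤ) (d : ℤ)
    (g : (a : 𝒟.LIdx F₁) → homogeneousSubmodule (Fin (n + 1)) k (d - a.1.1).toNat) :
    𝒟.LPhi F₁ d g = ∑ a, (g a).1 • 𝒟.lbb F₁ a := rfl

private theorem single_mem (F₁ : Finset ℤ) (d : ℤ) (a : 𝒟.LIdx F₁)
    (p : MvPolynomial (Fin (n + 1)) k) (hp : p.IsHomogeneous (d - a.1.1).toNat) :
    p • 𝒟.lbb F₁ a ∈ LinearMap.range (𝒟.LPhi F₁ d) := by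
  classical
  refine ⟨Pi.single a ⟨p, (mem_homogeneousSubmodule _ _).2 hp⟩, ?_⟩
  rw [LPhi_apply, Finset.sum_eq_single a]
  · rw [Pi.single_eq_same]
  · intro b _ hb
    rw [Pi.single_eq_of_ne hb]
    show (0 : MvPolynomial (Fin (n + 1)) k) • 𝒟.lbb F₁ b = 0
    rw [zero_smul]
  · intro ha
    exact absurd (Finset.mem_univ a) ha

private theorem NG_le_range [CharZero k] (hn : 1 ≤ n) (F₁ : Finset ℤ) {d l : ℤ} (hl : l ∈ F₁)
    (hld : l ≤ d) : 𝒟.NG d ((l : ℤ) : k) ≤ LinearMap.range (𝒟.LPhi F₁ d) := by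
  intro m hm
  haveI := 𝒟.fdNG l ((l : ℤ) : k)
  have hj : l + ((d - l).toNat : ℤ) = d := by
    rw [Int.toNat_of_nonneg (by omega)]
    ring
  have hb : ∀ m ∈ 𝒟.NG l l, ∃ c : Fin (Module.finrank k (𝒟.NG l ((l : ℤ) : k))) → k,
      m = ∑ a, c a • ((Module.finBasis k (𝒟.NG l ((l : ℤ) : k))) a : T) := by
    intro m hm
    refine ⟨fun a => (Module.finBasis k (𝒟.NG l ((l : ℤ) : k))).repr ⟨m, hm⟩ a, ?_⟩
    have h1 := congrArg Subtype.val
      ((Module.finBasis k (𝒟.NG l ((l : ℤ) : k))).sum_repr ⟨m, hm⟩)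
    rw [Submodule.coe_sum] at h1
    exact h1.symm
  obtain ⟨g, hg, hm'⟩ := 𝒟.gen_all hn l
    (fun a => ((Module.finBasis k (𝒟.NG l ((l : ℤ) : k))) a : T)) hb (d - l).toNat (m := m)
    (by rw [hj]; exact hm)
  rw [hm']
  refine Submodule.sum_mem _ fun a _ => ?_
  exact 𝒟.single_mem F₁ d ⟨⟨l, hl⟩, a⟩ (g a) (hg a)

private theorem N_le_range [CharZero k] (hn : 1 ≤ n) (F₁ : Finset ℤ)
    (hF₁ : ∀ l : ℤ, 𝒟.NG l l ≠ ⊥ → l ∈ F₁) {d : ℤ}
    (h2 : ∀ l : ℤ, 𝒟.NG (l - n - 1) l ≠ ⊥ → l ≤ d) :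
    𝒟.N d ≤ LinearMap.range (𝒟.LPhi F₁ d) := by
  obtain ⟨pr, F, hp1, _, _, _, hp5, hp6⟩ := 𝒟.exists_pr (𝒟.tri hn)
  intro y hy
  rw [hp5 d y hy]
  refine Submodule.sum_mem _ fun c hc => ?_
  have hne := hp6 d c hc
  obtain ⟨l, rfl⟩ := 𝒟.int_of_NG hn hne
  obtain ⟨e1, e2, e3⟩ := 𝒟.finrank_NG hn l
  haveI := 𝒟.fdNG d ((l : ℤ) : k)
  have hfr : Module.finrank k (𝒟.NG d ((l : ℤ) : k)) ≠ 0 := by
    intro h0
    exact hne (Submodule.finrank_eq_zero.1 h0)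
  rcases lt_or_ge d l with hdl | hdl
  · exfalso
    rcases lt_or_ge d (l - n) with h3 | h3
    · have h4 := e3 ((l - n - 1 - d).toNat)
      have h5 : l - n - 1 - ((l - n - 1 - d).toNat : ℤ) = d := by
        rw [Int.toNat_of_nonneg (by omega)]
        ring
      rw [h5] at h4
      have h6 : 𝒟.NG (l - n - 1) l ≠ ⊥ := by
        intro h0
        apply hfr
        rw [h4, h0]
        simp
      have := h2 l h6
      omega
    · exact hfr (e1 d h3 hdl)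
  · have h4 := e2 ((d - l).toNat)
    have h5 : l + ((d - l).toNat : ℤ) = d := by
      rw [Int.toNat_of_nonneg (by omega)]
      ring
    rw [h5] at h4
    have h6 : 𝒟.NG l l ≠ ⊥ := by
      intro h0
      apply hfr
      rw [h4, h0]
      simp
    exact 𝒟.NG_le_range hn F₁ (hF₁ l h6) hdl (hp1 d _ y hy)

private theorem finrank_src [CharZero k] (hn : 1 ≤ n) (F₁ : Finset ℤ) {d : ℤ}
    (hd : ∀ l ∈ F₁, l ≤ d) :
    FiniteDimensional k
      ((a : 𝒟.LIdx F₁) → homogeneousSubmodule (Fin (n + 1)) k (d - a.1.1).toNat) ∧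
    Module.finrank k
      ((a : 𝒟.LIdx F₁) → homogeneousSubmodule (Fin (n + 1)) k (d - a.1.1).toNat) ≤
        Module.finrank k (𝒟.N d) := by
  classical
  haveI : ∀ j, FiniteDimensional k (homogeneousSubmodule (Fin (n + 1)) k j) :=
    fun j => (finrank_homogeneous n j k).1
  refine ⟨inferInstance, ?_⟩
  rw [Module.finrank_pi_fintype]
  calc ∑ a : 𝒟.LIdx F₁, Module.finrank k
        (homogeneousSubmodule (Fin (n + 1)) k (d - a.1.1).toNat)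
      ≤ ∑ a : 𝒟.LIdx F₁, ((d - a.1.1).toNat + n).choose n :=
        Finset.sum_le_sum fun a _ => (finrank_homogeneous n _ k).2
    _ = ∑ l : F₁, ∑ _i : Fin (Module.finrank k (𝒟.NG l.1 ((l.1 : ℤ) : k))),
          ((d - l.1).toNat + n).choose n := Fintype.sum_sigma _
    _ = ∑ l : F₁, Module.finrank k (𝒟.NG d ((l.1 : ℤ) : k)) := by
        refine Finset.sum_congr rfl fun l _ => ?_
        have hj : l.1 + ((d - l.1).toNat : ℤ) = d := by
          rw [Int.toNat_of_nonneg (by have := hd l.1 l.2; omega)]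
          ring
        have h1 := (𝒟.finrank_NG hn l.1).2.1 (d - l.1).toNat
        rw [hj] at h1
        rw [h1, Finset.sum_const, Finset.card_univ, Fintype.card_fin, smul_eq_mul, mul_comm]
    _ = ∑ l ∈ F₁, Module.finrank k (𝒟.NG d ((l : ℤ) : k)) :=
        Finset.sum_coe_sort F₁ (fun l => Module.finrank k (𝒟.NG d ((l : ℤ) : k)))
    _ = ∑ c ∈ F₁.image (fun l : ℤ => (l : k)), Module.finrank k (𝒟.NG d c) := by
        rw [Finset.sum_image]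
        intro x _ y _ hxy
        exact Int.cast_injective hxy
    _ ≤ Module.finrank k (𝒟.N d) := 𝒟.sum_finrank_le d _

private theorem LPhi_inj [CharZero k] (hn : 1 ≤ n) (F₁ : Finset ℤ)
    (hF₁ : ∀ l : ℤ, 𝒟.NG l l ≠ ⊥ → l ∈ F₁) {d : ℤ} (hd : ∀ l ∈ F₁, l ≤ d)
    (h2 : ∀ l : ℤ, 𝒟.NG (l - n - 1) l ≠ ⊥ → l ≤ d) :
    Function.Injective (𝒟.LPhi F₁ d) := by
  obtain ⟨hfd, hle⟩ := 𝒟.finrank_src hn F₁ hd
  have h1 := LinearMap.finrank_range_add_finrank_ker (𝒟.LPhi F₁ d)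
  have h3 : Module.finrank k (𝒟.N d) ≤ Module.finrank k (LinearMap.range (𝒟.LPhi F₁ d)) :=
    Submodule.finrank_mono (𝒟.N_le_range hn F₁ hF₁ h2)
  have h4 : Module.finrank k (LinearMap.ker (𝒟.LPhi F₁ d)) = 0 := by omega
  exact LinearMap.ker_eq_bot.1 (Submodule.finrank_eq_zero.1 h4)

theorem free_large [CharZero k] (hn : 1 ≤ n) :
    ∃ (r : ℕ) (lam : Fin r → ℤ) (b : Fin r → T) (d₀ : ℤ), (∀ a, b a ∈ 𝒟.N (lam a)) ∧
      (∀ a, lam a ≤ d₀) ∧ ∀ d, d₀ ≤ d → ∀ y ∈ 𝒟.N d,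
        ∃! g : Fin r → MvPolynomial (Fin (n + 1)) k,
          (∀ a, (g a).IsHomogeneous (d - lam a).toNat) ∧ y = ∑ a, g a • b a := by
  classical
  obtain ⟨B1, hB1⟩ := (𝒟.fin_pos hn).bddAbove
  obtain ⟨B2, hB2⟩ := (𝒟.fin_neg hn).bddAbove
  have hF₁ : ∀ l : ℤ, 𝒟.NG l l ≠ ⊥ → l ∈ (𝒟.fin_pos hn).toFinset := by
    intro l hl
    rw [Set.Finite.mem_toFinset]
    exact hl
  generalize hFF : (𝒟.fin_pos hn).toFinset = F₁ at hF₁
  have hd1 : ∀ l ∈ F₁, l ≤ B1 := by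
    intro l hl
    rw [← hFF, Set.Finite.mem_toFinset] at hl
    exact hB1 hl
  have hd2 : ∀ l : ℤ, 𝒟.NG (l - n - 1) l ≠ ⊥ → l ≤ B2 := fun l hl => hB2 hl
  let e := Fintype.equivFin (𝒟.LIdx F₁)
  refine ⟨Fintype.card (𝒟.LIdx F₁), fun i => (e.symm i).1.1, fun i => 𝒟.lbb F₁ (e.symm i),
    max B1 B2, fun a => 𝒟.lbb_mem F₁ _, fun a => le_max_of_le_left (hd1 _ (e.symm a).1.2), ?_⟩
  intro d hd y hy
  have hdd1 : ∀ l ∈ F₁, l ≤ d := fun l hl => (hd1 l hl).trans ((le_max_left _ _).trans hd)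
  have hdd2 : ∀ l : ℤ, 𝒟.NG (l - n - 1) l ≠ ⊥ → l ≤ d :=
    fun l hl => (hd2 l hl).trans ((le_max_right _ _).trans hd)
  obtain ⟨G, hG⟩ := 𝒟.N_le_range hn F₁ hF₁ hdd2 hy
  refine ⟨fun i => (G (e.symm i)).1, ⟨fun i => (mem_homogeneousSubmodule _ _).1 (G (e.symm i)).2,
    ?_⟩, ?_⟩
  · rw [← hG, LPhi_apply]
    exact (Equiv.sum_comp e.symm fun a => (G a).1 • 𝒟.lbb F₁ a).symm
  · rintro g' ⟨hg1, hg2⟩
    have hg1' : ∀ a : 𝒟.LIdx F₁, (g' (e a)).IsHomogeneous (d - a.1.1).toNat := by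
      intro a
      have := hg1 (e a)
      simp only [e.symm_apply_apply] at this
      exact this
    have h3 : 𝒟.LPhi F₁ d (fun a => ⟨g' (e a), (mem_homogeneousSubmodule _ _).2 (hg1' a)⟩) =
        𝒟.LPhi F₁ d G := by
      rw [hG, LPhi_apply, hg2]
      rw [← Equiv.sum_comp e fun i => g' i • 𝒟.lbb F₁ (e.symm i)]
      refine Finset.sum_congr rfl fun a _ => ?_
      rw [e.symm_apply_apply]
    have h4 := 𝒟.LPhi_inj hn F₁ hF₁ hdd1 hdd2 h3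
    funext i
    have h5 := congrArg Subtype.val (congrFun h4 (e.symm i))
    simp only [e.apply_symm_apply] at h5
    exact h5

end Dat

end Pool.Agent.PHJ
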