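import Pool.Agent.PHJ.Nab
import Pool.Agent.PHJ.LAsm
import Pool.Agent.PHJ.ConeX

/-!
# Comparison with a sum of line bundles

The generators of the cohomology modules in large degrees (`free_large`) define the morphism; the cohomology of a sum of line bundles in large twists
is given by homogeneous polynomials (`cm_split`).
-/

noncomputable section

namespace Pool.Agent.PHJ

universe u v

open AW

variable {n : ℕ} {k : Type u} [Field k] (E : Obj n k)

private theorem cm_DD {A : Type} [Fintype A] [DecidableEq A] (e s : A → ℤ) (c : A → Coc n k) (x : A) :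
    DD (lb n k A e s) c x = d (c x) := by
  show d (c x) + ∑ j : A, par (c j) * (0 : Coc n k) = d (c x)
  simp only [mul_zero, Finset.sum_const_zero, add_zero]

private theorem cm_pol (g : MvPolynomial (Fin (n + 1)) k) (a : Coc n k) : d (g • a) = g • d a := by
  rw [← algebraMap_smul (Lau n k) g a, map_smul, algebraMap_smul]

/-- Cocycles of a sum of line bundles. -/
private theorem cm_split (hn : 1 ≤ n) {A : Type} [Fintype A] [DecidableEq A] {e s : A → ℤ} {q t : ℤ}
    (ht : ∀ x, 0 ≤ t + e x) {c : A → Coc n k} (hc : c ∈ gr (lb n k A e s) q t)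
    (hd : DD (lb n k A e s) c = 0) :
    ∃ w : A → Coc n k, w ∈ gr (lb n k A e s) (q - 1) t ∧
      ∃ g : A → MvPolynomial (Fin (n + 1)) k, (∀ x, (g x).IsHomogeneous (t + e x).toNat) ∧
        (∀ x, s x ≠ q → g x = 0) ∧ ∀ x, c x = d (w x) + g x • (1 : Coc n k) := by
  have hex : ∀ x, ∃ w ∈ reg n k (q - 1 - s x) (t + e x), ∃ g : MvPolynomial (Fin (n + 1)) k,
      g.IsHomogeneous (t + e x).toNat ∧ (s x ≠ q → g = 0) ∧ c x = d w + g • (1 : Coc n k) := by
    intro x
    have h1 : c x ∈ reg n k (q - s x) (t + e x) := hc x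
    have h2 : d (c x) = 0 := by
      rw [← cm_DD e s c x, hd]
      rfl
    rcases lt_trichotomy (s x) q with h3 | h3 | h3
    · have h4 : -(n : ℤ) ≤ t + e x := by
        have := ht x
        omega
      obtain ⟨b, hb, hb'⟩ := cech_pos (by omega) h4 h1 h2
      have h5 : q - s x - 1 = q - 1 - s x := by ring
      rw [h5] at hb
      refine ⟨b, hb, 0, MvPolynomial.isHomogeneous_zero _ _ _, fun _ => rfl, ?_⟩
      rw [hb', zero_smul, add_zero]
    · rw [h3, sub_self] at h1
      obtain ⟨g, hg, hg'⟩ := ctr_zero hn h1 h2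
      refine ⟨0, reg_zero _ _, g, hg, fun h4 => absurd h3 h4, ?_⟩
      rw [map_zero, zero_add]
      exact hg'
    · refine ⟨0, reg_zero _ _, 0, MvPolynomial.isHomogeneous_zero _ _ _, fun _ => rfl, ?_⟩
      rw [map_zero, zero_smul, add_zero]
      exact reg_eq_zero (Or.inl (by omega)) h1
  choose w hw g hg1 hg2 hg3 using hex
  exact ⟨w, hw, g, hg1, hg2, hg3⟩

private theorem cm_cl_sum {A : Type} [Fintype A] (g : A → MvPolynomial (Fin (n + 1)) k) (f : A → MM E) :
    cl E (∑ x, g x • f x) = ∑ x, g x • cl E (f x) := by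
  show (BB E).mkQ (∑ x, g x • f x) = ∑ x, g x • (BB E).mkQ (f x)
  rw [map_sum]
  refine Finset.sum_congr rfl fun x _ => ?_
  rw [map_smul]

private theorem cm_push_one {A : Type} [Fintype A] [DecidableEq A] (e s : A → ℤ)
    (g : A → MvPolynomial (Fin (n + 1)) k) (f : A → E.I → Coc n k) :
    push (E := lb n k A e s) (F := E) f (fun x => g x • (1 : Coc n k)) = ∑ x, g x • f x := by
  funext l
  rw [Finset.sum_apply]
  show ∑ x : A, (g x • (1 : Coc n k)) * f x l = _
  refine Finset.sum_congr rfl fun x _ => ?_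
  rw [smul_mul_assoc, one_mul]
  rfl

private theorem cm_push_add {F G : Obj n k} (f : F.I → G.I → Coc n k) (m m' : MM F) :
    push f (m + m') = push f m + push f m' := by
  funext l
  show ∑ i, (m i + m' i) * f i l = ∑ i, m i * f i l + ∑ i, m' i * f i l
  rw [← Finset.sum_add_distrib]
  refine Finset.sum_congr rfl fun i _ => ?_
  rw [add_mul]

private theorem cm_cl {A : Type} [Fintype A] [DecidableEq A] {e s : A → ℤ} {f : A → E.I → Coc n k}
    (hf1 : ∀ x, f x ∈ gr E (s x) (-e x)) (hf2 : ∀ x, DD E (f x) = 0) : f ∈ Cl (lb n k A e s) E 0 0 := by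
  constructor
  · intro x j
    have h1 : f x j ∈ reg n k (s x - E.s j) (-e x + E.e j) := hf1 x j
    show f x j ∈ reg n k (0 + s x - E.s j) (E.e j - e x + 0)
    have h2 : 0 + s x - E.s j = s x - E.s j := by ring
    have h3 : E.e j - e x + 0 = -e x + E.e j := by ring
    rw [h2, h3]
    exact h1
  · refine (dif_zero_iff (E := lb n k A e s) (F := E) f).2 ?_
    intro x l
    have h1 := congrFun (hf2 x) l
    rw [DD_apply] at h1
    rw [h1]
    show (0 : Coc n k) = ∑ j : A, (0 : Coc n k) * f j l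
    simp only [zero_mul, Finset.sum_const_zero]

private theorem cm_main (hn : 1 ≤ n) {A : Type} [Fintype A] [DecidableEq A] {e s : A → ℤ} {f : A → E.I → Coc n k}
    (hf1 : ∀ x, f x ∈ gr E (s x) (-e x)) (hf2 : ∀ x, DD E (f x) = 0) {t : ℤ} (ht : ∀ x, 0 ≤ t + e x)
    (hu : ∀ q, ∀ g : A → MvPolynomial (Fin (n + 1)) k, (∀ x, (g x).IsHomogeneous (t + e x).toNat) →
      (∀ x, s x ≠ q → g x = 0) → ∑ x, g x • cl E (f x) = 0 → ∀ x, g x = 0)
    (hs : ∀ q, ∀ y ∈ NN E q t, ∃ g : A → MvPolynomial (Fin (n + 1)) k,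
      (∀ x, (g x).IsHomogeneous (t + e x).toNat) ∧ (∀ x, s x ≠ q → g x = 0) ∧
        y = ∑ x, g x • cl E (f x)) :
      (∀ q, ∀ y ∈ gr (lb n k A e s) q t, DD (lb n k A e s) y = 0 →
        (∃ w ∈ gr E (q - 1) t, DD E w = push (E := lb n k A e s) f y) →
        ∃ y' ∈ gr (lb n k A e s) (q - 1) t, DD (lb n k A e s) y' = y) ∧
      ∀ q, ∀ z ∈ gr E q t, DD E z = 0 → ∃ c ∈ gr (lb n k A e s) q t,
        DD (lb n k A e s) c = 0 ∧
        ∃ w ∈ gr E (q - 1) t, z - push (E := lb n k A e s) f c = DD E w := by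
  have hf := cm_cl E hf1 hf2
  constructor
  · rintro q y hy hyd ⟨w, hw, hwy⟩
    obtain ⟨w0, hw0, g, hg1, hg2, hg3⟩ := cm_split hn ht hy hyd
    obtain ⟨G, hG⟩ : ∃ G : MM (lb n k A e s), G = fun x => g x • (1 : Coc n k) := ⟨_, rfl⟩
    have h1 : y = DD (lb n k A e s) w0 + G := by
      funext x
      rw [Pi.add_apply]
      refine (hg3 x).trans ?_
      rw [hG]
      exact congrArg (fun a => a + g x • (1 : Coc n k)) (cm_DD e s w0 x).symm
    have hG' : push (E := lb n k A e s) f G = ∑ x, g x • f x := by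
      rw [hG]
      exact cm_push_one E e s g f
    have h2 : DD E w = DD E (push (E := lb n k A e s) f w0) + ∑ x, g x • f x := by
      have h5 : push (E := lb n k A e s) (F := E) f (DD (lb n k A e s) w0 + G) =
          push (E := lb n k A e s) f (DD (lb n k A e s) w0) + push (E := lb n k A e s) f G :=
        cm_push_add (F := lb n k A e s) (G := E) f _ _
      have h6 : push (E := lb n k A e s) f (DD (lb n k A e s) w0) =
          DD E (push (E := lb n k A e s) f w0) := push_DD hf w0
      rw [hwy, h1, h5, h6, hG']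
    have h3 : ∑ x, g x • cl E (f x) = 0 := by
      rw [← cm_cl_sum, cl_eq_zero]
      refine ⟨w - push (E := lb n k A e s) f w0, ?_, ?_⟩
      · exact (RM E).sub_mem (gr_le_RM E hw) (gr_le_RM E (push_gr hf.1 hw0))
      · rw [map_sub, h2, add_sub_cancel_left]
    have h4 := hu q g hg1 hg2 h3
    refine ⟨w0, hw0, ?_⟩
    have hG0 : G = 0 := by
      rw [hG]
      funext x
      show g x • (1 : Coc n k) = 0
      rw [h4 x, zero_smul]
    rw [h1, hG0, add_zero]
  · intro q z hz hzd
    obtain ⟨g, hg1, hg2, hg3⟩ := hs q (cl E z) ⟨z, hz, hzd, rfl⟩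
    have hc : (fun x => g x • (1 : Coc n k)) ∈ gr (lb n k A e s) q t := by
      intro x
      show g x • (1 : Coc n k) ∈ reg n k (q - s x) (t + e x)
      by_cases hx : s x = q
      · have h1 := reg_pol (hg1 x) (reg_one (n := n) (k := k))
        rw [Int.toNat_of_nonneg (ht x), zero_add] at h1
        rw [hx, sub_self]
        exact h1
      · rw [hg2 x hx, zero_smul]
        exact reg_zero _ _
    refine ⟨fun x => g x • (1 : Coc n k), hc, ?_, ?_⟩
    · funext x
      refine (cm_DD e s (fun x => g x • (1 : Coc n k)) x).trans ?_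
      show d (g x • (1 : Coc n k)) = 0
      rw [cm_pol, d_one, smul_zero]
    · have h1 : z - push (E := lb n k A e s) f (fun x => g x • (1 : Coc n k)) ∈ gr E q t :=
        (gr E q t).sub_mem hz (push_gr hf.1 hc)
      have h2 : cl E (z - push (E := lb n k A e s) f (fun x => g x • (1 : Coc n k))) = 0 := by
        rw [cm_push_one]
        have h3 : cl E (z - ∑ x, g x • f x) = cl E z - cl E (∑ x, g x • f x) := rfl
        rw [h3, cm_cl_sum, ← hg3, sub_self]
      rw [cl_eq_zero] at h2
      obtain ⟨w, hw, hw'⟩ := h2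
      obtain ⟨w', h3, h4⟩ := exists_gr E h1 hw hw'
      exact ⟨w', h3, h4.symm⟩

theorem exists_dat (hn : 1 ≤ n) (h : ∀ i, at1 E i ∈ Ex E E 1 (-1)) (p : ℤ) :
    ∃ D : Dat n k (TT E), D.N = NN E p := by
  obtain ⟨nb, phi, h1, h2, h3⟩ := exists_ops E h
  obtain ⟨C, hC⟩ := NN_bound E hn
  exact ⟨{ N := NN E p
           fd := fun d => NN_fin E hn p d
           X_mem := fun d i m hm => NN_X E p d i hm
           nb := nb
           nb_mem := fun d i m hm => h1 p d i m hm
           leib := h2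
           phi := phi
           phi_eq := fun d m hm => h3 p d m hm
           C := C
           bound := fun d => hC p d }, rfl⟩

private theorem cm_free [CharZero k] (hn : 1 ≤ n) (h : ∀ i, at1 E i ∈ Ex E E 1 (-1)) (p : ℤ) :
    ∃ (r : ℕ) (lam : Fin r → ℤ) (b : Fin r → TT E) (d₀ : ℤ), (∀ a, b a ∈ NN E p (lam a)) ∧
      (∀ a, lam a ≤ d₀) ∧ ∀ d, d₀ ≤ d → ∀ y ∈ NN E p d,
        ∃! g : Fin r → MvPolynomial (Fin (n + 1)) k,
          (∀ a, (g a).IsHomogeneous (d - lam a).toNat) ∧ y = ∑ a, g a • b a := by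
  obtain ⟨D, hD⟩ := exists_dat E hn h p
  have h1 := D.free_large hn
  rw [hD] at h1
  exact h1

/-- There is a sum of line bundles with a morphism to `E` that is bijective on the cohomology of
all large twists. -/
theorem exists_ev [CharZero k] (hn : 1 ≤ n)
    (h : ∀ i, at1 E i ∈ Ex E E 1 (-1)) :
    ∃ (A : Type) (_ : Fintype A) (_ : DecidableEq A) (e s : A → ℤ)
      (f : A → E.I → Coc n k) (_ : f ∈ Cl (lb n k A e s) E 0 0) (t₀ : ℤ), ∀ t, t₀ ≤ t →
      (∀ q, ∀ y ∈ gr (lb n k A e s) q t, DD (lb n k A e s) y = 0 →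
        (∃ w ∈ gr E (q - 1) t, DD E w = push (E := lb n k A e s) f y) →
        ∃ y' ∈ gr (lb n k A e s) (q - 1) t, DD (lb n k A e s) y' = y) ∧
      ∀ q, ∀ z ∈ gr E q t, DD E z = 0 → ∃ c ∈ gr (lb n k A e s) q t,
        DD (lb n k A e s) c = 0 ∧
        ∃ w ∈ gr E (q - 1) t, z - push (E := lb n k A e s) f c = DD E w := by
  choose r lam b d₀ hb hlam hfree using cm_free E hn h
  have hz : ∀ p a, ∃ m ∈ gr E p (lam p a), DD E m = 0 ∧ cl E m = b p a := fun p a => hb p a
  choose z hz1 hz2 hz3 using hz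
  obtain ⟨a₀, b₀, hab⟩ := gr_bound E
  obtain ⟨t₀, ht₀⟩ : ∃ t₀ : ℤ, ∀ p ∈ Finset.Icc a₀ b₀, d₀ p ≤ t₀ := by
    obtain ⟨M, hM⟩ := ((Finset.Icc a₀ b₀).image d₀).exists_le
    exact ⟨M, fun p hp => hM _ (Finset.mem_image_of_mem _ hp)⟩
  refine ⟨(p : {p // p ∈ Finset.Icc a₀ b₀}) × Fin (r p.1), inferInstance, inferInstance,
    fun x => -lam x.1.1 x.2, fun x => x.1.1, fun x => z x.1.1 x.2, ?_, t₀, fun t ht => ?_⟩
  · refine cm_cl E (fun x => ?_) fun x => hz2 _ _
    rw [neg_neg]
    exact hz1 _ _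
  · refine cm_main E hn (fun x => ?_) (fun x => hz2 _ _) (fun x => ?_) ?_ ?_
    · rw [neg_neg]
      exact hz1 _ _
    · have h1 := hlam x.1.1 x.2
      have h2 := ht₀ x.1.1 x.1.2
      show 0 ≤ t + -lam x.1.1 x.2
      omega
    · intro q g hg1 hg2 hg3 x
      by_cases hx : x.1.1 = q
      · obtain ⟨⟨p, hp⟩, a⟩ := x
        have hx' : p = q := hx
        subst hx'
        have h1 : ∑ a', g ⟨⟨p, hp⟩, a'⟩ • b p a' = 0 := by
          rw [Fintype.sum_sigma, Finset.sum_eq_single ⟨p, hp⟩] at hg3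
          · rw [← hg3]
            refine Finset.sum_congr rfl fun a' _ => ?_
            show _ = g ⟨⟨p, hp⟩, a'⟩ • cl E (z p a')
            rw [hz3]
          · rintro ⟨p', hp'⟩ _ hne
            refine Finset.sum_eq_zero fun a' _ => ?_
            rw [hg2 ⟨⟨p', hp'⟩, a'⟩ fun h2 => hne (Subtype.ext h2), zero_smul]
          · intro h2
            exact absurd (Finset.mem_univ _) h2
        have h2 := (hfree p t ((ht₀ p hp).trans ht) 0 (NN E p t).zero_mem).unique
          (y₁ := fun a' => g ⟨⟨p, hp⟩, a'⟩) (y₂ := fun _ => 0) ⟨fun a' => ?_, h1.symm⟩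
          ⟨fun _ => MvPolynomial.isHomogeneous_zero _ _ _, ?_⟩
        · exact congrFun h2 a
        · rw [sub_eq_add_neg]
          exact hg1 ⟨⟨p, hp⟩, a'⟩
        · simp only [zero_smul, Finset.sum_const_zero]
      · exact hg2 x hx
    · intro q y hy
      by_cases hq : q ∈ Finset.Icc a₀ b₀
      · obtain ⟨g0, ⟨hg0, hy0⟩, -⟩ := hfree q t ((ht₀ q hq).trans ht) y hy
        have hG : ∀ p, ∃ G : Fin (r p) → MvPolynomial (Fin (n + 1)) k, p = q →
            (∀ a, (G a).IsHomogeneous (t - lam p a).toNat) ∧ y = ∑ a, G a • b p a := by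
          intro p
          by_cases hp : p = q
          · subst hp
            exact ⟨g0, fun _ => ⟨hg0, hy0⟩⟩
          · exact ⟨fun _ => 0, fun h1 => absurd h1 hp⟩
        choose G hG using hG
        refine ⟨fun x => if x.1.1 = q then G x.1.1 x.2 else 0, fun x => ?_, fun x hx => ?_, ?_⟩
        · beta_reduce
          by_cases hx : x.1.1 = q
          · rw [if_pos hx, ← sub_eq_add_neg]
            exact (hG x.1.1 hx).1 x.2
          · rw [if_neg hx]
            exact MvPolynomial.isHomogeneous_zero _ _ _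
        · exact if_neg hx
        · rw [Fintype.sum_sigma, Finset.sum_eq_single ⟨q, hq⟩]
          · rw [(hG q rfl).2]
            refine Finset.sum_congr rfl fun a' _ => ?_
            show _ = (if q = q then G q a' else 0) • cl E (z q a')
            rw [hz3, if_pos rfl]
          · rintro ⟨p', hp'⟩ _ hne
            refine Finset.sum_eq_zero fun a' _ => ?_
            show (if p' = q then G p' a' else 0) • cl E (z p' a') = 0
            rw [if_neg fun h2 => hne (Subtype.ext h2), zero_smul]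
          · intro h2
            exact absurd (Finset.mem_univ _) h2
      · have hy0 : y = 0 := by
          obtain ⟨m, hm, -, rfl⟩ := hy
          have h1 : q < a₀ ∨ b₀ < q := by
            by_contra h2
            push Not at h2
            exact hq (Finset.mem_Icc.2 h2)
          rw [hab q t h1 m hm]
          rfl
        refine ⟨fun _ => 0, fun _ => MvPolynomial.isHomogeneous_zero _ _ _, fun _ _ => rfl, ?_⟩
        rw [hy0]
        simp only [zero_smul, Finset.sum_const_zero]

end Pool.Agent.PHJ
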