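import Pool.Agent.PHJ.Ctr

/-!
# Cohomology of line bundles

MODULE PHJ-CtrB.
-/

noncomputable section

namespace Pool.Agent.PHJ

universe u v

open AW

theorem cech_pos {n : ℕ} {k : Type u} [CommRing k] {p e : ℤ} (hp : 1 ≤ p) (he : -(n : ℤ) ≤ e)
    {a : Coc n k} (ha : a ∈ reg n k p e) (hd : d a = 0) : ∃ b ∈ reg n k (p - 1) e, d b = a := by
  obtain ⟨b, hb, h⟩ := ctr_pos hp ha hd
  refine ⟨b, hb, ?_⟩
  have h1 : d b ∈ reg n k p e := by
    have h2 := reg_d hb
    rwa [sub_add_cancel] at h2
  have h3 := reg_sub ha h1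
  have h4 : a - d b = 0 := by
    ext K : 1
    rw [at_zero]
    ext u
    by_contra h5
    have h6 : ((a - d b).at' K).coeff u ≠ 0 := h5
    obtain ⟨-, h7, -⟩ := h3 K u h6
    have h8 := h K u h6
    have h9 : ∑ i, u i ≤ ∑ _i : Fin (n + 1), (-1 : ℤ) :=
      Finset.sum_le_sum fun i _ => by
        have := h8 i
        omega
    rw [h7, Finset.sum_const, Finset.card_univ, Fintype.card_fin, nsmul_eq_mul] at h9
    push_cast at h9
    linarith
  exact (sub_eq_zero.1 h4).symm

private theorem cb_span {n : ℕ} {k : Type u} [Field k] (E : Coc n k) (A B e : ℤ)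
    (h : (B + 1 - A).toNat ≤ e.natAbs + 1) :
    ∃ W : Submodule k (Coc n k), FiniteDimensional k W ∧
      Module.finrank k W ≤ (e.natAbs + 1) ^ n ∧
      ∀ f : Lau n k, (∀ u, f.coeff u ≠ 0 → ∑ i, u i = e ∧ ∀ i, A ≤ u i ∧ u i ≤ B) →
        f • E ∈ W := by
  classical
  set S : Finset (Coc n k) := (Fintype.piFinset fun _ : Fin n => Finset.Icc A B).image
    (fun v => (mono (Fin.cons (e - ∑ i, v i) v : Fin (n + 1) → ℤ) : Lau n k) • E) with hS
  refine ⟨Submodule.span k (S : Set (Coc n k)), ?_, ?_, ?_⟩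
  · exact FiniteDimensional.span_finset k S
  · refine (finrank_span_finset_le_card S).trans (Finset.card_image_le.trans ?_)
    rw [Fintype.card_piFinset_const, Int.card_Icc]
    exact Nat.pow_le_pow_left h n
  · intro f hf
    have e1 : f = ∑ u ∈ f.coeff.support, (AddMonoidAlgebra.single u (f.coeff u) : Lau n k) :=
      (AddMonoidAlgebra.sum_coeff_single f).symm
    have e2 : f • E = ∑ u ∈ f.coeff.support, f.coeff u • ((mono u : Lau n k) • E) := by
      conv_lhs => rw [e1, Finset.sum_smul]
      refine Finset.sum_congr rfl fun u _ => ?_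
      rw [← smul_assoc]
      congr 1
      unfold mono
      rw [AddMonoidAlgebra.smul_single, smul_eq_mul, mul_one]
    rw [e2]
    refine Submodule.sum_mem _ fun u hu => Submodule.smul_mem _ _ (Submodule.subset_span ?_)
    obtain ⟨h1, h2⟩ := hf u (Finsupp.mem_support_iff.1 hu)
    rw [hS, Finset.coe_image, Set.mem_image]
    refine ⟨Fin.tail u, ?_, ?_⟩
    · rw [Finset.mem_coe, Fintype.mem_piFinset]
      intro i
      rw [Finset.mem_Icc]
      exact h2 i.succ
    · have h3 : e - ∑ i, Fin.tail u i = u 0 := by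
        rw [← h1, Fin.sum_univ_succ]
        unfold Fin.tail
        ring
      rw [h3, Fin.cons_self_tail]

theorem cech_fin {n : ℕ} (hn : 1 ≤ n) {k : Type u} [Field k] (p e : ℤ) :
    ∃ W : Submodule k (Coc n k), FiniteDimensional k W ∧
      Module.finrank k W ≤ (e.natAbs + 1) ^ n ∧
      ∀ a ∈ reg n k p e, d a = 0 → ∃ b ∈ reg n k (p - 1) e, a - d b ∈ W := by
  classical
  rcases lt_trichotomy p 0 with hp | rfl | hp
  · refine ⟨⊥, inferInstance, ?_, ?_⟩
    · rw [finrank_bot]
      exact Nat.zero_le _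
    · intro a ha _
      refine ⟨0, reg_zero _ _, ?_⟩
      rw [map_zero, sub_zero, reg_eq_zero (Or.inl hp) ha]
      exact Submodule.zero_mem _
  · obtain ⟨W, h1, h2, h3⟩ := cb_span (n := n) (k := k) 1 0 e e (by omega)
    refine ⟨W, h1, h2, fun a ha hd => ⟨0, reg_zero _ _, ?_⟩⟩
    rw [map_zero, sub_zero]
    obtain ⟨g, -, hg⟩ := ctr_zero hn ha hd
    have h4 : a = (polL n k g : Lau n k) • (1 : Coc n k) := by
      rw [hg]
      ext K : 1
      rw [at_smul, at_smul, Algebra.smul_def, algebraMap_pol, smul_eq_mul]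
    have h5 : ∀ i : Fin (n + 1), a.at' {i} = polL n k g := by
      intro i
      rw [h4, at_smul, at_one, if_pos (Finset.card_singleton i), smul_eq_mul, mul_one]
    rw [h4]
    apply h3
    intro u hu
    have h6 := ha {0} u (by rw [h5]; exact hu)
    have h7 : ∀ i, 0 ≤ u i := by
      intro i
      obtain ⟨j, hj⟩ : ∃ j : Fin (n + 1), i ≠ j := by
        by_cases hi : i = 0
        · refine ⟨Fin.last n, ?_⟩
          rw [hi]
          intro h
          have := congrArg Fin.val h
          simp at this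
          omega
        · exact ⟨0, hi⟩
      exact (ha {j} u (by rw [h5]; exact hu)).2.2 i (by rwa [Finset.mem_singleton])
    refine ⟨h6.2.1, fun i => ⟨h7 i, ?_⟩⟩
    rw [← h6.2.1]
    exact Finset.single_le_sum (fun j _ => h7 j) (Finset.mem_univ i)
  · obtain ⟨W, h1, h2, h3⟩ := cb_span (n := n) (k := k)
      (AW.mk (fun K => if K = Finset.univ then 1 else 0)
        (if_neg fun h => Finset.univ_nonempty.ne_empty h.symm)) e (-1) e (by omega)
    refine ⟨W, h1, h2, fun a ha hd => ?_⟩
    obtain ⟨b, hb, h⟩ := ctr_pos (by omega) ha hd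
    refine ⟨b, hb, ?_⟩
    have h4 : a - d b ∈ reg n k p e := by
      have h5 := reg_d hb
      rw [sub_add_cancel] at h5
      exact reg_sub ha h5
    have h5 : ∀ K : Finset (Fin (n + 1)), K ≠ Finset.univ → (a - d b).at' K = 0 := by
      intro K hK
      ext u
      by_contra h6
      have h7 : ((a - d b).at' K).coeff u ≠ 0 := h6
      obtain ⟨i, hi⟩ : ∃ i, i ∉ K := by
        by_contra h8
        push Not at h8
        exact hK (Finset.eq_univ_iff_forall.2 h8)
      have h9 := h K u h7 i
      have h10 := (h4 K u h7).2.2 i hi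
      omega
    have h6 : a - d b = ((a - d b).at' Finset.univ : Lau n k) •
        (AW.mk (fun K => if K = Finset.univ then 1 else 0)
          (if_neg fun h => Finset.univ_nonempty.ne_empty h.symm) : Coc n k) := by
      ext K : 1
      rw [at_smul, at_mk]
      by_cases hK : K = Finset.univ
      · rw [if_pos hK, hK, smul_eq_mul, mul_one]
      · rw [if_neg hK, h5 K hK, smul_eq_mul, mul_zero]
    rw [h6]
    apply h3
    intro u hu
    have h7 := (h4 _ u hu).2.1
    have h8 := h _ u hu
    refine ⟨h7, fun i => ⟨?_, by have := h8 i; omega⟩⟩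
    rw [← h7, ← Finset.add_sum_erase _ _ (Finset.mem_univ i)]
    have h9 : ∑ x ∈ Finset.univ.erase i, u x ≤ 0 := Finset.sum_nonpos fun j _ => (h8 j).le
    linarith

end Pool.Agent.PHJ
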