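import Pool.Agent.PHJ.Mod
import Pool.Agent.PHJ.CtrB

/-!
# Cohomology modules of an object

`TT E`: all cochains modulo boundaries of regular elements, a module over the polynomials. `NN E p t`: the classes of
the cocycles in `gr E p t`: the cohomology `H^p(E(t))`.

The dimension is bounded by removing the indices one by one, those of largest rank first.
-/

noncomputable section

namespace Pool.Agent.PHJ

universe u v

open AW

variable {n : ℕ} {k : Type u} [Field k] (E : Obj n k)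

/-- Boundaries of regular elements. -/
def BB : Submodule (MvPolynomial (Fin (n + 1)) k) (MM E) where
  carrier := {m | ∃ w ∈ RM E, DD E w = m}
  zero_mem' := ⟨0, (RM E).zero_mem, map_zero _⟩
  add_mem' := by
    rintro a b ⟨w, hw, rfl⟩ ⟨w', hw', rfl⟩
    exact ⟨w + w', (RM E).add_mem hw hw', map_add _ _ _⟩
  smul_mem' := by
    rintro c a ⟨w, hw, rfl⟩
    refine ⟨c • w, (RM E).smul_mem c hw, ?_⟩
    have h1 : ∀ m : MM E, c • m = (algebraMap (MvPolynomial (Fin (n + 1)) k) (Lau n k) c) • m :=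
      fun m => (IsScalarTower.algebraMap_smul (Lau n k) c m).symm
    rw [h1, h1, map_smul]

/-- Cochains modulo boundaries. -/
abbrev TT : Type u := MM E ⧸ BB E

/-- The class of a cochain. -/
def cl (m : MM E) : TT E := Submodule.Quotient.mk m

theorem cl_eq_zero {m : MM E} : cl E m = 0 ↔ ∃ w ∈ RM E, DD E w = m :=
  Submodule.Quotient.mk_eq_zero _

/-- The cohomology `H^p(E(t))` as a space of classes. -/
def NN (p t : ℤ) : Submodule k (TT E) where
  carrier := {x | ∃ m ∈ gr E p t, DD E m = 0 ∧ cl E m = x}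
  zero_mem' := ⟨0, (gr E p t).zero_mem, map_zero _, rfl⟩
  add_mem' := by
    rintro _ _ ⟨m, hm, h1, rfl⟩ ⟨m', hm', h1', rfl⟩
    exact ⟨m + m', (gr E p t).add_mem hm hm', by rw [map_add, h1, h1', add_zero], rfl⟩
  smul_mem' := by
    rintro c _ ⟨m, hm, h1, rfl⟩
    refine ⟨c • m, (gr E p t).smul_mem c hm, ?_, rfl⟩
    have h2 : c • m = (algebraMap k (Lau n k) c) • m :=
      (IsScalarTower.algebraMap_smul (Lau n k) c m).symm
    rw [h2, map_smul, h1, smul_zero]

theorem mem_NN {p t : ℤ} {x : TT E} :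
    x ∈ NN E p t ↔ ∃ m ∈ gr E p t, DD E m = 0 ∧ cl E m = x := Iff.rfl

private theorem DD_ksmul (c : k) (m : MM E) : DD E (c • m) = c • DD E m := by
  have h : ∀ m : MM E, c • m = (algebraMap k (Lau n k) c) • m :=
    fun m => (IsScalarTower.algebraMap_smul (Lau n k) c m).symm
  rw [h, h, map_smul]

/-- The cocycles which are zero outside `J`. -/
private def ZJ (p t : ℤ) (J : Finset E.I) : Submodule k (MM E) where
  carrier := {m | m ∈ gr E p t ∧ DD E m = 0 ∧ ∀ i ∉ J, m i = 0}
  zero_mem' := ⟨(gr E p t).zero_mem, map_zero _, fun _ _ => rfl⟩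
  add_mem' := by
    rintro a b ⟨ha, ha', ha''⟩ ⟨hb, hb', hb''⟩
    exact ⟨(gr E p t).add_mem ha hb, by rw [map_add, ha', hb', add_zero], fun i hi => by
      rw [Pi.add_apply, ha'' i hi, hb'' i hi, add_zero]⟩
  smul_mem' := by
    rintro c a ⟨ha, ha', ha''⟩
    exact ⟨(gr E p t).smul_mem c ha, by rw [DD_ksmul, ha', smul_zero], fun i hi => by
      rw [Pi.smul_apply, ha'' i hi, smul_zero]⟩

private theorem mem_ZJ {p t : ℤ} {J : Finset E.I} {m : MM E} :
    m ∈ ZJ E p t J ↔ m ∈ gr E p t ∧ DD E m = 0 ∧ ∀ i ∉ J, m i = 0 := Iff.rfl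

/-- The class as a linear map. -/
private def clk : MM E →ₗ[k] TT E := (BB E).mkQ.restrictScalars k

private theorem clk_apply (m : MM E) : clk E m = cl E m := rfl

private theorem sup_bound {V : Type*} [AddCommGroup V] [Module k V] (A A' S : Submodule k V)
    (h1 : FiniteDimensional k A') (h2 : FiniteDimensional k S) (h : A ≤ A' ⊔ S) :
    FiniteDimensional k A ∧
      Module.finrank k A ≤ Module.finrank k A' + Module.finrank k S := by
  have h3 : FiniteDimensional k (A' ⊔ S : Submodule k V) := Submodule.finiteDimensional_sup A' S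
  exact ⟨Submodule.finiteDimensional_of_le h, (Submodule.finrank_mono h).trans
    (Submodule.finrank_add_le_finrank_add_finrank A' S)⟩

/-- A cocycle with the top entry a boundary. -/
private theorem kill_top {p t : ℤ} {J : Finset E.I} (hJ : ∀ i ∈ J, ∀ j, E.δ i j ≠ 0 → j ∈ J)
    {i₀ : E.I} (hi : i₀ ∈ J) {z : MM E} (hz : z ∈ ZJ E p t J) {b : Coc n k}
    (hb : b ∈ reg n k (p - E.s i₀ - 1) (t + E.e i₀)) (h : z i₀ = d b) :
    clk E z ∈ Submodule.map (clk E) (ZJ E p t (J.erase i₀)) := by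
  obtain ⟨y, hy⟩ : ∃ y : MM E, y = fun j => if i₀ = j then b else 0 := ⟨_, rfl⟩
  have hy1 : y i₀ = b := by rw [hy]; exact if_pos rfl
  have hy2 : ∀ j, j ≠ i₀ → y j = 0 := fun j hj => by rw [hy]; exact if_neg (Ne.symm hj)
  have hyg : y ∈ gr E (p - 1) t := by
    intro j
    by_cases hj : j = i₀
    · subst hj
      rw [hy1, show p - 1 - E.s j = p - E.s j - 1 by ring]
      exact hb
    · rw [hy2 j hj]
      exact reg_zero _ _
  have hD : ∀ l, DD E y l = d (y l) + par b * E.δ i₀ l := by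
    intro l
    rw [DD_apply]
    congr 1
    rw [Finset.sum_eq_single i₀]
    · rw [hy1]
    · intro j _ hj
      rw [hy2 j hj, map_zero, zero_mul]
    · intro h
      exact absurd (Finset.mem_univ _) h
  refine ⟨z - DD E y, ?_, ?_⟩
  · refine ⟨?_, ?_, ?_⟩
    · refine (gr E p t).sub_mem hz.1 ?_
      have h1 := DD_gr E hyg
      rwa [sub_add_cancel] at h1
    · rw [map_sub, DD_DD, hz.2.1, sub_zero]
    · intro l hl
      rw [Pi.sub_apply, hD]
      by_cases hl0 : l = i₀
      · subst hl0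
        have h1 : E.δ l l = 0 := by
          by_contra h1
          exact lt_irrefl _ (E.tri l l h1)
        rw [hy1, h, h1, mul_zero, add_zero, sub_self]
      · have hlJ : l ∉ J := fun h1 => hl (Finset.mem_erase.2 ⟨hl0, h1⟩)
        have h1 : E.δ i₀ l = 0 := by
          by_contra h1
          exact hlJ (hJ i₀ hi l h1)
        rw [hz.2.2 l hlJ, hy2 l hl0, h1, map_zero, mul_zero, add_zero, sub_self]
  · rw [map_sub, clk_apply E (DD E y), (cl_eq_zero E).2 ⟨y, gr_le_RM E hyg, rfl⟩, sub_zero]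

private theorem NJ_step (hn : 1 ≤ n) (p t : ℤ) {J : Finset E.I}
    (hJ : ∀ i ∈ J, ∀ j, E.δ i j ≠ 0 → j ∈ J) {i₀ : E.I} (hi : i₀ ∈ J)
    (hmax : ∀ j ∈ J, E.rk j ≤ E.rk i₀)
    (hf : FiniteDimensional k (Submodule.map (clk E) (ZJ E p t (J.erase i₀)))) :
    FiniteDimensional k (Submodule.map (clk E) (ZJ E p t J)) ∧
      Module.finrank k (Submodule.map (clk E) (ZJ E p t J)) ≤
        Module.finrank k (Submodule.map (clk E) (ZJ E p t (J.erase i₀))) +
          ((t + E.e i₀).natAbs + 1) ^ n := by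
  obtain ⟨W, hWf, hWb, hW⟩ := cech_fin (n := n) hn (k := k) (p - E.s i₀) (t + E.e i₀)
  obtain ⟨dk, hdk⟩ : ∃ dk : Coc n k →ₗ[k] Coc n k, ∀ a, dk a = d a :=
    ⟨(d : Coc n k →ₗ[Lau n k] Coc n k).restrictScalars k, fun _ => rfl⟩
  obtain ⟨pr, hpr⟩ : ∃ pr : MM E →ₗ[k] Coc n k, ∀ m, pr m = m i₀ :=
    ⟨LinearMap.proj i₀, fun _ => rfl⟩
  obtain ⟨U, hU⟩ : ∃ U : Submodule k (Coc n k), ∀ x, x ∈ U ↔ x ∈ W ∧
      x ∈ (Submodule.map pr (ZJ E p t J) ⊔
        Submodule.map dk (regS n k (p - E.s i₀ - 1) (t + E.e i₀))) :=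
    ⟨W ⊓ (Submodule.map pr (ZJ E p t J) ⊔
      Submodule.map dk (regS n k (p - E.s i₀ - 1) (t + E.e i₀))), fun _ => Submodule.mem_inf⟩
  have hUW : U ≤ W := fun x hx => ((hU x).1 hx).1
  have hUf : FiniteDimensional k U := Submodule.finiteDimensional_of_le hUW
  have hUb : Module.finrank k U ≤ Module.finrank k W := Submodule.finrank_mono hUW
  obtain ⟨B, -⟩ : ∃ B : Module.Basis (Fin (Module.finrank k U)) k U, True :=
    ⟨Module.finBasis k U, trivial⟩
  have hB : ∀ q, ∃ z ∈ ZJ E p t J, ∃ b ∈ regS n k (p - E.s i₀ - 1) (t + E.e i₀),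
      z i₀ + d b = (B q : Coc n k) := by
    intro q
    have h1 := (hU _).1 (B q).2
    obtain ⟨x, ⟨z, hz, rfl⟩, y, ⟨b, hb, rfl⟩, hxy⟩ := Submodule.mem_sup.1 h1.2
    rw [hpr, hdk] at hxy
    exact ⟨z, hz, b, hb, hxy⟩
  choose zq hzq bq hbq hq using hB
  have key : Submodule.map (clk E) (ZJ E p t J) ≤
      Submodule.map (clk E) (ZJ E p t (J.erase i₀)) ⊔
        Submodule.span k (Set.range fun q => clk E (zq q)) := by
    rintro _ ⟨z, hz, rfl⟩
    have hdz : d (z i₀) = 0 := by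
      have h1 : DD E z i₀ = 0 := by
        have h2 := hz.2.1
        rw [h2]
        rfl
      rw [DD_apply, Finset.sum_eq_zero, add_zero] at h1
      · exact h1
      · intro j _
        by_cases hj : j ∈ J
        · have h2 : E.δ j i₀ = 0 := by
            by_contra h2
            exact absurd (hmax j hj) (not_le.2 (E.tri j i₀ h2))
          rw [h2, mul_zero]
        · rw [hz.2.2 j hj, map_zero, zero_mul]
    obtain ⟨b, hb, hw⟩ := hW (z i₀) (hz.1 i₀) hdz
    have hwU : z i₀ - d b ∈ U := by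
      refine (hU _).2 ⟨hw, ?_⟩
      have h1 : z i₀ ∈ Submodule.map pr (ZJ E p t J) := ⟨z, hz, hpr z⟩
      have h2 : -d b ∈ Submodule.map dk (regS n k (p - E.s i₀ - 1) (t + E.e i₀)) :=
        ⟨-b, reg_neg hb, by rw [hdk, map_neg]⟩
      have h3 := Submodule.add_mem_sup h1 h2
      rwa [← sub_eq_add_neg] at h3
    obtain ⟨c, hc⟩ : ∃ c : Fin (Module.finrank k U) → k,
        z i₀ - d b = ∑ q, c q • (B q : Coc n k) := by
      refine ⟨fun q => B.repr ⟨_, hwU⟩ q, ?_⟩
      have h1 := congrArg Subtype.val (B.sum_repr ⟨_, hwU⟩)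
      refine h1.symm.trans ?_
      rw [Submodule.coe_sum]
      rfl
    have hsum : ∑ q, c q • zq q ∈ ZJ E p t J :=
      Submodule.sum_mem _ fun q _ => Submodule.smul_mem _ _ (hzq q)
    have hbs : b + ∑ q, c q • bq q ∈ reg n k (p - E.s i₀ - 1) (t + E.e i₀) :=
      reg_add hb (reg_sum _ fun q _ => reg_smul _ (hbq q))
    have hz' : z - ∑ q, c q • zq q ∈ ZJ E p t J := Submodule.sub_mem _ hz hsum
    have h5 : (z - ∑ q, c q • zq q) i₀ = d (b + ∑ q, c q • bq q) := by
      have h6 : (z - ∑ q, c q • zq q) i₀ = z i₀ - ∑ q, c q • (zq q i₀) := by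
        rw [← hpr (z - ∑ q, c q • zq q), map_sub, map_sum, hpr]
        congr 1
        exact Finset.sum_congr rfl fun q _ => by rw [map_smul, hpr]
      have h7 : d (b + ∑ q, c q • bq q) = d b + ∑ q, c q • d (bq q) := by
        rw [← hdk (b + ∑ q, c q • bq q), map_add, map_sum, hdk]
        congr 1
        exact Finset.sum_congr rfl fun q _ => by rw [map_smul, hdk]
      rw [h6, h7]
      have h8 : ∑ q, c q • (B q : Coc n k) = ∑ q, c q • zq q i₀ + ∑ q, c q • d (bq q) := by
        rw [← Finset.sum_add_distrib]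
        refine Finset.sum_congr rfl fun q _ => ?_
        rw [← hq, smul_add]
      rw [h8] at hc
      rw [sub_eq_iff_eq_add] at hc ⊢
      rw [hc]
      abel
    have h9 := kill_top E hJ hi hz' hbs h5
    have h10 : clk E z = clk E (z - ∑ q, c q • zq q) + ∑ q, c q • clk E (zq q) := by
      rw [map_sub, map_sum]
      simp only [map_smul, sub_add_cancel]
    rw [h10]
    exact Submodule.add_mem_sup h9 (Submodule.sum_mem _ fun q _ =>
      Submodule.smul_mem _ _ (Submodule.subset_span ⟨q, rfl⟩))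
  have hS : Module.finrank k (Submodule.span k (Set.range fun q => clk E (zq q))) ≤
      Module.finrank k U := by
    have h1 := finrank_range_le_card (R := k) (fun q => clk E (zq q))
    rwa [Fintype.card_fin] at h1
  obtain ⟨h1, h2⟩ := sup_bound _ _ _ hf (FiniteDimensional.span_of_finite k
    (Set.finite_range fun q => clk E (zq q))) key
  exact ⟨h1, h2.trans (Nat.add_le_add_left (hS.trans (hUb.trans hWb)) _)⟩

private theorem NJ_aux (hn : 1 ≤ n) (p t : ℤ) : ∀ N : ℕ, ∀ J : Finset E.I, J.card = N →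
    (∀ i ∈ J, ∀ j, E.δ i j ≠ 0 → j ∈ J) →
    FiniteDimensional k (Submodule.map (clk E) (ZJ E p t J)) ∧
      Module.finrank k (Submodule.map (clk E) (ZJ E p t J)) ≤
        ∑ i ∈ J, ((t + E.e i).natAbs + 1) ^ n := by
  intro N
  induction N with
  | zero =>
    intro J hJ _
    have h0 : J = ∅ := Finset.card_eq_zero.1 hJ
    subst h0
    have h1 : ZJ E p t ∅ = ⊥ := by
      rw [eq_bot_iff]
      intro z hz
      rw [Submodule.mem_bot]
      funext i
      exact hz.2.2 i (Finset.notMem_empty i)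
    rw [h1, Submodule.map_bot]
    exact ⟨inferInstance, by rw [finrank_bot]; exact Nat.zero_le _⟩
  | succ N ih =>
    intro J hJ hst
    have hne : J.Nonempty := Finset.card_pos.1 (by omega)
    obtain ⟨i₀, hi, hmax⟩ := Finset.exists_max_image J E.rk hne
    have hst' : ∀ i ∈ J.erase i₀, ∀ j, E.δ i j ≠ 0 → j ∈ J.erase i₀ := by
      intro i hi' j hj
      have h1 := E.tri i j hj
      have h2 := hmax i (Finset.mem_of_mem_erase hi')
      refine Finset.mem_erase.2 ⟨?_, hst i (Finset.mem_of_mem_erase hi') j hj⟩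
      rintro rfl
      omega
    obtain ⟨h1, h2⟩ := ih (J.erase i₀) (by rw [Finset.card_erase_of_mem hi]; omega) hst'
    obtain ⟨h3, h4⟩ := NJ_step E hn p t hst hi hmax h1
    refine ⟨h3, h4.trans ?_⟩
    rw [← Finset.sum_erase_add J _ hi]
    exact Nat.add_le_add_right h2 _

private theorem NN_le (p t : ℤ) : NN E p t ≤ Submodule.map (clk E) (ZJ E p t Finset.univ) := by
  rintro _ ⟨m, hm, h1, rfl⟩
  exact ⟨m, ⟨hm, h1, fun i hi => absurd (Finset.mem_univ i) hi⟩, rfl⟩

private theorem NN_aux (hn : 1 ≤ n) (p t : ℤ) : FiniteDimensional k (NN E p t) ∧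
    Module.finrank k (NN E p t) ≤ ∑ i, ((t + E.e i).natAbs + 1) ^ n := by
  obtain ⟨h1, h2⟩ := NJ_aux E hn p t _ Finset.univ rfl fun _ _ j _ => Finset.mem_univ j
  exact ⟨Submodule.finiteDimensional_of_le (NN_le E p t),
    (Submodule.finrank_mono (NN_le E p t)).trans h2⟩

theorem NN_fin (hn : 1 ≤ n) (p t : ℤ) : FiniteDimensional k (NN E p t) := (NN_aux E hn p t).1

theorem NN_bound (hn : 1 ≤ n) : ∃ C : ℕ, ∀ p t,
    Module.finrank k (NN E p t) ≤ C * (t.natAbs + 1) ^ n := by
  refine ⟨∑ i, ((E.e i).natAbs + 1) ^ n, fun p t => (NN_aux E hn p t).2.trans ?_⟩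
  rw [Finset.sum_mul]
  refine Finset.sum_le_sum fun i _ => ?_
  rw [← mul_pow]
  refine Nat.pow_le_pow_left ?_ n
  have h1 := Int.natAbs_add_le t (E.e i)
  nlinarith [Nat.zero_le ((E.e i).natAbs * t.natAbs)]

end Pool.Agent.PHJ
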