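import Pool.Agent.PHJ.Mod

/-!
# The mapping cone
-/

noncomputable section

namespace Pool.Agent.PHJ

universe u v

open AW

variable {n : ℕ} {k : Type u} [CommRing k]

/-- The matrix of the differential of the cone of `f : E → F`: the first summand is `E[1]`. -/
def coneδ {E F : Obj n k} (f : E.I → F.I → Coc n k) : (E.I ⊕ F.I) → (E.I ⊕ F.I) → Coc n k
  | Sum.inl i, Sum.inl j => -par (E.δ i j)
  | Sum.inl i, Sum.inr j => f i j
  | Sum.inr _, Sum.inl _ => 0
  | Sum.inr i, Sum.inr j => F.δ i j

theorem dif_zero_iff {E F : Obj n k} (f : E.I → F.I → Coc n k) : dif E F 0 f = 0 ↔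
    ∀ i l, d (f i l) + ∑ j, par (f i j) * F.δ j l = ∑ j, E.δ i j * f j l := by
  constructor
  · intro h i l
    have h1 := congrFun (congrFun h i) l
    simp only [dif, sgm, parm, Even.zero, if_true, one_smul, Pi.zero_apply] at h1
    exact sub_eq_zero.1 h1
  · intro h
    funext i l
    simp only [dif, sgm, parm, Even.zero, if_true, one_smul, Pi.zero_apply]
    exact sub_eq_zero.2 (h i l)

/-- The mapping cone of a closed morphism of degree zero. -/
def cone {E F : Obj n k} (f : E.I → F.I → Coc n k) (hf : f ∈ Cl E F 0 0) : Obj n k where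
  I := E.I ⊕ F.I
  e := Sum.elim E.e F.e
  s := Sum.elim (fun i => E.s i - 1) F.s
  rk := Sum.elim (fun i => E.rk i + (Finset.univ.sup F.rk + 1)) F.rk
  δ := coneδ f
  reg_δ := by
    rintro (i | i) (j | j)
    · have h := reg_neg (reg_par (E.reg_δ i j))
      have h1 : E.s i - 1 + 1 - (E.s j - 1) = E.s i + 1 - E.s j := by ring
      simp only [Sum.elim_inl]
      rw [h1]
      exact h
    · have h := hf.1 i j
      simp only [Sum.elim_inl, Sum.elim_inr]
      have h1 : E.s i - 1 + 1 - F.s j = 0 + E.s i - F.s j := by ring
      have h2 : F.e j - E.e i = F.e j - E.e i + 0 := by ring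
      rw [h1, h2]
      exact h
    · exact reg_zero _ _
    · exact F.reg_δ i j
  tri := by
    rintro (i | i) (j | j) h
    · have h1 : E.δ i j ≠ 0 := by
        intro h2
        apply h
        change -par (E.δ i j) = 0
        rw [h2, map_zero, neg_zero]
      have h3 := E.tri i j h1
      simp only [Sum.elim_inl]
      omega
    · simp only [Sum.elim_inl, Sum.elim_inr]
      have h1 : F.rk j ≤ Finset.univ.sup F.rk := Finset.le_sup (Finset.mem_univ j)
      omega
    · exact absurd rfl h
    · exact F.tri i j h
  flat := by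
    have hc := (dif_zero_iff f).1 hf.2
    rintro (i | i) (j | j)
    · rw [Fintype.sum_sum_type]
      change d (-par (E.δ i j)) + (∑ l, par (-par (E.δ i l)) * -par (E.δ l j) +
        ∑ l, par (f i l) * 0) = 0
      have h := congrArg par (E.flat i j)
      rw [map_add, map_sum, map_zero] at h
      simp only [mul_zero, Finset.sum_const_zero, add_zero]
      rw [map_neg, d_par, neg_neg, ← h]
      congr 1
      refine Finset.sum_congr rfl fun l _ => ?_
      rw [map_neg, neg_mul_neg, par_mul]
    · rw [Fintype.sum_sum_type]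
      change d (f i j) + (∑ l, par (-par (E.δ i l)) * f l j + ∑ l, par (f i l) * F.δ l j) = 0
      have h := hc i j
      have h1 : ∑ l, par (-par (E.δ i l)) * f l j = -∑ l, E.δ i l * f l j := by
        rw [← Finset.sum_neg_distrib]
        refine Finset.sum_congr rfl fun l _ => ?_
        rw [map_neg, par_par, neg_mul]
      rw [h1, ← h]
      abel
    · rw [Fintype.sum_sum_type]
      change d (0 : Coc n k) + (∑ l, par (0 : Coc n k) * -par (E.δ l j) +
        ∑ l, par (F.δ i l) * 0) = 0
      simp
    · rw [Fintype.sum_sum_type]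
      change d (F.δ i j) + (∑ l, par (0 : Coc n k) * f l j + ∑ l, par (F.δ i l) * F.δ l j) = 0
      simp only [map_zero, zero_mul, Finset.sum_const_zero, zero_add]
      exact F.flat i j

end Pool.Agent.PHJ
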