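import Pool.Agent.PHJ.Cone

/-!
# The contractions of the Atiyah class of a sum of line bundles vanish
-/

noncomputable section

namespace Pool.Agent.PHJ

universe u v

open AW

variable {n : ℕ} {k : Type u} [CommRing k]

/-- The Leibniz rule: an even cochain followed by a closed morphism. -/
theorem dif_cmp_closed {E F G : Obj n k} (f : E.I → F.I → Coc n k) {g : F.I → G.I → Coc n k}
    (hg : dif F G 0 g = 0) : dif E G 0 (cmp f g) = cmp (dif E F 0 f) g := by
  funext i l
  have h0 := (dif_zero_iff g).1 hg
  simp only [dif, cmp, sgm, parm, Even.zero, if_true, one_smul]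
  have h1 : ∀ j, (d (f i j) + ∑ j_1, par (f i j_1) * F.δ j_1 j - ∑ j_1, E.δ i j_1 * f j_1 j) *
      g j l = d (f i j) * g j l + ∑ m, par (f i m) * (F.δ m j * g j l) -
        ∑ m, E.δ i m * (f m j * g j l) := by
    intro j
    rw [sub_mul, add_mul, Finset.sum_mul, Finset.sum_mul]
    simp only [mul_assoc]
  simp only [h1, Finset.sum_sub_distrib, Finset.sum_add_distrib]
  rw [Finset.sum_comm (f := fun j m => par (f i m) * (F.δ m j * g j l)),
    Finset.sum_comm (f := fun j m => E.δ i m * (f m j * g j l))]
  simp only [← Finset.mul_sum]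
  rw [map_sum]
  simp only [d_mul, Finset.sum_add_distrib]
  have h2 : ∑ x, par (∑ j, f i j * g j x) * G.δ x l =
      ∑ j, par (f i j) * ∑ x, par (g j x) * G.δ x l := by
    simp only [map_sum, par_mul, Finset.sum_mul, Finset.mul_sum]
    rw [Finset.sum_comm]
    refine Finset.sum_congr rfl fun j _ => Finset.sum_congr rfl fun x _ => ?_
    rw [mul_assoc]
  rw [h2]
  have h3 : ∑ j, par (f i j) * ∑ x, F.δ j x * g x l =
      ∑ j, par (f i j) * d (g j l) + ∑ j, par (f i j) * ∑ x, par (g j x) * G.δ x l := by
    rw [← Finset.sum_add_distrib]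
    refine Finset.sum_congr rfl fun j _ => ?_
    rw [← h0 j l, mul_add]
  rw [h3]
  abel

/-- The Leibniz rule: a closed odd cochain followed by an odd cochain. -/
theorem dif_cmp_odd {E F G : Obj n k} {a : E.I → F.I → Coc n k} (h : F.I → G.I → Coc n k)
    (ha : dif E F 1 a = 0) : dif E G 0 (cmp (fun i j => par (a i j)) h) =
      cmp a (dif F G (-1) h) := by
  funext i l
  have e1 : ¬ Even (1 : ℤ) := by decide
  have e2 : ¬ Even (-1 : ℤ) := by decide
  have h0 : ∀ j, par (d (a i j)) =
      -(∑ m, a i m * par (F.δ m j)) - ∑ m, E.δ i m * par (a m j) := by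
    intro j
    have h1 := congrArg par (congrFun (congrFun ha i) j)
    simp only [dif, sgm, parm, if_neg e1, neg_one_smul, sub_neg_eq_add, Pi.zero_apply, map_add,
      map_sum, map_zero, par_mul, par_par] at h1
    rw [add_assoc] at h1
    rw [eq_neg_of_add_eq_zero_left h1]
    abel
  simp only [dif, cmp, sgm, parm, Even.zero, if_true, one_smul, if_neg e2, neg_one_smul,
    sub_neg_eq_add]
  rw [map_sum]
  simp only [d_mul, d_par, par_par, neg_mul, Finset.sum_add_distrib, Finset.sum_neg_distrib,
    mul_add]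
  have h2 : ∑ x, par (∑ j, par (a i j) * h j x) * G.δ x l =
      ∑ j, a i j * ∑ x, par (h j x) * G.δ x l := by
    simp only [map_sum, par_mul, par_par, Finset.sum_mul, Finset.mul_sum]
    rw [Finset.sum_comm]
    refine Finset.sum_congr rfl fun j _ => Finset.sum_congr rfl fun x _ => ?_
    rw [mul_assoc]
  have h3 : ∑ j, par (d (a i j)) * h j l = -(∑ j, a i j * ∑ x, par (F.δ j x) * h x l) -
      ∑ j, E.δ i j * ∑ x, par (a j x) * h x l := by
    simp only [h0, sub_mul, neg_mul, Finset.sum_sub_distrib, Finset.sum_neg_distrib,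
      Finset.sum_mul, Finset.mul_sum]
    rw [Finset.sum_comm, Finset.sum_comm (f := fun j m => E.δ i m * par (a m j) * h j l)]
    simp only [mul_assoc]
  rw [h2, h3]
  abel

/-- The contraction of the Atiyah class is natural. -/
theorem dif_pdf {E F : Obj n k} {f : E.I → F.I → Coc n k} (hf : dif E F 0 f = 0)
    (i : Fin (n + 1)) : dif E F 0 (fun a b => pdc i (f a b)) =
      cmp (at1 E i) f - cmp (fun a b => par (f a b)) (at1 F i) := by
  funext a c
  have h := congrArg (pdL n k i) ((dif_zero_iff f).1 hf a c)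
  rw [map_add, map_sum, map_sum, pdL_apply, pdc_d] at h
  simp only [pdL_apply, pdc_mul, pdc_par, Finset.sum_add_distrib] at h
  simp only [dif, cmp, at1, sgm, parm, Even.zero, if_true, one_smul, Pi.sub_apply]
  rw [sub_eq_sub_iff_add_eq_add, add_assoc]
  exact h

/-- The contraction of the Atiyah class is a cocycle. -/
theorem at1_closed (E : Obj n k) (i : Fin (n + 1)) : at1 E i ∈ Cl E E 1 (-1) := by
  refine ⟨fun a b => ?_, ?_⟩
  · have h := reg_pdc i (E.reg_δ a b)
    have h1 : E.s a + 1 - E.s b = 1 + E.s a - E.s b := by ring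
    have h2 : E.e b - E.e a - 1 = E.e b - E.e a + -1 := by ring
    rw [h1, h2] at h
    exact h
  · funext a c
    have h := congrArg (pdL n k i) (E.flat a c)
    rw [map_add, map_sum, map_zero, pdL_apply, pdc_d] at h
    simp only [pdL_apply, pdc_mul, pdc_par] at h
    have h1 : ¬ Even (1 : ℤ) := by decide
    simp only [dif, sgm, parm, at1, Pi.zero_apply, if_neg h1]
    rw [neg_one_smul, sub_neg_eq_add, add_assoc, ← Finset.sum_add_distrib]
    exact h

theorem cmp_mem {E F G : Obj n k} {p q t t' : ℤ} {f : E.I → F.I → Coc n k}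
    {g : F.I → G.I → Coc n k} (hf : f ∈ Hm E F p t) (hg : g ∈ Hm F G q t') :
    cmp f g ∈ Hm E G (p + q) (t + t') := by
  intro i l
  refine reg_sum _ fun j _ => ?_
  have h := reg_mul (hf i j) (hg j l)
  have h1 : p + E.s i - F.s j + (q + F.s j - G.s l) = p + q + E.s i - G.s l := by ring
  have h2 : F.e j - E.e i + t + (G.e l - F.e j + t') = G.e l - E.e i + (t + t') := by ring
  rwa [h1, h2] at h

/-- The contractions of the Atiyah class of a direct sum of shifted line bundles vanish. -/
theorem at1_of_split {E : Obj n k} (h : IsSplit E) (i : Fin (n + 1)) : at1 E i ∈ Ex E E 1 (-1) := by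
  obtain ⟨B, _, _, e, s, f, hf, g, hg, ⟨w, hw, hw'⟩, -⟩ := h
  have ha := (at1_closed E i).2
  have h1 : dif E (lb n k B e s) 0 (fun a b => pdc i (f a b)) = cmp (at1 E i) f := by
    rw [dif_pdf hf.2 i, sub_eq_self]
    funext a c
    simp only [cmp, at1, lb, Pi.zero_apply]
    refine Finset.sum_eq_zero fun j _ => ?_
    have h2 : pdc i (0 : Coc n k) = 0 := map_zero (pdL n k i)
    rw [h2, mul_zero]
  have h2 := dif_cmp_closed (fun a b => pdc i (f a b)) hg.2
  rw [h1] at h2
  have h3 := dif_cmp_odd w ha
  have h4 : dif E E (-1) w = cmp f g - idm E := hw'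
  rw [h4] at h3
  refine ⟨cmp (fun a b => pdc i (f a b)) g - cmp (fun a b => par (at1 E i a b)) w, ?_, ?_⟩
  · have h5 : (fun a b => pdc i (f a b)) ∈ Hm E (lb n k B e s) 0 (-1) := by
      intro a b
      have h := reg_pdc i (hf.1 a b)
      have h1 : (lb n k B e s).e b - E.e a + 0 - 1 = (lb n k B e s).e b - E.e a + -1 := by ring
      rwa [h1] at h
    have h6 : (fun a b => par (at1 E i a b)) ∈ Hm E E 1 (-1) := fun a b =>
      reg_par ((at1_closed E i).1 a b)
    have h7 := cmp_mem h5 hg.1
    have h8 := cmp_mem h6 hw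
    exact fun a b => reg_sub (h7 a b) (h8 a b)
  · have h5 : ∀ (x y : E.I → E.I → Coc n k), dif E E 0 (x - y) = dif E E 0 x - dif E E 0 y := by
      intro x y
      funext a b
      simp only [dif, sgm, parm, Even.zero, if_true, one_smul, Pi.sub_apply, map_sub, sub_mul,
        mul_sub, Finset.sum_sub_distrib]
      abel
    have h6 : cmp (E := E) (F := E) (G := E) (at1 E i) (cmp f g - idm E) =
        cmp (cmp (at1 E i) f) g - at1 E i := by
      funext a c
      simp only [cmp, Pi.sub_apply, mul_sub, Finset.sum_sub_distrib, Finset.mul_sum,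
        Finset.sum_mul]
      rw [Finset.sum_comm]
      simp only [mul_assoc, idm]
      congr 1
      rw [Finset.sum_eq_single c]
      · rw [if_pos rfl, mul_one]
      · intro j _ hj
        rw [if_neg hj, mul_zero]
      · intro h
        exact absurd (Finset.mem_univ _) h
    change dif E E 0 _ = _
    rw [h5, h2, h3, h6, sub_sub_cancel]

end Pool.Agent.PHJ
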