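import Pool.Agent.PHJ.Cone

/-!
# A morphism with contractible cone is an isomorphism

MODULE PHJ-Inv. PLAN. `H` = contraction of the cone; `g i j = par (H (inr i) (inl j))`, `a i j = par (H (inl i) (inl j))`,
`c i j = H (inr i) (inr j)`. The four blocks of `dif (cone) (cone) (-1) H = idm` (`sgm (-1) = -1`, `parm (-1) = par`,
`Fintype.sum_sum_type`), after `par`:
`(inr, inl)`: `d g + ∑ par g δ_E - ∑ δ_F g = 0`, so `g ∈ Cl F E 0 0`; `(inr, inr)`:
`cmp g f - idm F = dif F F (-1) (-c)`; `(inl, inl)`: `cmp f g - idm E = dif E E (-1) a`. Degrees: the index `inl i`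
of the cone has degree `s i - 1`. (`Ex E E 0 0` uses `Hm E E (0 - 1) 0`: `0 - 1 = -1`.)
-/

noncomputable section

namespace Pool.Agent.PHJ

universe u v

open AW

variable {n : ℕ} {k : Type u} [CommRing k] {E F : Obj n k}

private theorem inv_odd : ¬ Even (-1 : ℤ) := by decide

private theorem inv_dif (G G' : Obj n k) (h : G.I → G'.I → Coc n k) (i : G.I) (l : G'.I) :
    dif G G' (-1) h i l =
      d (h i l) + ∑ j, par (h i j) * G'.δ j l + ∑ j, par (G.δ i j) * h j l := by
  simp only [dif, sgm, parm, if_neg inv_odd, neg_smul, one_smul, sub_neg_eq_add]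

private theorem inv_block {f : E.I → F.I → Coc n k} (hf : f ∈ Cl E F 0 0)
    {H : (cone f hf).I → (cone f hf).I → Coc n k}
    (hd : dif (cone f hf) (cone f hf) (-1) H = idm (cone f hf)) (p q : E.I ⊕ F.I) :
    d (H p q) + (∑ j, par (H p (Sum.inl j)) * coneδ f (Sum.inl j) q +
      ∑ j, par (H p (Sum.inr j)) * coneδ f (Sum.inr j) q) +
      (∑ j, par (coneδ f p (Sum.inl j)) * H (Sum.inl j) q +
        ∑ j, par (coneδ f p (Sum.inr j)) * H (Sum.inr j) q) = if p = q then 1 else 0 := by
  have h1 := congrFun (congrFun hd p) q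
  rw [inv_dif] at h1
  have h2 := Fintype.sum_sum_type (fun j : E.I ⊕ F.I => par (H p j) * coneδ f j q)
  have h3 := Fintype.sum_sum_type (fun j : E.I ⊕ F.I => par (coneδ f p j) * H j q)
  rw [← h2, ← h3]
  exact h1

theorem iso_of_contraction {f : E.I → F.I → Coc n k} (hf : f ∈ Cl E F 0 0)
    (h : ∃ H ∈ Hm (cone f hf) (cone f hf) (-1) 0,
      dif (cone f hf) (cone f hf) (-1) H = idm (cone f hf)) : Iso E F := by
  obtain ⟨H, hH, hd⟩ := h
  have hb := inv_block hf hd
  refine ⟨f, hf, fun i j => par (H (Sum.inr i) (Sum.inl j)), ⟨fun i j => ?_, ?_⟩,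
    ⟨fun i j => par (H (Sum.inl i) (Sum.inl j)), fun i j => ?_, ?_⟩,
    ⟨fun i j => -H (Sum.inr i) (Sum.inr j), fun i j => ?_, ?_⟩⟩
  · have h1 := hH (Sum.inr i) (Sum.inl j)
    have h2 : (-1 : ℤ) + (cone f hf).s (Sum.inr i) - (cone f hf).s (Sum.inl j) =
        0 + F.s i - E.s j := by
      change (-1 : ℤ) + F.s i - (E.s j - 1) = 0 + F.s i - E.s j
      ring
    rw [h2] at h1
    exact reg_par h1
  · rw [dif_zero_iff]
    intro i l
    have h1 := congrArg par (hb (Sum.inr i) (Sum.inl l))
    simp only [coneδ, mul_zero, map_zero, zero_mul, Finset.sum_const_zero, add_zero, zero_add,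
      map_add, map_sum, par_mul, par_par, map_neg, mul_neg, reduceCtorEq, if_false,
      Finset.sum_neg_distrib] at h1
    rw [d_par]
    simp only [par_par]
    rw [← sub_eq_zero, ← neg_eq_zero, ← h1]
    abel
  · have h1 := hH (Sum.inl i) (Sum.inl j)
    have h2 : (-1 : ℤ) + (cone f hf).s (Sum.inl i) - (cone f hf).s (Sum.inl j) =
        0 - 1 + E.s i - E.s j := by
      change (-1 : ℤ) + (E.s i - 1) - (E.s j - 1) = 0 - 1 + E.s i - E.s j
      ring
    rw [h2] at h1
    exact reg_par h1
  · funext i l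
    have h1 := congrArg par (hb (Sum.inl i) (Sum.inl l))
    rw [show (0 : ℤ) - 1 = -1 from rfl, inv_dif]
    have h3 : par (if (Sum.inl i : E.I ⊕ F.I) = Sum.inl l then (1 : Coc n k) else 0) =
        idm E i l := by
      simp only [idm, Sum.inl.injEq]
      split_ifs
      · exact par_one
      · exact map_zero _
    rw [h3] at h1
    simp only [coneδ, mul_zero, map_zero, zero_mul, Finset.sum_const_zero, add_zero, zero_add,
      map_add, map_sum, par_mul, par_par, map_neg, mul_neg, neg_mul,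
      Finset.sum_neg_distrib] at h1
    change _ = (∑ j, f i j * par (H (Sum.inr j) (Sum.inl l))) - idm E i l
    rw [← h1, d_par]
    simp only [par_par]
    abel
  · have h1 := hH (Sum.inr i) (Sum.inr j)
    exact reg_neg h1
  · funext i l
    have h1 := hb (Sum.inr i) (Sum.inr l)
    rw [show (0 : ℤ) - 1 = -1 from rfl, inv_dif]
    have h3 : (if (Sum.inr i : E.I ⊕ F.I) = Sum.inr l then (1 : Coc n k) else 0) =
        idm F i l := by
      simp only [idm, Sum.inr.injEq]
    rw [h3] at h1
    simp only [coneδ, mul_zero, map_zero, zero_mul, Finset.sum_const_zero, add_zero,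
      zero_add] at h1
    change _ = (∑ j, par (H (Sum.inr i) (Sum.inl j)) * f j l) - idm F i l
    simp only [map_neg, neg_mul, mul_neg, Finset.sum_neg_distrib]
    rw [← h1]
    abel

theorem Iso.symm (h : Iso E F) : Iso F E := by
  obtain ⟨f, hf, g, hg, h1, h2⟩ := h
  exact ⟨g, hg, f, hf, h2, h1⟩

end Pool.Agent.PHJ
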