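import Pool.Agent.PHJ.Rank
import Pool.Agent.PHJ.Inv

/-!
# Isomorphisms of sums of line bundles
-/

noncomputable section

namespace Pool.Agent.PHJ

universe u v

open AW

section

variable {n : ℕ} {k : Type u} [CommRing k]

theorem Ex_zero (E F : Obj n k) (m t : ℤ) : (0 : E.I → F.I → Coc n k) ∈ Ex E F m t := by
  refine ⟨0, fun i j => reg_zero _ _, ?_⟩
  funext i l
  simp [dif, parm]

/-- A bijection of the indices that respects all data is an isomorphism. -/
theorem iso_reindex {E F : Obj n k} (σ : E.I ≃ F.I) (he : ∀ i, F.e (σ i) = E.e i)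
    (hs : ∀ i, F.s (σ i) = E.s i) (hδ : ∀ i j, F.δ (σ i) (σ j) = E.δ i j) : Iso E F := by
  have hone : ∀ {a b : ℤ}, a = 0 → b = 0 → (1 : Coc n k) ∈ reg n k a b := by
    intro a b ha hb
    subst ha
    subst hb
    exact reg_one
  have hf1 : (fun i j => if σ i = j then 1 else 0 : E.I → F.I → Coc n k) ∈ Cl E F 0 0 := by
    refine ⟨fun i j => ?_, ?_⟩
    · beta_reduce
      split_ifs with h
      · subst h
        exact hone (by rw [hs]; ring) (by rw [he]; ring)
      · exact reg_zero _ _
    · rw [dif_zero_iff]
      intro i l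
      have h1 : d (if σ i = l then (1 : Coc n k) else 0) = 0 := by
        split_ifs
        · exact d_one
        · exact map_zero _
      rw [h1, zero_add, Finset.sum_eq_single (σ i), Finset.sum_eq_single (σ.symm l)]
      · rw [if_pos rfl, if_pos (σ.apply_symm_apply l), par_one, one_mul, mul_one, ← hδ,
          σ.apply_symm_apply]
      · intro j _ hj
        rw [if_neg, mul_zero]
        intro h
        exact hj (by rw [← h, σ.symm_apply_apply])
      · intro h
        exact absurd (Finset.mem_univ _) h
      · intro j _ hj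
        rw [if_neg (Ne.symm hj), map_zero, zero_mul]
      · intro h
        exact absurd (Finset.mem_univ _) h
  have hf2 : (fun i j => if i = σ j then 1 else 0 : F.I → E.I → Coc n k) ∈ Cl F E 0 0 := by
    refine ⟨fun i j => ?_, ?_⟩
    · beta_reduce
      split_ifs with h
      · subst h
        exact hone (by rw [hs]; ring) (by rw [he]; ring)
      · exact reg_zero _ _
    · rw [dif_zero_iff]
      intro i l
      have h1 : d (if i = σ l then (1 : Coc n k) else 0) = 0 := by
        split_ifs
        · exact d_one
        · exact map_zero _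
      rw [h1, zero_add, Finset.sum_eq_single (σ.symm i), Finset.sum_eq_single (σ l)]
      · rw [if_pos rfl, if_pos (σ.apply_symm_apply i).symm, par_one, one_mul, mul_one, ← hδ,
          σ.apply_symm_apply]
      · intro j _ hj
        rw [if_neg hj, mul_zero]
      · intro h
        exact absurd (Finset.mem_univ _) h
      · intro j _ hj
        rw [if_neg, map_zero, zero_mul]
        intro h
        exact hj (by rw [h, σ.symm_apply_apply])
      · intro h
        exact absurd (Finset.mem_univ _) h
  refine ⟨_, hf1, _, hf2, ?_, ?_⟩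
  · have h : cmp (E := E) (F := F) (G := E) (fun i j => if σ i = j then 1 else 0)
        (fun i j => if i = σ j then 1 else 0) - idm E = 0 := by
      funext i l
      change ∑ j, (if σ i = j then (1 : Coc n k) else 0) * (if j = σ l then 1 else 0) -
        (if i = l then 1 else 0) = 0
      rw [Finset.sum_eq_single (σ i)]
      · rw [if_pos rfl, one_mul]
        by_cases h : i = l
        · rw [if_pos h, if_pos (by rw [h]), sub_self]
        · rw [if_neg h, if_neg (fun h1 => h (σ.injective h1)), sub_self]
      · intro j _ hj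
        rw [if_neg (Ne.symm hj), zero_mul]
      · intro h
        exact absurd (Finset.mem_univ _) h
    rw [h]
    exact Ex_zero E E 0 0
  · have h : cmp (E := F) (F := E) (G := F) (fun i j => if i = σ j then 1 else 0)
        (fun i j => if σ i = j then 1 else 0) - idm F = 0 := by
      funext i l
      change ∑ j, (if i = σ j then (1 : Coc n k) else 0) * (if σ j = l then 1 else 0) -
        (if i = l then 1 else 0) = 0
      rw [Finset.sum_eq_single (σ.symm i)]
      · rw [if_pos (σ.apply_symm_apply i).symm, one_mul, σ.apply_symm_apply, sub_self]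
      · intro j _ hj
        rw [if_neg, zero_mul]
        intro h
        exact hj (by rw [h, σ.symm_apply_apply])
      · intro h
        exact absurd (Finset.mem_univ _) h
    rw [h]
    exact Ex_zero F F 0 0

theorem Iso.refl (E : Obj n k) : Iso E E :=
  iso_reindex (Equiv.refl _) (fun _ => rfl) (fun _ => rfl) fun _ _ => rfl

theorem sgm_smul_parm_zero (m : ℤ) : sgm m • parm m (0 : Coc n k) = 0 := by
  unfold parm
  split_ifs
  · exact smul_zero _
  · rw [map_zero, smul_zero]

variable {A : Obj n k → Prop}

/-- A triangulated subcategory is closed under direct sums. -/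
theorem tri_sum (hA : IsTri A) {E F : Obj n k} (hE : A E) (hF : A F) : A (sum E F) := by
  have h0 : (0 : (shift E (-1)).I → F.I → Coc n k) ∈ Cl (shift E (-1)) F 0 0 := by
    refine ⟨fun i j => reg_zero _ _, ?_⟩
    rw [dif_zero_iff]
    intro i l
    simp
  refine hA.iso (cone (E := shift E (-1)) 0 h0) (sum E F) ?_
    (hA.cone _ _ 0 h0 (hA.shift E (-1) hE) hF)
  refine iso_reindex (Equiv.refl _) ?_ ?_ ?_
  · rintro (i | i) <;> rfl
  · rintro (i | i)
    · change E.s i = E.s i - -1 - 1
      ring
    · rfl
  · have h1 : sgm (-1) = -1 := by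
      unfold sgm
      rw [if_neg (by decide)]
    have h2 : ∀ a : Coc n k, parm (-1) a = par a := fun a => by
      unfold parm
      rw [if_neg (by decide)]
    rintro (i | i) (j | j)
    · change E.δ i j = -par (sgm (-1) • parm (-1) (E.δ i j))
      rw [h1, h2, neg_one_smul, map_neg, neg_neg, par_par]
    · rfl
    · rfl
    · rfl

/-- The shifted line bundle `O(d)[-s]`. -/
def ob (n : ℕ) (k : Type u) [CommRing k] (d s : ℤ) : Obj n k :=
  lb n k Unit (fun _ => d) (fun _ => s)

/-- Direct summands of a sum of line bundles. -/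
theorem tri_ob_of_lb (hA : IsTri A) {B : Type} [Fintype B] [DecidableEq B] {e s : B → ℤ}
    (h : A (lb n k B e s)) (b : B) : A (ob n k (e b) (s b)) := by
  refine hA.summand _ (lb n k {x // x ≠ b} (fun x => e x) (fun x => s x)) ?_
  refine hA.iso _ _ (Iso.symm ?_) h
  refine iso_reindex (E := sum (ob n k (e b) (s b))
    (lb n k {x // x ≠ b} (fun x => e x) (fun x => s x))) (F := lb n k B e s)
    (((Equiv.ofUnique Unit {x // x = b}).sumCongr (Equiv.refl _)).trans
      (Equiv.sumCompl fun x => x = b)) ?_ ?_ ?_
  · rintro (i | i) <;> rfl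
  · rintro (i | i) <;> rfl
  · rintro (i | i) (j | j) <;> rfl

theorem tri_ob_shift (hA : IsTri A) {d s : ℤ} (h : A (ob n k d s)) (s' : ℤ) :
    A (ob n k d s') := by
  refine hA.iso (shift (ob n k d s) (s - s')) _ ?_ (hA.shift _ _ h)
  refine iso_reindex (Equiv.refl _) (fun i => rfl) (fun i => ?_) fun i j => ?_
  · change s' = s - (s - s')
    ring
  · exact (sgm_smul_parm_zero _).symm

theorem tri_lb_of_ob (hA : IsTri A) {d : ℤ} (h : ∀ s, A (ob n k d s)) :
    ∀ (m : ℕ) (B : Type) [Fintype B] [DecidableEq B] (s : B → ℤ), Fintype.card B = m →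
      A (lb n k B (fun _ => d) s) := by
  intro m
  induction m with
  | zero =>
    intro B _ _ s hB
    have := Fintype.card_eq_zero_iff.1 hB
    refine hA.iso (zeroObj n k) _ ?_ hA.zero
    exact iso_reindex (E := zeroObj n k) (F := lb n k B (fun _ => d) s)
      (Equiv.equivOfIsEmpty Empty B)
      (fun i => i.elim) (fun i => i.elim) fun i => i.elim
  | succ m ih =>
    intro B _ _ s hB
    have hne : Nonempty B := by
      rw [← Fintype.card_pos_iff, hB]
      exact Nat.succ_pos m
    obtain ⟨b⟩ := hne
    have h1 : Fintype.card {x // x ≠ b} = m := by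
      rw [Fintype.card_subtype_compl, Fintype.card_subtype_eq, hB, Nat.add_sub_cancel]
    refine hA.iso _ _ ?_ (tri_sum hA (h (s b)) (ih {x // x ≠ b} (fun x => s x) h1))
    refine iso_reindex (E := sum (ob n k d (s b))
      (lb n k {x // x ≠ b} (fun _ => d) (fun x => s x))) (F := lb n k B (fun _ => d) s)
      (((Equiv.ofUnique Unit {x // x = b}).sumCongr (Equiv.refl _)).trans
        (Equiv.sumCompl fun x => x = b)) ?_ ?_ ?_
    · rintro (i | i) <;> rfl
    · rintro (i | i) <;> rfl
    · rintro (i | i) (j | j) <;> rfl

end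

end Pool.Agent.PHJ
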