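import Pool.Agent.PHJ.Main
import Pool.Agent.PHJ.IsoL

/-!
# Phantoms; subcategories all of whose objects split
-/

noncomputable section

namespace Pool.Agent.PHJ

universe u v

open AW

variable {n : ℕ} {k : Type u}

theorem iso_zero_of_empty [CommRing k] {E : Obj n k} {B : Type} [Fintype B] [DecidableEq B]
    [IsEmpty B] {e s : B → ℤ} (h : Iso E (lb n k B e s)) : Iso E (zeroObj n k) := by
  obtain ⟨f, hf, g, hg, h1, h2⟩ := h
  refine ⟨fun _ b => b.elim, ⟨fun _ b => b.elim, ?_⟩, fun b _ => b.elim, ⟨fun b _ => b.elim, ?_⟩,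
    ?_, ⟨0, fun i j => reg_zero _ _, ?_⟩⟩
  · funext a b
    exact b.elim
  · funext b a
    exact b.elim
  · have h3 : cmp (E := E) (F := zeroObj n k) (G := E) (fun _ b => b.elim) (fun b _ => b.elim) =
        cmp f g := by
      funext i l
      change ∑ j : Empty, _ = ∑ j : B, _
      rw [Finset.univ_eq_empty, Finset.univ_eq_empty, Finset.sum_empty, Finset.sum_empty]
    rw [h3]
    exact h1
  · funext b a
    exact b.elim

theorem ob_ne [Field k] {A : Obj n k → Prop} (h0 : ∀ E, A E → rank E = 0) {d s : ℤ}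
    (h : A (ob n k d s)) : False := by
  have h1 := h0 _ h
  have h2 : rank (ob n k d s) = sgm s := by
    unfold rank
    change ∑ i : Unit, sgm s = _
    rw [Finset.univ_unique, Finset.sum_singleton]
  rw [h2] at h1
  have h3 := sgm_mul_self s
  rw [h1] at h3
  exact zero_ne_one h3

theorem zero_of_rank [Field k] [CharZero k] (hn : 1 ≤ n) {A : Obj n k → Prop} (hA : IsTri A)
    (h0 : ∀ E, A E → rank E = 0) {E : Obj n k} (hE : A E) (h : ∀ i, at1 E i ∈ Ex E E 1 (-1)) :
    Iso E (zeroObj n k) := by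
  obtain ⟨B, _, _, e, s, hiso⟩ := split_of_at1 hn E h
  have h1 := hA.iso _ _ hiso hE
  rcases isEmpty_or_nonempty B with hB | ⟨⟨b⟩⟩
  · exact iso_zero_of_empty hiso
  · exact (ob_ne h0 (tri_ob_of_lb hA h1 b)).elim

/-- A subcategory with trivial Grothendieck group contains no nonzero object for which the
contractions of the Atiyah class vanish. -/
theorem zero_of_at1 [Field k] [CharZero k] (hn : 1 ≤ n) {A : Obj n k → Prop} (hA : IsTri A)
    (h0 : Subsingleton (K0 A)) {E : Obj n k} (hE : A E) (h : ∀ i, at1 E i ∈ Ex E E 1 (-1)) :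
    Iso E (zeroObj n k) :=
  zero_of_rank hn hA (fun _ hE => rank_eq_zero h0 hE) hE h

/-- The morphism `O(a) → O(b)` given by a power of `x_0`. -/
def pw (n : ℕ) (k : Type u) [CommRing k] (a b : ℤ) :
    (ob n k a 0).I → (ob n k b 0).I → Coc n k :=
  fun _ _ => (mono (Pi.single 0 (b - a)) : Lau n k) • (1 : Coc n k)

theorem pw_at [CommRing k] (a b : ℤ) (i) (j) (K : Finset (Fin (n + 1))) :
    (pw n k a b i j).at' K = if K.card = 1 then mono (Pi.single 0 (b - a)) else 0 := by
  unfold pw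
  rw [at_smul, at_one, smul_eq_mul, mul_ite, mul_one, mul_zero]

theorem pw_cl [CommRing k] {a b : ℤ} (h : a < b) :
    pw n k a b ∈ Cl (ob n k a 0) (ob n k b 0) 0 0 := by
  classical
  refine ⟨fun i j I u hu => ?_, ?_⟩
  · rw [pw_at] at hu
    change (I.card : ℤ) = 0 + 0 - 0 + 1 ∧ ∑ i, u i = b - a + 0 ∧ ∀ i ∉ I, 0 ≤ u i
    split_ifs at hu with hI
    · rw [coeff_mono] at hu
      have h1 : u = Pi.single 0 (b - a) := by
        by_contra h1
        exact hu (if_neg h1)
      subst h1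
      refine ⟨by rw [hI]; norm_num, ?_, fun i _ => ?_⟩
      · rw [Finset.sum_pi_single', if_pos (Finset.mem_univ _), add_zero]
      · by_cases hi : i = 0
        · subst hi
          rw [Pi.single_eq_same]
          linarith
        · rw [Pi.single_eq_of_ne hi]
    · exact absurd rfl hu
  · rw [dif_zero_iff]
    intro i l
    have h1 : AW.d (pw n k a b i l) = 0 := by
      unfold pw
      rw [map_smul, d_one, smul_zero]
    have h2 : ∀ j, (ob n k b 0).δ j l = 0 := fun _ => rfl
    have h3 : ∀ j, (ob n k a 0).δ i j = 0 := fun _ => rfl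
    simp only [h1, h2, h3, mul_zero, zero_mul, Finset.sum_const_zero, add_zero]

theorem dif_cone_lr [CommRing k] {E F : Obj n k} (f : E.I → F.I → Coc n k) (hf : f ∈ Cl E F 0 0)
    (m : ℤ) (w : (E.I ⊕ F.I) → (E.I ⊕ F.I) → Coc n k) (i : E.I) (l : F.I) :
    dif (cone f hf) (cone f hf) m w (Sum.inl i) (Sum.inr l) = AW.d (w (Sum.inl i) (Sum.inr l)) +
      (∑ j, par (w (Sum.inl i) (Sum.inl j)) * f j l +
        ∑ j, par (w (Sum.inl i) (Sum.inr j)) * F.δ j l) -
      sgm m • (∑ j, parm m (-par (E.δ i j)) * w (Sum.inl j) (Sum.inr l) +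
        ∑ j, parm m (f i j) * w (Sum.inr j) (Sum.inr l)) := by
  have h1 : ∑ j : (cone f hf).I, par (w (Sum.inl i) j) * (cone f hf).δ j (Sum.inr l) =
      ∑ j, par (w (Sum.inl i) (Sum.inl j)) * f j l +
        ∑ j, par (w (Sum.inl i) (Sum.inr j)) * F.δ j l :=
    Fintype.sum_sum_type fun j : E.I ⊕ F.I => par (w (Sum.inl i) j) * coneδ f j (Sum.inr l)
  have h2 : ∑ j : (cone f hf).I, parm m ((cone f hf).δ (Sum.inl i) j) * w j (Sum.inr l) =
      ∑ j, parm m (-par (E.δ i j)) * w (Sum.inl j) (Sum.inr l) +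
        ∑ j, parm m (f i j) * w (Sum.inr j) (Sum.inr l) :=
    Fintype.sum_sum_type fun j : E.I ⊕ F.I => parm m (coneδ f (Sum.inl i) j) * w j (Sum.inr l)
  exact congrArg₂ (fun x y => AW.d (w (Sum.inl i) (Sum.inr l)) + x - sgm m • y) h1 h2

/-- The index of the summand of `ob`. -/
def pt (n : ℕ) (k : Type u) [CommRing k] (a s : ℤ) : (ob n k a s).I := ()

instance [CommRing k] (a s : ℤ) : Unique (ob n k a s).I := inferInstanceAs (Unique Unit)

theorem eq_of_key [Field k] [CharZero k] (hn : 1 ≤ n) {a b : ℤ} (h : a < b) {x y : Coc n k}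
    (hx : x ∈ reg n k 0 (-1)) (hy : y ∈ reg n k 0 (-1))
    (key : x.at' {Fin.last n} * mono (Pi.single 0 (b - a)) -
      mono (Pi.single 0 (b - a)) * y.at' {Fin.last n} = pd 0 (mono (Pi.single 0 (b - a)))) :
    False := by
  classical
  have hv : (0 : Fin (n + 1)) ≠ Fin.last n := by
    intro h1
    have h2 := congrArg Fin.val h1
    rw [Fin.val_last, Fin.val_zero] at h2
    omega
  have hz : ∀ {z : Coc n k}, z ∈ reg n k 0 (-1) →
      (z.at' {Fin.last n}).coeff (Pi.single 0 (-1)) = 0 := by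
    intro z hz
    by_contra hne
    have h1 := (hz _ _ hne).2.2 0 (by rw [Finset.mem_singleton]; exact hv)
    rw [Pi.single_eq_same] at h1
    linarith
  have key2 := congrArg (fun f : Lau n k => f.coeff (Pi.single 0 (b - a - 1))) key
  beta_reduce at key2
  have h5 : (Pi.single 0 (b - a - 1) : Fin (n + 1) → ℤ) - Pi.single 0 (b - a) =
      Pi.single 0 (-1) := by
    rw [← Pi.single_sub]
    congr 1
    ring
  have h6 : (Pi.single 0 (b - a - 1) : Fin (n + 1) → ℤ) + Pi.single 0 1 =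
      Pi.single 0 (b - a) := by
    rw [← Pi.single_add]
    congr 1
    ring
  rw [mul_comm, ← mul_sub, coeff_mono_mul, coeff_pd, h5, h6, coeff_mono, if_pos rfl,
    AddMonoidAlgebra.coeff_sub, Finsupp.sub_apply, hz hx, hz hy, sub_zero, mul_one,
    Pi.single_eq_same, sub_add_cancel] at key2
  have h7 : b - a = 0 := by exact_mod_cast key2.symm
  linarith

/-- The cone of a power of `x_0` is not a sum of shifted line bundles. -/
theorem pw_not_split [Field k] [CharZero k] (hn : 1 ≤ n) {a b : ℤ} (h : a < b)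
    (hs : IsSplit (cone (pw n k a b) (pw_cl h))) : False := by
  obtain ⟨w, hw, hd⟩ := at1_of_split hs 0
  have e1 : ∀ x : Coc n k, (AW.d x).at' {Fin.last n} = 0 := by
    intro x
    rw [at_d, Finset.sum_singleton, Finset.erase_singleton, at_empty, mul_zero]
  have e2 : ∀ x y : Coc n k, (x * y).at' {Fin.last n} =
      x.at' {Fin.last n} * y.at' {Fin.last n} := by
    intro x y
    rw [at_mul, Finset.sum_singleton, Finset.filter_singleton, Finset.filter_singleton,
      if_pos le_rfl]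
  have e3 : ∀ x : Coc n k, (par x).at' {Fin.last n} = x.at' {Fin.last n} := by
    intro x
    rw [at_par, Finset.card_singleton, pow_one, neg_neg, one_mul]
  have e4 : ∀ i j, (pw n k a b i j).at' {Fin.last n} = mono (Pi.single 0 (b - a)) := by
    intro i j
    rw [pw_at, if_pos (Finset.card_singleton _)]
  have h0 : Even (1 - 1 : ℤ) := by decide
  have hpm : ∀ x : Coc n k, parm (1 - 1) x = x := by
    intro x
    unfold parm
    rw [if_pos h0]
  have key := congrFun (congrFun hd (Sum.inl (pt n k a 0))) (Sum.inr (pt n k b 0))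
  have key1 := (dif_cone_lr (pw n k a b) (pw_cl h) (1 - 1) w (pt n k a 0) (pt n k b 0)).symm.trans
    key
  clear key hd
  have hsg : sgm (1 - 1) = 1 := by
    unfold sgm
    rw [if_pos h0]
  rw [hsg, one_smul] at key1
  have key2 := congrArg (fun c : Coc n k => c.at' {Fin.last n}) key1
  beta_reduce at key2
  have hr : (at1 (cone (pw n k a b) (pw_cl h)) 0 (Sum.inl (pt n k a 0))
      (Sum.inr (pt n k b 0))).at' {Fin.last n} = pd 0 (mono (Pi.single 0 (b - a))) := by
    change pd 0 ((pw n k a b (pt n k a 0) (pt n k b 0)).at' {Fin.last n}) = _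
    rw [e4]
  rw [hr, at_sub, at_add, at_add, at_add, e1, zero_add, at_sum, at_sum, at_sum, at_sum] at key2
  have u1 : ∀ g : (ob n k a 0).I → Lau n k, ∑ j, g j = g (pt n k a 0) := fun g =>
    Fintype.sum_unique g
  have u2 : ∀ g : (ob n k b 0).I → Lau n k, ∑ j, g j = g (pt n k b 0) := fun g =>
    Fintype.sum_unique g
  rw [u1, u1, u2, u2] at key2
  have z1 : ∀ i j, (ob n k b 0).δ i j = 0 := fun _ _ => rfl
  have z2 : ∀ i j, (ob n k a 0).δ i j = 0 := fun _ _ => rfl
  rw [z1, z2, hpm, hpm, map_zero, neg_zero, zero_mul, mul_zero, at_zero, zero_add, add_zero, e2,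
    e2, e3, e4] at key2
  refine eq_of_key hn h ?_ ?_ key2
  · have h1 := hw (Sum.inl (pt n k a 0)) (Sum.inl (pt n k a 0))
    change _ ∈ reg n k (1 - 1 + (0 - 1) - (0 - 1)) (a - a + -1) at h1
    have h2 : (1 - 1 + (0 - 1) - (0 - 1) : ℤ) = 0 := by norm_num
    have h3 : a - a + -1 = -1 := by ring
    rwa [h2, h3] at h1
  · have h1 := hw (Sum.inr (pt n k b 0)) (Sum.inr (pt n k b 0))
    change _ ∈ reg n k (1 - 1 + 0 - 0) (b - b + -1) at h1
    have h2 : (1 - 1 + 0 - 0 : ℤ) = 0 := by norm_num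
    have h3 : b - b + -1 = -1 := by ring
    rwa [h2, h3] at h1

/-- A nonzero subcategory all of whose objects are sums of shifted line bundles is generated by
one line bundle. -/
theorem line_of_split [Field k] [CharZero k] (hn : 1 ≤ n) {A : Obj n k → Prop} (hA : IsTri A)
    (hz : ∃ E, A E ∧ ¬ Iso E (zeroObj n k)) (hs : ∀ E, A E → IsSplit E) :
    ∃ a : ℤ, ∀ E, A E ↔ ∃ (B : Type) (_ : Fintype B) (_ : DecidableEq B) (s : B → ℤ),
      Iso E (lb n k B (fun _ => a) s) := by
  have hlt : ∀ a b : ℤ, (∃ s, A (ob n k a s)) → (∃ s, A (ob n k b s)) → ¬ a < b := by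
    rintro a b ⟨s, ha⟩ ⟨s', hb⟩ hab
    exact pw_not_split hn hab (hs _ (hA.cone _ _ _ _ (tri_ob_shift hA ha 0)
      (tri_ob_shift hA hb 0)))
  obtain ⟨E, hE, hEz⟩ := hz
  obtain ⟨B, _, _, e, s, hiso⟩ := hs E hE
  have hne : Nonempty B := by
    rw [← not_isEmpty_iff]
    intro hB
    exact hEz (iso_zero_of_empty hiso)
  obtain ⟨b⟩ := hne
  have hb := tri_ob_of_lb hA (hA.iso _ _ hiso hE) b
  refine ⟨e b, fun E' => ⟨fun hE' => ?_, ?_⟩⟩
  · obtain ⟨B', _, _, e', s', hiso'⟩ := hs E' hE'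
    have h1 : e' = fun _ => e b := by
      funext b'
      have hb' := tri_ob_of_lb hA (hA.iso _ _ hiso' hE') b'
      have h2 := hlt _ _ ⟨_, hb⟩ ⟨_, hb'⟩
      have h3 := hlt _ _ ⟨_, hb'⟩ ⟨_, hb⟩
      omega
    subst h1
    exact ⟨B', inferInstance, inferInstance, s', hiso'⟩
  · rintro ⟨B', _, _, s', hiso'⟩
    exact hA.iso _ _ (Iso.symm hiso') (tri_lb_of_ob hA (fun s => tri_ob_shift hA hb s) _ B' s' rfl)

end Pool.Agent.PHJ
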