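import Pool.Agent.PHJ.Mod

/-!
# An object without cohomology is contractible

The contraction is constructed by induction on the rank of the basis elements.
-/

noncomputable section

namespace Pool.Agent.PHJ

universe u v

open AW

variable {n : ℕ} {k : Type u} [CommRing k] (E : Obj n k)

private theorem wb_gr (i : E.I) : wb E i ∈ gr E (E.s i) (-E.e i) := by
  intro j
  unfold wb
  split_ifs with h
  · subst h
    rw [show E.s i - E.s i = 0 by ring, show -E.e i + E.e i = 0 by ring]
    exact reg_one
  · exact reg_zero _ _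

private theorem step (h : ∀ t, ExactAt E t) (f : E.I → MM E)
    (hf : ∀ i, f i ∈ gr E (E.s i - 1) (-E.e i)) (i : E.I)
    (hr : ∀ j, E.rk j < E.rk i → DD E (f j) = wb E j - ∑ l, lm E (par (E.δ j l)) (f l)) :
    ∃ x ∈ gr E (E.s i - 1) (-E.e i), DD E x = wb E i - ∑ j, lm E (par (E.δ i j)) (f j) := by
  refine h (-E.e i) (E.s i) _ (Submodule.sub_mem _ (wb_gr E i) (Submodule.sum_mem _ fun j _ => ?_)) ?_
  · have h1 := gr_lm E (reg_par (E.reg_δ i j)) (hf j)
    rwa [show E.s i + 1 - E.s j + (E.s j - 1) = E.s i by ring,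
      show E.e j - E.e i + -E.e j = -E.e i by ring] at h1
  · funext l
    rw [map_sub, map_sum, Pi.sub_apply, Finset.sum_apply, DD_wb, Pi.zero_apply]
    have h1 : ∀ j, DD E (lm E (par (E.δ i j)) (f j)) l =
        -(par (d (E.δ i j)) * f j l) + (E.δ i j * wb E j l -
          ∑ m, E.δ i j * par (E.δ j m) * f m l) := by
      intro j
      rw [DD_lm, d_par, par_par, Pi.add_apply]
      by_cases h2 : E.δ i j = 0
      · rw [h2]
        simp only [lm, map_zero, neg_zero, zero_mul, Finset.sum_const_zero, sub_zero, add_zero]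
      · rw [hr j (E.tri i j h2)]
        have h3 : ∀ a : Coc n k, lm E a (wb E j - ∑ l, lm E (par (E.δ j l)) (f l)) l =
            a * wb E j l - ∑ m, a * par (E.δ j m) * f m l := by
          intro a
          unfold lm
          rw [Pi.sub_apply, Finset.sum_apply, mul_sub, Finset.mul_sum]
          congr 1
          exact Finset.sum_congr rfl fun m _ => (mul_assoc _ _ _).symm
        rw [h3]
        unfold lm
        rw [neg_mul]
    rw [Finset.sum_congr rfl fun j _ => h1 j, Finset.sum_add_distrib, Finset.sum_neg_distrib,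
      Finset.sum_sub_distrib, Finset.sum_comm (s := Finset.univ) (t := Finset.univ)
        (f := fun j m => E.δ i j * par (E.δ j m) * f m l)]
    have h4 : ∑ j, E.δ i j * wb E j l = E.δ i l := by
      rw [Finset.sum_eq_single l]
      · unfold wb
        rw [if_pos rfl, mul_one]
      · intro j _ hj
        unfold wb
        rw [if_neg hj, mul_zero]
      · intro h5
        exact absurd (Finset.mem_univ _) h5
    have h5 : ∀ m, ∑ j, E.δ i j * par (E.δ j m) * f m l = -(par (d (E.δ i m)) * f m l) := by
      intro m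
      have h6 := congrArg par (E.flat i m)
      rw [map_add, map_sum, map_zero] at h6
      have h7 : ∑ j, par (par (E.δ i j) * E.δ j m) = ∑ j, E.δ i j * par (E.δ j m) :=
        Finset.sum_congr rfl fun j _ => by rw [par_mul, par_par]
      rw [h7] at h6
      rw [← Finset.sum_mul, eq_neg_iff_add_eq_zero, ← add_mul, add_comm (∑ j, _) (par _), h6, zero_mul]
    rw [h4, Finset.sum_congr rfl fun m _ => h5 m, Finset.sum_neg_distrib]
    abel

theorem exists_contraction (h : ∀ t, ExactAt E t) :
    ∃ f ∈ Hm E E (-1) 0, dif E E (-1) f = idm E := by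
  have key : ∀ m : ℕ, ∃ f : E.I → MM E, (∀ i, f i ∈ gr E (E.s i - 1) (-E.e i)) ∧
      ∀ i, E.rk i < m → DD E (f i) = wb E i - ∑ j, lm E (par (E.δ i j)) (f j) := by
    intro m
    induction m with
    | zero => exact ⟨fun _ => 0, fun i => Submodule.zero_mem _, fun i hi => absurd hi (Nat.not_lt_zero _)⟩
    | succ m ih =>
      obtain ⟨f, hf, hr⟩ := ih
      have h1 : ∀ i, ∃ x ∈ gr E (E.s i - 1) (-E.e i), (E.rk i ≠ m → x = f i) ∧
          (E.rk i = m → DD E x = wb E i - ∑ j, lm E (par (E.δ i j)) (f j)) := by
        intro i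
        by_cases hi : E.rk i = m
        · obtain ⟨x, hx, hx'⟩ := step E h f hf i fun j hj => hr j (hi ▸ hj)
          exact ⟨x, hx, fun h2 => absurd hi h2, fun _ => hx'⟩
        · exact ⟨f i, hf i, fun _ => rfl, fun h2 => absurd h2 hi⟩
      choose g hg hg1 hg2 using h1
      have h2 : ∀ i, E.rk i < m + 1 → ∑ j, lm E (par (E.δ i j)) (g j) =
          ∑ j, lm E (par (E.δ i j)) (f j) := by
        intro i hi
        refine Finset.sum_congr rfl fun j _ => ?_
        by_cases h3 : E.δ i j = 0
        · rw [h3]
          funext l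
          simp only [lm, map_zero, zero_mul]
        · have h4 := E.tri i j h3
          rw [hg1 j (by omega)]
      refine ⟨g, hg, fun i hi => ?_⟩
      rw [h2 i hi]
      by_cases h3 : E.rk i = m
      · exact hg2 i h3
      · rw [hg1 i h3]
        exact hr i (by omega)
  obtain ⟨f, hf, hr⟩ := key (∑ i, E.rk i + 1)
  refine ⟨f, fun i j => ?_, ?_⟩
  · have h1 := hf i j
    rwa [show E.s i - 1 - E.s j = -1 + E.s i - E.s j by ring,
      show -E.e i + E.e j = E.e j - E.e i + 0 by ring] at h1
  · funext i l
    have h1 : E.rk i < ∑ i, E.rk i + 1 :=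
      Nat.lt_succ_of_le (Finset.single_le_sum (f := fun i => E.rk i) (fun _ _ => Nat.zero_le _)
        (Finset.mem_univ i))
    have h2 := congrFun (hr i h1) l
    rw [DD_apply, Pi.sub_apply, Finset.sum_apply] at h2
    have hodd : ¬ Even (-1 : ℤ) := by decide
    unfold dif sgm parm idm
    rw [if_neg hodd, h2]
    simp only [if_neg hodd]
    unfold wb lm
    rw [neg_smul, one_smul]
    abel

end Pool.Agent.PHJ
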