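import Pool.Agent.PHJ.Pdc

/-!
# Contraction of the Cech complex in the multidegrees with a non-negative exponent

The contraction is the cone construction with the vertex `v(u)`, a vertex with `0 ≤ u v`.
-/

noncomputable section

namespace Pool.Agent.PHJ

universe u v

open AW

variable {n : ℕ} {k : Type u} [CommRing k]

/-! ### Signs -/

private theorem sg_sq (K : Finset (Fin (n + 1))) (w : Fin (n + 1)) : sg K w * sg K w = 1 := by
  unfold sg
  rw [← mul_pow, neg_one_mul, neg_neg, one_pow]

private theorem sg_sq' (K : Finset (Fin (n + 1))) (w : Fin (n + 1)) : ((sg K w : ℤ) : k) * (sg K w : k) = 1 := by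
  rw [← Int.cast_mul, sg_sq, Int.cast_one]

private theorem sg_insert {K : Finset (Fin (n + 1))} {i : Fin (n + 1)} (hi : i ∉ K) (w : Fin (n + 1)) :
    sg (insert i K) w = sg K w * (if i < w then -1 else 1) := by
  unfold sg
  rw [Finset.filter_insert]
  split_ifs with h
  · rw [Finset.card_insert_of_notMem (fun h' => hi (Finset.mem_filter.1 h').1), pow_succ]
  · rw [mul_one]

private theorem sg_pair {K : Finset (Fin (n + 1))} {i w : Fin (n + 1)} (hi : i ∉ K) (hw : w ∈ K) :
    sg (insert i K) i * sg (insert i K) w + sg K w * sg ((insert i K).erase w) i = 0 := by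
  have hiw : i ≠ w := by
    rintro rfl
    exact hi hw
  have h1 := sg_insert hi w
  have h2 : insert w ((insert i K).erase w) = insert i K :=
    Finset.insert_erase (Finset.mem_insert_of_mem hw)
  have h3 := sg_insert (Finset.notMem_erase w (insert i K)) i
  rw [h2] at h3
  rw [h1, h3]
  rcases lt_or_gt_of_ne hiw with h | h
  · rw [if_pos h, if_neg (not_lt.2 h.le)]
    ring
  · rw [if_pos h, if_neg (not_lt.2 h.le)]
    ring

/-! ### The homotopy for functions with values in `k` -/

private def dk (c : Finset (Fin (n + 1)) → k) (K : Finset (Fin (n + 1))) : k :=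
  ∑ w ∈ K, (sg K w : k) * c (K.erase w)

private def hk (i : Fin (n + 1)) (c : Finset (Fin (n + 1)) → k) (K : Finset (Fin (n + 1))) : k :=
  if K ≠ ∅ ∧ i ∉ K then (sg (insert i K) i : k) * c (insert i K) else 0

private theorem dk_hk (i : Fin (n + 1)) (c : Finset (Fin (n + 1)) → k) {K : Finset (Fin (n + 1))}
    (hK : 2 ≤ K.card) : dk (hk i c) K + hk i (dk c) K = c K := by
  have hK0 : K ≠ ∅ := by
    rintro rfl
    simp at hK
  have hKe : ∀ w ∈ K, K.erase w ≠ ∅ := by
    intro w hw h
    have h1 := Finset.card_erase_of_mem hw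
    rw [h, Finset.card_empty] at h1
    omega
  by_cases hi : i ∈ K
  · have h1 : hk i (dk c) K = 0 := if_neg fun h => h.2 hi
    rw [h1, add_zero]
    unfold dk
    rw [Finset.sum_eq_single i]
    · unfold hk
      rw [if_pos ⟨hKe i hi, Finset.notMem_erase i K⟩, Finset.insert_erase hi, ← mul_assoc, sg_sq', one_mul]
    · intro w _ hne
      unfold hk
      rw [if_neg fun h => h.2 (Finset.mem_erase.2 ⟨hne.symm, hi⟩), mul_zero]
    · intro h
      exact absurd hi h
  · have h1 : hk i (dk c) K = (sg (insert i K) i : k) * dk c (insert i K) := if_pos ⟨hK0, hi⟩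
    rw [h1]
    unfold dk
    rw [Finset.sum_insert hi, Finset.erase_insert hi, mul_add, ← mul_assoc, sg_sq', one_mul, add_left_comm,
      Finset.mul_sum, ← Finset.sum_add_distrib, Finset.sum_eq_zero, add_zero]
    intro w hw
    have hiw : i ≠ w := by
      rintro rfl
      exact hi hw
    have h2 : insert i (K.erase w) = (insert i K).erase w := (Finset.erase_insert_of_ne hiw).symm
    have h3 := congrArg (Int.cast : ℤ → k) (sg_pair hi hw)
    push_cast at h3
    unfold hk
    rw [if_pos ⟨hKe w hw, fun h => hi (Finset.mem_of_mem_erase h)⟩, h2]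
    linear_combination (c ((insert i K).erase w)) * h3

/-! ### The homotopy -/

private theorem coeff_int_mul (z : ℤ) (f : Lau n k) (u : Fin (n + 1) → ℤ) :
    ((z : Lau n k) * f).coeff u = (z : k) * f.coeff u := by
  have h : (z : Lau n k) * f = (z : k) • f := by
    rw [Algebra.smul_def, map_intCast]
  rw [h, AddMonoidAlgebra.coeff_smul, Finsupp.smul_apply, smul_eq_mul]

private def cfH (u : Fin (n + 1) → ℤ) : Lau n k →+ k where
  toFun f := f.coeff u
  map_zero' := rfl
  map_add' f g := by rw [AddMonoidAlgebra.coeff_add, Finsupp.add_apply]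

private theorem coeff_sum' {ι : Type*} (s : Finset ι) (f : ι → Lau n k) (u : Fin (n + 1) → ℤ) :
    (∑ x ∈ s, f x).coeff u = ∑ x ∈ s, (f x).coeff u := map_sum (cfH u) f s

private theorem coeff_d (a : Coc n k) (K : Finset (Fin (n + 1))) (u : Fin (n + 1) → ℤ) :
    ((d a).at' K).coeff u = dk (fun K => (a.at' K).coeff u) K := by
  rw [at_d, coeff_sum']
  exact Finset.sum_congr rfl fun w _ => coeff_int_mul _ _ _

open Classical in
/-- a vertex with a non-negative exponent -/
private def vx (u : Fin (n + 1) → ℤ) : Fin (n + 1) := if h : ∃ i, 0 ≤ u i then h.choose else 0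

private theorem vx_spec {u : Fin (n + 1) → ℤ} (h : ∃ i, 0 ≤ u i) : 0 ≤ u (vx u) := by
  unfold vx
  rw [dif_pos h]
  exact h.choose_spec

open Classical in
/-- part of a Laurent polynomial -/
private def prt (i : Fin (n + 1)) (f : Lau n k) : Lau n k :=
  AddMonoidAlgebra.ofCoeff (f.coeff.filter fun u => (∃ j, 0 ≤ u j) ∧ vx u = i)

open Classical in
private theorem coeff_prt (i : Fin (n + 1)) (f : Lau n k) (u : Fin (n + 1) → ℤ) :
    (prt i f).coeff u = if (∃ j, 0 ≤ u j) ∧ vx u = i then f.coeff u else 0 := by
  unfold prt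
  rw [AddMonoidAlgebra.coeff_ofCoeff, Finsupp.filter_apply]

/-- the contraction -/
private def hc (a : Coc n k) : Coc n k :=
  AW.mk (fun K => if K = ∅ then 0 else
    ∑ i ∈ Finset.univ.filter (fun i => i ∉ K), ((sg (insert i K) i : ℤ) : Lau n k) * prt i (a.at' (insert i K)))
    (if_pos rfl)

private theorem coeff_hc (a : Coc n k) {u : Fin (n + 1) → ℤ} (hu : ∃ j, 0 ≤ u j) (K : Finset (Fin (n + 1))) :
    ((hc a).at' K).coeff u = hk (vx u) (fun K => (a.at' K).coeff u) K := by
  unfold hc hk
  rw [at_mk]
  by_cases hK : K = ∅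
  · rw [if_pos hK, if_neg fun h => h.1 hK]
    rfl
  · rw [if_neg hK, coeff_sum']
    by_cases hv : vx u ∈ K
    · rw [if_neg fun h => h.2 hv]
      refine Finset.sum_eq_zero fun i hi => ?_
      rw [coeff_int_mul, coeff_prt, if_neg, mul_zero]
      rintro ⟨-, rfl⟩
      exact (Finset.mem_filter.1 hi).2 hv
    · rw [if_pos ⟨hK, hv⟩, Finset.sum_eq_single (vx u)]
      · rw [coeff_int_mul, coeff_prt, if_pos ⟨hu, rfl⟩]
      · intro i _ hne
        rw [coeff_int_mul, coeff_prt, if_neg fun h => hne h.2.symm, mul_zero]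
      · intro h
        refine absurd ?_ h
        rw [Finset.mem_filter]
        exact ⟨Finset.mem_univ _, hv⟩

private theorem coeff_hc' (a : Coc n k) {u : Fin (n + 1) → ℤ} (hu : ¬ ∃ j, 0 ≤ u j) (K : Finset (Fin (n + 1))) :
    ((hc a).at' K).coeff u = 0 := by
  unfold hc
  rw [at_mk]
  split_ifs
  · rfl
  · rw [coeff_sum']
    refine Finset.sum_eq_zero fun i _ => ?_
    rw [coeff_int_mul, coeff_prt, if_neg fun h => hu h.1, mul_zero]

private theorem reg_hc {p e : ℤ} {a : Coc n k} (ha : a ∈ reg n k p e) : hc a ∈ reg n k (p - 1) e := by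
  intro K u h
  by_cases hu : ∃ j, 0 ≤ u j
  · rw [coeff_hc a hu] at h
    unfold hk at h
    split_ifs at h with h1
    · have h2 : (a.at' (insert (vx u) K)).coeff u ≠ 0 := fun h3 => h (by
        change (sg (insert (vx u) K) (vx u) : k) * (a.at' (insert (vx u) K)).coeff u = 0
        rw [h3, mul_zero])
      obtain ⟨h3, h4, h5⟩ := ha _ u h2
      rw [Finset.card_insert_of_notMem h1.2] at h3
      refine ⟨by push_cast at h3; omega, h4, ?_⟩
      intro i hi
      by_cases h6 : i = vx u
      · rw [h6]
        exact vx_spec hu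
      · exact h5 i fun h7 => (Finset.mem_insert.1 h7).elim h6 hi
    · exact absurd rfl h
  · exact absurd (coeff_hc' a hu K) h

/-- A cocycle of positive degree is, up to a coboundary, concentrated in the multidegrees with
all exponents negative. -/
theorem ctr_pos {p e : ℤ} (hp : 1 ≤ p) {a : Coc n k} (ha : a ∈ reg n k p e) (hd : d a = 0) :
    ∃ b ∈ reg n k (p - 1) e, ∀ K u, (((a - d b).at' K).coeff u ≠ 0 → ∀ i, u i < 0) := by
  refine ⟨hc a, reg_hc ha, ?_⟩
  intro K u h i
  by_contra hi
  apply h
  have hu : ∃ j, 0 ≤ u j := ⟨i, not_lt.1 hi⟩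
  have h1 : ((a - d (hc a)).at' K).coeff u = (a.at' K).coeff u - dk (hk (vx u) (fun K => (a.at' K).coeff u)) K := by
    have h2 : ((d (hc a)).at' K).coeff u = dk (hk (vx u) (fun K => (a.at' K).coeff u)) K := by
      rw [coeff_d]
      congr 1
      funext K
      exact coeff_hc a hu K
    have h3 : ((a - d (hc a)).at' K).coeff u = (a.at' K).coeff u - ((d (hc a)).at' K).coeff u := by
      rw [at_sub]
      exact map_sub (cfH u) _ _
    rw [h3, h2]
  rw [h1]
  by_cases hK : 2 ≤ K.card
  · have h2 := dk_hk (vx u) (fun K => (a.at' K).coeff u) hK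
    have h3 : hk (vx u) (dk fun K => (a.at' K).coeff u) K = 0 := by
      unfold hk
      split_ifs
      · rw [← coeff_d a, hd, at_zero]
        exact mul_zero _
      · rfl
    rw [h3, add_zero] at h2
    rw [h2]
    exact sub_self _
  · have h2 : (a.at' K).coeff u = 0 := by
      by_contra h3
      have h4 := (ha K u h3).1
      omega
    rw [h2, zero_sub, neg_eq_zero]
    unfold dk
    refine Finset.sum_eq_zero fun w hw => ?_
    have h3 : K.erase w = ∅ := by
      rw [← Finset.card_eq_zero, Finset.card_erase_of_mem hw]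
      omega
    unfold hk
    rw [if_neg fun h4 => h4.1 h3, mul_zero]

/-- A cocycle of degree zero is a homogeneous polynomial. -/
theorem ctr_zero (hn : 1 ≤ n) {e : ℤ} {a : Coc n k} (ha : a ∈ reg n k 0 e) (hd : d a = 0) :
    ∃ g : MvPolynomial (Fin (n + 1)) k, g.IsHomogeneous e.toNat ∧ a = g • (1 : Coc n k) := by
  have hcard : ∀ K : Finset (Fin (n + 1)), K.card ≠ 1 → a.at' K = 0 := by
    intro K hK
    apply AddMonoidAlgebra.coeff_injective
    ext u
    by_contra h
    have h1 := (ha K u h).1
    omega
  have hval : ∀ j : Fin (n + 1), a.at' {j} = a.at' {0} := by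
    intro j
    by_cases hj : j = 0
    · rw [hj]
    · have h0j : (0 : Fin (n + 1)) < j := Fin.pos_iff_ne_zero.2 hj
      have h1 := at_d a {0, j}
      rw [hd, at_zero, Finset.sum_pair h0j.ne] at h1
      have e1 : ({0, j} : Finset (Fin (n + 1))).erase 0 = {j} := by
        ext x
        simp only [Finset.mem_erase, Finset.mem_insert, Finset.mem_singleton]
        constructor
        · rintro ⟨h2, h3⟩
          exact h3.resolve_left h2
        · rintro rfl
          exact ⟨hj, Or.inr rfl⟩
      have e2 : ({0, j} : Finset (Fin (n + 1))).erase j = {0} := by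
        ext x
        simp only [Finset.mem_erase, Finset.mem_insert, Finset.mem_singleton]
        constructor
        · rintro ⟨h2, h3⟩
          exact h3.resolve_right h2
        · rintro rfl
          exact ⟨h0j.ne, Or.inl rfl⟩
      have s1 : sg ({0, j} : Finset (Fin (n + 1))) 0 = 1 := by
        unfold sg
        have : ({0, j} : Finset (Fin (n + 1))).filter (· < 0) = ∅ := by
          ext x
          simp
        rw [this, Finset.card_empty, pow_zero]
      have s2 : sg ({0, j} : Finset (Fin (n + 1))) j = -1 := by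
        unfold sg
        have : ({0, j} : Finset (Fin (n + 1))).filter (· < j) = {0} := by
          ext x
          simp only [Finset.mem_filter, Finset.mem_insert, Finset.mem_singleton]
          constructor
          · rintro ⟨rfl | rfl, h3⟩
            · rfl
            · exact absurd h3 (lt_irrefl _)
          · rintro rfl
            exact ⟨Or.inl rfl, h0j⟩
        rw [this, Finset.card_singleton, pow_one]
      rw [e1, e2, s1, s2] at h1
      push_cast at h1
      linear_combination -h1
  have hnn : ∀ u, (a.at' {0}).coeff u ≠ 0 → ∑ i, u i = e ∧ ∀ i, 0 ≤ u i := by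
    intro u hu
    obtain ⟨-, h1, h2⟩ := ha {0} u hu
    refine ⟨h1, fun i => ?_⟩
    by_cases hi : i = 0
    · subst hi
      have hl : (Fin.last n : Fin (n + 1)) ≠ 0 := by
        intro h
        have := congrArg Fin.val h
        simp at this
        omega
      have h3 : (a.at' {Fin.last n}).coeff u ≠ 0 := by
        rw [hval]
        exact hu
      exact (ha {Fin.last n} u h3).2.2 0 (by
        rw [Finset.mem_singleton]
        exact hl.symm)
    · exact h2 i (by
        rw [Finset.mem_singleton]
        exact hi)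
  obtain ⟨g, hg, hgf⟩ := exists_polL hnn
  refine ⟨g, hg, ?_⟩
  ext K : 1
  rw [at_smul, at_one, Algebra.smul_def, algebraMap_pol, hgf]
  by_cases hK : K.card = 1
  · obtain ⟨j, rfl⟩ := Finset.card_eq_one.1 hK
    rw [if_pos hK, mul_one, hval]
  · rw [if_neg hK, mul_zero, hcard K hK]

end Pool.Agent.PHJ
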