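import Pool.Agent.PHJ.Alg

/-!
# The bounded derived category of projective space

`Lau n k`: Laurent polynomials in `x_0, ..., x_n` over `k`. `reg p d`: Cech cochains of degree `p`
with values in the twisting sheaf `O(d)` of `P^n` for the standard covering: functions `c` on the
`(p + 1)`-element subsets `I` of `{0, ..., n}` such that `c I` is a homogeneous Laurent polynomial
of degree `d` in which only the variables `x_i`, `i ∈ I`, occur with negative exponents. The
product of cochains is the Alexander-Whitney product.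

`Obj n k`: objects of `D^b(P^n)`: (one-sided) twisted complexes of line bundles
`⨁ i, O(e i)[-s i]`, the differential is a matrix `δ` of cochains with `d δ + par δ * δ = 0`.
`Hm E F m t`: cochains of `Hom(E, F(t))` of degree `m`, with the differential `dif m`;
`Hom(E, F(t)[m])` in `D^b(P^n)` is the cohomology of this complex.
-/

noncomputable section

namespace Pool.Agent.PHJ

universe u v

open AW

/-- Laurent polynomials in `n + 1` variables. -/
abbrev Lau (n : ℕ) (k : Type u) [CommRing k] : Type u := AddMonoidAlgebra k (Fin (n + 1) → ℤ)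

instance (priority := high) {n : ℕ} {k : Type u} [CommRing k] : CommRing (Lau n k) :=
  AddMonoidAlgebra.commRing

/-- The variable `x_i`. -/
def xv {n : ℕ} {k : Type u} [CommRing k] (i : Fin (n + 1)) : Lau n k :=
  AddMonoidAlgebra.single (Pi.single i 1) 1

/-- The partial derivative `∂/∂x_i`. -/
def pd {n : ℕ} {k : Type u} [CommRing k] (i : Fin (n + 1)) : Lau n k →ₗ[k] Lau n k where
  toFun f := AddMonoidAlgebra.ofCoeff
    (f.coeff.sum fun u c => Finsupp.single (u - Pi.single i 1) ((u i : k) * c))
  map_add' f g := by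
    rw [← AddMonoidAlgebra.ofCoeff_add]
    congr 1
    refine Finsupp.sum_add_index (fun u _ => by simp) (fun u _ a b => ?_)
    rw [mul_add, Finsupp.single_add]
  map_smul' c f := by
    rw [RingHom.id_apply, ← AddMonoidAlgebra.ofCoeff_smul]
    congr 1
    change (c • f.coeff).sum (fun u c => Finsupp.single (u - Pi.single i 1) ((u i : k) * c)) =
      c • f.coeff.sum (fun u c => Finsupp.single (u - Pi.single i 1) ((u i : k) * c))
    rw [Finsupp.sum_smul_index (fun u => by simp), Finsupp.smul_sum]
    refine Finset.sum_congr rfl fun u _ => ?_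
    beta_reduce
    rw [Finsupp.smul_single, smul_eq_mul]
    congr 1
    ring

/-- Cech cochains (not necessarily regular). -/
abbrev Coc (n : ℕ) (k : Type u) [CommRing k] : Type u := AW n (Lau n k)

/-- Apply the partial derivative `∂/∂x_i` to all values. -/
def pdc {n : ℕ} {k : Type u} [CommRing k] (i : Fin (n + 1)) (a : Coc n k) : Coc n k :=
  AW.mk (fun K => pd i (a.at' K)) (by rw [at_empty, map_zero])

/-- Cech cochains of degree `p` with values in `O(d)`. -/
def reg (n : ℕ) (k : Type u) [CommRing k] (p d : ℤ) : Set (Coc n k) :=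
  {c | ∀ I u, (c.at' I).coeff u ≠ 0 →
    (I.card : ℤ) = p + 1 ∧ ∑ i, u i = d ∧ ∀ i ∉ I, 0 ≤ u i}

/-- Objects of `D^b(P^n)`: twisted complexes of line bundles. The summand with index `i` is
`O(e i)` in degree `s i`. -/
structure Obj (n : ℕ) (k : Type u) [CommRing k] where
  I : Type
  [fin : Fintype I]
  [dec : DecidableEq I]
  e : I → ℤ
  s : I → ℤ
  rk : I → ℕ
  δ : I → I → Coc n k
  reg_δ : ∀ i j, δ i j ∈ reg n k (s i + 1 - s j) (e j - e i)
  tri : ∀ i j, δ i j ≠ 0 → rk j < rk i
  flat : ∀ i j, d (δ i j) + ∑ l, par (δ i l) * δ l j = 0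

attribute [instance] Obj.fin Obj.dec

section

variable {n : ℕ} {k : Type u} [CommRing k]

/-- Cochains of degree `m` of the complex `Hom(E, F(t))`. -/
def Hm (E F : Obj n k) (m t : ℤ) : Set (E.I → F.I → Coc n k) :=
  {f | ∀ i j, f i j ∈ reg n k (m + E.s i - F.s j) (F.e j - E.e i + t)}

/-- `par` to the power `m`. -/
def parm (m : ℤ) (a : Coc n k) : Coc n k := if Even m then a else par a

/-- The sign `(-1)^m`. -/
def sgm (m : ℤ) : ℤ := if Even m then 1 else -1

/-- The differential of the complex `Hom(E, F(t))`, on cochains of degree `m`. -/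
def dif (E F : Obj n k) (m : ℤ) (f : E.I → F.I → Coc n k) : E.I → F.I → Coc n k :=
  fun i l => d (f i l) + ∑ j, par (f i j) * F.δ j l - sgm m • ∑ j, parm m (E.δ i j) * f j l

/-- Composition (first `f`, then `g`). -/
def cmp {E F G : Obj n k} (f : E.I → F.I → Coc n k) (g : F.I → G.I → Coc n k) :
    E.I → G.I → Coc n k := fun i l => ∑ j, f i j * g j l

/-- The identity. -/
def idm (E : Obj n k) : E.I → E.I → Coc n k := fun i j => if i = j then 1 else 0

/-- Closed cochains. -/
def Cl (E F : Obj n k) (m t : ℤ) : Set (E.I → F.I → Coc n k) :=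
  {f | f ∈ Hm E F m t ∧ dif E F m f = 0}

/-- Exact cochains of degree `m`. -/
def Ex (E F : Obj n k) (m t : ℤ) : Set (E.I → F.I → Coc n k) :=
  {f | ∃ h ∈ Hm E F (m - 1) t, dif E F (m - 1) h = f}

/-- `Hom(E, F(t)[m]) = 0` in `D^b(P^n)`. -/
def HomZero (E F : Obj n k) (m t : ℤ) : Prop := Cl E F m t ⊆ Ex E F m t

/-- Isomorphic objects of `D^b(P^n)`. -/
def Iso (E F : Obj n k) : Prop :=
  ∃ f ∈ Cl E F 0 0, ∃ g ∈ Cl F E 0 0,
    cmp f g - idm E ∈ Ex E E 0 0 ∧ cmp g f - idm F ∈ Ex F F 0 0

/-- A direct sum of shifted line bundles: `⨁ a, O(e a)[-s a]`. -/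
def lb (n : ℕ) (k : Type u) [CommRing k] (A : Type) [Fintype A] [DecidableEq A] (e s : A → ℤ) :
    Obj n k where
  I := A
  e := e
  s := s
  rk := fun _ => 0
  δ := fun _ _ => 0
  reg_δ := fun i j I u h => absurd rfl h
  tri := fun i j h => absurd rfl h
  flat := fun i j => by simp

/-- `E` is isomorphic to a direct sum of shifted line bundles. -/
def IsSplit (E : Obj n k) : Prop :=
  ∃ (A : Type) (_ : Fintype A) (_ : DecidableEq A) (e s : A → ℤ), Iso E (lb n k A e s)

/-- The contraction of the Atiyah class of `E` with the constant vector field `∂/∂x_i` of degree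
`-1` (a section of `T(-1)`): the class of `∂δ/∂x_i` in `Hom(E, E(-1)[1])`. -/
def at1 (E : Obj n k) (i : Fin (n + 1)) : E.I → E.I → Coc n k := fun a b => pdc i (E.δ a b)

end

end Pool.Agent.PHJ
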