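import Pool.Agent.PHJ.Cone

/-!
# Triangulated subcategories of `D^b(P^n)`, Grothendieck groups, phantoms
-/

noncomputable section

namespace Pool.Agent.PHJ

universe u v

open AW

variable {n : ℕ} {k : Type u} [CommRing k]

/-- The zero object. -/
def zeroObj (n : ℕ) (k : Type u) [CommRing k] : Obj n k :=
  lb n k Empty (fun i => i.elim) (fun i => i.elim)

theorem sgm_mul_self (m : ℤ) : sgm m * sgm m = 1 := by
  unfold sgm
  split_ifs <;> rfl

/-- The shift `E[r]`. -/
def shift (E : Obj n k) (r : ℤ) : Obj n k where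
  I := E.I
  e := E.e
  s i := E.s i - r
  rk := E.rk
  δ i j := sgm r • parm r (E.δ i j)
  reg_δ := by
    intro i j
    have h1 : E.s i - r + 1 - (E.s j - r) = E.s i + 1 - E.s j := by ring
    rw [h1]
    have h2 : parm r (E.δ i j) ∈ reg n k (E.s i + 1 - E.s j) (E.e j - E.e i) := by
      unfold parm
      split_ifs
      · exact E.reg_δ i j
      · exact reg_par (E.reg_δ i j)
    unfold sgm
    split_ifs
    · rwa [one_smul]
    · rw [neg_one_smul]
      exact reg_neg h2
  tri := by
    intro i j h
    refine E.tri i j fun h1 => h ?_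
    rw [h1]
    unfold parm
    split_ifs
    · exact smul_zero _
    · rw [map_zero, smul_zero]
  flat := by
    intro i j
    unfold sgm parm
    split_ifs
    · simp only [one_smul]
      exact E.flat i j
    · simp only [neg_one_smul, map_neg, par_par, neg_mul_neg]
      have h := congrArg par (E.flat i j)
      rw [map_add, map_sum, map_zero] at h
      rw [d_par, neg_neg, ← h]
      congr 1
      exact Finset.sum_congr rfl fun l _ => by rw [par_mul, par_par]

/-- The matrix of the differential of the direct sum. -/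
def sumδ (E F : Obj n k) : (E.I ⊕ F.I) → (E.I ⊕ F.I) → Coc n k
  | Sum.inl i, Sum.inl j => E.δ i j
  | Sum.inl _, Sum.inr _ => 0
  | Sum.inr _, Sum.inl _ => 0
  | Sum.inr i, Sum.inr j => F.δ i j

/-- The direct sum. -/
def sum (E F : Obj n k) : Obj n k where
  I := E.I ⊕ F.I
  e := Sum.elim E.e F.e
  s := Sum.elim E.s F.s
  rk := Sum.elim E.rk F.rk
  δ := sumδ E F
  reg_δ := by
    rintro (i | i) (j | j)
    · exact E.reg_δ i j
    · exact reg_zero _ _
    · exact reg_zero _ _
    · exact F.reg_δ i j
  tri := by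
    rintro (i | i) (j | j) h
    · exact E.tri i j h
    · exact absurd rfl h
    · exact absurd rfl h
    · exact F.tri i j h
  flat := by
    rintro (i | i) (j | j)
    · rw [Fintype.sum_sum_type]
      change d (E.δ i j) + (∑ l, par (E.δ i l) * E.δ l j + ∑ l, par (0 : Coc n k) * 0) = 0
      simp only [map_zero, zero_mul, Finset.sum_const_zero, add_zero]
      exact E.flat i j
    · rw [Fintype.sum_sum_type]
      change d (0 : Coc n k) + (∑ l, par (E.δ i l) * 0 + ∑ l, par (0 : Coc n k) * F.δ l j) = 0
      simp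
    · rw [Fintype.sum_sum_type]
      change d (0 : Coc n k) + (∑ l, par (0 : Coc n k) * E.δ l j + ∑ l, par (F.δ i l) * 0) = 0
      simp
    · rw [Fintype.sum_sum_type]
      change d (F.δ i j) + (∑ l, par (0 : Coc n k) * 0 + ∑ l, par (F.δ i l) * F.δ l j) = 0
      simp only [map_zero, zero_mul, Finset.sum_const_zero, zero_add]
      exact F.flat i j

/-- `A` is (the class of objects of) a full triangulated subcategory of `D^b(P^n)`, closed under
isomorphisms and direct summands. -/
structure IsTri (A : Obj n k → Prop) : Prop where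
  iso : ∀ E F, Iso E F → A E → A F
  zero : A (zeroObj n k)
  shift : ∀ E r, A E → A (shift E r)
  cone : ∀ E F (f : E.I → F.I → Coc n k) (hf : f ∈ Cl E F 0 0), A E → A F → A (cone f hf)
  summand : ∀ E F, A (sum E F) → A E

/-- The inclusion of `A` has a left adjoint: every object `E` has a universal morphism to an
object `F` of `A`. -/
def HasLeftAdjoint (A : Obj n k → Prop) : Prop :=
  ∀ E, ∃ F, A F ∧ ∃ f ∈ Cl E F 0 0, ∀ G, A G →
    (∀ g ∈ Cl E G 0 0, ∃ h ∈ Cl F G 0 0, cmp f h - g ∈ Ex E G 0 0) ∧
      ∀ h ∈ Cl F G 0 0, cmp f h ∈ Ex E G 0 0 → h ∈ Ex F G 0 0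

/-- The relations of the Grothendieck group: `[E] = [F]` for isomorphic objects and
`[F] = [E] + [G]` for every distinguished triangle `E → F → G → E[1]`. -/
def K0rel (A : Obj n k → Prop) : Set (FreeAbelianGroup {E : Obj n k // A E}) :=
  {x | (∃ E F : {E : Obj n k // A E}, Iso E.1 F.1 ∧
      x = FreeAbelianGroup.of E - FreeAbelianGroup.of F) ∨
    ∃ (E F G : {E : Obj n k // A E}) (f : E.1.I → F.1.I → Coc n k) (hf : f ∈ Cl E.1 F.1 0 0),
      Iso G.1 (cone f hf) ∧
        x = FreeAbelianGroup.of F - (FreeAbelianGroup.of E + FreeAbelianGroup.of G)}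

/-- The Grothendieck group of `A`. -/
abbrev K0 (A : Obj n k → Prop) : Type _ :=
  FreeAbelianGroup {E : Obj n k // A E} ⧸ AddSubgroup.closure (K0rel A)

/-- `A` is a phantom: a nonzero admissible subcategory with `K_0(A) = 0`. -/
structure IsPhantom (A : Obj n k → Prop) : Prop where
  tri : IsTri A
  adj : HasLeftAdjoint A
  nonzero : ∃ E, A E ∧ ¬ Iso E (zeroObj n k)
  k0 : Subsingleton (K0 A)

end Pool.Agent.PHJ
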