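import Pool.Agent.PHJ.Mod

/-!
# Koszul: vanishing of the cohomology in `n + 1` consecutive twists

MODULE PHJ-Koz. PLAN. `c t T = (-1)^card T * sg T t` for `t ∈ T` (a sign; `sg` from Alg). For `z ∈ gr p e` closed choose
`y T ∈ gr (p - card T) (e + card T)` for all `T : Finset (Fin (n + 1))` with `y ∅ = z` and
`D (y T) = ∑ t ∈ T, c t T • X t • y (T.erase t)`: induction on `card T` (show: for every `m` there is a function
`y` which satisfies the relations for all `T` with `card T ≤ m`; step: the right side is closed, because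
`c t T * c t' (T.erase t) = -c t' T * c t (T.erase t')` for `t ≠ t'` in `T`, and the cohomology of `E(e + card T)`
is zero by `h` as `1 ≤ card T ≤ n + 1`). Put `κ T` = the cochain with the only value
`mono (-∑ t ∈ T, e_t)` at the face `T` (`T ≠ ∅`), `κ T ∈ reg (card T - 1) (-card T)`,
`d (κ T) = ∑ w ∉ T, sg (insert w T) w • X w • κ (insert w T)` and `∑ w, X w • κ {w} = 1`. Then
`w = -∑ T ≠ ∅, lm (κ T) (y T) ∈ gr (p - 1) e` and `D w = z` (`DD_lm`, `par (κ T) = (-1)^(card T - 1) κ T`): the
coefficient of `y T` for `T ≠ ∅` is `d (κ T) + ∑ w ∉ T, (-1)^card T * c w (insert w T) • X w • κ (insert w T) = 0`, the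
coefficient of `y ∅ = z` is `∑ w, c w {w} • X w • κ {w} = -1`.
-/

noncomputable section

namespace Pool.Agent.PHJ

universe u v

open AW

variable {n : ℕ} {k : Type u} [CommRing k] (E : Obj n k)

/-- The sign `(-1)^card T * sg T t`, as a scalar. -/
private def cc (T : Finset (Fin (n + 1))) (t : Fin (n + 1)) : Lau n k :=
  (((-1) ^ T.card * sg T t : ℤ) : Lau n k)

private theorem sg_erase_lt {T : Finset (Fin (n + 1))} {t t' : Fin (n + 1)} (ht : t ∈ T)
    (h : t < t') : sg (T.erase t) t' = -sg T t' := by
  unfold sg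
  have h1 : (T.erase t).filter (· < t') = (T.filter (· < t')).erase t := by
    rw [Finset.filter_erase]
  have h2 : t ∈ T.filter (· < t') := Finset.mem_filter.2 ⟨ht, h⟩
  have h3 : 0 < (T.filter (· < t')).card := Finset.card_pos.2 ⟨t, h2⟩
  rw [h1, Finset.card_erase_of_mem h2]
  obtain ⟨m, hm⟩ : ∃ m, (T.filter (· < t')).card = m + 1 := ⟨_, (Nat.succ_pred_eq_of_pos h3).symm⟩
  rw [hm, Nat.add_sub_cancel, pow_succ]
  ring

private theorem sg_erase_ge {T : Finset (Fin (n + 1))} {t t' : Fin (n + 1)}
    (h : t' ≤ t) : sg (T.erase t) t' = sg T t' := by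
  unfold sg
  have h1 : (T.erase t).filter (· < t') = T.filter (· < t') := by
    rw [Finset.filter_erase]
    apply Finset.erase_eq_of_notMem
    intro h2
    exact absurd (Finset.mem_filter.1 h2).2 (not_lt.2 h)
  rw [h1]

private theorem sg_anti {T : Finset (Fin (n + 1))} {t t' : Fin (n + 1)} (ht : t ∈ T) (ht' : t' ∈ T)
    (h : t ≠ t') : sg T t * sg (T.erase t) t' = -(sg T t' * sg (T.erase t') t) := by
  rcases lt_or_gt_of_ne h with h1 | h1
  · rw [sg_erase_lt ht h1, sg_erase_ge h1.le]
    ring
  · rw [sg_erase_lt ht' h1, sg_erase_ge h1.le]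
    ring

private theorem cc_anti {T : Finset (Fin (n + 1))} {t t' : Fin (n + 1)} (ht : t ∈ T) (ht' : t' ∈ T)
    (h : t ≠ t') : (cc T t * cc (T.erase t) t' : Lau n k) = -(cc T t' * cc (T.erase t') t) := by
  unfold cc
  rw [← Int.cast_mul, ← Int.cast_mul, ← Int.cast_neg]
  congr 1
  rw [Finset.card_erase_of_mem ht, Finset.card_erase_of_mem ht']
  linear_combination ((-1) ^ T.card * (-1) ^ (T.card - 1)) * sg_anti ht ht' h

private theorem double_zero {M : Type*} [AddCommGroup M] (T : Finset (Fin (n + 1)))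
    (G : Fin (n + 1) → Fin (n + 1) → M) (hG : ∀ t ∈ T, ∀ t' ∈ T, t ≠ t' → G t t' = -G t' t) :
    ∑ t ∈ T, ∑ t' ∈ T.erase t, G t t' = 0 := by
  classical
  have h1 : ∀ t ∈ T, ∑ t' ∈ T.erase t, G t t' = ∑ t' ∈ T, if t' ≠ t then G t t' else 0 := by
    intro t _
    rw [← Finset.sum_filter]
    refine Finset.sum_congr ?_ fun _ _ => rfl
    ext x
    rw [Finset.mem_erase, Finset.mem_filter]
    tauto
  rw [Finset.sum_congr rfl h1, ← Finset.sum_product']
  refine Finset.sum_involution (fun p _ => (p.2, p.1)) ?_ ?_ ?_ ?_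
  · rintro ⟨a, b⟩ hab
    rw [Finset.mem_product] at hab
    by_cases h : b = a
    · simp [h]
    · have h' : a ≠ b := fun h2 => h h2.symm
      simp only [ne_eq, h, not_false_eq_true, if_true, h']
      rw [hG a hab.1 b hab.2 h']
      abel
  · rintro ⟨a, b⟩ hab hne h
    apply hne
    have : b = a := congrArg Prod.fst h
    simp [this]
  · rintro ⟨a, b⟩ hab
    rw [Finset.mem_product] at hab ⊢
    exact ⟨hab.2, hab.1⟩
  · rintro ⟨a, b⟩ hab
    rfl

private theorem X_smul_MM (i : Fin (n + 1)) (m : MM E) :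
    (MvPolynomial.X i : MvPolynomial (Fin (n + 1)) k) • m = (xv i : Lau n k) • m := by
  funext j
  exact X_smul i (m j)

private theorem gr_xv {p t : ℤ} (i : Fin (n + 1)) {m : MM E} (h : m ∈ gr E p t) :
    (xv i : Lau n k) • m ∈ gr E p (t + 1) := by
  rw [← X_smul_MM]
  exact gr_X E i h

private theorem gr_int {p t : ℤ} (c : ℤ) {m : MM E} (h : m ∈ gr E p t) :
    ((c : ℤ) : Lau n k) • m ∈ gr E p t := by
  have : ((c : ℤ) : Lau n k) • m = c • m := Int.cast_smul_eq_zsmul _ _ _
  rw [this]
  exact (gr E p t).toAddSubgroup.zsmul_mem h c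

private theorem closed_r {T : Finset (Fin (n + 1))} {y : Finset (Fin (n + 1)) → MM E}
    (hy : ∀ t ∈ T, DD E (y (T.erase t)) =
      ∑ t' ∈ T.erase t, (cc (T.erase t) t' : Lau n k) • ((xv t' : Lau n k) •
        y ((T.erase t).erase t'))) :
    DD E (∑ t ∈ T, (cc T t : Lau n k) • ((xv t : Lau n k) • y (T.erase t))) = 0 := by
  rw [map_sum]
  have h1 : ∀ t ∈ T, DD E ((cc T t : Lau n k) • ((xv t : Lau n k) • y (T.erase t))) =
      ∑ t' ∈ T.erase t, (cc T t * cc (T.erase t) t' * (xv t * xv t') : Lau n k) •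
        y ((T.erase t).erase t') := by
    intro t ht
    rw [map_smul, map_smul, hy t ht, Finset.smul_sum, Finset.smul_sum]
    refine Finset.sum_congr rfl fun t' _ => ?_
    rw [smul_smul, smul_smul, smul_smul]
    congr 1
    ring
  rw [Finset.sum_congr rfl h1]
  refine double_zero T (fun t t' => (cc T t * cc (T.erase t) t' * (xv t * xv t') : Lau n k) •
        y ((T.erase t).erase t')) ?_
  intro t ht t' ht' hne
  have h2 : (T.erase t).erase t' = (T.erase t').erase t := Finset.erase_right_comm
  rw [h2, ← neg_smul]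
  congr 1
  rw [cc_anti ht ht' hne]
  ring

private theorem ex_y {e p : ℤ} (h : ∀ t, e < t → t ≤ e + n + 1 → ExactAt E t) {z : MM E}
    (hz : z ∈ gr E p e) (hD : DD E z = 0) : ∀ m : ℕ, m ≤ n + 1 →
    ∃ y : Finset (Fin (n + 1)) → MM E, y ∅ = z ∧ ∀ T, T.card ≤ m →
      (y T ∈ gr E (p - T.card) (e + T.card) ∧
        DD E (y T) = ∑ t ∈ T, (cc T t : Lau n k) • ((xv t : Lau n k) • y (T.erase t))) := by
  intro m
  induction m with
  | zero =>
    intro _
    refine ⟨fun _ => z, rfl, ?_⟩
    intro T hT
    have hT0 : T = ∅ := Finset.card_eq_zero.1 (Nat.le_zero.1 hT)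
    subst hT0
    refine ⟨?_, ?_⟩
    · simpa using hz
    · rw [Finset.sum_empty]
      exact hD
  | succ m ih =>
    intro hm
    obtain ⟨y, hy0, hy⟩ := ih (by omega)
    have hex : ∀ T : Finset (Fin (n + 1)), T.card = m + 1 → ∃ w ∈ gr E (p - m - 1) (e + m + 1),
        DD E w = ∑ t ∈ T, (cc T t : Lau n k) • ((xv t : Lau n k) • y (T.erase t)) := by
      intro T hT
      have hc : ∀ t ∈ T, (T.erase t).card = m := by
        intro t ht
        rw [Finset.card_erase_of_mem ht, hT]
        rfl
      refine h (e + m + 1) (by linarith) (by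
        have : (m : ℤ) + 1 ≤ n + 1 := by exact_mod_cast hm
        linarith) (p - m) _ ?_ ?_
      · refine (gr E (p - m) (e + m + 1)).sum_mem fun t ht => ?_
        have h1 := (hy (T.erase t) (hc t ht).le).1
        rw [hc t ht] at h1
        exact gr_int E _ (gr_xv E t h1)
      · exact closed_r E fun t ht => (hy (T.erase t) (hc t ht).le).2
    choose w hw1 hw2 using hex
    classical
    refine ⟨fun T => if hT : T.card = m + 1 then w T hT else y T, ?_, ?_⟩
    · simp [hy0]
    · intro T hT
      have hsum : ∀ t ∈ T, (if hT : (T.erase t).card = m + 1 then w (T.erase t) hT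
          else y (T.erase t)) = y (T.erase t) := by
        intro t ht
        rw [dif_neg]
        rw [Finset.card_erase_of_mem ht]
        have : 0 < T.card := Finset.card_pos.2 ⟨t, ht⟩
        omega
      by_cases hT1 : T.card = m + 1
      · simp only [dif_pos hT1]
        refine ⟨?_, ?_⟩
        · have := hw1 T hT1
          rw [hT1]
          push_cast
          have e1 : p - ((m : ℤ) + 1) = p - m - 1 := by ring
          have e2 : e + ((m : ℤ) + 1) = e + m + 1 := by ring
          rw [e1, e2]
          exact this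
        · rw [hw2 T hT1]
          refine Finset.sum_congr rfl fun t ht => ?_
          rw [hsum t ht]
      · simp only [dif_neg hT1]
        have h1 := hy T (by omega)
        refine ⟨h1.1, ?_⟩
        rw [h1.2]
        refine Finset.sum_congr rfl fun t ht => ?_
        rw [hsum t ht]

/-- The cochain with the only value `x^(-∑ t ∈ T, e_t)` at `T`. -/
private def kap (T : Finset (Fin (n + 1))) : Coc n k :=
  AW.mk (fun K => if K = T ∧ T ≠ ∅ then mono (-∑ t ∈ T, Pi.single t 1) else 0) (by
    rw [if_neg]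
    rintro ⟨h1, h2⟩
    exact h2 h1.symm)

private theorem kap_at (T K : Finset (Fin (n + 1))) : (kap T : Coc n k).at' K =
    if K = T ∧ T ≠ ∅ then mono (-∑ t ∈ T, Pi.single t 1) else 0 := rfl

private theorem sum_single_apply (T : Finset (Fin (n + 1))) (i : Fin (n + 1)) :
    (∑ t ∈ T, (Pi.single t 1 : Fin (n + 1) → ℤ)) i = if i ∈ T then 1 else 0 := by
  classical
  rw [Finset.sum_apply]
  by_cases h : i ∈ T
  · rw [if_pos h, Finset.sum_eq_single i]
    · simp
    · intro b _ hb
      rw [Pi.single_apply, if_neg (fun h2 => hb h2.symm)]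
    · intro h2
      exact absurd h h2
  · rw [if_neg h]
    refine Finset.sum_eq_zero fun b hb => ?_
    rw [Pi.single_apply, if_neg]
    rintro rfl
    exact h hb

private theorem kap_reg (T : Finset (Fin (n + 1))) :
    (kap T : Coc n k) ∈ reg n k ((T.card : ℤ) - 1) (-(T.card : ℤ)) := by
  classical
  intro I u hu
  rw [kap_at] at hu
  by_cases h : I = T ∧ T ≠ ∅
  · rw [if_pos h, coeff_mono] at hu
    obtain ⟨rfl, h0⟩ := h
    by_cases h1 : u = -∑ t ∈ I, Pi.single t 1
    · subst h1
      refine ⟨by ring, ?_, ?_⟩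
      · have hh : ∀ i : Fin (n + 1),
            ((-∑ t ∈ I, (Pi.single t 1 : Fin (n + 1) → ℤ)) : Fin (n + 1) → ℤ) i =
            if i ∈ I then (-1 : ℤ) else 0 := by
          intro i
          rw [Pi.neg_apply, sum_single_apply]
          split_ifs <;> simp
        rw [Finset.sum_congr rfl fun i _ => hh i, Finset.sum_ite_mem, Finset.univ_inter,
          Finset.sum_const]
        simp
      · intro i hi
        rw [Pi.neg_apply, sum_single_apply, if_neg hi]
        simp
    · rw [if_neg h1] at hu
      exact absurd rfl hu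
  · rw [if_neg h] at hu
    exact absurd rfl hu

private theorem xv_kap (T : Finset (Fin (n + 1))) {w : Fin (n + 1)} (hw : w ∉ T)
    (K : Finset (Fin (n + 1))) : ((xv w : Lau n k) • (kap (insert w T) : Coc n k)).at' K =
      if K = insert w T then mono (-∑ t ∈ T, Pi.single t 1) else 0 := by
  classical
  rw [at_smul, kap_at, smul_eq_mul]
  by_cases h : K = insert w T
  · rw [if_pos ⟨h, Finset.insert_ne_empty _ _⟩, if_pos h, xv_eq, ← mono_add]
    congr 1
    rw [Finset.sum_insert hw]
    abel
  · rw [if_neg (fun h2 => h h2.1), if_neg h, mul_zero]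

private theorem d_kap {T : Finset (Fin (n + 1))} (hT : T ≠ ∅) : d (kap T : Coc n k) =
    ∑ w ∈ Tᶜ, (sg (insert w T) w : Lau n k) • ((xv w : Lau n k) • kap (insert w T)) := by
  classical
  ext K : 1
  rw [at_d, at_sum]
  by_cases hK : ∃ w ∈ Tᶜ, K = insert w T
  · obtain ⟨w, hw, rfl⟩ := hK
    have hwT : w ∉ T := Finset.mem_compl.1 hw
    rw [Finset.sum_eq_single w, Finset.sum_eq_single w]
    · rw [at_smul, xv_kap T hwT, if_pos rfl, kap_at, Finset.erase_insert hwT, if_pos ⟨rfl, hT⟩,
        smul_eq_mul]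
    · intro b hb hbw
      have hbT : b ∉ T := Finset.mem_compl.1 hb
      rw [at_smul, xv_kap T hbT, if_neg, smul_zero]
      intro h
      have : b ∈ insert w T := by rw [h]; exact Finset.mem_insert_self _ _
      rcases Finset.mem_insert.1 this with h1 | h1
      · exact hbw h1
      · exact hbT h1
    · intro h
      exact absurd hw h
    · intro b hb hbw
      rw [kap_at, if_neg, mul_zero]
      rintro ⟨h, _⟩
      have hbT : b ∈ T := (Finset.mem_insert.1 hb).resolve_left hbw
      rw [← h] at hbT
      exact absurd hbT (Finset.notMem_erase _ _)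
    · intro h
      exact absurd (Finset.mem_insert_self _ _) h
  · rw [Finset.sum_eq_zero, Finset.sum_eq_zero]
    · intro w hw
      rw [at_smul, xv_kap T (Finset.mem_compl.1 hw), if_neg (fun h => hK ⟨w, hw, h⟩), smul_zero]
    · intro w hw
      rw [kap_at, if_neg, mul_zero]
      rintro ⟨h, _⟩
      apply hK
      refine ⟨w, ?_, ?_⟩
      · rw [Finset.mem_compl, ← h]
        exact Finset.notMem_erase _ _
      · rw [← h, Finset.insert_erase hw]

private theorem sum_kap : ∑ w, (xv w : Lau n k) • (kap {w} : Coc n k) = 1 := by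
  classical
  ext K : 1
  rw [at_sum, at_one]
  have h0 : ∀ w : Fin (n + 1), ((xv w : Lau n k) • (kap {w} : Coc n k)).at' K =
      if K = {w} then 1 else 0 := by
    intro w
    have h1 := xv_kap (n := n) (k := k) ∅ (Finset.notMem_empty w) K
    have h2 : insert w (∅ : Finset (Fin (n + 1))) = {w} := rfl
    rw [h2] at h1
    rw [h1, Finset.sum_empty, neg_zero, mono_zero]
  simp only [h0]
  by_cases hK : K.card = 1
  · rw [if_pos hK]
    obtain ⟨v, rfl⟩ := Finset.card_eq_one.1 hK
    rw [Finset.sum_eq_single v]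
    · rw [if_pos rfl]
    · intro b _ hb
      rw [if_neg]
      intro h
      exact hb (Finset.singleton_injective h).symm
    · intro h
      exact absurd (Finset.mem_univ _) h
  · rw [if_neg hK]
    refine Finset.sum_eq_zero fun w _ => ?_
    rw [if_neg]
    rintro rfl
    exact hK (Finset.card_singleton _)

private theorem swap_sum {M : Type*} [AddCommMonoid M]
    (f : Finset (Fin (n + 1)) → Fin (n + 1) → M) :
    ∑ S : Finset (Fin (n + 1)), ∑ w ∈ Sᶜ, f (insert w S) w =
      ∑ T : Finset (Fin (n + 1)), ∑ t ∈ T, f T t := by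
  classical
  rw [Finset.sum_comm' (s' := fun w => Finset.univ.filter fun S => w ∉ S)
    (t' := (Finset.univ : Finset (Fin (n + 1))))]
  · rw [Finset.sum_comm' (s' := fun w => Finset.univ.filter fun T => w ∈ T)
      (t' := (Finset.univ : Finset (Fin (n + 1))))]
    · refine Finset.sum_congr rfl fun w _ => ?_
      refine Finset.sum_bij' (fun S _ => insert w S) (fun T _ => T.erase w) ?_ ?_ ?_ ?_ ?_
      · intro S _
        exact Finset.mem_filter.2 ⟨Finset.mem_univ _, Finset.mem_insert_self _ _⟩
      · intro T _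
        exact Finset.mem_filter.2 ⟨Finset.mem_univ _, Finset.notMem_erase _ _⟩
      · intro S hS
        exact Finset.erase_insert (Finset.mem_filter.1 hS).2
      · intro T hT
        exact Finset.insert_erase (Finset.mem_filter.1 hT).2
      · intro S _
        rfl
    · intro T w
      simp
  · intro S w
    simp

private theorem lm_sum_left {ι : Type*} (s : Finset ι) (f : ι → Coc n k) (m : MM E) :
    lm E (∑ i ∈ s, f i) m = ∑ i ∈ s, lm E (f i) m := by
  funext j
  rw [Finset.sum_apply]
  exact Finset.sum_mul _ _ _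

private theorem lm_sum_right {ι : Type*} (s : Finset ι) (a : Coc n k) (f : ι → MM E) :
    lm E a (∑ i ∈ s, f i) = ∑ i ∈ s, lm E a (f i) := by
  funext j
  rw [Finset.sum_apply]
  show a * (∑ i ∈ s, f i) j = _
  rw [Finset.sum_apply, Finset.mul_sum]
  rfl

private theorem lm_smul_left (c : Lau n k) (a : Coc n k) (m : MM E) :
    lm E (c • a) m = c • lm E a m := by
  funext j
  exact smul_mul_assoc c a (m j)

private theorem lm_smul_right (c : Lau n k) (a : Coc n k) (m : MM E) :
    lm E a (c • m) = c • lm E a m := by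
  funext j
  exact mul_smul_comm c a (m j)

private theorem lm_one (m : MM E) : lm E 1 m = m := by
  funext j
  exact one_mul (m j)

private theorem par_kap (T : Finset (Fin (n + 1))) :
    par (kap T : Coc n k) = (-(-1) ^ T.card : Lau n k) • kap T := by
  classical
  ext K : 1
  rw [at_par, at_smul, kap_at, smul_eq_mul]
  by_cases h : K = T ∧ T ≠ ∅
  · rw [if_pos h, h.1]
  · rw [if_neg h, mul_zero, mul_zero]

theorem exactAt_of_succ (e : ℤ) (h : ∀ t, e < t → t ≤ e + n + 1 → ExactAt E t) : ExactAt E e := by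
  classical
  intro p z hz hD
  obtain ⟨y, hy0, hy⟩ := ex_y E h hz hD (n + 1) le_rfl
  have hy' : ∀ T : Finset (Fin (n + 1)), T.card ≤ n + 1 := by
    intro T
    have := T.card_le_univ
    simpa using this
  set A : Finset (Fin (n + 1)) → Fin (n + 1) → MM E := fun T t =>
    (sg T t : Lau n k) • ((xv t : Lau n k) • lm E (kap T) (y (T.erase t))) with hA
  refine ⟨-∑ T ∈ Finset.univ.erase (∅ : Finset (Fin (n + 1))), lm E (kap T) (y T), ?_, ?_⟩
  · refine (gr E (p - 1) e).neg_mem ((gr E (p - 1) e).sum_mem fun T _ => ?_)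
    have h1 := gr_lm E (kap_reg (k := k) T) (hy T (hy' T)).1
    have e1 : (T.card : ℤ) - 1 + (p - T.card) = p - 1 := by ring
    have e2 : -(T.card : ℤ) + (e + T.card) = e := by ring
    rw [e1, e2] at h1
    exact h1
  · rw [map_neg, map_sum]
    have h1 : ∀ T ∈ Finset.univ.erase (∅ : Finset (Fin (n + 1))),
        DD E (lm E (kap T) (y T)) = ∑ w ∈ Tᶜ, A (insert w T) w - ∑ t ∈ T, A T t := by
      intro T hT
      have hT0 : T ≠ ∅ := (Finset.mem_erase.1 hT).1
      rw [DD_lm, d_kap hT0, lm_sum_left, (hy T (hy' T)).2, par_kap, lm_smul_left, lm_sum_right,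
        sub_eq_add_neg]
      congr 1
      · refine Finset.sum_congr rfl fun w hw => ?_
        rw [lm_smul_left, lm_smul_left, hA]
        simp only
        rw [Finset.erase_insert (Finset.mem_compl.1 hw)]
      · rw [Finset.smul_sum, ← Finset.sum_neg_distrib]
        refine Finset.sum_congr rfl fun t ht => ?_
        rw [lm_smul_right, lm_smul_right, smul_smul, hA]
        simp only
        rw [← neg_smul]
        congr 1
        unfold cc
        push_cast
        have h2 : ((-1 : Lau n k) ^ T.card * (-1) ^ T.card) = 1 := by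
          rw [← mul_pow]
          simp
        linear_combination (-(sg T t : Lau n k)) * h2
    rw [Finset.sum_congr rfl h1, Finset.sum_sub_distrib]
    have h2 : ∑ T ∈ Finset.univ.erase (∅ : Finset (Fin (n + 1))), ∑ w ∈ Tᶜ, A (insert w T) w =
        (∑ T : Finset (Fin (n + 1)), ∑ w ∈ Tᶜ, A (insert w T) w) - ∑ w, A {w} w := by
      rw [← Finset.add_sum_erase Finset.univ _ (Finset.mem_univ (∅ : Finset (Fin (n + 1))))]
      rw [Finset.compl_empty]
      have : ∀ w : Fin (n + 1), insert w (∅ : Finset (Fin (n + 1))) = {w} := fun w => rfl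
      simp only [this]
      abel
    have h3 : ∑ T ∈ Finset.univ.erase (∅ : Finset (Fin (n + 1))), ∑ t ∈ T, A T t =
        ∑ T : Finset (Fin (n + 1)), ∑ t ∈ T, A T t := by
      rw [← Finset.add_sum_erase Finset.univ _ (Finset.mem_univ (∅ : Finset (Fin (n + 1)))),
        Finset.sum_empty, zero_add]
    rw [h2, h3, swap_sum A]
    have h4 : ∑ w, A {w} w = z := by
      have h5 : ∀ w : Fin (n + 1), A {w} w = lm E ((xv w : Lau n k) • kap {w}) z := by
        intro w
        rw [hA, lm_smul_left]
        simp only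
        have e1 : ({w} : Finset (Fin (n + 1))).erase w = ∅ := by simp
        have e2 : sg ({w} : Finset (Fin (n + 1))) w = 1 := by
          simp [sg, Finset.filter_singleton]
        rw [e1, e2, hy0, Int.cast_one, one_smul]
      rw [Finset.sum_congr rfl fun w _ => h5 w, ← lm_sum_left, sum_kap, lm_one]
    rw [h4]
    abel

/-- If the cohomology of `E(t)` is zero for all large `t` then it is zero for all `t`. -/
theorem exactAt_all (t₀ : ℤ) (h : ∀ t, t₀ ≤ t → ExactAt E t) (t : ℤ) : ExactAt E t := by
  have key : ∀ m : ℕ, ∀ t, t₀ - m ≤ t → ExactAt E t := by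
    intro m
    induction m with
    | zero =>
      intro t ht
      exact h t (by simpa using ht)
    | succ m ih =>
      intro t ht
      refine exactAt_of_succ E t fun t' h1 h2 => ih t' ?_
      push_cast at ht
      linarith
  refine key (t₀ - t).toNat t ?_
  have h1 : t₀ - t ≤ ((t₀ - t).toNat : ℤ) := Int.self_le_toNat _
  linarith

end Pool.Agent.PHJ
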