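import Mathlib

/-!
# Traces of polynomials in an endomorphism
-/

noncomputable section

namespace Pool.Agent.PHJ

universe u v w w'

open Polynomial

private theorem la_maps {K : Type u} {V : Type v} [Field K] [AddCommGroup V]
    [Module K V] (f : Module.End K V) (p : K[X]) (c : K) :
    Set.MapsTo (aeval f p) (f.maxGenEigenspace c) (f.maxGenEigenspace c) := by
  refine Module.End.mapsTo_maxGenEigenspace_of_comm ?_ c
  have h1 : aeval f (X * p) = f * aeval f p := by rw [map_mul, aeval_X]
  have h2 : aeval f (X * p) = aeval f p * f := by rw [mul_comm, map_mul, aeval_X]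
  exact h1.symm.trans h2

private theorem la_piece {K : Type u} {V : Type v} [Field K] [AddCommGroup V]
    [Module K V] [FiniteDimensional K V] (f : Module.End K V) (p : K[X]) (c : K) :
    LinearMap.trace K (f.maxGenEigenspace c) ((aeval f p).restrict (la_maps f p c)) =
      p.eval c * (f.charpoly.rootMultiplicity c : K) := by
  obtain ⟨q, hq⟩ : X - C c ∣ p - C (eval c p) := X_sub_C_dvd_sub_C_eval
  have hm : Set.MapsTo (aeval f (p - C (eval c p))) (f.maxGenEigenspace c) (f.maxGenEigenspace c) :=
    la_maps f _ c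
  have hnil : IsNilpotent ((aeval f (p - C (eval c p))).restrict hm) := by
    refine ⟨Module.finrank K V, ?_⟩
    rw [Module.End.pow_restrict (Module.finrank K V) hm]
    refine LinearMap.ext fun ⟨w, hw0⟩ => Subtype.ext ?_
    have hw := hw0
    rw [Module.End.maxGenEigenspace_eq_genEigenspace_finrank, Module.End.mem_genEigenspace_nat,
      LinearMap.mem_ker] at hw
    show (aeval f (p - C (eval c p)) ^ Module.finrank K V) w = 0
    have h1 : aeval f (p - C (eval c p)) = aeval f q * (f - c • 1) := by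
      rw [hq, mul_comm, map_mul, map_sub, aeval_X, aeval_C, Algebra.algebraMap_eq_smul_one]
    have h2 : Commute (aeval f q) (f - c • 1) := by
      have h3 : f - c • 1 = aeval f (X - C c) := by
        rw [map_sub, aeval_X, aeval_C, Algebra.algebraMap_eq_smul_one]
      rw [h3]
      show aeval f q * aeval f (X - C c) = aeval f (X - C c) * aeval f q
      rw [← map_mul, ← map_mul, mul_comm]
    rw [h1, h2.mul_pow]
    show (aeval f q ^ Module.finrank K V) (((f - c • 1) ^ Module.finrank K V) w) = 0
    rw [hw, map_zero]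
  have h0 := (LinearMap.isNilpotent_trace_of_isNilpotent hnil).eq_zero
  have h1 : (aeval f p).restrict (la_maps f p c) =
      (aeval f (p - C (eval c p))).restrict hm + eval c p • (1 : Module.End K (f.maxGenEigenspace c)) := by
    ext w
    show aeval f p w.1 = aeval f (p - C (eval c p)) w.1 + eval c p • w.1
    rw [map_sub, aeval_C, LinearMap.sub_apply, Module.algebraMap_end_apply, sub_add_cancel]
  rw [h1, map_add, h0, zero_add, map_smul, LinearMap.trace_one, smul_eq_mul,
    LinearMap.finrank_maxGenEigenspace_eq]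

private theorem la_sum {K : Type u} [Field K] [DecidableEq K] (s : Multiset K) (g : K → K) (t : Finset K)
    (ht : ∀ c, c ∈ t ↔ s.count c ≠ 0) : (s.map g).sum = ∑ c ∈ t, g c * (s.count c : K) := by
  rw [Finset.sum_multiset_map_count]
  have h1 : s.toFinset = t := by
    ext c
    rw [Multiset.mem_toFinset, ht, Ne, Multiset.count_eq_zero, not_not]
  rw [h1]
  exact Finset.sum_congr rfl fun c _ => by rw [nsmul_eq_mul, mul_comm]

theorem trace_aeval {K : Type u} {V : Type v} [Field K] [IsAlgClosed K] [AddCommGroup V]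
    [Module K V] [FiniteDimensional K V] (f : Module.End K V) (p : K[X]) :
    LinearMap.trace K V (aeval f p) = (f.charpoly.roots.map fun c => p.eval c).sum := by
  classical
  have h : DirectSum.IsInternal fun c : K => f.maxGenEigenspace c :=
    (DirectSum.isInternal_submodule_iff_iSupIndep_and_iSup_eq_top _).2
      ⟨f.independent_maxGenEigenspace, f.iSup_maxGenEigenspace_eq_top⟩
  have hN : {c : K | f.maxGenEigenspace c ≠ ⊥}.Finite :=
    WellFoundedGT.finite_ne_bot_of_iSupIndep h.submodule_iSupIndep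
  rw [LinearMap.trace_eq_sum_trace_restrict' h hN (la_maps f p),
    la_sum f.charpoly.roots (fun c => p.eval c) hN.toFinset]
  · refine Finset.sum_congr rfl fun c _ => ?_
    rw [la_piece, count_roots]
  · intro c
    rw [Set.Finite.mem_toFinset, Set.mem_ofPred_eq, count_roots, ← LinearMap.finrank_maxGenEigenspace_eq, Ne, Ne,
      Submodule.finrank_eq_zero]

private theorem la_interp {K : Type u} [Field K] (S : Finset K) (c : K) :
    ∃ p : K[X], p.eval c = 1 ∧ ∀ r ∈ S, r ≠ c → p.eval r = 0 := by
  classical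
  refine ⟨∏ r ∈ S.erase c, (X - C r) * C ((c - r)⁻¹), ?_, fun r hr hrc => ?_⟩
  · rw [eval_prod]
    refine Finset.prod_eq_one fun r hr => ?_
    rw [Finset.mem_erase] at hr
    rw [eval_mul, eval_sub, eval_X, eval_C, eval_C]
    exact mul_inv_cancel₀ (sub_ne_zero.2 hr.1.symm)
  · rw [eval_prod]
    refine Finset.prod_eq_zero (Finset.mem_erase.2 ⟨hrc, hr⟩) ?_
    rw [eval_mul, eval_sub, eval_X, eval_C, sub_self, zero_mul]

private theorem la_pick {K : Type u} [Field K] [DecidableEq K] (s : Multiset K) (c : K) (g : K → K)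
    (hg : ∀ r ∈ s, r ≠ c → g r = 0) : (s.map g).sum = g c * (s.count c : K) := by
  rw [Finset.sum_multiset_map_count]
  by_cases hc : c ∈ s
  · rw [Finset.sum_eq_single c]
    · rw [nsmul_eq_mul, mul_comm]
    · intro r hr hrc
      rw [hg r (Multiset.mem_toFinset.1 hr) hrc, smul_zero]
    · intro h
      exact absurd (Multiset.mem_toFinset.2 hc) h
  · rw [Multiset.count_eq_zero_of_notMem hc, Nat.cast_zero, mul_zero]
    refine Finset.sum_eq_zero fun r hr => ?_
    have hr' := Multiset.mem_toFinset.1 hr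
    rw [hg r hr' (fun h => hc (h ▸ hr')), smul_zero]

private theorem la_comm {K : Type u} {V : Type v} {V' : Type w} [Field K]
    [AddCommGroup V] [Module K V] [AddCommGroup V'] [Module K V'] {A : V →ₗ[K] V'}
    {f : Module.End K V} {f' : Module.End K V'} (hA : A ∘ₗ f = f' ∘ₗ A) (p : K[X]) :
    A ∘ₗ aeval f p = aeval f' p ∘ₗ A := by
  have hpow : ∀ n : ℕ, A ∘ₗ (f ^ n) = (f' ^ n) ∘ₗ A := by
    intro n
    induction n with
    | zero =>
      rw [pow_zero, pow_zero]
      rfl
    | succ n ih =>
      rw [pow_succ, pow_succ]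
      show (A ∘ₗ (f ^ n)) ∘ₗ f = (f' ^ n) ∘ₗ (f' ∘ₗ A)
      rw [ih, ← hA]
      rfl
  induction p using Polynomial.induction_on' with
  | add p q hp hq => rw [map_add, map_add, LinearMap.comp_add, LinearMap.add_comp, hp, hq]
  | monomial n c =>
    rw [← C_mul_X_pow_eq_monomial, map_mul, map_mul, aeval_C, aeval_C, map_pow, map_pow, aeval_X, aeval_X,
      Algebra.algebraMap_eq_smul_one, Algebra.algebraMap_eq_smul_one, smul_one_mul, smul_one_mul,
      LinearMap.comp_smul, LinearMap.smul_comp, hpow n]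

theorem mult_closed {K : Type u} {V : Type v} {V' : Type w} [Field K] [IsAlgClosed K]
    [AddCommGroup V] [Module K V] [FiniteDimensional K V] [AddCommGroup V'] [Module K V']
    [FiniteDimensional K V'] {m : ℕ} (A : Fin m → V →ₗ[K] V') (B : Fin m → V' →ₗ[K] V)
    (f : Module.End K V) (f' : Module.End K V') (a b : K) (hA : ∀ i, A i ∘ₗ f = f' ∘ₗ A i)
    (h1 : ∑ i, B i ∘ₗ A i = a • LinearMap.id - f) (h2 : ∑ i, A i ∘ₗ B i = b • LinearMap.id - f')
    (c : K) : (a - c) * (f.charpoly.rootMultiplicity c : K) =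
      (b - c) * (f'.charpoly.rootMultiplicity c : K) := by
  classical
  obtain ⟨p, hp1, hp2⟩ := la_interp (f.charpoly.roots.toFinset ∪ f'.charpoly.roots.toFinset) c
  have e1 : LinearMap.trace K V (aeval f (p * (C a - X))) = ∑ i, LinearMap.trace K V (aeval f p ∘ₗ (B i ∘ₗ A i)) := by
    have h3 : ∑ i, aeval f p ∘ₗ (B i ∘ₗ A i) = aeval f p ∘ₗ ∑ i, B i ∘ₗ A i :=
      (Finset.mul_sum Finset.univ (fun i => (B i ∘ₗ A i : Module.End K V)) (aeval f p)).symm
    rw [← map_sum, h3, h1, map_mul, map_sub, aeval_C, aeval_X, Algebra.algebraMap_eq_smul_one]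
    rfl
  have e2 : LinearMap.trace K V' (aeval f' (p * (C b - X))) =
      ∑ i, LinearMap.trace K V' (aeval f' p ∘ₗ (A i ∘ₗ B i)) := by
    have h3 : ∑ i, aeval f' p ∘ₗ (A i ∘ₗ B i) = aeval f' p ∘ₗ ∑ i, A i ∘ₗ B i :=
      (Finset.mul_sum Finset.univ (fun i => (A i ∘ₗ B i : Module.End K V')) (aeval f' p)).symm
    rw [← map_sum, h3, h2, map_mul, map_sub, aeval_C, aeval_X, Algebra.algebraMap_eq_smul_one]
    rfl
  have e3 : LinearMap.trace K V (aeval f (p * (C a - X))) = LinearMap.trace K V' (aeval f' (p * (C b - X))) := by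
    rw [e1, e2]
    refine Finset.sum_congr rfl fun i _ => ?_
    have h3 : aeval f p ∘ₗ (B i ∘ₗ A i) = (aeval f p ∘ₗ B i) ∘ₗ A i := rfl
    have h4 : aeval f' p ∘ₗ (A i ∘ₗ B i) = A i ∘ₗ (aeval f p ∘ₗ B i) := by
      rw [← LinearMap.comp_assoc, ← LinearMap.comp_assoc, la_comm (hA i) p]
    rw [h3, h4]
    exact LinearMap.trace_comp_comm' (A i) (aeval f p ∘ₗ B i)
  rw [trace_aeval, trace_aeval, la_pick _ c, la_pick _ c, count_roots, count_roots] at e3
  · rw [eval_mul, eval_mul, hp1, one_mul, one_mul, eval_sub, eval_sub, eval_C, eval_C, eval_X] at e3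
    exact e3
  · intro r hr hrc
    show eval r (p * (C b - X)) = 0
    rw [eval_mul, hp2 r (Finset.mem_union_right _ (Multiset.mem_toFinset.2 hr)) hrc, zero_mul]
  · intro r hr hrc
    show eval r (p * (C a - X)) = 0
    rw [eval_mul, hp2 r (Finset.mem_union_left _ (Multiset.mem_toFinset.2 hr)) hrc, zero_mul]

private theorem la_base {k : Type u} (K : Type w') {V : Type v} {V' : Type w} [Field k] [Field K] [Algebra k K]
    [AddCommGroup V] [Module k V] [AddCommGroup V'] [Module k V'] {m : ℕ} (A : Fin m → V →ₗ[k] V')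
    (B : Fin m → V' →ₗ[k] V) (f : Module.End k V) (a : k) (h1 : ∑ i, B i ∘ₗ A i = a • LinearMap.id - f) :
    ∑ i, (B i).baseChange K ∘ₗ (A i).baseChange K = algebraMap k K a • LinearMap.id - f.baseChange K := by
  have h2 : (∑ i, B i ∘ₗ A i).baseChange K = ∑ i, (B i).baseChange K ∘ₗ (A i).baseChange K := by
    have h3 := map_sum (LinearMap.baseChangeHom k K V V) (fun i => B i ∘ₗ A i) Finset.univ
    have h4 : ∀ g : V →ₗ[k] V, LinearMap.baseChangeHom k K V V g = g.baseChange K := fun g => rfl
    rw [h4] at h3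
    rw [h3]
    refine Finset.sum_congr rfl fun i _ => ?_
    rw [h4, LinearMap.baseChange_comp]
  rw [← h2, h1, LinearMap.baseChange_sub, LinearMap.baseChange_smul, LinearMap.baseChange_id, algebraMap_smul]

theorem mult_identity {k : Type u} (K : Type w') {V : Type v} {V' : Type w} [Field k] [Field K]
    [IsAlgClosed K] [Algebra k K]
    [AddCommGroup V] [Module k V] [FiniteDimensional k V] [AddCommGroup V'] [Module k V']
    [FiniteDimensional k V'] {m : ℕ} (A : Fin m → V →ₗ[k] V') (B : Fin m → V' →ₗ[k] V)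
    (f : Module.End k V) (f' : Module.End k V') (a b : k) (hA : ∀ i, A i ∘ₗ f = f' ∘ₗ A i)
    (h1 : ∑ i, B i ∘ₗ A i = a • LinearMap.id - f) (h2 : ∑ i, A i ∘ₗ B i = b • LinearMap.id - f')
    (c : K) : (algebraMap k K a - c) *
        ((f.charpoly.map (algebraMap k K)).rootMultiplicity c : K) =
      (algebraMap k K b - c) * ((f'.charpoly.map (algebraMap k K)).rootMultiplicity c : K) := by
  rw [← LinearMap.charpoly_baseChange f K, ← LinearMap.charpoly_baseChange f' K]
  refine mult_closed (fun i => (A i).baseChange K) (fun i => (B i).baseChange K) (f.baseChange K) (f'.baseChange K)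
    (algebraMap k K a) (algebraMap k K b) (fun i => ?_) (la_base K A B f a h1) (la_base K B A f' b h2) c
  rw [← LinearMap.baseChange_comp, hA i, LinearMap.baseChange_comp]

end Pool.Agent.PHJ
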