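import Mathlib

/-!
# Graded modules with covariant derivatives (definitions)

`Dat n k T`: a family of finite dimensional subspaces `N d` of a module `T` over the polynomial
ring in `n + 1` variables, with `X_i N_d ⊆ N_{d+1}`, covariant derivatives `nb i : N_d → N_{d-1}`
(not assumed to commute), such that `phi = d - ∑ X_i nb_i` is linear over the polynomials, and
with polynomial growth.
-/

noncomputable section

namespace Pool.Agent.PHJ

universe u v

open MvPolynomial

/-- A graded module with covariant derivatives. -/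
structure Dat (n : ℕ) (k : Type u) [Field k] (T : Type v) [AddCommGroup T] [Module k T]
    [Module (MvPolynomial (Fin (n + 1)) k) T] where
  N : ℤ → Submodule k T
  fd : ∀ d, FiniteDimensional k (N d)
  X_mem : ∀ d i, ∀ m ∈ N d, (X i : MvPolynomial (Fin (n + 1)) k) • m ∈ N (d + 1)
  nb : Fin (n + 1) → T →ₗ[k] T
  nb_mem : ∀ d i, ∀ m ∈ N d, nb i m ∈ N (d - 1)
  leib : ∀ i j m, nb i ((X j : MvPolynomial (Fin (n + 1)) k) • m) =
    (if i = j then m else 0) + (X j : MvPolynomial (Fin (n + 1)) k) • nb i m
  phi : T →ₗ[MvPolynomial (Fin (n + 1)) k] T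
  phi_eq : ∀ d, ∀ m ∈ N d,
    phi m = (d : k) • m - ∑ i, (X i : MvPolynomial (Fin (n + 1)) k) • nb i m
  C : ℕ
  bound : ∀ d, Module.finrank k (N d) ≤ C * (d.natAbs + 1) ^ n

namespace Dat

variable {n : ℕ} {k : Type u} [Field k] {T : Type v} [AddCommGroup T] [Module k T]
  [Module (MvPolynomial (Fin (n + 1)) k) T] [IsScalarTower k (MvPolynomial (Fin (n + 1)) k) T]
  (𝒟 : Dat n k T)

instance (d : ℤ) : FiniteDimensional k (𝒟.N d) := 𝒟.fd d

/-- `phi` as a linear map over `k`. -/
def phk : Module.End k T := 𝒟.phi.restrictScalars k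

/-- The part of `N d` on which `phi - c` is nilpotent. -/
def NG (d : ℤ) (c : k) : Submodule k T := 𝒟.N d ⊓ 𝒟.phk.maxGenEigenspace c

end Dat

end Pool.Agent.PHJ
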