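import Pool.Agent.PHJ.LDef

/-!
# Decomposition in generalized eigenspaces
-/

noncomputable section

namespace Pool.Agent.PHJ

universe u v

open MvPolynomial

namespace Dat

variable {n : ℕ} {k : Type u} [Field k] {T : Type v} [AddCommGroup T] [Module k T]
  [Module (MvPolynomial (Fin (n + 1)) k) T] [IsScalarTower k (MvPolynomial (Fin (n + 1)) k) T]
  (𝒟 : Dat n k T)

theorem phi_mem {d : ℤ} {m : T} (hm : m ∈ 𝒟.N d) : 𝒟.phi m ∈ 𝒟.N d := by
  rw [𝒟.phi_eq d m hm]
  refine Submodule.sub_mem _ (Submodule.smul_mem _ _ hm) (Submodule.sum_mem _ fun i _ => ?_)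
  have h1 := 𝒟.X_mem (d - 1) i _ (𝒟.nb_mem d i m hm)
  rwa [sub_add_cancel] at h1

private def mX (n : ℕ) (k : Type u) [Field k] (T : Type v) [AddCommGroup T] [Module k T]
    [Module (MvPolynomial (Fin (n + 1)) k) T] [IsScalarTower k (MvPolynomial (Fin (n + 1)) k) T]
    (i : Fin (n + 1)) : Module.End k T where
  toFun m := (X i : MvPolynomial (Fin (n + 1)) k) • m
  map_add' a b := smul_add _ a b
  map_smul' c a := by
    rw [RingHom.id_apply, smul_comm]

private theorem comm_mX (i : Fin (n + 1)) : Commute 𝒟.phk (mX n k T i) := by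
  refine LinearMap.ext fun m => ?_
  show 𝒟.phi ((X i : MvPolynomial (Fin (n + 1)) k) • m) = (X i : MvPolynomial (Fin (n + 1)) k) • 𝒟.phi m
  rw [map_smul]

theorem X_NG {d : ℤ} {c : k} (i : Fin (n + 1)) {m : T} (hm : m ∈ 𝒟.NG d c) :
    (X i : MvPolynomial (Fin (n + 1)) k) • m ∈ 𝒟.NG (d + 1) c :=
  ⟨𝒟.X_mem d i m hm.1, Module.End.mapsTo_maxGenEigenspace_of_comm (𝒟.comm_mX i) c hm.2⟩

theorem phi_NG {d : ℤ} {c : k} {m : T} (hm : m ∈ 𝒟.NG d c) : 𝒟.phi m ∈ 𝒟.NG d c :=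
  ⟨𝒟.phi_mem hm.1, Module.End.mapsTo_maxGenEigenspace_of_comm (Commute.refl 𝒟.phk) c hm.2⟩

/-- `phi` on `N d`. -/
def phN (d : ℤ) : Module.End k (𝒟.N d) := 𝒟.phk.restrict fun _ hm => 𝒟.phi_mem hm

private theorem NG_eq (d : ℤ) (c : k) :
    𝒟.NG d c = ((𝒟.phN d).maxGenEigenspace c).map (𝒟.N d).subtype :=
  Submodule.inf_genEigenspace 𝒟.phk (𝒟.N d) (k := ⊤) (μ := c) fun _ hm => 𝒟.phi_mem hm

theorem finrank_NG_eq (d : ℤ) (c : k) :
    Module.finrank k (𝒟.NG d c) = (𝒟.phN d).charpoly.rootMultiplicity c := by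
  rw [NG_eq, Submodule.finrank_map_subtype_eq, LinearMap.finrank_maxGenEigenspace_eq]

/-- Every `N d` is the sum of the `NG d c`. -/
def Tri : Prop := ∀ d, 𝒟.N d ≤ ⨆ c, 𝒟.NG d c

private theorem top_of_splits {V : Type v} [AddCommGroup V] [Module k V] [FiniteDimensional k V]
    (f : Module.End k V) (h : f.charpoly.Splits) : ⨆ c, f.maxGenEigenspace c = ⊤ := by
  classical
  obtain ⟨F, hF⟩ : ∃ F : Finset k, F = f.charpoly.roots.toFinset := ⟨_, rfl⟩
  have hind : iSupIndep fun c : F => f.maxGenEigenspace (c : k) :=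
    (f.independent_maxGenEigenspace).comp Subtype.val_injective
  have hinj : Function.Injective (DirectSum.coeLinearMap fun c : F => f.maxGenEigenspace (c : k)) :=
    hind.dfinsupp_lsum_injective
  have hrank : Module.finrank k (DirectSum F fun c => f.maxGenEigenspace (c : k)) =
      Module.finrank k V := by
    rw [Module.finrank_directSum, ← f.charpoly_natDegree, h.natDegree_eq_card_roots,
      ← Multiset.toFinset_sum_count_eq, ← hF, ← Finset.sum_coe_sort F]
    refine Finset.sum_congr rfl fun c _ => ?_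
    rw [LinearMap.finrank_maxGenEigenspace_eq, Polynomial.count_roots]
  have hsurj := (LinearMap.injective_iff_surjective_of_finrank_eq_finrank hrank).1 hinj
  rw [← LinearMap.range_eq_top, DirectSum.range_coeLinearMap] at hsurj
  rw [eq_top_iff, ← hsurj]
  exact iSup_le fun c => le_iSup (fun c => f.maxGenEigenspace c) (c : k)

theorem tri_of_splits (h : ∀ d, (𝒟.phN d).charpoly.Splits) : 𝒟.Tri := by
  intro d
  have h1 : ((⊤ : Submodule k (𝒟.N d)).map (𝒟.N d).subtype) = 𝒟.N d := by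
    rw [Submodule.map_top, Submodule.range_subtype]
  have h2 : ((⊤ : Submodule k (𝒟.N d)).map (𝒟.N d).subtype) ≤ ⨆ c, 𝒟.NG d c := by
    rw [← top_of_splits (𝒟.phN d) (h d), Submodule.map_iSup]
    exact iSup_mono fun c => le_of_eq (𝒟.NG_eq d c).symm
  rwa [h1] at h2

private theorem indep_NG (d : ℤ) : iSupIndep (𝒟.NG d) :=
  (𝒟.phk.independent_maxGenEigenspace).mono fun _ => inf_le_right

/-- projection on one generalized eigenspace -/
private theorem exists_q (d : ℤ) (c : k) : ∃ q : T →ₗ[k] T, (∀ m, q m ∈ 𝒟.NG d c) ∧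
    (∀ m ∈ 𝒟.NG d c, q m = m) ∧ ∀ c', c' ≠ c → ∀ m ∈ 𝒟.NG d c', q m = 0 := by
  have h1 := 𝒟.indep_NG d c
  obtain ⟨e, he⟩ := exists_isCompl (𝒟.NG d c ⊔ ⨆ (j) (_ : j ≠ c), 𝒟.NG d j)
  have h2 : IsCompl (𝒟.NG d c) ((⨆ (j) (_ : j ≠ c), 𝒟.NG d j) ⊔ e) := by
    refine ⟨h1.disjoint_sup_right_of_disjoint_sup_left he.1, ?_⟩
    rw [codisjoint_iff, ← sup_assoc]
    exact he.sup_eq_top
  refine ⟨Submodule.projection _ _ h2, fun m => Submodule.projection_apply_mem h2 m,
    fun m hm => Submodule.projection_apply_of_mem_left h2 hm, fun c' hc m hm => ?_⟩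
  rw [Submodule.projection_apply_eq_zero_iff]
  refine Submodule.mem_sup_left ?_
  exact Submodule.mem_iSup_of_mem c' (Submodule.mem_iSup_of_mem hc hm)

private theorem NG_ne_bot (d : ℤ) (c : k) : 𝒟.NG d c ≠ ⊥ ↔ c ∈ (𝒟.phN d).charpoly.roots := by
  classical
  have hfd : FiniteDimensional k (𝒟.NG d c) :=
    Submodule.finiteDimensional_of_le (inf_le_left : 𝒟.NG d c ≤ 𝒟.N d)
  rw [← Multiset.count_ne_zero, Polynomial.count_roots, ← finrank_NG_eq, not_iff_not]
  exact Submodule.finrank_eq_zero.symm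

/-- The projections on the generalized eigenspaces. -/
theorem exists_pr (h : 𝒟.Tri) : ∃ (pr : ℤ → k → T →ₗ[k] T) (F : ℤ → Finset k),
    (∀ d c, ∀ m ∈ 𝒟.N d, pr d c m ∈ 𝒟.NG d c) ∧
    (∀ d c, ∀ m ∈ 𝒟.NG d c, pr d c m = m) ∧
    (∀ d c i, ∀ m ∈ 𝒟.N d, pr (d + 1) c ((X i : MvPolynomial (Fin (n + 1)) k) • m) =
      (X i : MvPolynomial (Fin (n + 1)) k) • pr d c m) ∧
    (∀ d c, ∀ m ∈ 𝒟.N d, pr d c (𝒟.phi m) = 𝒟.phi (pr d c m)) ∧
    (∀ d, ∀ m ∈ 𝒟.N d, m = ∑ c ∈ F d, pr d c m) ∧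
    ∀ d, ∀ c ∈ F d, 𝒟.NG d c ≠ ⊥ := by
  classical
  choose pr hp1 hp2 hp3 using fun d c => 𝒟.exists_q d c
  refine ⟨pr, fun d => (𝒟.phN d).charpoly.roots.toFinset, fun d c m _ => hp1 d c m, hp2,
    ?_, ?_, ?_, ?_⟩
  · intro d c i m hm
    refine Submodule.iSup_induction (𝒟.NG d) (motive := fun m =>
      pr (d + 1) c ((X i : MvPolynomial (Fin (n + 1)) k) • m) =
        (X i : MvPolynomial (Fin (n + 1)) k) • pr d c m) (h d hm) ?_ ?_ ?_
    · intro c' x hx
      by_cases hc : c' = c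
      · rw [hc] at hx
        rw [hp2 d c x hx, hp2 (d + 1) c _ (𝒟.X_NG i hx)]
      · rw [hp3 d c c' hc x hx, hp3 (d + 1) c c' hc _ (𝒟.X_NG i hx), smul_zero]
    · rw [smul_zero, map_zero, map_zero, smul_zero]
    · intro x y hx hy
      rw [smul_add, map_add, map_add, hx, hy, smul_add]
  · intro d c m hm
    refine Submodule.iSup_induction (𝒟.NG d) (motive := fun m =>
      pr d c (𝒟.phi m) = 𝒟.phi (pr d c m)) (h d hm) ?_ ?_ ?_
    · intro c' x hx
      by_cases hc : c' = c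
      · rw [hc] at hx
        rw [hp2 d c x hx, hp2 d c _ (𝒟.phi_NG hx)]
      · rw [hp3 d c c' hc x hx, hp3 d c c' hc _ (𝒟.phi_NG hx), map_zero]
    · rw [map_zero, map_zero, map_zero]
    · intro x y hx hy
      rw [map_add, map_add, hx, hy, map_add, map_add]
  · intro d m hm
    refine Submodule.iSup_induction (𝒟.NG d) (motive := fun m =>
      m = ∑ c ∈ (𝒟.phN d).charpoly.roots.toFinset, pr d c m) (h d hm) ?_ ?_ ?_
    · intro c x hx
      by_cases hc : c ∈ (𝒟.phN d).charpoly.roots.toFinset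
      · rw [Finset.sum_eq_single_of_mem c hc fun c' _ hcc => hp3 d c' c hcc.symm x hx, hp2 d c x hx]
      · have h1 : 𝒟.NG d c = ⊥ := by
          by_contra hne
          exact hc (Multiset.mem_toFinset.2 ((𝒟.NG_ne_bot d c).1 hne))
        rw [h1, Submodule.mem_bot] at hx
        rw [hx]
        simp
    · simp
    · intro x y hx hy
      simp only [map_add, Finset.sum_add_distrib]
      rw [← hx, ← hy]
  · intro d c hc
    exact (𝒟.NG_ne_bot d c).2 (Multiset.mem_toFinset.1 hc)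

/-- Different generalized eigenspaces are independent. -/
theorem sum_finrank_le (d : ℤ) (F : Finset k) :
    ∑ c ∈ F, Module.finrank k (𝒟.NG d c) ≤ Module.finrank k (𝒟.N d) := by
  classical
  have h1 : ∑ c ∈ F, Module.finrank k (𝒟.NG d c) =
      ∑ c ∈ F, (𝒟.phN d).charpoly.roots.count c := by
    refine Finset.sum_congr rfl fun c _ => ?_
    rw [finrank_NG_eq, Polynomial.count_roots]
  rw [h1, ← (𝒟.phN d).charpoly_natDegree]
  refine le_trans ?_ (Polynomial.card_roots' _)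
  rw [← Multiset.sum_count_eq_card (s := F ∪ (𝒟.phN d).charpoly.roots.toFinset)
    (m := (𝒟.phN d).charpoly.roots) fun a ha => Finset.mem_union_right _ (Multiset.mem_toFinset.2 ha)]
  exact Finset.sum_le_sum_of_subset Finset.subset_union_left

end Dat

end Pool.Agent.PHJ
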