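import Pool.Agent.PHJ.LMul

/-!
# Generation and finiteness

MODULE PHJ-LGen.
-/

noncomputable section

namespace Pool.Agent.PHJ

universe u v

open MvPolynomial

namespace Dat

variable {n : ℕ} {k : Type u} [Field k] {T : Type v} [AddCommGroup T] [Module k T]
  [Module (MvPolynomial (Fin (n + 1)) k) T] [IsScalarTower k (MvPolynomial (Fin (n + 1)) k) T]
  (𝒟 : Dat n k T)

private theorem lgen_fd (d : ℤ) (c : k) : FiniteDimensional k (𝒟.NG d c) :=
  Submodule.finiteDimensional_of_le (S₂ := 𝒟.N d) inf_le_left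

private theorem lgen_sub {d : ℤ} {c : k} {x : T} (hx : x ∈ 𝒟.NG d c) :
    ((d : k) • (LinearMap.id : T →ₗ[k] T) - 𝒟.phk) x ∈ 𝒟.NG d c := by
  have h1 : 𝒟.phi x ∈ 𝒟.NG d c := 𝒟.phi_NG hx
  exact (𝒟.NG d c).sub_mem ((𝒟.NG d c).smul_mem _ hx) h1

private theorem lgen_ker {d : ℤ} {c : k} (hdc : (d : k) ≠ c) {x : T} (hx : x ∈ 𝒟.NG d c)
    (h0 : ((d : k) • (LinearMap.id : T →ₗ[k] T) - 𝒟.phk) x = 0) : x = 0 := by
  have h1 : x ∈ (𝒟.phk.genEigenspace (d : k)) 1 := by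
    rw [Module.End.mem_genEigenspace_one]
    have h2 : (d : k) • x - 𝒟.phk x = 0 := h0
    exact (sub_eq_zero.1 h2).symm
  have h2 : x ∈ 𝒟.phk.maxGenEigenspace c := hx.2
  have h3 := Module.End.disjoint_genEigenspace 𝒟.phk hdc 1 ⊤
  exact (Submodule.disjoint_def.1 h3) x h1 h2

theorem gen_step [CharZero k] (hn : 1 ≤ n) {d : ℤ} {c : k} (hdc : (d : k) ≠ c) {m : T}
    (hm : m ∈ 𝒟.NG d c) : ∃ y : Fin (n + 1) → T, (∀ i, y i ∈ 𝒟.NG (d - 1) c) ∧
      m = ∑ i, (X i : MvPolynomial (Fin (n + 1)) k) • y i := by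
  obtain ⟨pr, F, h1, h2, h3, -, -, -⟩ := 𝒟.exists_pr (𝒟.tri hn)
  have : FiniteDimensional k (𝒟.NG d c) := lgen_fd 𝒟 d c
  set g : 𝒟.NG d c →ₗ[k] 𝒟.NG d c :=
    ((d : k) • (LinearMap.id : T →ₗ[k] T) - 𝒟.phk).restrict
      (fun _ hx => lgen_sub 𝒟 hx) with hg
  have hinj : Function.Injective g := by
    rw [injective_iff_map_eq_zero]
    intro x hx
    have h4 : ((d : k) • (LinearMap.id : T →ₗ[k] T) - 𝒟.phk) (x : T) = 0 := congrArg Subtype.val hx
    exact Subtype.ext (lgen_ker 𝒟 hdc x.2 h4)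
  obtain ⟨x, hx⟩ := LinearMap.injective_iff_surjective.1 hinj ⟨m, hm⟩
  have h4 : (d : k) • (x : T) - 𝒟.phi (x : T) = m := congrArg Subtype.val hx
  have hxN : (x : T) ∈ 𝒟.N d := x.2.1
  have h5 : (d : k) • (x : T) - 𝒟.phi (x : T) =
      ∑ i, (X i : MvPolynomial (Fin (n + 1)) k) • 𝒟.nb i (x : T) := by
    rw [𝒟.phi_eq d _ hxN]
    exact sub_sub_cancel _ _
  refine ⟨fun i => pr (d - 1) c (𝒟.nb i (x : T)), fun i => h1 _ _ _ (𝒟.nb_mem d i _ hxN), ?_⟩
  have h6 := h2 d c m hm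
  rw [← h6]
  conv_lhs => rw [← h4, h5, map_sum]
  refine Finset.sum_congr rfl fun i _ => ?_
  have h7 := h3 (d - 1) c i _ (𝒟.nb_mem d i _ hxN)
  rw [sub_add_cancel] at h7
  exact h7

theorem gen_all [CharZero k] (hn : 1 ≤ n) (l : ℤ) {r : ℕ} (b : Fin r → T)
    (hb : ∀ m ∈ 𝒟.NG l l, ∃ c : Fin r → k, m = ∑ a, c a • b a) (j : ℕ) {m : T}
    (hm : m ∈ 𝒟.NG (l + j) l) : ∃ g : Fin r → MvPolynomial (Fin (n + 1)) k,
      (∀ a, (g a).IsHomogeneous j) ∧ m = ∑ a, g a • b a := by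
  induction j generalizing m with
  | zero =>
    rw [Nat.cast_zero, add_zero] at hm
    obtain ⟨c, hc⟩ := hb m hm
    refine ⟨fun a => MvPolynomial.C (c a), fun a => isHomogeneous_C _ _, ?_⟩
    rw [hc]
    refine Finset.sum_congr rfl fun a _ => ?_
    exact (algebraMap_smul (MvPolynomial (Fin (n + 1)) k) (c a) (b a)).symm
  | succ j ih =>
    have hne : ((l + (j + 1 : ℕ) : ℤ) : k) ≠ (l : k) := by
      intro h
      have h1 : l + (j + 1 : ℕ) = l := Int.cast_injective h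
      omega
    obtain ⟨y, hy, rfl⟩ := 𝒟.gen_step hn hne hm
    have hd : l + (j + 1 : ℕ) - 1 = l + j := by
      push_cast
      ring
    have h1 : ∀ i, ∃ g : Fin r → MvPolynomial (Fin (n + 1)) k,
        (∀ a, (g a).IsHomogeneous j) ∧ y i = ∑ a, g a • b a := by
      intro i
      have h2 := hy i
      rw [hd] at h2
      exact ih h2
    choose g hg1 hg2 using h1
    refine ⟨fun a => ∑ i, X i * g i a, fun a => ?_, ?_⟩
    · refine IsHomogeneous.sum _ _ _ fun i _ => ?_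
      have h2 := (isHomogeneous_X k i).mul (hg1 i a)
      rwa [add_comm 1 j] at h2
    · simp only [Finset.sum_smul]
      rw [Finset.sum_comm]
      refine Finset.sum_congr rfl fun i _ => ?_
      conv_lhs => rw [hg2 i, Finset.smul_sum]
      refine Finset.sum_congr rfl fun a _ => ?_
      rw [mul_smul]

private theorem lgen_one {d : ℤ} {c : k} (h : 𝒟.NG d c ≠ ⊥) :
    1 ≤ Module.finrank k (𝒟.NG d c) := by
  have : FiniteDimensional k (𝒟.NG d c) := lgen_fd 𝒟 d c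
  exact Submodule.one_le_finrank_iff.2 h

private theorem lgen_sum [CharZero k] (d : ℤ) (F : Finset ℤ) :
    ∑ l ∈ F, Module.finrank k (𝒟.NG d (l : k)) ≤ Module.finrank k (𝒟.N d) := by
  have h := 𝒟.sum_finrank_le d (F.map ⟨(Int.cast : ℤ → k), Int.cast_injective⟩)
  rw [Finset.sum_map] at h
  exact h

theorem fin_pos [CharZero k] (hn : 1 ≤ n) :
    {l : ℤ | 𝒟.NG l l ≠ ⊥}.Finite := by
  by_contra hinf
  obtain ⟨F, hF, hcard⟩ := Set.Infinite.exists_subset_card_eq hinf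
    (𝒟.C * 4 ^ n * n.factorial + 1)
  have h := growth F (fun d => Module.finrank k (𝒟.N d)) 𝒟.bound (n := n) (Or.inl (by
    intro d hd
    refine le_trans (Finset.sum_le_sum fun l hl => ?_) (lgen_sum 𝒟 d F)
    obtain ⟨j, hj⟩ := Int.eq_ofNat_of_zero_le (sub_nonneg.2 (hd l hl))
    have e1 : d = l + j := by omega
    have e2 : (d - l).toNat = j := by omega
    rw [e2]
    have h1 := (𝒟.finrank_NG hn l).2.1 j
    rw [← e1] at h1
    rw [h1]
    exact Nat.le_mul_of_pos_right _ (lgen_one 𝒟 (hF hl))))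
  omega

theorem fin_neg [CharZero k] (hn : 1 ≤ n) :
    {l : ℤ | 𝒟.NG (l - n - 1) l ≠ ⊥}.Finite := by
  by_contra hinf
  obtain ⟨F, hF, hcard⟩ := Set.Infinite.exists_subset_card_eq hinf
    (𝒟.C * 4 ^ n * n.factorial + 1)
  have h := growth F (fun d => Module.finrank k (𝒟.N d)) 𝒟.bound (n := n) (Or.inr (by
    intro d hd
    refine le_trans (Finset.sum_le_sum fun l hl => ?_) (lgen_sum 𝒟 d F)
    obtain ⟨j, hj⟩ := Int.eq_ofNat_of_zero_le (sub_nonneg.2 (hd l hl))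
    have e1 : d = l - n - 1 - j := by omega
    have e2 : (l - n - 1 - d).toNat = j := by omega
    rw [e2]
    have h1 := (𝒟.finrank_NG hn l).2.2 j
    rw [← e1] at h1
    rw [h1]
    exact Nat.le_mul_of_pos_right _ (lgen_one 𝒟 (hF hl))))
  omega

end Dat

end Pool.Agent.PHJ
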