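import Mathlib

/-!
# Integrality of the eigenvalues

MODULE PHJ-LNum. PLAN. (1) `c` is an integer. If not, all factors `d + n + 1 - c`, `d + 1 - c` are nonzero, so (induction
in both directions from a `d` with `m d ≠ 0`) `m d ≠ 0` for all `d`. `c * (m (d + 1) - m d) = (d + 1) m (d + 1) - (d + n + 1) m d`:
if `m (d + 1) = m d` then `n * m d = 0`, impossible; so `c` is a rational number `r`, not an integer. With
`d + 1 = ⌊r⌋`: `(d + 1 - r) < 0 < d + n + 1 - r`, but `(d + n + 1 - r) m d = (d + 1 - r) m (d + 1)` with positive `m`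
(an identity of rational numbers: the casts are injective, `CharZero k`). (2) `c = l`: the relation is
`(d + n + 1 - l) m d = (d + 1 - l) m (d + 1)` in `ℤ`. `d = l - n - 1`: `m (l - n) = 0`; then upwards to `m (l - 1) = 0`; the
formulas by induction on `j` (`Nat.succ_mul_choose_eq`-type identities:
`(j + 1) * choose (j + 1 + n) n = (j + 1 + n) * choose (j + n) n`).
-/

noncomputable section

namespace Pool.Agent.PHJ

universe u v

private theorem choose_step (n j : ℕ) :
    (j + 1) * (j + 1 + n).choose n = (j + n + 1) * (j + n).choose n := by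
  have h := Nat.add_one_mul_choose_eq (j + n) j
  have h1 : (j + n).choose j = (j + n).choose n := by
    rw [Nat.choose_symm_add]
  have h2 : (j + n + 1).choose (j + 1) = (j + 1 + n).choose n := by
    have h3 : j + n + 1 = (j + 1) + n := by ring
    rw [h3, Nat.choose_symm_add]
  rw [h1, h2] at h
  rw [h, mul_comm]

private theorem int_part {n : ℕ} (hn : 1 ≤ n) (m : ℤ → ℕ) (l : ℤ)
    (h : ∀ d : ℤ, (d + n + 1 - l) * (m d : ℤ) = (d + 1 - l) * (m (d + 1) : ℤ)) :
    (∀ d, l - n ≤ d → d < l → m d = 0) ∧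
      (∀ j : ℕ, m (l + j) = (j + n).choose n * m l) ∧
      ∀ j : ℕ, m (l - n - 1 - j) = (j + n).choose n * m (l - n - 1) := by
  refine ⟨?_, ?_, ?_⟩
  · have key : ∀ j : ℕ, l - n + j < l → m (l - n + j) = 0 := by
      intro j
      induction j with
      | zero =>
        intro _
        have h0 := h (l - n - 1)
        have e1 : l - (n : ℤ) - 1 + n + 1 - l = 0 := by ring
        have e2 : l - (n : ℤ) - 1 + 1 - l = -n := by ring
        have e3 : l - (n : ℤ) - 1 + 1 = l - n + ((0 : ℕ) : ℤ) := by push_cast; ring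
        rw [e1, e2, e3, zero_mul] at h0
        have h1 : (n : ℤ) ≠ 0 := by
          have : 0 < n := by omega
          exact_mod_cast this.ne'
        have h2 : (m (l - n + ((0 : ℕ) : ℤ)) : ℤ) = 0 := by
          rcases mul_eq_zero.1 h0.symm with h3 | h3
          · exact absurd (neg_eq_zero.1 h3) h1
          · exact h3
        exact_mod_cast h2
      | succ j ih =>
        intro hj
        push_cast at hj
        have ih' := ih (by linarith)
        have h0 := h (l - n + j)
        rw [ih'] at h0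
        have e3 : l - (n : ℤ) + j + 1 = l - n + ((j + 1 : ℕ) : ℤ) := by push_cast; ring
        rw [e3, Nat.cast_zero, mul_zero] at h0
        have h1 : l - (n : ℤ) + ((j + 1 : ℕ) : ℤ) - l ≠ 0 := by
          push_cast
          intro h2
          linarith
        have h2 : (m (l - n + ((j + 1 : ℕ) : ℤ)) : ℤ) = 0 := by
          rcases mul_eq_zero.1 h0.symm with h3 | h3
          · exact absurd h3 h1
          · exact h3
        exact_mod_cast h2
    intro d hd1 hd2
    have h1 := key (d - (l - n)).toNat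
    have h2 : (((d - (l - n)).toNat : ℕ) : ℤ) = d - (l - n) := Int.toNat_of_nonneg (by linarith)
    rw [h2] at h1
    have h3 : l - (n : ℤ) + (d - (l - n)) = d := by ring
    rw [h3] at h1
    exact h1 hd2
  · intro j
    induction j with
    | zero =>
      rw [Nat.cast_zero, add_zero, zero_add, Nat.choose_self, one_mul]
    | succ j ih =>
      have h0 := h (l + j)
      have e1 : l + (j : ℤ) + n + 1 - l = ((j + n + 1 : ℕ) : ℤ) := by push_cast; ring
      have e2 : l + (j : ℤ) + 1 - l = ((j + 1 : ℕ) : ℤ) := by push_cast; ring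
      have e3 : l + (j : ℤ) + 1 = l + ((j + 1 : ℕ) : ℤ) := by push_cast; ring
      rw [e1, e2, e3, ih] at h0
      have h1 : (j + n + 1) * ((j + n).choose n * m l) = (j + 1) * m (l + ((j + 1 : ℕ) : ℤ)) := by
        exact_mod_cast h0
      have h2 : (j + 1) * m (l + ((j + 1 : ℕ) : ℤ)) = (j + 1) * ((j + 1 + n).choose n * m l) := by
        rw [← h1, ← mul_assoc, ← choose_step n j, mul_assoc]
      exact Nat.eq_of_mul_eq_mul_left (Nat.succ_pos j) h2
  · intro j
    induction j with
    | zero =>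
      rw [Nat.cast_zero, sub_zero, zero_add, Nat.choose_self, one_mul]
    | succ j ih =>
      have h0 := h (l - n - 1 - ((j + 1 : ℕ) : ℤ))
      have e1 : l - (n : ℤ) - 1 - ((j + 1 : ℕ) : ℤ) + n + 1 - l = -((j + 1 : ℕ) : ℤ) := by
        push_cast; ring
      have e2 : l - (n : ℤ) - 1 - ((j + 1 : ℕ) : ℤ) + 1 - l = -((j + n + 1 : ℕ) : ℤ) := by
        push_cast; ring
      have e3 : l - (n : ℤ) - 1 - ((j + 1 : ℕ) : ℤ) + 1 = l - n - 1 - j := by push_cast; ring
      rw [e1, e2, e3, ih, neg_mul, neg_mul, neg_inj] at h0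
      have h1 : (j + 1) * m (l - n - 1 - ((j + 1 : ℕ) : ℤ)) =
          (j + n + 1) * ((j + n).choose n * m (l - n - 1)) := by
        exact_mod_cast h0
      have h2 : (j + 1) * m (l - n - 1 - ((j + 1 : ℕ) : ℤ)) =
          (j + 1) * ((j + 1 + n).choose n * m (l - n - 1)) := by
        rw [h1, ← mul_assoc, ← choose_step n j, mul_assoc]
      exact Nat.eq_of_mul_eq_mul_left (Nat.succ_pos j) h2

private theorem exists_int {k : Type u} [Field k] [CharZero k] {n : ℕ} (hn : 1 ≤ n) (m : ℤ → ℕ)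
    (c : k)
    (h : ∀ d : ℤ, ((d : k) + n + 1 - c) * (m d : k) = ((d : k) + 1 - c) * (m (d + 1) : k))
    (hm : ∃ d, m d ≠ 0) : ∃ l : ℤ, (l : k) = c := by
  by_contra hcon
  push Not at hcon
  have hf : ∀ d : ℤ, (d : k) - c ≠ 0 := fun d h0 => hcon d (sub_eq_zero.1 h0)
  have hf1 : ∀ d : ℤ, (d : k) + n + 1 - c ≠ 0 := by
    intro d
    have := hf (d + n + 1)
    push_cast at this
    exact this
  have hf2 : ∀ d : ℤ, (d : k) + 1 - c ≠ 0 := by
    intro d
    have := hf (d + 1)
    push_cast at this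
    exact this
  have hstep : ∀ d : ℤ, m d ≠ 0 ↔ m (d + 1) ≠ 0 := by
    intro d
    constructor
    · intro h1 h2
      have h3 := h d
      rw [h2, Nat.cast_zero, mul_zero] at h3
      rcases mul_eq_zero.1 h3 with h4 | h4
      · exact hf1 d h4
      · exact h1 (by exact_mod_cast h4)
    · intro h1 h2
      have h3 := h d
      rw [h2, Nat.cast_zero, mul_zero] at h3
      rcases mul_eq_zero.1 h3.symm with h4 | h4
      · exact hf2 d h4
      · exact h1 (by exact_mod_cast h4)
  obtain ⟨d0, hd0⟩ := hm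
  have hall : ∀ d : ℤ, m d ≠ 0 := by
    intro d
    induction d using Int.inductionOn' (b := d0) with
    | zero => exact hd0
    | succ k _ ih => exact (hstep k).1 ih
    | pred k _ ih =>
      have := (hstep (k - 1)).2
      rw [sub_add_cancel] at this
      exact this ih
  -- `c` is rational
  have hne : (m 1 : ℚ) - (m 0 : ℚ) ≠ 0 := by
    intro h0
    have h1 : m 1 = m 0 := by
      have : (m 1 : ℚ) = (m 0 : ℚ) := sub_eq_zero.1 h0
      exact_mod_cast this
    have h2 := h 0
    rw [zero_add, h1] at h2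
    have h3 : (n : k) * (m 0 : k) = 0 := by linear_combination h2
    rcases mul_eq_zero.1 h3 with h4 | h4
    · have : n = 0 := by exact_mod_cast h4
      omega
    · exact hall 0 (by exact_mod_cast h4)
  set r : ℚ := ((m 1 : ℚ) - (n + 1) * (m 0 : ℚ)) / ((m 1 : ℚ) - (m 0 : ℚ)) with hr
  have hrk : (r : k) = c := by
    have h2 := h 0
    rw [zero_add, Int.cast_zero, zero_add, zero_add] at h2
    have hne' : (m 1 : k) - (m 0 : k) ≠ 0 := by
      have : (((m 1 : ℚ) - (m 0 : ℚ) : ℚ) : k) ≠ 0 := by exact_mod_cast hne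
      push_cast at this
      exact this
    rw [hr]
    push_cast
    rw [div_eq_iff hne']
    linear_combination -h2
  have hQ : ∀ d : ℤ, ((d : ℚ) + n + 1 - r) * (m d : ℚ) = ((d : ℚ) + 1 - r) * (m (d + 1) : ℚ) := by
    intro d
    have h2 := h d
    rw [← hrk] at h2
    exact_mod_cast h2
  have h1 := hQ (⌊r⌋ - 1)
  rw [sub_add_cancel] at h1
  have hfl : (⌊r⌋ : ℚ) ≤ r := Int.floor_le r
  have hfl2 : r < ⌊r⌋ + 1 := Int.lt_floor_add_one r
  have hlt : (⌊r⌋ : ℚ) < r := by
    refine lt_of_le_of_ne hfl fun h0 => ?_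
    refine hcon ⌊r⌋ ?_
    rw [← hrk, ← h0]
    push_cast
    rfl
  have hp0 : (0 : ℚ) < m (⌊r⌋ - 1) := by exact_mod_cast Nat.pos_of_ne_zero (hall _)
  have hp1 : (0 : ℚ) < m ⌊r⌋ := by exact_mod_cast Nat.pos_of_ne_zero (hall _)
  have hn' : (1 : ℚ) ≤ n := by exact_mod_cast hn
  have e1 : 0 < (((⌊r⌋ - 1 : ℤ) : ℚ) + n + 1 - r) * (m (⌊r⌋ - 1) : ℚ) := by
    apply mul_pos _ hp0
    push_cast
    linarith
  have e2 : (((⌊r⌋ - 1 : ℤ) : ℚ) + 1 - r) * (m ⌊r⌋ : ℚ) < 0 := by
    apply mul_neg_of_neg_of_pos _ hp1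
    push_cast
    linarith
  rw [h1] at e1
  linarith

theorem numeric {k : Type u} [Field k] [CharZero k] {n : ℕ} (hn : 1 ≤ n) (m : ℤ → ℕ) (c : k)
    (h : ∀ d : ℤ, ((d : k) + n + 1 - c) * (m d : k) = ((d : k) + 1 - c) * (m (d + 1) : k))
    (hm : ∃ d, m d ≠ 0) : ∃ l : ℤ, (l : k) = c ∧ (∀ d, l - n ≤ d → d < l → m d = 0) ∧
      (∀ j : ℕ, m (l + j) = (j + n).choose n * m l) ∧
      ∀ j : ℕ, m (l - n - 1 - j) = (j + n).choose n * m (l - n - 1) := by
  obtain ⟨l, hl⟩ := exists_int hn m c h hm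
  refine ⟨l, hl, int_part hn m l fun d => ?_⟩
  have h1 := h d
  rw [← hl] at h1
  exact_mod_cast h1

private theorem pow_le_choose (t n : ℕ) : (t + 1) ^ n ≤ n.factorial * (t + n).choose n := by
  rw [← Nat.ascFactorial_eq_factorial_mul_choose]
  exact Nat.pow_succ_le_ascFactorial (t + 1) n

private theorem growth_aux {n C : ℕ} (F : Finset ℤ) (M v s : ℕ) (g : ℤ → ℕ)
    (hg : ∀ l ∈ F, M ≤ g l) (hv : v ≤ C * s ^ n) (hs : s ≤ 4 * (M + 1))
    (h : ∑ l ∈ F, (g l + n).choose n ≤ v) : F.card ≤ C * 4 ^ n * n.factorial := by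
  have h1 : ∑ l ∈ F, (M + n).choose n ≤ ∑ l ∈ F, (g l + n).choose n :=
    Finset.sum_le_sum fun l hl => Nat.choose_le_choose n (Nat.add_le_add_right (hg l hl) n)
  rw [Finset.sum_const, smul_eq_mul] at h1
  have h2 : F.card * (M + 1) ^ n ≤ C * 4 ^ n * n.factorial * (M + 1) ^ n := by
    calc F.card * (M + 1) ^ n ≤ F.card * (n.factorial * (M + n).choose n) :=
          Nat.mul_le_mul_left _ (pow_le_choose M n)
      _ = n.factorial * (F.card * (M + n).choose n) := by ring
      _ ≤ n.factorial * (C * (4 * (M + 1)) ^ n) := by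
          refine Nat.mul_le_mul_left _ ((h1.trans h).trans (hv.trans ?_))
          exact Nat.mul_le_mul_left _ (Nat.pow_le_pow_left hs n)
      _ = C * 4 ^ n * n.factorial * (M + 1) ^ n := by rw [mul_pow]; ring
  exact Nat.le_of_mul_le_mul_right h2 (pow_pos (Nat.succ_pos M) n)

/-- Polynomial growth bounds the number of summands. -/
theorem growth {n C : ℕ} (F : Finset ℤ) (f : ℤ → ℕ) (hf : ∀ d, f d ≤ C * (d.natAbs + 1) ^ n)
    (h : (∀ d, (∀ l ∈ F, l ≤ d) → ∑ l ∈ F, ((d - l).toNat + n).choose n ≤ f d) ∨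
      ∀ d, (∀ l ∈ F, d ≤ l - n - 1) → ∑ l ∈ F, ((l - n - 1 - d).toNat + n).choose n ≤ f d) :
    F.card ≤ C * 4 ^ n * n.factorial := by
  obtain ⟨M, hMn, hM⟩ : ∃ M : ℕ, n ≤ M ∧ ∀ l ∈ F, l.natAbs ≤ M :=
    ⟨n + F.sup Int.natAbs, Nat.le_add_right _ _, fun l hl =>
      (Finset.le_sup (f := Int.natAbs) hl).trans (Nat.le_add_left _ _)⟩
  rcases h with h | h
  · refine growth_aux F M (f (2 * M : ℕ)) (((2 * M : ℕ) : ℤ).natAbs + 1)
      (fun l => (((2 * M : ℕ) : ℤ) - l).toNat) ?_ (hf _) ?_ (h _ ?_)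
    · intro l hl
      have := hM l hl
      show M ≤ (((2 * M : ℕ) : ℤ) - l).toNat
      omega
    · omega
    · intro l hl
      have := hM l hl
      omega
  · refine growth_aux F M (f (-((2 * M + n + 1 : ℕ) : ℤ)))
      ((-((2 * M + n + 1 : ℕ) : ℤ)).natAbs + 1)
      (fun l => (l - n - 1 - -((2 * M + n + 1 : ℕ) : ℤ)).toNat) ?_ (hf _) ?_ (h _ ?_)
    · intro l hl
      have := hM l hl
      show M ≤ (l - n - 1 - -((2 * M + n + 1 : ℕ) : ℤ)).toNat
      omega
    · omega
    · intro l hl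
      have := hM l hl
      omega

end Pool.Agent.PHJ
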