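import Pool.Agent.PHJ.LEig
import Pool.Agent.PHJ.LAlg
import Pool.Agent.PHJ.LNum

/-!
# The eigenvalues are integers; multiplicities
-/

noncomputable section

namespace Pool.Agent.PHJ

universe u v w

open MvPolynomial

namespace Dat

variable {n : ℕ} {k : Type u} [Field k] {T : Type v} [AddCommGroup T] [Module k T]
  [Module (MvPolynomial (Fin (n + 1)) k) T] [IsScalarTower k (MvPolynomial (Fin (n + 1)) k) T]
  (𝒟 : Dat n k T)

private def Ax (d : ℤ) (i : Fin (n + 1)) : 𝒟.N d →ₗ[k] 𝒟.N (d + 1) :=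
  ((LinearMap.lsmul (MvPolynomial (Fin (n + 1)) k) T (X i)).restrictScalars k).restrict
    fun m hm => 𝒟.X_mem d i m hm

omit [IsScalarTower k (MvPolynomial (Fin (n + 1)) k) T] in
private theorem nb_mem' (d : ℤ) (i : Fin (n + 1)) {m : T} (hm : m ∈ 𝒟.N (d + 1)) :
    𝒟.nb i m ∈ 𝒟.N d := by
  have h := 𝒟.nb_mem (d + 1) i m hm
  rwa [add_sub_cancel_right] at h

private def Bx (d : ℤ) (i : Fin (n + 1)) : 𝒟.N (d + 1) →ₗ[k] 𝒟.N d :=
  (𝒟.nb i).restrict fun _ hm => 𝒟.nb_mem' d i hm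

private theorem Ax_coe (d : ℤ) (i : Fin (n + 1)) (m : 𝒟.N d) :
    ((𝒟.Ax d i m : 𝒟.N (d + 1)) : T) = (X i : MvPolynomial (Fin (n + 1)) k) • (m : T) := rfl

private theorem Bx_coe (d : ℤ) (i : Fin (n + 1)) (m : 𝒟.N (d + 1)) :
    ((𝒟.Bx d i m : 𝒟.N d) : T) = 𝒟.nb i (m : T) := rfl

private theorem phN_coe (d : ℤ) (m : 𝒟.N d) : ((𝒟.phN d m : 𝒟.N d) : T) = 𝒟.phi (m : T) := rfl

theorem mult_step (K : Type w) [Field K] [IsAlgClosed K] [Algebra k K] (d : ℤ) (c : K) :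
    ((d : K) + n + 1 - c) *
        (((𝒟.phN d).charpoly.map (algebraMap k K)).rootMultiplicity c : K) =
      ((d : K) + 1 - c) *
        (((𝒟.phN (d + 1)).charpoly.map (algebraMap k K)).rootMultiplicity c : K) := by
  have h := mult_identity K (𝒟.Ax d) (𝒟.Bx d) (𝒟.phN d) (𝒟.phN (d + 1)) ((d : k) + n + 1)
    ((d : k) + 1) ?_ ?_ ?_ c
  · simpa using h
  · intro i
    ext m
    show (X i : MvPolynomial (Fin (n + 1)) k) • 𝒟.phi (m : T) =
      𝒟.phi ((X i : MvPolynomial (Fin (n + 1)) k) • (m : T))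
    rw [map_smul]
  · ext m
    have h1 : (((∑ i, 𝒟.Bx d i ∘ₗ 𝒟.Ax d i) m : 𝒟.N d) : T) =
        ∑ i, 𝒟.nb i ((X i : MvPolynomial (Fin (n + 1)) k) • (m : T)) := by
      rw [LinearMap.sum_apply, Submodule.coe_sum]
      rfl
    have h2 : (((((d : k) + n + 1) • LinearMap.id - 𝒟.phN d : Module.End k (𝒟.N d)) m : 𝒟.N d) : T)
        = ((d : k) + n + 1) • (m : T) - 𝒟.phi (m : T) := rfl
    rw [h1, h2, 𝒟.phi_eq d m m.2]
    have h3 : ∀ i, 𝒟.nb i ((X i : MvPolynomial (Fin (n + 1)) k) • (m : T)) =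
        (m : T) + (X i : MvPolynomial (Fin (n + 1)) k) • 𝒟.nb i (m : T) := by
      intro i
      rw [𝒟.leib i i, if_pos rfl]
    simp only [h3, Finset.sum_add_distrib, Finset.sum_const, Finset.card_univ, Fintype.card_fin]
    rw [← Nat.cast_smul_eq_nsmul k, add_smul, add_smul]
    push_cast
    rw [add_smul]
    abel
  · ext m
    have h1 : (((∑ i, 𝒟.Ax d i ∘ₗ 𝒟.Bx d i) m : 𝒟.N (d + 1)) : T) =
        ∑ i, (X i : MvPolynomial (Fin (n + 1)) k) • 𝒟.nb i (m : T) := by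
      rw [LinearMap.sum_apply, Submodule.coe_sum]
      rfl
    have h2 : (((((d : k) + 1) • LinearMap.id - 𝒟.phN (d + 1) :
        Module.End k (𝒟.N (d + 1))) m : 𝒟.N (d + 1)) : T)
        = ((d : k) + 1) • (m : T) - 𝒟.phi (m : T) := rfl
    rw [h1, h2, 𝒟.phi_eq (d + 1) m m.2]
    push_cast
    abel

theorem exists_int [CharZero k] (hn : 1 ≤ n) (d : ℤ) (c : AlgebraicClosure k)
    (h : ((𝒟.phN d).charpoly.map (algebraMap k (AlgebraicClosure k))).rootMultiplicity c ≠ 0) :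
    ∃ l : ℤ, (l : AlgebraicClosure k) = c := by
  obtain ⟨l, hl, _⟩ := numeric hn (fun d => ((𝒟.phN d).charpoly.map
    (algebraMap k (AlgebraicClosure k))).rootMultiplicity c) c
    (fun d => 𝒟.mult_step (AlgebraicClosure k) d c) ⟨d, h⟩
  exact ⟨l, hl⟩

theorem splits [CharZero k] (hn : 1 ≤ n) (d : ℤ) : (𝒟.phN d).charpoly.Splits := by
  refine Polynomial.Splits.of_splits_map (algebraMap k (AlgebraicClosure k))
    (IsAlgClosed.splits _) fun c hc => ?_
  have h0 : ((𝒟.phN d).charpoly.map (algebraMap k (AlgebraicClosure k))) ≠ 0 :=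
    Polynomial.map_ne_zero (𝒟.phN d).charpoly_monic.ne_zero
  have h1 : ((𝒟.phN d).charpoly.map
      (algebraMap k (AlgebraicClosure k))).rootMultiplicity c ≠ 0 :=
    ((Polynomial.rootMultiplicity_pos h0).2 (Polynomial.isRoot_of_mem_roots hc)).ne'
  obtain ⟨l, hl⟩ := 𝒟.exists_int hn d c h1
  exact ⟨(l : k), by rw [map_intCast, hl]⟩

private theorem finrank_map (d : ℤ) (c : k) : Module.finrank k (𝒟.NG d c) =
    ((𝒟.phN d).charpoly.map (algebraMap k (AlgebraicClosure k))).rootMultiplicity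
      (algebraMap k (AlgebraicClosure k) c) := by
  rw [𝒟.finrank_NG_eq, Polynomial.eq_rootMultiplicity_map
    (FaithfulSMul.algebraMap_injective k (AlgebraicClosure k))]

theorem int_of_NG [CharZero k] (hn : 1 ≤ n) {d : ℤ} {c : k} (h : 𝒟.NG d c ≠ ⊥) :
    ∃ l : ℤ, (l : k) = c := by
  have h0 : FiniteDimensional k (𝒟.NG d c) :=
    Submodule.finiteDimensional_of_le (S₂ := 𝒟.N d) inf_le_left
  have h1 : Module.finrank k (𝒟.NG d c) ≠ 0 := fun e => h (Submodule.finrank_eq_zero.1 e)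
  rw [𝒟.finrank_map] at h1
  obtain ⟨l, hl⟩ := 𝒟.exists_int hn d _ h1
  refine ⟨l, FaithfulSMul.algebraMap_injective k (AlgebraicClosure k) ?_⟩
  rw [map_intCast, hl]

theorem finrank_NG [CharZero k] (hn : 1 ≤ n) (l : ℤ) :
    (∀ d, l - n ≤ d → d < l → Module.finrank k (𝒟.NG d l) = 0) ∧
    (∀ j : ℕ, Module.finrank k (𝒟.NG (l + j) l) =
      (j + n).choose n * Module.finrank k (𝒟.NG l l)) ∧
    ∀ j : ℕ, Module.finrank k (𝒟.NG (l - n - 1 - j) l) =
      (j + n).choose n * Module.finrank k (𝒟.NG (l - n - 1) l) := by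
  simp only [𝒟.finrank_map, map_intCast]
  by_cases h0 : ∃ d, ((𝒟.phN d).charpoly.map
      (algebraMap k (AlgebraicClosure k))).rootMultiplicity (l : AlgebraicClosure k) ≠ 0
  · obtain ⟨l', h1, h2, h3, h4⟩ := numeric hn (fun d => ((𝒟.phN d).charpoly.map
      (algebraMap k (AlgebraicClosure k))).rootMultiplicity (l : AlgebraicClosure k))
      (l : AlgebraicClosure k) (fun d => 𝒟.mult_step (AlgebraicClosure k) d _) h0
    have h5 : l' = l := Int.cast_injective h1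
    subst h5
    exact ⟨h2, h3, h4⟩
  · have h1 : ∀ d, ((𝒟.phN d).charpoly.map
        (algebraMap k (AlgebraicClosure k))).rootMultiplicity (l : AlgebraicClosure k) = 0 := by
      intro d
      by_contra h
      exact h0 ⟨d, h⟩
    refine ⟨fun d _ _ => h1 d, fun j => ?_, fun j => ?_⟩
    · rw [h1, h1, mul_zero]
    · rw [h1, h1, mul_zero]

theorem tri [CharZero k] (hn : 1 ≤ n) : 𝒟.Tri := 𝒟.tri_of_splits (𝒟.splits hn)

end Dat

end Pool.Agent.PHJ
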