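import Pool.Agent.PHJ.Defs

/-!
# Laurent polynomials

MODULE PHJ-Lau. PLAN. `coeff_pd`: `pd i f` is `∑ u, f(u) * u_i * x^(u - e_i)`; the coefficient at `u` is the
term of `u + e_i` (`AddMonoidAlgebra.coeff_ofCoeff`, `Finsupp.sum_apply`, `Finsupp.single_apply`,
`Finset.sum_eq_single`; if `u + e_i` is not in the support both sides are zero).
`pd_mul`: both sides are bilinear; check on `single` (`AddMonoidAlgebra.induction_on` or
`Finsupp.induction_linear`; `AddMonoidAlgebra.single_mul_single`). `coeff_xv_mul`: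
`AddMonoidAlgebra.coeff_single_mul...`. `mono u = x^u`.
-/

noncomputable section

namespace Pool.Agent.PHJ

universe u v

open AW

variable {n : ℕ} {k : Type u} [CommRing k]

/-- Monomials. -/
def mono (u : Fin (n + 1) → ℤ) : Lau n k := AddMonoidAlgebra.single u 1

theorem xv_eq (i : Fin (n + 1)) : (xv i : Lau n k) = mono (Pi.single i 1) := rfl

theorem mono_zero : (mono 0 : Lau n k) = 1 := rfl

theorem mono_add (u v : Fin (n + 1) → ℤ) : (mono (u + v) : Lau n k) = mono u * mono v := by
  unfold mono
  rw [AddMonoidAlgebra.single_mul_single, one_mul]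

theorem coeff_mono [DecidableEq (Fin (n + 1) → ℤ)] (u v : Fin (n + 1) → ℤ) :
    (mono u : Lau n k).coeff v = if v = u then 1 else 0 := by
  unfold mono
  rw [AddMonoidAlgebra.coeff_single, Finsupp.single_apply]
  exact if_congr eq_comm rfl rfl

theorem coeff_mono_mul (w : Fin (n + 1) → ℤ) (f : Lau n k) (u : Fin (n + 1) → ℤ) :
    (mono w * f).coeff u = f.coeff (u - w) := by
  unfold mono
  rw [AddMonoidAlgebra.coeff_single_mul_apply, one_mul]
  congr 1
  abel

theorem coeff_xv_mul (i : Fin (n + 1)) (f : Lau n k) (u : Fin (n + 1) → ℤ) :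
    (xv i * f).coeff u = f.coeff (u - Pi.single i 1) := by
  rw [xv_eq, coeff_mono_mul]

theorem coeff_mul_ne {f g : Lau n k} {u : Fin (n + 1) → ℤ} (h : (f * g).coeff u ≠ 0) :
    ∃ v w, f.coeff v ≠ 0 ∧ g.coeff w ≠ 0 ∧ v + w = u := by
  classical
  rw [AddMonoidAlgebra.coeff_mul] at h
  unfold Finsupp.sum at h
  obtain ⟨v, hv, h1⟩ := Finset.exists_ne_zero_of_sum_ne_zero h
  obtain ⟨w, hw, h2⟩ := Finset.exists_ne_zero_of_sum_ne_zero h1
  refine ⟨v, w, Finsupp.mem_support_iff.1 hv, Finsupp.mem_support_iff.1 hw, ?_⟩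
  by_contra h3
  exact h2 (if_neg h3)

private theorem pd_single (i : Fin (n + 1)) (u : Fin (n + 1) → ℤ) (c : k) :
    pd i (AddMonoidAlgebra.single u c : Lau n k) =
      AddMonoidAlgebra.single (u - Pi.single i 1) ((u i : k) * c) := by
  show AddMonoidAlgebra.ofCoeff ((Finsupp.single u c).sum fun u c =>
    Finsupp.single (u - Pi.single i 1) ((u i : k) * c)) = _
  rw [Finsupp.sum_single_index (by rw [mul_zero, Finsupp.single_zero])]
  rfl

theorem coeff_pd (i : Fin (n + 1)) (f : Lau n k) (u : Fin (n + 1) → ℤ) :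
    (pd i f).coeff u = ((u i + 1 : ℤ) : k) * f.coeff (u + Pi.single i 1) := by
  classical
  induction f using AddMonoidAlgebra.induction_linear with
  | zero => rw [map_zero, AddMonoidAlgebra.coeff_zero, Finsupp.zero_apply, Finsupp.zero_apply, mul_zero]
  | add f g hf hg =>
    rw [map_add, AddMonoidAlgebra.coeff_add, Finsupp.add_apply, hf, hg, AddMonoidAlgebra.coeff_add,
      Finsupp.add_apply, mul_add]
  | single v c =>
    rw [pd_single, AddMonoidAlgebra.coeff_single, AddMonoidAlgebra.coeff_single, Finsupp.single_apply,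
      Finsupp.single_apply]
    by_cases h : v = u + Pi.single i 1
    · have h1 : v - Pi.single i 1 = u := by rw [h]; abel
      rw [if_pos h1, if_pos h, h, Pi.add_apply, Pi.single_eq_same]
    · have h1 : v - Pi.single i 1 ≠ u := by
        intro h2
        apply h
        rw [← h2]
        abel
      rw [if_neg h1, if_neg h, mul_zero]

private theorem pd_mul_single (i : Fin (n + 1)) (u v : Fin (n + 1) → ℤ) (a b : k) :
    pd i (AddMonoidAlgebra.single u a * AddMonoidAlgebra.single v b : Lau n k) =
      pd i (AddMonoidAlgebra.single u a) * AddMonoidAlgebra.single v b +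
        AddMonoidAlgebra.single u a * pd i (AddMonoidAlgebra.single v b) := by
  rw [AddMonoidAlgebra.single_mul_single, pd_single, pd_single, pd_single,
    AddMonoidAlgebra.single_mul_single, AddMonoidAlgebra.single_mul_single]
  have h1 : u - Pi.single i 1 + v = u + v - Pi.single i 1 := by abel
  have h2 : u + (v - Pi.single i 1) = u + v - Pi.single i 1 := by abel
  rw [h1, h2, ← AddMonoidAlgebra.single_add]
  congr 1
  rw [Pi.add_apply]
  push_cast
  ring

theorem pd_mul (i : Fin (n + 1)) (f g : Lau n k) : pd i (f * g) = pd i f * g + f * pd i g := by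
  induction f using AddMonoidAlgebra.induction_linear with
  | zero => rw [zero_mul, map_zero, zero_mul, zero_mul, add_zero]
  | add f f' hf hf' =>
    rw [add_mul, map_add, hf, hf', map_add, add_mul, add_mul]
    abel
  | single u a =>
    induction g using AddMonoidAlgebra.induction_linear with
    | zero => rw [mul_zero, map_zero, mul_zero, mul_zero, add_zero]
    | add g g' hg hg' =>
      rw [mul_add, map_add, hg, hg', map_add, mul_add, mul_add]
      abel
    | single v b => exact pd_mul_single i u v a b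

theorem pd_xv (i j : Fin (n + 1)) : pd i (xv j : Lau n k) = if i = j then 1 else 0 := by
  unfold xv
  rw [pd_single]
  by_cases h : i = j
  · subst h
    rw [if_pos rfl, sub_self, Pi.single_eq_same, Int.cast_one, one_mul]
    rfl
  · rw [if_neg h, Pi.single_eq_of_ne h, Int.cast_zero, zero_mul]
    exact AddMonoidAlgebra.single_zero _

theorem pd_one (i : Fin (n + 1)) : pd i (1 : Lau n k) = 0 := by
  have h := pd_mul i (1 : Lau n k) 1
  rw [one_mul, one_mul, mul_one] at h
  exact left_eq_add.1 h

/-- Euler's formula. -/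
theorem euler {f : Lau n k} {e : ℤ} (h : ∀ u, f.coeff u ≠ 0 → ∑ i, u i = e) :
    ∑ i, xv i * pd i f = (e : k) • f := by
  ext u
  rw [AddMonoidAlgebra.coeff_sum, Finsupp.finsetSum_apply, AddMonoidAlgebra.coeff_smul_apply, smul_eq_mul]
  have h1 : ∀ i, (xv i * pd i f).coeff u = ((u i : ℤ) : k) * f.coeff u := by
    intro i
    rw [coeff_xv_mul, coeff_pd, Pi.sub_apply, Pi.single_eq_same]
    have e1 : u i - 1 + 1 = u i := by ring
    have e2 : u - Pi.single i 1 + Pi.single i 1 = u := by abel
    rw [e1, e2]
  rw [Finset.sum_congr rfl fun i _ => h1 i, ← Finset.sum_mul, ← Int.cast_sum]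
  by_cases h2 : f.coeff u = 0
  · rw [h2, mul_zero, mul_zero]
  · rw [h u h2]

end Pool.Agent.PHJ
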