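import Pool.Agent.PHJ.Cmp
import Pool.Agent.PHJ.Koz
import Pool.Agent.PHJ.Ctn
import Pool.Agent.PHJ.Inv
import Pool.Agent.PHJ.Conv

/-!
# The splitting theorem
-/

noncomputable section

namespace Pool.Agent.PHJ

universe u v

open AW

variable {n : ℕ} {k : Type u} [Field k]

/-- An object of `D^b(P^n)` for which the contractions of the Atiyah class with the constant
vector fields vanish is a direct sum of shifted line bundles. -/
theorem split_of_at1 [CharZero k] (hn : 1 ≤ n) (E : Obj n k)
    (h : ∀ i, at1 E i ∈ Ex E E 1 (-1)) : IsSplit E := by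
  obtain ⟨A, _, _, e, s, f, hf, t₀, ht⟩ := exists_ev E hn h
  refine ⟨A, inferInstance, inferInstance, e, s, Iso.symm ?_⟩
  apply iso_of_contraction hf
  apply exists_contraction
  apply exactAt_all _ t₀
  intro t htt
  exact exactAt_cone hf t (ht t htt).1 (ht t htt).2

/-- An object with `Hom(E, E(-1)[1]) = 0` is a direct sum of shifted line bundles. -/
theorem split_of_homZero [CharZero k] (hn : 1 ≤ n) (E : Obj n k)
    (h : HomZero E E 1 (-1)) : IsSplit E :=
  split_of_at1 hn E fun i => h (at1_closed E i)

end Pool.Agent.PHJ
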