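import Pool.Agent.PHJ.Pdc

/-!
# The module of an object

`MM E = ⨁ Coc · w_i` with the differential `D (∑ m_i w_i) = ∑ (d m_i w_i + par m_i * D w_i)`,
`D w_i = ∑ δ i j w_j`; `gr E p t`: the cochains of degree `p` of the complex computing the
cohomology of `E(t)`; `RM E`: the regular elements (no grading), a module over polynomials.
`ExactAt E t`: the cohomology of `E(t)` is zero.

MODULE PHJ-Mod. PLAN. `D_D`: `d_d`, `d_mul`, `d_par`, `par_mul`, `par_par` and `E.flat`. `D_gr`: `reg_d`,
`reg_mul`, `reg_par`, `E.reg_δ`. `D_mul`: `d_mul`, `par_mul`. `exists_gr`: apply to `w` the projection which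
keeps at the index `i`, the face `K` and the exponent `u` only the coefficients with
`card K = p - 1 - s i + 1`, `∑ u = t + e i`; it commutes with `D` (up to the shift of `p`) because the `δ i j` are
homogeneous: define `pr p t : MM E →ₗ[k] MM E` by this formula and show `D (pr (p - 1) t w) = pr p t (D w)`
coefficientwise (`at_d`, `at_mul`, `AddMonoidAlgebra.coeff_mul`: in a nonzero term the exponent of
`δ i j` has sum `e j - e i` and the face has `s i + 1 - s j + 1` elements).
-/

noncomputable section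

namespace Pool.Agent.PHJ

universe u v

open AW

variable {n : ℕ} {k : Type u} [CommRing k] (E : Obj n k)

/-- The module of `E`. -/
abbrev MM : Type u := E.I → Coc n k

/-- Left multiplication by a cochain. -/
def lm (a : Coc n k) (m : MM E) : MM E := fun j => a * m j

/-- The basis element `w_i`. -/
def wb (i : E.I) : MM E := fun j => if i = j then 1 else 0

/-- The differential. -/
def DD : MM E →ₗ[Lau n k] MM E where
  toFun m l := d (m l) + ∑ j, par (m j) * E.δ j l
  map_add' m m' := by
    funext l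
    simp only [Pi.add_apply, map_add, add_mul, Finset.sum_add_distrib]
    abel
  map_smul' c m := by
    funext l
    simp only [Pi.smul_apply, map_smul, RingHom.id_apply, smul_add, Finset.smul_sum,
      smul_mul_assoc]

theorem DD_apply (m : MM E) (l : E.I) : DD E m l = d (m l) + ∑ j, par (m j) * E.δ j l := rfl

/-- The cochains of degree `p` of the complex of `E(t)`. -/
def gr (p t : ℤ) : Submodule k (MM E) where
  carrier := {m | ∀ i, m i ∈ reg n k (p - E.s i) (t + E.e i)}
  zero_mem' := fun i => reg_zero _ _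
  add_mem' h h' i := reg_add (h i) (h' i)
  smul_mem' c _ h i := reg_smul c (h i)

theorem mem_gr {p t : ℤ} {m : MM E} :
    m ∈ gr E p t ↔ ∀ i, m i ∈ reg n k (p - E.s i) (t + E.e i) := Iff.rfl

/-- The regular elements. -/
def RM : Submodule (MvPolynomial (Fin (n + 1)) k) (MM E) where
  carrier := {m | ∀ i K u, ((m i).at' K).coeff u ≠ 0 → ∀ j ∉ K, 0 ≤ u j}
  zero_mem' := fun i K u h => absurd rfl h
  add_mem' := by
    intro a b ha hb i K u h
    by_cases h1 : ((a i).at' K).coeff u = 0
    · refine hb i K u fun h2 => h ?_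
      rw [Pi.add_apply, at_add, AddMonoidAlgebra.coeff_add, Finsupp.add_apply, h1, h2, add_zero]
    · exact ha i K u h1
  smul_mem' := by
    intro c a ha i K u h j hj
    rw [Pi.smul_apply, at_smul, Algebra.smul_def, algebraMap_pol] at h
    obtain ⟨v, w, h1, h2, h3⟩ := coeff_mul_ne h
    rw [coeff_polL] at h1
    have h4 : ∀ i, 0 ≤ v i := by
      by_contra h5
      exact h1 (if_neg h5)
    have h5 := ha i K w h2 j hj
    rw [← h3, Pi.add_apply]
    exact add_nonneg (h4 j) h5

/-- The cohomology of `E(t)` is zero. -/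
def ExactAt (t : ℤ) : Prop := ∀ p, ∀ z ∈ gr E p t, DD E z = 0 → ∃ w ∈ gr E (p - 1) t, DD E w = z

theorem DD_DD (m : MM E) : DD E (DD E m) = 0 := by
  funext l
  rw [DD_apply]
  have h1 : d (DD E m l) = ∑ j, (m j * d (E.δ j l) - par (d (m j)) * E.δ j l) := by
    rw [DD_apply, map_add, d_d, zero_add, map_sum]
    refine Finset.sum_congr rfl fun j _ => ?_
    rw [d_mul, d_par, par_par, neg_mul]
    abel
  have h2 : ∑ j, par (DD E m j) * E.δ j l =
      ∑ j, (par (d (m j)) * E.δ j l + ∑ i, m i * (par (E.δ i j) * E.δ j l)) := by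
    refine Finset.sum_congr rfl fun j _ => ?_
    rw [DD_apply, map_add, map_sum, add_mul, Finset.sum_mul]
    congr 1
    refine Finset.sum_congr rfl fun i _ => ?_
    rw [par_mul, par_par, mul_assoc]
  rw [h1, h2, Finset.sum_sub_distrib, Finset.sum_add_distrib, Finset.sum_comm (s := Finset.univ)
    (t := Finset.univ) (f := fun j i => m i * (par (E.δ i j) * E.δ j l))]
  have h3 : ∀ i, ∑ j, m i * (par (E.δ i j) * E.δ j l) = -(m i * d (E.δ i l)) := by
    intro i
    have h4 : (∑ j, par (E.δ i j) * E.δ j l) + d (E.δ i l) = 0 :=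
      (add_comm _ _).trans (E.flat i l)
    rw [← Finset.mul_sum, eq_neg_iff_add_eq_zero, ← mul_add, h4, mul_zero]
  rw [Finset.sum_congr rfl fun i _ => h3 i, Finset.sum_neg_distrib, Pi.zero_apply]
  abel

theorem DD_lm (a : Coc n k) (m : MM E) : DD E (lm E a m) = lm E (d a) m + lm E (par a) (DD E m) := by
  funext l
  rw [Pi.add_apply, DD_apply]
  unfold lm
  rw [DD_apply, d_mul, mul_add, Finset.mul_sum, add_assoc]
  congr 2
  refine Finset.sum_congr rfl fun j _ => ?_
  rw [par_mul, mul_assoc]

theorem DD_wb (i l : E.I) : DD E (wb E i) l = E.δ i l := by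
  rw [DD_apply, Finset.sum_eq_single i]
  · have h1 : d (wb E i l) = 0 := by
      unfold wb
      split_ifs
      · exact d_one
      · exact map_zero _
    have h2 : wb E i i = 1 := if_pos rfl
    rw [h1, h2, par_one, one_mul, zero_add]
  · intro j _ hj
    have h2 : wb E i j = 0 := if_neg (Ne.symm hj)
    rw [h2, map_zero, zero_mul]
  · intro h
    exact absurd (Finset.mem_univ _) h

theorem DD_gr {p t : ℤ} {m : MM E} (h : m ∈ gr E p t) : DD E m ∈ gr E (p + 1) t := by
  intro l
  rw [DD_apply]
  refine reg_add ?_ (reg_sum _ fun j _ => ?_)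
  · have h1 := reg_d (h l)
    rwa [show p - E.s l + 1 = p + 1 - E.s l by ring] at h1
  · have h1 := reg_mul (reg_par (h j)) (E.reg_δ j l)
    rwa [show p - E.s j + (E.s j + 1 - E.s l) = p + 1 - E.s l by ring,
      show t + E.e j + (E.e l - E.e j) = t + E.e l by ring] at h1

theorem gr_le_RM {p t : ℤ} {m : MM E} (h : m ∈ gr E p t) : m ∈ RM E :=
  fun i K u hu => (h i K u hu).2.2

theorem gr_X {p t : ℤ} (i : Fin (n + 1)) {m : MM E} (h : m ∈ gr E p t) :
    (MvPolynomial.X i : MvPolynomial (Fin (n + 1)) k) • m ∈ gr E p (t + 1) := by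
  intro j
  rw [Pi.smul_apply, X_smul]
  have h1 := reg_xv i (h j)
  rwa [show t + E.e j + 1 = t + 1 + E.e j by ring] at h1

theorem gr_lm {p q t t' : ℤ} {a : Coc n k} (ha : a ∈ reg n k q t') {m : MM E}
    (h : m ∈ gr E p t) : lm E a m ∈ gr E (q + p) (t' + t) := by
  intro j
  have h1 := reg_mul ha (h j)
  rwa [show q + (p - E.s j) = q + p - E.s j by ring,
    show t' + (t + E.e j) = t' + t + E.e j by ring] at h1

/-- the homogeneous part of degree `e` -/
private def ph (n : ℕ) (k : Type u) [CommRing k] (e : ℤ) : Lau n k →ₗ[k] Lau n k where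
  toFun f := AddMonoidAlgebra.ofCoeff (f.coeff.filter fun u => ∑ i, u i = e)
  map_add' f g := by
    rw [AddMonoidAlgebra.coeff_add, Finsupp.filter_add, AddMonoidAlgebra.ofCoeff_add]
  map_smul' c f := by
    rw [RingHom.id_apply, AddMonoidAlgebra.coeff_smul, Finsupp.filter_smul,
      AddMonoidAlgebra.ofCoeff_smul]

private theorem coeff_ph (e : ℤ) (f : Lau n k) (u : Fin (n + 1) → ℤ) :
    (ph n k e f).coeff u = if ∑ i, u i = e then f.coeff u else 0 := by
  show (AddMonoidAlgebra.ofCoeff (f.coeff.filter fun u => ∑ i, u i = e)).coeff u = _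
  rw [AddMonoidAlgebra.coeff_ofCoeff, Finsupp.filter_apply]

private theorem ph_eq_self {e : ℤ} {f : Lau n k} (h : ∀ u, f.coeff u ≠ 0 → ∑ i, u i = e) :
    ph n k e f = f := by
  ext u
  rw [coeff_ph]
  split_ifs with h1
  · rfl
  · by_contra h2
    exact h1 (h u (Ne.symm h2))

private theorem ph_eq_zero {e : ℤ} {f : Lau n k} (h : ∀ u, f.coeff u ≠ 0 → ∑ i, u i ≠ e) :
    ph n k e f = 0 := by
  ext u
  rw [coeff_ph]
  split_ifs with h1
  · by_contra h2
    exact h u h2 h1
  · rfl

private theorem ph_mul {e e' : ℤ} (f : Lau n k) {g : Lau n k}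
    (h : ∀ u, g.coeff u ≠ 0 → ∑ i, u i = e') : ph n k (e + e') (f * g) = ph n k e f * g := by
  have h1 : f * g = ph n k e f * g + (f - ph n k e f) * g := by ring
  have h2 : ph n k (e + e') (ph n k e f * g) = ph n k e f * g := by
    refine ph_eq_self fun u hu => ?_
    obtain ⟨v, w, h3, h4, h5⟩ := coeff_mul_ne hu
    rw [coeff_ph] at h3
    have h6 : ∑ i, v i = e := by
      by_contra h7
      exact h3 (if_neg h7)
    rw [← h5, ← h6, ← h w h4, ← Finset.sum_add_distrib]
    rfl
  have h3 : ph n k (e + e') ((f - ph n k e f) * g) = 0 := by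
    refine ph_eq_zero fun u hu hs => ?_
    obtain ⟨v, w, h3, h4, h5⟩ := coeff_mul_ne hu
    have h6 : ∑ i, v i + ∑ i, w i = e + e' := by
      rw [← hs, ← h5, ← Finset.sum_add_distrib]
      rfl
    have h7 : ∑ i, v i = e := by
      rw [h w h4] at h6
      omega
    apply h3
    rw [AddMonoidAlgebra.coeff_sub, Finsupp.sub_apply, coeff_ph, if_pos h7, sub_self]
  rw [h1, map_add, h2, h3, add_zero]

/-- the part of degree `q` with values in `O(e)` -/
private def prc (n : ℕ) (k : Type u) [CommRing k] (q e : ℤ) : Coc n k →ₗ[k] Coc n k where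
  toFun a := AW.mk (fun K => if (K.card : ℤ) = q + 1 then ph n k e (a.at' K) else 0) (by
    rw [at_empty, map_zero, ite_self])
  map_add' a b := by
    ext K : 1
    simp only [at_mk, at_add]
    split_ifs
    · rw [map_add]
    · rw [add_zero]
  map_smul' c a := by
    ext K : 1
    simp only [at_mk, at_smul, RingHom.id_apply]
    split_ifs
    · rw [map_smul]
    · rw [smul_zero]

private theorem at_prc (q e : ℤ) (a : Coc n k) (K : Finset (Fin (n + 1))) :
    (prc n k q e a).at' K = if (K.card : ℤ) = q + 1 then ph n k e (a.at' K) else 0 := rfl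

private theorem ph_int (e z : ℤ) (f : Lau n k) :
    ph n k e ((z : Lau n k) * f) = (z : Lau n k) * ph n k e f := by
  rw [← zsmul_eq_mul, ← zsmul_eq_mul, map_zsmul]

private theorem prc_d (q e : ℤ) (a : Coc n k) : prc n k (q + 1) e (d a) = d (prc n k q e a) := by
  ext K : 1
  rw [at_prc, at_d, at_d]
  split_ifs with h1
  · rw [map_sum]
    refine Finset.sum_congr rfl fun w hw => ?_
    rw [ph_int, at_prc, if_pos]
    rw [Finset.card_erase_of_mem hw]
    have h2 := Finset.card_pos.2 ⟨w, hw⟩
    omega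
  · symm
    refine Finset.sum_eq_zero fun w hw => ?_
    rw [at_prc, if_neg, mul_zero]
    rw [Finset.card_erase_of_mem hw]
    have h2 := Finset.card_pos.2 ⟨w, hw⟩
    omega

private theorem prc_par (q e : ℤ) (a : Coc n k) : prc n k q e (par a) = par (prc n k q e a) := by
  ext K : 1
  rw [at_prc, at_par, at_par, at_prc]
  split_ifs with h1
  · have h2 : (-(-1) ^ K.card : Lau n k) = ((-(-1) ^ K.card : ℤ) : Lau n k) := by
      push_cast
      rfl
    rw [h2, ph_int]
  · rw [mul_zero]

private theorem card_split (K : Finset (Fin (n + 1))) {v : Fin (n + 1)} (hv : v ∈ K) :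
    (K.filter (· ≤ v)).card + (K.filter (v ≤ ·)).card = K.card + 1 := by
  rw [← Finset.card_union_add_card_inter]
  have h1 : K.filter (· ≤ v) ∪ K.filter (v ≤ ·) = K := by
    ext u
    rw [Finset.mem_union, Finset.mem_filter, Finset.mem_filter]
    constructor
    · rintro (h | h)
      · exact h.1
      · exact h.1
    · intro h
      rcases le_total u v with h2 | h2
      · exact Or.inl ⟨h, h2⟩
      · exact Or.inr ⟨h, h2⟩
  have h2 : K.filter (· ≤ v) ∩ K.filter (v ≤ ·) = {v} := by
    ext u
    rw [Finset.mem_inter, Finset.mem_filter, Finset.mem_filter, Finset.mem_singleton]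
    constructor
    · rintro ⟨h3, h4⟩
      exact le_antisymm h3.2 h4.2
    · intro h3
      subst h3
      exact ⟨⟨hv, le_rfl⟩, ⟨hv, le_rfl⟩⟩
  rw [h1, h2, Finset.card_singleton]

private theorem prc_mul {q q' e e' : ℤ} (a : Coc n k) {b : Coc n k} (hb : b ∈ reg n k q' e') :
    prc n k (q + q') (e + e') (a * b) = prc n k q e a * b := by
  ext K : 1
  rw [at_prc, at_mul, at_mul]
  have key : ∀ v ∈ K, (if (K.card : ℤ) = q + q' + 1 then
      ph n k (e + e') (a.at' (K.filter (· ≤ v)) * b.at' (K.filter (v ≤ ·))) else 0) =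
      (prc n k q e a).at' (K.filter (· ≤ v)) * b.at' (K.filter (v ≤ ·)) := by
    intro v hv
    rw [at_prc]
    by_cases h1 : b.at' (K.filter (v ≤ ·)) = 0
    · rw [h1, mul_zero, mul_zero, map_zero, ite_self]
    · have h2 : ((K.filter (v ≤ ·)).card : ℤ) = q' + 1 := by
        by_contra h3
        apply h1
        ext u
        by_contra h4
        exact h3 (hb _ u h4).1
      have h3 := card_split K hv
      by_cases h4 : (K.card : ℤ) = q + q' + 1
      · rw [if_pos h4, if_pos (by omega), ph_mul _ fun u hu => (hb _ u hu).2.1]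
      · rw [if_neg h4, if_neg (by omega), zero_mul]
  rw [← Finset.sum_congr rfl key]
  split_ifs
  · rw [map_sum]
  · rw [Finset.sum_const_zero]

private theorem prc_self {q e : ℤ} {a : Coc n k} (ha : a ∈ reg n k q e) : prc n k q e a = a := by
  ext K : 1
  rw [at_prc]
  split_ifs with h1
  · exact ph_eq_self fun u hu => (ha K u hu).2.1
  · ext u
    by_contra h2
    exact h1 (ha K u (Ne.symm h2)).1

private theorem prc_reg (q e : ℤ) {a : Coc n k}
    (ha : ∀ K u, (a.at' K).coeff u ≠ 0 → ∀ j ∉ K, 0 ≤ u j) : prc n k q e a ∈ reg n k q e := by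
  intro K u hu
  rw [at_prc] at hu
  split_ifs at hu with h1
  · rw [coeff_ph] at hu
    split_ifs at hu with h2
    · exact ⟨h1, h2, ha K u hu⟩
    · exact absurd rfl hu
  · exact absurd rfl hu

theorem exists_gr {p t : ℤ} {m : MM E} (hm : m ∈ gr E p t) {w : MM E} (hw : w ∈ RM E)
    (h : DD E w = m) : ∃ w' ∈ gr E (p - 1) t, DD E w' = m := by
  refine ⟨fun i => prc n k (p - 1 - E.s i) (t + E.e i) (w i), fun i => prc_reg _ _ (hw i), ?_⟩
  funext l
  rw [DD_apply]
  have h1 : d (prc n k (p - 1 - E.s l) (t + E.e l) (w l)) =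
      prc n k (p - E.s l) (t + E.e l) (d (w l)) := by
    rw [← prc_d, show p - 1 - E.s l + 1 = p - E.s l by ring]
  have h2 : ∀ j, par (prc n k (p - 1 - E.s j) (t + E.e j) (w j)) * E.δ j l =
      prc n k (p - E.s l) (t + E.e l) (par (w j) * E.δ j l) := by
    intro j
    rw [← prc_par, ← prc_mul _ (E.reg_δ j l),
      show p - 1 - E.s j + (E.s j + 1 - E.s l) = p - E.s l by ring,
      show t + E.e j + (E.e l - E.e j) = t + E.e l by ring]
  rw [h1, Finset.sum_congr rfl fun j _ => h2 j, ← map_sum, ← map_add, ← DD_apply, h]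
  exact prc_self (hm l)

theorem gr_bound : ∃ a b : ℤ, ∀ p t, (p < a ∨ b < p) → ∀ m ∈ gr E p t, m = 0 := by
  refine ⟨-∑ i, |E.s i|, n + ∑ i, |E.s i|, fun p t hp m hm => ?_⟩
  funext i
  have h1 : |E.s i| ≤ ∑ j, |E.s j| :=
    Finset.single_le_sum (f := fun j => |E.s j|) (fun j _ => abs_nonneg _) (Finset.mem_univ i)
  have h2 := le_abs_self (E.s i)
  have h3 := neg_abs_le (E.s i)
  refine reg_eq_zero ?_ (hm i)
  rcases hp with h4 | h4
  · left
    omega
  · right
    omega

end Pool.Agent.PHJ
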