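import Pool.Agent.PHJ.Coh

/-!
# The operators defined by a null-homotopy of the Atiyah class

MODULE PHJ-Nab. PLAN. `nab_DD`: `D (nab m)_l = d (pdc m_l + ∑ m_i h_il) + ∑ par (pdc m_j + ∑ m_i h_ij) δ_jl`,
`nab (D m)_l = pdc (d m_l + ∑ par m_j δ_jl) + ∑_i (d m_i + ∑_j par m_j δ_ji) h_il`; the difference is
`∑_j par m_j * (at1 E i j l - dif E E 0 (h i) j l) = 0` (`d_mul`, `pdc_mul`, `pdc_d`, `pdc_par`, `par_mul`).
`nab_gr`: `reg_pdc`, `reg_mul`. `nab_RM`: coefficients (or: a regular element is a finite sum of elements of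
the `gr E p t`; or directly as in `reg_mul`). `nab_X`: `pdc_xv`, `X_smul`. `phi` on cochains: `(phi m)_j = -e_j m_j - ∑_l m_l H_lj` with `H = ∑ i, x_i h_i`: it is linear over the Laurent
polynomials, preserves `RM E`, and for `m ∈ gr E p t` it is `t m - ∑ i, x_i nab_i m` (`euler_coc`: `∑ i, x_i ∂_i m_j = (t + e j) m_j`). It
commutes with `DD E` on ALL cochains: with `T m = ((Eu m_j) - e_j m_j)_j`, `Eu = ∑ i, x_i ∂_i` (a derivation that commutes with `d` and
`par`), `phi = T - ∑ i, x_i nab_i`, `T` commutes with `DD` because `Eu (δ j l) = (e l - e j) δ j l` (`euler_coc`), `nab_i` by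
`nab_DD`; so `phi` maps `BB E` to `BB E`.
`exists_ops`: pass to the quotient `TT E` (`Submodule.mapQ`-type maps; `nab` is only `k`-linear: use
`Submodule.Quotient.lift` for the additive structure or restrict scalars:
`(BB E).restrictScalars k`; all statements on `NN` are statements on representatives).
-/

noncomputable section

namespace Pool.Agent.PHJ

universe u v

open AW

variable {n : ℕ} {k : Type u} [Field k] (E : Obj n k)

/-- The operator on cochains. -/
def nab (h : E.I → E.I → Coc n k) (i : Fin (n + 1)) : MM E →ₗ[k] MM E where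
  toFun m j := pdc i (m j) + ∑ l, m l * h l j
  map_add' m m' := by
    funext j
    have h1 : pdc i (m j + m' j) = pdc i (m j) + pdc i (m' j) := map_add (pdL n k i) _ _
    simp only [Pi.add_apply, add_mul, Finset.sum_add_distrib, h1]
    abel
  map_smul' c m := by
    funext j
    have h1 : pdc i (c • m j) = c • pdc i (m j) := map_smul (pdL n k i) _ _
    simp only [Pi.smul_apply, RingHom.id_apply, h1, smul_add, Finset.smul_sum, smul_mul_assoc]

/-- right multiplication by a matrix of cochains -/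
private def rmul (g : E.I → E.I → Coc n k) (m : MM E) : MM E := fun j => ∑ l, m l * g l j

private theorem rmul_DD {g r : E.I → E.I → Coc n k}
    (hg : ∀ a j, d (g a j) + ∑ l, par (g a l) * E.δ l j - ∑ l, E.δ a l * g l j = r a j) (m : MM E) (j : E.I) :
    DD E (rmul E g m) j = rmul E g (DD E m) j + ∑ a, par (m a) * r a j := by
  have e1 : DD E (rmul E g m) j = ∑ l, (d (m l) * g l j + par (m l) * d (g l j)) +
      ∑ a, ∑ l, par (m l) * par (g l a) * E.δ a j := by
    rw [DD_apply]
    congr 1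
    · simp only [rmul, map_sum, d_mul]
    · refine Finset.sum_congr rfl fun a _ => ?_
      simp only [rmul, map_sum, par_mul, Finset.sum_mul]
  have e2 : rmul E g (DD E m) j = ∑ l, d (m l) * g l j + ∑ l, ∑ a, par (m a) * E.δ a l * g l j := by
    simp only [rmul, DD_apply, add_mul, Finset.sum_add_distrib, Finset.sum_mul]
  have e3 : ∑ a, par (m a) * r a j = ∑ a, par (m a) * d (g a j) + ∑ a, ∑ l, par (m a) * par (g a l) * E.δ l j -
      ∑ a, ∑ l, par (m a) * E.δ a l * g l j := by
    rw [← Finset.sum_add_distrib, ← Finset.sum_sub_distrib]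
    refine Finset.sum_congr rfl fun a _ => ?_
    rw [← hg a j, mul_sub, mul_add, Finset.mul_sum, Finset.mul_sum]
    simp only [mul_assoc]
  rw [e1, e2, e3, Finset.sum_add_distrib,
    Finset.sum_comm (f := fun a l => par (m l) * par (g l a) * E.δ a j),
    Finset.sum_comm (f := fun l a => par (m a) * E.δ a l * g l j)]
  abel

private theorem dif0 {h : E.I → E.I → Coc n k} {i : Fin (n + 1)} (hd : dif E E 0 h = at1 E i) (a j : E.I) :
    d (h a j) + ∑ l, par (h a l) * E.δ l j - ∑ l, E.δ a l * h l j = pdc i (E.δ a j) := by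
  have h1 := congrFun (congrFun hd a) j
  have h2 : sgm 0 = 1 := by simp [sgm]
  simp only [dif, at1, h2, one_smul, parm, Even.zero, if_true] at h1
  exact h1

private theorem pdc_add (i : Fin (n + 1)) (a b : Coc n k) : pdc i (a + b) = pdc i a + pdc i b :=
  map_add (pdL n k i) a b

private theorem pdc_sum {ι : Type*} (s : Finset ι) (i : Fin (n + 1)) (f : ι → Coc n k) :
    pdc i (∑ a ∈ s, f a) = ∑ a ∈ s, pdc i (f a) :=
  map_sum (pdL n k i) f s

private theorem pdc_DD (i : Fin (n + 1)) (m : MM E) (j : E.I) :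
    pdc i (DD E m j) = DD E (fun l => pdc i (m l)) j + ∑ a, par (m a) * pdc i (E.δ a j) := by
  rw [DD_apply, DD_apply, pdc_add, pdc_sum, pdc_d, add_assoc, ← Finset.sum_add_distrib]
  congr 1
  refine Finset.sum_congr rfl fun a _ => ?_
  rw [pdc_mul, pdc_par]

theorem nab_DD {h : E.I → E.I → Coc n k} {i : Fin (n + 1)} (hd : dif E E 0 h = at1 E i) (m : MM E) :
    nab E h i (DD E m) = DD E (nab E h i m) := by
  funext j
  have e1 : nab E h i (DD E m) j = pdc i (DD E m j) + rmul E h (DD E m) j := rfl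
  have e2 : nab E h i m = (fun l => pdc i (m l)) + rmul E h m := rfl
  rw [e1, e2, map_add, Pi.add_apply, rmul_DD E (dif0 E hd), pdc_DD]
  abel

theorem nab_gr {h : E.I → E.I → Coc n k} (hh : h ∈ Hm E E 0 (-1)) (i : Fin (n + 1)) {p t : ℤ}
    {m : MM E} (hm : m ∈ gr E p t) : nab E h i m ∈ gr E p (t - 1) := by
  rw [mem_gr] at hm ⊢
  intro j
  have e1 : nab E h i m j = pdc i (m j) + ∑ l, m l * h l j := rfl
  rw [e1]
  refine reg_add ?_ (reg_sum _ fun l _ => ?_)
  · have h1 := reg_pdc i (hm j)
    have h2 : t + E.e j - 1 = t - 1 + E.e j := by ring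
    rwa [h2] at h1
  · have h1 := reg_mul (hm l) (hh l j)
    have h2 : p - E.s l + (0 + E.s l - E.s j) = p - E.s j := by ring
    have h3 : t + E.e l + (E.e j - E.e l + -1) = t - 1 + E.e j := by ring
    rwa [h2, h3] at h1

private def RG (c : Coc n k) : Prop := ∀ K u, (c.at' K).coeff u ≠ 0 → ∀ j ∉ K, 0 ≤ u j

private theorem RG_add {a b : Coc n k} (ha : RG a) (hb : RG b) : RG (a + b) := by
  intro K u hu
  by_cases h1 : (a.at' K).coeff u = 0
  · by_cases h2 : (b.at' K).coeff u = 0
    · exfalso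
      apply hu
      have h3 : ((a + b).at' K).coeff u = (a.at' K).coeff u + (b.at' K).coeff u := rfl
      rw [h3, h1, h2, add_zero]
    · exact hb K u h2
  · exact ha K u h1

private theorem RG_zero : RG (0 : Coc n k) := fun K u h => absurd rfl h

private theorem RG_sum {ι : Type*} (s : Finset ι) {f : ι → Coc n k} (h : ∀ i ∈ s, RG (f i)) :
    RG (∑ i ∈ s, f i) := by
  classical
  induction s using Finset.induction_on with
  | empty =>
    rw [Finset.sum_empty]
    exact RG_zero
  | insert a s ha ih =>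
    rw [Finset.sum_insert ha]
    exact RG_add (h a (Finset.mem_insert_self a s)) (ih fun i hi => h i (Finset.mem_insert_of_mem hi))

private theorem RG_pdc (i : Fin (n + 1)) {a : Coc n k} (ha : RG a) : RG (pdc i a) := by
  intro K u hu j hj
  rw [pdc_at, coeff_pd] at hu
  have h1 : (a.at' K).coeff (u + Pi.single i 1) ≠ 0 := fun h => hu (by rw [h, mul_zero])
  have h2 := ha K _ h1 j hj
  rw [Pi.add_apply] at h2
  by_cases hij : i = j
  · subst hij
    rw [Pi.single_eq_same] at h2
    have h3 : u i + 1 ≠ 0 := by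
      intro h
      apply hu
      rw [h, Int.cast_zero, zero_mul]
    omega
  · rw [Pi.single_eq_of_ne (fun h => hij h.symm), add_zero] at h2
    exact h2

private theorem coeff_sum' {ι : Type*} (s : Finset ι) (f : ι → Lau n k) (u : Fin (n + 1) → ℤ)
    (h : (∑ a ∈ s, f a).coeff u ≠ 0) : ∃ a ∈ s, (f a).coeff u ≠ 0 := by
  classical
  by_contra hc
  push Not at hc
  apply h
  clear h
  induction s using Finset.induction_on with
  | empty => rfl
  | insert a s ha ih =>
    rw [Finset.sum_insert ha]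
    have h3 : (f a + ∑ b ∈ s, f b).coeff u = (f a).coeff u + (∑ b ∈ s, f b).coeff u := rfl
    rw [h3, hc a (Finset.mem_insert_self a s), ih fun i hi => hc i (Finset.mem_insert_of_mem hi), add_zero]

private theorem RG_mul {a b : Coc n k} (ha : RG a) (hb : RG b) : RG (a * b) := by
  intro K u hu j hj
  rw [at_mul] at hu
  obtain ⟨v, hv, hv'⟩ := coeff_sum' _ _ _ hu
  obtain ⟨u1, u2, h1, h2, h3⟩ := coeff_mul_ne hv'
  have h4 := ha _ u1 h1 j (fun h => hj (Finset.mem_filter.1 h).1)
  have h5 := hb _ u2 h2 j (fun h => hj (Finset.mem_filter.1 h).1)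
  rw [← h3, Pi.add_apply]
  omega

private theorem RG_reg {p e : ℤ} {a : Coc n k} (ha : a ∈ reg n k p e) : RG a :=
  fun K u hu => (ha K u hu).2.2

private theorem RG_RM {m : MM E} : m ∈ RM E ↔ ∀ i, RG (m i) := Iff.rfl

theorem nab_RM {h : E.I → E.I → Coc n k} (hh : h ∈ Hm E E 0 (-1)) (i : Fin (n + 1))
    {m : MM E} (hm : m ∈ RM E) : nab E h i m ∈ RM E := by
  rw [RG_RM] at hm ⊢
  intro j
  exact RG_add (RG_pdc i (hm j)) (RG_sum _ fun l _ => RG_mul (hm l) (RG_reg (hh l j)))

/-- the operator `phi` on cochains -/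
private def ph (h : Fin (n + 1) → E.I → E.I → Coc n k) : MM E →ₗ[Lau n k] MM E where
  toFun m j := -((E.e j : k) • m j) - ∑ i, (xv i : Lau n k) • rmul E (h i) m j
  map_add' m m' := by
    funext j
    simp only [rmul, Pi.add_apply, add_mul, Finset.sum_add_distrib, smul_add]
    abel
  map_smul' c m := by
    funext j
    simp only [rmul, Pi.smul_apply, RingHom.id_apply, smul_sub, smul_neg, smul_mul_assoc, ← Finset.smul_sum]
    congr 1
    · rw [smul_comm]
    · rw [Finset.smul_sum]
      exact Finset.sum_congr rfl fun i _ => smul_comm _ _ _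

private theorem ph_DD {h : Fin (n + 1) → E.I → E.I → Coc n k} (hd : ∀ i, dif E E 0 (h i) = at1 E i) (m : MM E) :
    ph E h (DD E m) = DD E (ph E h m) := by
  funext j
  have e1 : ph E h (DD E m) j = -((E.e j : k) • DD E m j) - ∑ i, (xv i : Lau n k) • rmul E (h i) (DD E m) j := rfl
  have e2 : ph E h m = -(fun l => (E.e l : k) • m l) - ∑ i, (xv i : Lau n k) • rmul E (h i) m := by
    funext l
    rw [Pi.sub_apply, Pi.neg_apply, Finset.sum_apply]
    rfl
  have e3 : DD E (fun l => (E.e l : k) • m l) j =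
      (E.e j : k) • DD E m j - ∑ a, par (m a) * ((((E.e j - E.e a : ℤ) : k)) • E.δ a j) := by
    rw [DD_apply, DD_apply, smul_add]
    have h1 : d ((E.e j : k) • m j) = (E.e j : k) • d (m j) := by
      have : (E.e j : k) • m j = (algebraMap k (Lau n k) (E.e j : k)) • m j :=
        (IsScalarTower.algebraMap_smul (Lau n k) _ _).symm
      rw [this, map_smul, IsScalarTower.algebraMap_smul]
    rw [h1, add_sub_assoc]
    congr 1
    rw [Finset.smul_sum, ← Finset.sum_sub_distrib]
    refine Finset.sum_congr rfl fun a _ => ?_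
    have h2 : par ((E.e a : k) • m a) = (E.e a : k) • par (m a) := by
      have : (E.e a : k) • m a = (algebraMap k (Lau n k) (E.e a : k)) • m a :=
        (IsScalarTower.algebraMap_smul (Lau n k) _ _).symm
      rw [this, map_smul, IsScalarTower.algebraMap_smul]
    rw [h2, smul_mul_assoc, mul_smul_comm, ← sub_smul]
    congr 1
    push_cast
    ring
  have e4 : ∀ i, DD E (rmul E (h i) m) j = rmul E (h i) (DD E m) j + ∑ a, par (m a) * pdc i (E.δ a j) :=
    fun i => rmul_DD E (dif0 E (hd i)) m j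
  have e5 : ∑ i, (xv i : Lau n k) • ∑ a, par (m a) * pdc i (E.δ a j) =
      ∑ a, par (m a) * ((((E.e j - E.e a : ℤ) : k)) • E.δ a j) := by
    simp only [Finset.smul_sum]
    rw [Finset.sum_comm]
    refine Finset.sum_congr rfl fun a _ => ?_
    rw [← euler_coc (E.reg_δ a j), Finset.mul_sum]
    exact Finset.sum_congr rfl fun i _ => (mul_smul_comm _ _ _).symm
  rw [e1, e2, map_sub, map_neg, map_sum, Pi.sub_apply, Pi.neg_apply, e3, Finset.sum_apply]
  have e6 : ∑ i, DD E ((xv i : Lau n k) • rmul E (h i) m) j =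
      ∑ i, (xv i : Lau n k) • rmul E (h i) (DD E m) j +
        ∑ a, par (m a) * ((((E.e j - E.e a : ℤ) : k)) • E.δ a j) := by
    rw [← e5, ← Finset.sum_add_distrib]
    refine Finset.sum_congr rfl fun i _ => ?_
    rw [map_smul, Pi.smul_apply, e4, smul_add]
  rw [e6]
  abel

private theorem RG_xv (i : Fin (n + 1)) {a : Coc n k} (ha : RG a) : RG ((xv i : Lau n k) • a) := by
  intro K u hu j hj
  rw [at_smul, smul_eq_mul, coeff_xv_mul] at hu
  have h2 := ha K _ hu j hj
  rw [Pi.sub_apply] at h2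
  by_cases hij : i = j
  · subst hij
    rw [Pi.single_eq_same] at h2
    omega
  · rw [Pi.single_eq_of_ne (fun h => hij h.symm), sub_zero] at h2
    exact h2

private theorem RG_smul (c : k) {a : Coc n k} (ha : RG a) : RG (c • a) := by
  intro K u hu
  refine ha K u fun h => hu ?_
  have h3 : ((c • a).at' K).coeff u = c * (a.at' K).coeff u := rfl
  rw [h3, h, mul_zero]

private theorem RG_neg {a : Coc n k} (ha : RG a) : RG (-a) := by
  intro K u hu
  refine ha K u fun h => hu ?_
  have h3 : ((-a).at' K).coeff u = -(a.at' K).coeff u := rfl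
  rw [h3, h, neg_zero]

private theorem ph_RM {h : Fin (n + 1) → E.I → E.I → Coc n k} (hh : ∀ i, h i ∈ Hm E E 0 (-1)) {m : MM E}
    (hm : m ∈ RM E) : ph E h m ∈ RM E := by
  rw [RG_RM] at hm ⊢
  intro j
  have e1 : ph E h m j = -((E.e j : k) • m j) + -(∑ i, (xv i : Lau n k) • rmul E (h i) m j) := sub_eq_add_neg _ _
  rw [e1]
  refine RG_add (RG_neg (RG_smul _ (hm j))) (RG_neg (RG_sum _ fun i _ => RG_xv i ?_))
  exact RG_sum _ fun l _ => RG_mul (hm l) (RG_reg (hh i l j))

private theorem pol_smul (c : MvPolynomial (Fin (n + 1)) k) (m : MM E) :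
    c • m = (polL n k c) • m := (IsScalarTower.algebraMap_smul (Lau n k) c m).symm

/-- All the operators on cohomology. -/
theorem exists_ops (h : ∀ i, at1 E i ∈ Ex E E 1 (-1)) :
    ∃ (nb : Fin (n + 1) → TT E →ₗ[k] TT E)
      (phi : TT E →ₗ[MvPolynomial (Fin (n + 1)) k] TT E),
      (∀ p t i, ∀ x ∈ NN E p t, nb i x ∈ NN E p (t - 1)) ∧
      (∀ i j x, nb i ((MvPolynomial.X j : MvPolynomial (Fin (n + 1)) k) • x) =
        (if i = j then x else 0) + (MvPolynomial.X j : MvPolynomial (Fin (n + 1)) k) • nb i x) ∧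
      ∀ p t, ∀ x ∈ NN E p t, phi x = (t : k) • x -
        ∑ i, (MvPolynomial.X i : MvPolynomial (Fin (n + 1)) k) • nb i x := by
  have h' : ∀ i, ∃ g ∈ Hm E E 0 (-1), dif E E 0 g = at1 E i := by
    intro i
    have := h i
    simpa [Ex] using this
  choose g hg hg' using h'
  have hst : ∀ i, (BB E).restrictScalars k ≤ ((BB E).restrictScalars k).comap (nab E (g i) i) := by
    rintro i m ⟨w, hw, rfl⟩
    exact ⟨nab E (g i) i w, nab_RM E (hg i) i hw, (nab_DD E (hg' i) w).symm⟩
  let eq := Submodule.Quotient.restrictScalarsEquiv k (BB E)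
  let nb : Fin (n + 1) → TT E →ₗ[k] TT E := fun i =>
    (eq.toLinearMap ∘ₗ Submodule.mapQ _ _ (nab E (g i) i) (hst i)) ∘ₗ eq.symm.toLinearMap
  have hnb : ∀ i m, nb i (cl E m) = cl E (nab E (g i) i m) := fun i m => rfl
  let ph' : MM E →ₗ[MvPolynomial (Fin (n + 1)) k] MM E :=
    { toFun := ph E g
      map_add' := map_add _
      map_smul' := fun c m => by
        rw [pol_smul, map_smul, RingHom.id_apply, pol_smul] }
  have hphi : BB E ≤ (BB E).comap ph' := by
    rintro m ⟨w, hw, rfl⟩
    exact ⟨ph E g w, ph_RM E hg hw, (ph_DD E hg' w).symm⟩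
  let phi : TT E →ₗ[MvPolynomial (Fin (n + 1)) k] TT E := Submodule.mapQ _ _ ph' hphi
  have hphi' : ∀ m, phi (cl E m) = cl E (ph E g m) := fun m => rfl
  refine ⟨nb, phi, ?_, ?_, ?_⟩
  · rintro p t i _ ⟨m, hm, hz, rfl⟩
    refine ⟨nab E (g i) i m, nab_gr E (hg i) i hm, ?_, (hnb i m).symm⟩
    rw [← nab_DD E (hg' i), hz, map_zero]
  · intro i j x
    obtain ⟨m, rfl⟩ := Submodule.Quotient.mk_surjective _ x
    change nb i (cl E ((MvPolynomial.X j : MvPolynomial (Fin (n + 1)) k) • m)) =
      (if i = j then cl E m else 0) + (MvPolynomial.X j : MvPolynomial (Fin (n + 1)) k) • nb i (cl E m)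
    rw [hnb, hnb]
    have key : nab E (g i) i ((MvPolynomial.X j : MvPolynomial (Fin (n + 1)) k) • m) =
        (if i = j then m else 0) + (MvPolynomial.X j : MvPolynomial (Fin (n + 1)) k) • nab E (g i) i m := by
      funext l
      have e1 : nab E (g i) i ((MvPolynomial.X j : MvPolynomial (Fin (n + 1)) k) • m) l =
          pdc i ((MvPolynomial.X j : MvPolynomial (Fin (n + 1)) k) • m l) +
            ∑ a, ((MvPolynomial.X j : MvPolynomial (Fin (n + 1)) k) • m a) * g i a l := rfl
      have e2 : nab E (g i) i m l = pdc i (m l) + ∑ a, m a * g i a l := rfl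
      rw [e1, Pi.add_apply, Pi.smul_apply, e2, X_smul, pdc_xv, X_smul, smul_add, Finset.smul_sum, add_assoc]
      congr 1
      · split_ifs <;> rfl
      · congr 1
        refine Finset.sum_congr rfl fun a _ => ?_
        rw [X_smul, smul_mul_assoc]
    rw [key]
    split_ifs <;> rfl
  · rintro p t _ ⟨m, hm, hz, rfl⟩
    rw [hphi']
    have key : ph E g m = (t : k) • m -
        ∑ i, (MvPolynomial.X i : MvPolynomial (Fin (n + 1)) k) • nab E (g i) i m := by
      funext j
      rw [Pi.sub_apply, Finset.sum_apply]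
      have e1 : ph E g m j = -((E.e j : k) • m j) - ∑ i, (xv i : Lau n k) • rmul E (g i) m j := rfl
      have e2 : ∀ i, ((MvPolynomial.X i : MvPolynomial (Fin (n + 1)) k) • nab E (g i) i m) j =
          (xv i : Lau n k) • pdc i (m j) + (xv i : Lau n k) • rmul E (g i) m j := by
        intro i
        rw [Pi.smul_apply, X_smul, ← smul_add]
        rfl
      rw [e1, Finset.sum_congr rfl fun i _ => e2 i, Finset.sum_add_distrib,
        euler_coc (mem_gr E |>.1 hm j), Pi.smul_apply]
      push_cast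
      rw [add_smul]
      abel
    rw [key]
    have e3 : cl E ((t : k) • m - ∑ i, (MvPolynomial.X i : MvPolynomial (Fin (n + 1)) k) • nab E (g i) i m) =
        (t : k) • cl E m - ∑ i, (MvPolynomial.X i : MvPolynomial (Fin (n + 1)) k) • cl E (nab E (g i) i m) := by
      have h1 : ∀ s : Finset (Fin (n + 1)), cl E (∑ i ∈ s, (MvPolynomial.X i : MvPolynomial (Fin (n + 1)) k) •
          nab E (g i) i m) = ∑ i ∈ s, (MvPolynomial.X i : MvPolynomial (Fin (n + 1)) k) • cl E (nab E (g i) i m) := by
        intro s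
        exact map_sum (Submodule.mkQ (BB E)) _ s
      rw [← h1]
      rfl
    rw [e3]
    simp only [hnb]

theorem NN_X (p t : ℤ) (i : Fin (n + 1)) {x : TT E} (hx : x ∈ NN E p t) :
    (MvPolynomial.X i : MvPolynomial (Fin (n + 1)) k) • x ∈ NN E p (t + 1) := by
  obtain ⟨m, hm, hz, rfl⟩ := hx
  refine ⟨(MvPolynomial.X i : MvPolynomial (Fin (n + 1)) k) • m, gr_X E i hm, ?_, rfl⟩
  rw [pol_smul, map_smul, hz, smul_zero]

end Pool.Agent.PHJ
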