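import Pool.Agent.PHJ.Reg

/-!
# The partial derivatives on cochains; the action of polynomials

All statements on cochains are checked at a face.  The polynomial algebra acts through the homomorphism to the
Laurent polynomials, which maps monomials to monomials.
-/

noncomputable section

namespace Pool.Agent.PHJ

universe u v

open AW

variable {n : ℕ} {k : Type u} [CommRing k]

/-- `pdc` as a linear map. -/
def pdL (n : ℕ) (k : Type u) [CommRing k] (i : Fin (n + 1)) : Coc n k →ₗ[k] Coc n k where
  toFun := pdc i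
  map_add' a b := by
    ext K : 1
    exact map_add (pd i) _ _
  map_smul' c a := by
    ext K : 1
    exact map_smul (pd i) c _

@[simp] theorem pdL_apply (i : Fin (n + 1)) (a : Coc n k) : pdL n k i a = pdc i a := rfl

theorem pdc_at (i : Fin (n + 1)) (a : Coc n k) (K) : (pdc i a).at' K = pd i (a.at' K) := rfl

private theorem pd_int (i : Fin (n + 1)) (z : ℤ) (f : Lau n k) :
    pd i ((z : Lau n k) * f) = (z : Lau n k) * pd i f := by
  rw [← zsmul_eq_mul, ← zsmul_eq_mul, map_zsmul]

theorem pdc_mul (i : Fin (n + 1)) (a b : Coc n k) : pdc i (a * b) = pdc i a * b + a * pdc i b := by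
  ext K : 1
  rw [pdc_at, at_add, at_mul, at_mul, at_mul, map_sum, ← Finset.sum_add_distrib]
  refine Finset.sum_congr rfl fun v _ => ?_
  rw [pd_mul, pdc_at, pdc_at]

theorem pdc_d (i : Fin (n + 1)) (a : Coc n k) : pdc i (d a) = d (pdc i a) := by
  ext K : 1
  rw [pdc_at, at_d, at_d, map_sum]
  refine Finset.sum_congr rfl fun w _ => ?_
  rw [pd_int, pdc_at]

theorem pdc_par (i : Fin (n + 1)) (a : Coc n k) : pdc i (par a) = par (pdc i a) := by
  ext K : 1
  rw [pdc_at, at_par, at_par, pdc_at]
  have h1 : (-(-1) ^ K.card : Lau n k) = ((-(-1) ^ K.card : ℤ) : Lau n k) := by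
    rw [Int.cast_neg, Int.cast_pow, Int.cast_neg, Int.cast_one]
  rw [h1, pd_int]

theorem pdc_xv (i j : Fin (n + 1)) (a : Coc n k) :
    pdc i ((xv j : Lau n k) • a) = (if i = j then a else 0) + (xv j : Lau n k) • pdc i a := by
  ext K : 1
  rw [pdc_at, at_smul, smul_eq_mul, pd_mul, pd_xv, at_add, at_smul, smul_eq_mul, pdc_at]
  congr 1
  by_cases h : i = j
  · rw [if_pos h, if_pos h, one_mul]
  · rw [if_neg h, if_neg h, zero_mul, at_zero]

theorem euler_coc {p e : ℤ} {a : Coc n k} (ha : a ∈ reg n k p e) :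
    ∑ i, (xv i : Lau n k) • pdc i a = (e : k) • a := by
  ext K : 1
  rw [at_sum, at_smul, ← euler fun u hu => (ha K u hu).2.1]
  refine Finset.sum_congr rfl fun i _ => ?_
  rw [at_smul, smul_eq_mul, pdc_at]

/-- Polynomials are Laurent polynomials. -/
def polL (n : ℕ) (k : Type u) [CommRing k] : MvPolynomial (Fin (n + 1)) k →ₐ[k] Lau n k :=
  MvPolynomial.aeval xv

instance : Algebra (MvPolynomial (Fin (n + 1)) k) (Lau n k) := (polL n k).toRingHom.toAlgebra

instance : IsScalarTower k (MvPolynomial (Fin (n + 1)) k) (Lau n k) :=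
  IsScalarTower.of_algebraMap_eq fun c => ((polL n k).commutes c).symm

theorem algebraMap_pol (f : MvPolynomial (Fin (n + 1)) k) :
    algebraMap (MvPolynomial (Fin (n + 1)) k) (Lau n k) f = polL n k f := rfl

theorem X_smul (i : Fin (n + 1)) (a : Coc n k) :
    (MvPolynomial.X i : MvPolynomial (Fin (n + 1)) k) • a = (xv i : Lau n k) • a := by
  ext K : 1
  rw [at_smul, at_smul, Algebra.smul_def, algebraMap_pol, polL, MvPolynomial.aeval_X, smul_eq_mul]

/-- exponents as integers -/
private def ex (s : Fin (n + 1) →₀ ℕ) : Fin (n + 1) → ℤ := fun i => (s i : ℤ)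

private theorem nat_int (s : Fin (n + 1) →₀ ℕ) :
    s = Finsupp.equivFunOnFinite.symm fun i => (ex s i).toNat := by
  ext i
  show s i = ((s i : ℤ)).toNat
  rw [Int.toNat_natCast]

private theorem int_nat {u : Fin (n + 1) → ℤ} (h : ∀ i, 0 ≤ u i) :
    ex (Finsupp.equivFunOnFinite.symm fun i => (u i).toNat) = u := by
  funext i
  show (((u i).toNat : ℕ) : ℤ) = u i
  rw [Int.toNat_of_nonneg (h i)]

private theorem xv_pow (i : Fin (n + 1)) (m : ℕ) : (xv i : Lau n k) ^ m = mono (Pi.single i (m : ℤ)) := by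
  induction m with
  | zero =>
    rw [pow_zero, Nat.cast_zero, Pi.single_zero]
    rfl
  | succ m ih =>
    rw [pow_succ, ih, xv_eq, ← mono_add, ← Pi.single_add]
    push_cast
    rfl

private theorem mono_sum {ι : Type*} (t : Finset ι) (f : ι → Fin (n + 1) → ℤ) :
    (mono (∑ i ∈ t, f i) : Lau n k) = ∏ i ∈ t, mono (f i) := by
  classical
  induction t using Finset.induction_on with
  | empty => rw [Finset.sum_empty, Finset.prod_empty, mono_zero]
  | insert a t ha ih => rw [Finset.sum_insert ha, Finset.prod_insert ha, mono_add, ih]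

private theorem polL_monomial (s : Fin (n + 1) →₀ ℕ) (c : k) :
    polL n k (MvPolynomial.monomial s c) = AddMonoidAlgebra.single (ex s) c := by
  have h1 : ex s = ∑ i, Pi.single i ((s i : ℤ)) := by
    rw [Finset.univ_sum_single]
    rfl
  unfold polL
  rw [MvPolynomial.aeval_monomial, Finsupp.prod_fintype _ _ fun i => pow_zero _,
    Finset.prod_congr rfl fun i _ => xv_pow i (s i), ← mono_sum, ← h1, ← Algebra.smul_def]
  unfold mono
  rw [AddMonoidAlgebra.smul_single, smul_eq_mul, mul_one]

/-- The coefficients of a polynomial as a Laurent polynomial. -/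
theorem coeff_polL (f : MvPolynomial (Fin (n + 1)) k) (u : Fin (n + 1) → ℤ) :
    (polL n k f).coeff u = if ∀ i, 0 ≤ u i then
      f.coeff (Finsupp.equivFunOnFinite.symm fun i => (u i).toNat) else 0 := by
  classical
  induction f using MvPolynomial.induction_on' with
  | monomial s c =>
    rw [polL_monomial, AddMonoidAlgebra.coeff_single, Finsupp.single_apply, MvPolynomial.coeff_monomial]
    by_cases h : ∀ i, 0 ≤ u i
    · rw [if_pos h]
      refine if_congr ⟨fun h1 => ?_, fun h1 => ?_⟩ rfl rfl
      · rw [← h1]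
        exact nat_int s
      · rw [h1]
        exact int_nat h
    · rw [if_neg h, if_neg]
      intro h1
      apply h
      intro i
      rw [← h1]
      exact Int.natCast_nonneg _
  | add p q hp hq =>
    rw [map_add, AddMonoidAlgebra.coeff_add, Finsupp.add_apply, hp, hq, MvPolynomial.coeff_add]
    split_ifs
    · rfl
    · exact add_zero _

theorem polL_injective : Function.Injective (polL n k) := by
  intro f g h
  ext s
  have h1 := congrArg (fun x : Lau n k => x.coeff (ex s)) h
  simp only [coeff_polL] at h1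
  have h2 : ∀ i, 0 ≤ ex s i := fun i => Int.natCast_nonneg _
  rw [if_pos h2, if_pos h2, ← nat_int s] at h1
  exact h1

/-- Homogeneous polynomials are the Laurent polynomials with non-negative exponents. -/
theorem exists_polL {f : Lau n k} {e : ℤ}
    (h : ∀ u, f.coeff u ≠ 0 → ∑ i, u i = e ∧ ∀ i, 0 ≤ u i) :
    ∃ g : MvPolynomial (Fin (n + 1)) k, g.IsHomogeneous e.toNat ∧ polL n k g = f := by
  classical
  refine ⟨∑ u ∈ f.coeff.support,
    MvPolynomial.monomial (Finsupp.equivFunOnFinite.symm fun i => (u i).toNat) (f.coeff u), ?_, ?_⟩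
  · refine MvPolynomial.IsHomogeneous.sum _ _ _ fun u hu => ?_
    obtain ⟨h1, h2⟩ := h u (Finsupp.mem_support_iff.1 hu)
    refine MvPolynomial.isHomogeneous_monomial _ ?_
    rw [Finsupp.degree_eq_sum]
    show ∑ i, (u i).toNat = e.toNat
    have h3 : ((∑ i, (u i).toNat : ℕ) : ℤ) = e := by
      rw [Nat.cast_sum, ← h1]
      exact Finset.sum_congr rfl fun i _ => Int.toNat_of_nonneg (h2 i)
    rw [← h3, Int.toNat_natCast]
  · rw [map_sum]
    have h1 : ∀ u ∈ f.coeff.support, polL n k (MvPolynomial.monomial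
        (Finsupp.equivFunOnFinite.symm fun i => (u i).toNat) (f.coeff u)) =
        AddMonoidAlgebra.single u (f.coeff u) := by
      intro u hu
      rw [polL_monomial, int_nat (h u (Finsupp.mem_support_iff.1 hu)).2]
    rw [Finset.sum_congr rfl h1]
    ext u
    rw [AddMonoidAlgebra.coeff_sum, Finsupp.finsetSum_apply]
    simp only [AddMonoidAlgebra.coeff_single, Finsupp.single_apply]
    rw [Finset.sum_ite_eq']
    split_ifs with h2
    · rfl
    · exact (Finsupp.notMem_support_iff.1 h2).symm

theorem reg_pol {g : MvPolynomial (Fin (n + 1)) k} {m : ℕ} (hg : g.IsHomogeneous m) {p e : ℤ}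
    {a : Coc n k} (ha : a ∈ reg n k p e) : g • a ∈ reg n k p (e + m) := by
  intro K u hu
  rw [at_smul, Algebra.smul_def, algebraMap_pol] at hu
  obtain ⟨v, w, hv, hw, rfl⟩ := coeff_mul_ne hu
  obtain ⟨h1, h2, h3⟩ := ha K w hw
  rw [coeff_polL] at hv
  have h4 : ∀ i, 0 ≤ v i := by
    by_contra h4
    rw [if_neg h4] at hv
    exact hv rfl
  rw [if_pos h4] at hv
  have h5 : ∑ i, v i = m := by
    by_contra h5
    apply hv
    refine hg.coeff_eq_zero fun h6 => h5 ?_
    rw [Finsupp.degree_eq_sum] at h6
    rw [← h6, Nat.cast_sum]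
    exact (Finset.sum_congr rfl fun i _ => (Int.toNat_of_nonneg (h4 i))).symm
  refine ⟨h1, ?_, fun i hi => ?_⟩
  · show ∑ i, (v i + w i) = e + m
    rw [Finset.sum_add_distrib, h5, h2, add_comm]
  · exact add_nonneg (h4 i) (h3 i hi)

end Pool.Agent.PHJ
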