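import Pool.Agent.PHJ.PlD
import Pool.Agent.PHJ.Cor

/-!
# Transfer between the plain definitions and the algebra of cochains
-/

noncomputable section

namespace Pool.Agent.PHJ.Pl

universe u

variable {n : ℕ} {k : Type u} [Field k]

/-- The values of a cochain. -/
def un (a : Coc n k) : Ch n k := fun K => a.at' K

/-- The cochain with given values on the nonempty faces. -/
def lift (c : Ch n k) : Coc n k := AW.mk (fun K => if K = ∅ then 0 else c K) (if_pos rfl)

theorem un_apply (a : Coc n k) (K) : un a K = a.at' K := rfl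

theorem lift_un (a : Coc n k) : lift (un a) = a := by
  ext K : 1
  unfold lift un
  rw [AW.at_mk]
  split_ifs with h
  · subst h
    exact (AW.at_empty a).symm
  · rfl

theorem un_lift {c : Ch n k} (h : c ∅ = 0) : un (lift c) = c := by
  funext K
  unfold lift un
  rw [AW.at_mk]
  split_ifs with h1
  · subst h1
    exact h.symm
  · rfl

theorem un_inj {a b : Coc n k} (h : un a = un b) : a = b := by
  rw [← lift_un a, h, lift_un]

theorem un_zero : un (0 : Coc n k) = fun _ => 0 := rfl

theorem un_mul (a b : Coc n k) : un (a * b) = mu (un a) (un b) := rfl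

theorem un_d (a : Coc n k) : un (AW.d a) = df (un a) := by
  funext K
  unfold df un
  rw [AW.at_d]
  refine Finset.sum_congr rfl fun w _ => ?_
  unfold AW.sg
  push_cast
  rfl

theorem un_sum {ι : Type*} (s : Finset ι) (f : ι → Coc n k) (K) :
    un (∑ i ∈ s, f i) K = ∑ i ∈ s, un (f i) K := AW.at_sum s f K

theorem un_sm (m : ℤ) (a : Coc n k) : un (sgm m • parm m a) = sm m (un a) := by
  funext K
  unfold un sm sgm parm
  split_ifs with h
  · rw [one_smul]
  · rw [neg_one_smul, AW.at_neg, AW.at_par, neg_mul, neg_neg]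

theorem un_sm1 (a : Coc n k) : sm 1 (un a) = un (-AW.par a) := by
  rw [← un_sm]
  have h : ¬ Even (1 : ℤ) := by decide
  unfold sgm parm
  rw [if_neg h, if_neg h, neg_one_smul]

theorem reg_un {p e : ℤ} {a : Coc n k} : Reg p e (un a) ↔ a ∈ reg n k p e := by
  constructor
  · intro h I u hu
    exact (h I u hu).2
  · intro h K u hu
    refine ⟨?_, h K u hu⟩
    rw [Finset.nonempty_iff_ne_empty]
    rintro rfl
    apply hu
    unfold un
    rw [AW.at_empty]
    rfl

theorem reg_empty {p e : ℤ} {c : Ch n k} (h : Reg p e c) : c ∅ = 0 := by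
  ext u
  by_contra hu
  exact Finset.not_nonempty_empty (h ∅ u hu).1

theorem reg_lift {p e : ℤ} {c : Ch n k} (h : Reg p e c) : lift c ∈ reg n k p e := by
  rw [← reg_un, un_lift (reg_empty h)]
  exact h

/-- The object with the same data. -/
def toObj (E : Ob n k) : Obj n k where
  I := E.I
  e := E.e
  s := E.s
  rk := E.rk
  δ i j := lift (E.δ i j)
  reg_δ i j := by
    have h := reg_lift (E.deg i j)
    have h1 : 1 + E.s i - E.s j = E.s i + 1 - E.s j := by ring
    rwa [h1, add_zero] at h
  tri i j h := by
    by_contra h1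
    apply h
    rw [E.tri i j (not_lt.1 h1)]
    exact (lift_un (0 : Coc n k))
  flat i j := by
    apply un_inj
    funext K
    have h := E.flat i j K
    have h1 : ∀ i j, E.δ i j = un (lift (E.δ i j)) := fun i j => (un_lift (reg_empty (E.deg i j))).symm
    have h2 : un (AW.d (lift (E.δ i j)) + ∑ l, AW.par (lift (E.δ i l)) * lift (E.δ l j)) K =
        un (AW.d (lift (E.δ i j))) K + un (∑ l, AW.par (lift (E.δ i l)) * lift (E.δ l j)) K := rfl
    rw [h2, un_d, un_lift (reg_empty (E.deg i j)), h, un_sum, ← Finset.sum_add_distrib]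
    rw [un_zero]
    refine Finset.sum_eq_zero fun l _ => ?_
    rw [h1 i l, un_sm1, h1 l j, ← un_mul, lift_un, lift_un, un_apply, un_apply, neg_mul, AW.at_neg,
      neg_add_cancel]

/-- The plain object with the same data. -/
def ofObj (E : Obj n k) : Ob n k where
  I := E.I
  e := E.e
  s := E.s
  rk := E.rk
  δ i j := un (E.δ i j)
  deg i j := by
    rw [reg_un]
    have h := E.reg_δ i j
    have h1 : 1 + E.s i - E.s j = E.s i + 1 - E.s j := by ring
    rwa [h1, add_zero]
  tri i j h := by
    by_contra h1
    refine absurd (E.tri i j fun h2 => h1 ?_) (not_lt.2 h)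
    rw [h2]
    rfl
  flat i j K := by
    have h := congrArg (fun a => un a K) (E.flat i j)
    have h2 : un (AW.d (E.δ i j) + ∑ l, AW.par (E.δ i l) * E.δ l j) K =
        un (AW.d (E.δ i j)) K + un (∑ l, AW.par (E.δ i l) * E.δ l j) K := rfl
    beta_reduce at h
    rw [h2, un_d, un_sum, un_zero] at h
    rw [eq_neg_of_add_eq_zero_left h, ← Finset.sum_neg_distrib]
    refine Finset.sum_congr rfl fun l _ => ?_
    rw [un_sm1, ← un_mul, un_apply, un_apply, neg_mul, AW.at_neg]

theorem toObj_ofObj (E : Obj n k) : toObj (ofObj E) = E := by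
  unfold toObj ofObj
  cases E
  congr 1
  funext i j
  exact lift_un _

theorem ofObj_toObj (E : Ob n k) : ofObj (toObj E) = E := by
  have h : (fun i j => un (lift (E.δ i j))) = E.δ := by
    funext i j
    exact un_lift (reg_empty (E.deg i j))
  unfold toObj ofObj
  cases E
  congr 1

end Pool.Agent.PHJ.Pl
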