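import Pool.Agent.PHJ.PlA

/-!
# Transfer of cocycles, coboundaries and isomorphisms
-/

noncomputable section

namespace Pool.Agent.PHJ.Pl

universe u

variable {n : ℕ} {k : Type u} [Field k] {E F G : Ob n k}

/-- The values of a matrix. -/
def unM (f : (toObj E).I → (toObj F).I → Coc n k) : Mor E F := fun i j => un (f i j)

/-- The matrix with given values. -/
def liM (f : Mor E F) : (toObj E).I → (toObj F).I → Coc n k := fun i j => lift (f i j)

theorem mat_iff {f : (toObj E).I → (toObj F).I → Coc n k} {m t : ℤ} :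
    Mat E.e E.s F.e F.s m t (unM f) ↔ f ∈ Hm (toObj E) (toObj F) m t :=
  forall_congr' fun _ => forall_congr' fun _ => reg_un

theorem unM_liM {f : Mor E F} {m t : ℤ} (h : Mat E.e E.s F.e F.s m t f) : unM (liM f) = f := by
  funext i j
  exact un_lift (reg_empty (h i j))

theorem un_dif' (m : ℤ) (f : E.I → F.I → Coc n k) (i : E.I) (l : F.I) (K) :
    un (AW.d (f i l) + ∑ j, AW.par (f i j) * lift (F.δ j l) -
      sgm m • ∑ j, parm m (lift (E.δ i j)) * f j l) K =
        dif E F m (fun i j => un (f i j)) i l K := by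
  have h1 : un (AW.d (f i l) + ∑ j, AW.par (f i j) * lift (F.δ j l) -
      sgm m • ∑ j, parm m (lift (E.δ i j)) * f j l) K =
      un (AW.d (f i l)) K + un (∑ j, AW.par (f i j) * lift (F.δ j l)) K -
        un (sgm m • ∑ j, parm m (lift (E.δ i j)) * f j l) K := rfl
  have hF : ∀ j, un (lift (F.δ j l)) = F.δ j l := fun j => un_lift (reg_empty (F.deg j l))
  have hE : ∀ j, un (lift (E.δ i j)) = E.δ i j := fun j => un_lift (reg_empty (E.deg i j))
  have h2 : un (∑ j, AW.par (f i j) * lift (F.δ j l)) K =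
      -∑ j, mu (sm 1 (un (f i j))) (F.δ j l) K := by
    rw [un_sum, ← Finset.sum_neg_distrib]
    refine Finset.sum_congr rfl fun j _ => ?_
    rw [un_sm1, ← hF j, ← un_mul, hF j, un_apply, un_apply, neg_mul, AW.at_neg, neg_neg]
  have h3 : un (sgm m • ∑ j, parm m (lift (E.δ i j)) * f j l) K =
      ∑ j, mu (sm m (E.δ i j)) (un (f j l)) K := by
    rw [Finset.smul_sum, un_sum]
    refine Finset.sum_congr rfl fun j _ => ?_
    rw [← smul_mul_assoc, un_mul, un_sm, hE j]
  rw [h1, h2, h3, un_d]
  unfold dif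
  rw [← sub_eq_add_neg]

theorem un_dif (m : ℤ) (f : (toObj E).I → (toObj F).I → Coc n k) (i : (toObj E).I)
    (l : (toObj F).I) (K) :
    un (Pool.Agent.PHJ.dif (toObj E) (toObj F) m f i l) K = dif E F m (unM f) i l K :=
  un_dif' m f i l K

theorem closed_iff {f : (toObj E).I → (toObj F).I → Coc n k} {m t : ℤ} :
    Closed E F m t (unM f) ↔ f ∈ Cl (toObj E) (toObj F) m t := by
  unfold Closed Cl
  refine and_congr mat_iff ⟨fun h => ?_, fun h i j K => ?_⟩
  · funext i j
    apply un_inj
    funext K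
    exact (un_dif m f i j K).trans (h i j K)
  · refine (un_dif m f i j K).symm.trans ?_
    rw [h]
    rfl

theorem exact_iff {f : (toObj E).I → (toObj F).I → Coc n k} {m t : ℤ} :
    Exact E F m t (unM f) ↔ f ∈ Ex (toObj E) (toObj F) m t := by
  constructor
  · rintro ⟨h, h1, h2⟩
    have h3 : unM (liM h) = h := unM_liM h1
    refine ⟨liM h, mat_iff.1 (by rw [h3]; exact h1), ?_⟩
    funext i j
    apply un_inj
    funext K
    refine (un_dif (m - 1) (liM h) i j K).trans ?_
    rw [h3]
    exact h2 i j K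
  · rintro ⟨h, h1, h2⟩
    refine ⟨unM h, mat_iff.2 h1, fun i j K => ?_⟩
    refine (un_dif (m - 1) h i j K).symm.trans ?_
    rw [h2]
    rfl

theorem unM_gap (f : (toObj E).I → (toObj F).I → Coc n k)
    (g : (toObj F).I → (toObj E).I → Coc n k) :
    unM (cmp f g - idm (toObj E)) = gap (unM f) (unM g) := by
  funext i l K
  have h1 : unM (cmp f g - idm (toObj E)) i l K =
      un (∑ j : F.I, f i j * g j l) K - un (if i = l then 1 else 0) K := rfl
  rw [h1, un_sum]
  unfold gap
  congr 1
  by_cases h : i = l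
  · rw [if_pos h]
    by_cases hK : K.card = 1
    · rw [if_pos ⟨h, hK⟩, un_apply, AW.at_one, if_pos hK]
    · rw [if_neg (fun h2 => hK h2.2), un_apply, AW.at_one, if_neg hK]
  · rw [if_neg h, if_neg (fun h2 => h h2.1)]
    rfl

theorem iso_iff : Iso E F ↔ Pool.Agent.PHJ.Iso (toObj E) (toObj F) := by
  constructor
  · rintro ⟨f, hf, g, hg, h1, h2⟩
    have h3 : unM (liM f) = f := unM_liM hf.1
    have h4 : unM (liM g) = g := unM_liM hg.1
    refine ⟨liM f, closed_iff.1 (by rw [h3]; exact hf), liM g,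
      closed_iff.1 (by rw [h4]; exact hg), exact_iff.1 ?_, exact_iff.1 ?_⟩
    · rw [unM_gap, h3, h4]
      exact h1
    · rw [unM_gap, h3, h4]
      exact h2
  · rintro ⟨f, hf, g, hg, h1, h2⟩
    refine ⟨unM f, closed_iff.2 hf, unM g, closed_iff.2 hg, ?_, ?_⟩
    · rw [← unM_gap]
      exact exact_iff.2 h1
    · rw [← unM_gap]
      exact exact_iff.2 h2

theorem toObj_lb (B : Type) [Fintype B] [DecidableEq B] (e s : B → ℤ) :
    toObj (lb n k B e s) = Pool.Agent.PHJ.lb n k B e s := by
  unfold toObj lb Pool.Agent.PHJ.lb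
  congr 1
  funext i j
  exact lift_un (0 : Coc n k)

theorem toObj_zero : toObj (zero n k) = zeroObj n k := by
  unfold zero zeroObj
  rw [toObj_lb]
  congr 1
  · funext i
    exact i.elim
  · funext i
    exact i.elim

theorem split_iff : IsSplit E ↔ Pool.Agent.PHJ.IsSplit (toObj E) := by
  unfold IsSplit Pool.Agent.PHJ.IsSplit
  refine exists_congr fun B => exists_congr fun _ => exists_congr fun _ => exists_congr fun e =>
    exists_congr fun s => ?_
  rw [iso_iff, toObj_lb]

theorem unM_at1 (i : Fin (n + 1)) : unM (at1 (toObj E) i) = atiyah E i := by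
  funext a b K
  change Pool.Agent.PHJ.pd i (un (lift (E.δ a b)) K) = pd i (E.δ a b K)
  rw [un_lift (reg_empty (E.deg a b))]
  rfl

end Pool.Agent.PHJ.Pl
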