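import Pool.Agent.PHJ.PlB

/-!
# Cones, shifts, sums, triangulated subcategories and Grothendieck groups, plain definitions
-/

noncomputable section

namespace Pool.Agent.PHJ.Pl

universe u

variable {n : ℕ} {k : Type u} [Field k]

theorem mk_congr {I : Type} [Fintype I] [DecidableEq I] {e s : I → ℤ} {rk : I → ℕ}
    {δ δ' : I → I → Ch n k} (h : δ = δ') (a : Mat e s e s 1 0 δ)
    (b : ∀ i j, rk i ≤ rk j → δ i j = fun _ => 0) (c : Flat δ) (a' : Mat e s e s 1 0 δ')
    (b' : ∀ i j, rk i ≤ rk j → δ' i j = fun _ => 0) (c' : Flat δ') :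
    Ob.mk I e s rk δ a b c = Ob.mk I e s rk δ' a' b' c' := by
  subst h
  rfl

theorem sm_one_eq {a : Ch n k} (h : a ∅ = 0) : sm 1 a = un (-AW.par (lift a)) := by
  rw [← un_sm1, un_lift h]

/-- The matrix of the differential of the cone of `f`; the first summand is `E[1]`. -/
def coneM {E F : Ob n k} (f : Mor E F) : (E.I ⊕ F.I) → (E.I ⊕ F.I) → Ch n k
  | Sum.inl i, Sum.inl j => sm 1 (E.δ i j)
  | Sum.inl i, Sum.inr j => f i j
  | Sum.inr _, Sum.inl _ => fun _ => 0
  | Sum.inr i, Sum.inr j => F.δ i j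

theorem liM_mem {E F : Ob n k} {f : Mor E F} (hf : Closed E F 0 0 f) :
    liM f ∈ Cl (toObj E) (toObj F) 0 0 :=
  closed_iff.1 (by rw [unM_liM hf.1]; exact hf)

/-- The cone as an object. -/
def coneO {E F : Ob n k} (f : Mor E F) (hf : Closed E F 0 0 f) : Obj n k :=
  Pool.Agent.PHJ.cone (E := toObj E) (F := toObj F) (liM f) (liM_mem hf)

theorem coneM_eq {E F : Ob n k} (f : Mor E F) (hf : Closed E F 0 0 f) :
    coneM f = (ofObj (coneO f hf)).δ := by
  funext i j
  match i, j with
  | Sum.inl i, Sum.inl j => exact sm_one_eq (reg_empty (E.deg i j))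
  | Sum.inl i, Sum.inr j => exact (un_lift (reg_empty (hf.1 i j))).symm
  | Sum.inr _, Sum.inl _ => rfl
  | Sum.inr i, Sum.inr j => exact (un_lift (reg_empty (F.deg i j))).symm

/-- The mapping cone of a closed morphism `f : E → F`. -/
def cone {E F : Ob n k} (f : Mor E F) (hf : Closed E F 0 0 f) : Ob n k where
  I := E.I ⊕ F.I
  e := Sum.elim E.e F.e
  s := Sum.elim (fun i => E.s i - 1) F.s
  rk := Sum.elim (fun i => E.rk i + (Finset.univ.sup F.rk + 1)) F.rk
  δ := coneM f
  deg := by
    rw [coneM_eq f hf]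
    exact (ofObj (coneO f hf)).deg
  tri := by
    rw [coneM_eq f hf]
    exact (ofObj (coneO f hf)).tri
  flat := by
    rw [coneM_eq f hf]
    exact (ofObj (coneO f hf)).flat

theorem toObj_cone {E F : Ob n k} (f : Mor E F) (hf : Closed E F 0 0 f) :
    toObj (cone f hf) = coneO f hf := by
  rw [← toObj_ofObj (coneO f hf)]
  congr 1
  exact mk_congr (coneM_eq f hf) _ _ _ _ _ _

theorem shiftM_eq (E : Ob n k) (r : ℤ) :
    (fun i j => sm r (E.δ i j)) = (ofObj (Pool.Agent.PHJ.shift (toObj E) r)).δ := by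
  funext i j
  change sm r (E.δ i j) = un (sgm r • parm r (lift (E.δ i j)))
  rw [un_sm, un_lift (reg_empty (E.deg i j))]

/-- The shift `E[r]`. -/
def shift (E : Ob n k) (r : ℤ) : Ob n k where
  I := E.I
  e := E.e
  s i := E.s i - r
  rk := E.rk
  δ i j := sm r (E.δ i j)
  deg := by
    rw [shiftM_eq E r]
    exact (ofObj (Pool.Agent.PHJ.shift (toObj E) r)).deg
  tri := fun i j h => by
    rw [E.tri i j h]
    funext K
    simp [sm]
  flat := by
    rw [shiftM_eq E r]
    exact (ofObj (Pool.Agent.PHJ.shift (toObj E) r)).flat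

theorem toObj_shift (E : Ob n k) (r : ℤ) :
    toObj (shift E r) = Pool.Agent.PHJ.shift (toObj E) r := by
  rw [← toObj_ofObj (Pool.Agent.PHJ.shift (toObj E) r)]
  congr 1
  exact mk_congr (shiftM_eq E r) _ _ _ _ _ _

/-- The matrix of the differential of the direct sum. -/
def sumM (E F : Ob n k) : (E.I ⊕ F.I) → (E.I ⊕ F.I) → Ch n k
  | Sum.inl i, Sum.inl j => E.δ i j
  | Sum.inl _, Sum.inr _ => fun _ => 0
  | Sum.inr _, Sum.inl _ => fun _ => 0
  | Sum.inr i, Sum.inr j => F.δ i j

theorem sumM_eq (E F : Ob n k) :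
    sumM E F = (ofObj (Pool.Agent.PHJ.sum (toObj E) (toObj F))).δ := by
  funext i j
  match i, j with
  | Sum.inl i, Sum.inl j => exact (un_lift (reg_empty (E.deg i j))).symm
  | Sum.inl i, Sum.inr j => rfl
  | Sum.inr _, Sum.inl _ => rfl
  | Sum.inr i, Sum.inr j => exact (un_lift (reg_empty (F.deg i j))).symm

/-- The direct sum. -/
def sum (E F : Ob n k) : Ob n k where
  I := E.I ⊕ F.I
  e := Sum.elim E.e F.e
  s := Sum.elim E.s F.s
  rk := Sum.elim E.rk F.rk
  δ := sumM E F
  deg := by
    rw [sumM_eq E F]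
    exact (ofObj (Pool.Agent.PHJ.sum (toObj E) (toObj F))).deg
  tri := by
    rw [sumM_eq E F]
    exact (ofObj (Pool.Agent.PHJ.sum (toObj E) (toObj F))).tri
  flat := by
    rw [sumM_eq E F]
    exact (ofObj (Pool.Agent.PHJ.sum (toObj E) (toObj F))).flat

theorem toObj_sum (E F : Ob n k) :
    toObj (sum E F) = Pool.Agent.PHJ.sum (toObj E) (toObj F) := by
  rw [← toObj_ofObj (Pool.Agent.PHJ.sum (toObj E) (toObj F))]
  congr 1
  exact mk_congr (sumM_eq E F) _ _ _ _ _ _

/-- `A` is (the class of objects of) a full triangulated subcategory of `D^b(P^n)`, closed under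
isomorphisms and direct summands. -/
structure IsTri (A : Ob n k → Prop) : Prop where
  iso : ∀ E F, Iso E F → A E → A F
  zero : A (zero n k)
  shift : ∀ E r, A E → A (shift E r)
  cone : ∀ E F (f : Mor E F) (hf : Closed E F 0 0 f), A E → A F → A (cone f hf)
  summand : ∀ E F, A (sum E F) → A E

/-- The relations of the Grothendieck group: `[E] = [F]` for isomorphic objects and
`[F] = [E] + [G]` for every distinguished triangle `E → F → G → E[1]`. -/
inductive K0rel (A : Ob n k → Prop) : FreeAbelianGroup {E : Ob n k // A E} → Prop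
  | iso (E F : {E : Ob n k // A E}) (h : Iso E.1 F.1) :
      K0rel A (FreeAbelianGroup.of E - FreeAbelianGroup.of F)
  | tri (E F G : {E : Ob n k // A E}) (f : Mor E.1 F.1) (hf : Closed E.1 F.1 0 0 f)
      (h : Iso G.1 (cone f hf)) :
      K0rel A (FreeAbelianGroup.of F - (FreeAbelianGroup.of E + FreeAbelianGroup.of G))

/-- The Grothendieck group `K_0(A)` is zero: the relations generate the free abelian group on the
objects of `A`. -/
def K0Zero (A : Ob n k → Prop) : Prop := AddSubgroup.closure {x | K0rel A x} = ⊤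

end Pool.Agent.PHJ.Pl
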