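import Mathlib

/-!
# The bounded derived category of projective space, plain definitions

Cochains are functions on the subsets (faces) of `{0, ..., n}` with values in Laurent polynomials
in `x_0, ..., x_n`.
-/

noncomputable section

namespace Pool.Agent.PHJ.Pl

universe u

/-- Laurent polynomials in `x_0, ..., x_n` over `k`. -/
abbrev Lp (n : ℕ) (k : Type u) [Field k] : Type u := AddMonoidAlgebra k (Fin (n + 1) → ℤ)

instance (priority := high) {n : ℕ} {k : Type u} [Field k] : CommRing (Lp n k) :=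
  AddMonoidAlgebra.commRing

/-- Cochains: functions on the faces of the simplex with vertices `0, ..., n`. -/
abbrev Ch (n : ℕ) (k : Type u) [Field k] : Type u := Finset (Fin (n + 1)) → Lp n k

variable {n : ℕ} {k : Type u} [Field k]

/-- The Alexander-Whitney product. -/
def mu (a b : Ch n k) : Ch n k :=
  fun K => ∑ v ∈ K, a (K.filter (· ≤ v)) * b (K.filter (v ≤ ·))

/-- The Cech differential. -/
def df (a : Ch n k) : Ch n k :=
  fun K => ∑ w ∈ K, (-1) ^ (K.filter (· < w)).card * a (K.erase w)

/-- The sign `(-1)^(m card K)`; on cochains of degree `p` it is `(-1)^(m (p + 1))`. -/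
def sm (m : ℤ) (a : Ch n k) : Ch n k := fun K => if Even m then a K else (-1) ^ K.card * a K

/-- The partial derivative `∂/∂x_i`. -/
def pd (i : Fin (n + 1)) (f : Lp n k) : Lp n k :=
  AddMonoidAlgebra.ofCoeff
    (f.coeff.sum fun u c => Finsupp.single (u - Pi.single i 1) ((u i : k) * c))

/-- `c` is a Cech cochain of degree `p` with values in `O(e)`: on the faces with `p + 1` vertices
it is a Laurent polynomial, homogeneous of degree `e`, with negative exponents only at the
vertices of the face; on the other faces it is zero. -/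
def Reg (p e : ℤ) (c : Ch n k) : Prop :=
  ∀ K u, (c K).coeff u ≠ 0 →
    K.Nonempty ∧ (K.card : ℤ) = p + 1 ∧ ∑ i, u i = e ∧ ∀ i ∉ K, 0 ≤ u i

/-- `f` is a cochain of degree `m` of the complex of morphisms from `⨁ i, O(e i)[-s i]` to
`⨁ j, O(e' j + t)[-s' j]`. -/
def Mat {I J : Type} (e s : I → ℤ) (e' s' : J → ℤ) (m t : ℤ) (f : I → J → Ch n k) : Prop :=
  ∀ i j, Reg (m + s i - s' j) (e' j - e i + t) (f i j)

/-- The Maurer-Cartan equation for a matrix of cochains of total degree one. -/
def Flat {I : Type} [Fintype I] (δ : I → I → Ch n k) : Prop :=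
  ∀ i j K, df (δ i j) K = ∑ l, mu (sm 1 (δ i l)) (δ l j) K

/-- Objects of `D^b(P^n)`: one-sided twisted complexes `(⨁ i, O(e i)[-s i], δ)`. -/
structure Ob (n : ℕ) (k : Type u) [Field k] where
  I : Type
  [fin : Fintype I]
  [dec : DecidableEq I]
  e : I → ℤ
  s : I → ℤ
  rk : I → ℕ
  δ : I → I → Ch n k
  deg : Mat e s e s 1 0 δ
  tri : ∀ i j, rk i ≤ rk j → δ i j = fun _ => 0
  flat : Flat δ

attribute [instance] Ob.fin Ob.dec

/-- Matrices of cochains. -/
abbrev Mor (E F : Ob n k) : Type u := E.I → F.I → Ch n k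

/-- The differential of `Hom(E, F(t))` on cochains of degree `m`. -/
def dif (E F : Ob n k) (m : ℤ) (f : Mor E F) : Mor E F := fun i l K =>
  df (f i l) K - ∑ j, mu (sm 1 (f i j)) (F.δ j l) K - ∑ j, mu (sm m (E.δ i j)) (f j l) K

/-- `f` is a cocycle of degree `m` of `Hom(E, F(t))`. -/
def Closed (E F : Ob n k) (m t : ℤ) (f : Mor E F) : Prop :=
  Mat E.e E.s F.e F.s m t f ∧ ∀ i j K, dif E F m f i j K = 0

/-- `f` is a coboundary of degree `m` of `Hom(E, F(t))`. -/
def Exact (E F : Ob n k) (m t : ℤ) (f : Mor E F) : Prop :=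
  ∃ h : Mor E F, Mat E.e E.s F.e F.s (m - 1) t h ∧ ∀ i j K, dif E F (m - 1) h i j K = f i j K

/-- The difference of the composition of `f` and `g` and the identity of `E`. -/
def gap {E F : Ob n k} (f : Mor E F) (g : Mor F E) : Mor E E := fun i l K =>
  ∑ j, mu (f i j) (g j l) K - if i = l ∧ K.card = 1 then 1 else 0

/-- Isomorphic objects of `D^b(P^n)`. -/
def Iso (E F : Ob n k) : Prop :=
  ∃ f : Mor E F, Closed E F 0 0 f ∧ ∃ g : Mor F E, Closed F E 0 0 g ∧
    Exact E E 0 0 (gap f g) ∧ Exact F F 0 0 (gap g f)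

/-- The direct sum `⨁ b, O(e b)[-s b]` of shifted line bundles. -/
def lb (n : ℕ) (k : Type u) [Field k] (B : Type) [Fintype B] [DecidableEq B] (e s : B → ℤ) :
    Ob n k where
  I := B
  e := e
  s := s
  rk := fun _ => 0
  δ := fun _ _ _ => 0
  deg := fun _ _ _ _ h => absurd rfl h
  tri := fun _ _ _ => rfl
  flat := fun i j K => by simp [df, mu]

/-- `E` is isomorphic to a direct sum of shifted line bundles. -/
def IsSplit (E : Ob n k) : Prop :=
  ∃ (B : Type) (_ : Fintype B) (_ : DecidableEq B) (e s : B → ℤ), Iso E (lb n k B e s)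

/-- The zero object. -/
def zero (n : ℕ) (k : Type u) [Field k] : Ob n k := lb n k Empty (fun _ => 0) (fun _ => 0)

/-- The contraction `v_i(E)` of the Atiyah class of `E` with the section `∂/∂x_i` of `T(-1)`:
a cocycle of degree one of `Hom(E, E(-1))`. -/
def atiyah (E : Ob n k) (i : Fin (n + 1)) : Mor E E := fun a b K => pd i (E.δ a b K)

end Pool.Agent.PHJ.Pl
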