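import Pool.Agent.PHJ.PlC

/-!
# The theorem in the plain model
-/

noncomputable section

namespace Pool.Agent.PHJ.Pl

universe u

variable {n : ℕ} {k : Type u} [Field k]

theorem liM_unM {E F : Ob n k} (f : (toObj E).I → (toObj F).I → Coc n k) : liM (unM f) = f := by
  funext i j
  exact lift_un (f i j)

/-- The corresponding class of objects. -/
def tr (A : Ob n k → Prop) : Obj n k → Prop := fun E => A (ofObj E)

theorem tr_toObj (A : Ob n k → Prop) (E : Ob n k) : tr A (toObj E) ↔ A E := by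
  unfold tr
  rw [ofObj_toObj]

theorem isTri_tr {A : Ob n k → Prop} (hA : IsTri A) : Pool.Agent.PHJ.IsTri (tr A) where
  iso E F h hE := by
    refine hA.iso _ _ (iso_iff.2 ?_) hE
    rw [toObj_ofObj, toObj_ofObj]
    exact h
  zero := by
    rw [← toObj_zero, tr_toObj]
    exact hA.zero
  shift E r hE := by
    have h := (tr_toObj A _).2 (hA.shift _ r hE)
    rwa [toObj_shift, toObj_ofObj] at h
  cone E F f hf hE hF := by
    obtain ⟨E', rfl⟩ : ∃ E', toObj E' = E := ⟨_, toObj_ofObj E⟩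
    obtain ⟨F', rfl⟩ : ∃ F', toObj F' = F := ⟨_, toObj_ofObj F⟩
    rw [tr_toObj] at hE hF
    have h := (tr_toObj A _).2 (hA.cone E' F' (unM f) (closed_iff.2 hf) hE hF)
    rw [toObj_cone] at h
    have h1 : coneO (unM f) (closed_iff.2 hf) = Pool.Agent.PHJ.cone f hf := by
      unfold coneO
      congr 1
      exact liM_unM f
    rwa [h1] at h
  summand E F h := by
    obtain ⟨E', rfl⟩ : ∃ E', toObj E' = E := ⟨_, toObj_ofObj E⟩
    obtain ⟨F', rfl⟩ : ∃ F', toObj F' = F := ⟨_, toObj_ofObj F⟩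
    rw [tr_toObj]
    rw [← toObj_sum, tr_toObj] at h
    exact hA.summand _ _ h

theorem rank_zero [CharZero k] {A : Ob n k → Prop} (h : K0Zero A) {E : Ob n k} (hE : A E) :
    rank (toObj E) = 0 := by
  let r : FreeAbelianGroup {E : Ob n k // A E} →+ ℤ :=
    FreeAbelianGroup.lift fun E => rank (toObj E.1)
  have hr : AddSubgroup.closure {x | K0rel A x} ≤ r.ker := by
    rw [AddSubgroup.closure_le]
    rintro x hx
    change r x = 0
    cases hx with
    | iso E F h =>
      rw [map_sub, FreeAbelianGroup.lift_apply_of, FreeAbelianGroup.lift_apply_of,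
        rank_iso (iso_iff.1 h), sub_self]
    | tri E F G f hf h =>
      rw [map_sub, map_add, FreeAbelianGroup.lift_apply_of, FreeAbelianGroup.lift_apply_of,
        FreeAbelianGroup.lift_apply_of, rank_iso (iso_iff.1 h), toObj_cone]
      unfold coneO
      rw [rank_cone]
      ring
  have h1 : FreeAbelianGroup.of (⟨E, hE⟩ : {E : Ob n k // A E}) ∈
      AddSubgroup.closure {x | K0rel A x} := by
    unfold K0Zero at h
    rw [h]
    exact AddSubgroup.mem_top _
  have h2 : r (FreeAbelianGroup.of ⟨E, hE⟩) = 0 := hr h1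
  rwa [FreeAbelianGroup.lift_apply_of] at h2

theorem exact_at {E : Ob n k} (i : Fin (n + 1)) :
    Exact E E 1 (-1) (atiyah E i) ↔ at1 (toObj E) i ∈ Ex (toObj E) (toObj E) 1 (-1) := by
  rw [← unM_at1, exact_iff]

/-- (1). -/
theorem split_iff_atiyah [CharZero k] (hn : 1 ≤ n) (E : Ob n k) :
    (∀ i, Exact E E 1 (-1) (atiyah E i)) ↔ IsSplit E := by
  rw [split_iff]
  simp only [exact_at]
  exact ⟨split_of_at1 hn _, fun h i => at1_of_split h i⟩

/-- (2). -/
theorem phantom [CharZero k] (hn : 1 ≤ n) {A : Ob n k → Prop} (hA : IsTri A) (h0 : K0Zero A)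
    {E : Ob n k} (hE : A E) (hz : ¬ Iso E (zero n k)) :
    ∃ i, Closed E E 1 (-1) (atiyah E i) ∧ ¬ Exact E E 1 (-1) (atiyah E i) := by
  by_contra hc
  apply hz
  rw [iso_iff, toObj_zero]
  refine zero_of_rank hn (isTri_tr hA) ?_ (E := toObj E) ((tr_toObj A E).2 hE) fun i => ?_
  · intro F hF
    have h1 := rank_zero h0 hF
    rwa [toObj_ofObj] at h1
  · by_contra hi
    rw [← exact_at] at hi
    refine hc ⟨i, ?_, hi⟩
    rw [← unM_at1, closed_iff]
    exact at1_closed _ i

/-- (3). -/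
theorem line [CharZero k] (hn : 1 ≤ n) {A : Ob n k → Prop} (hA : IsTri A)
    (hz : ∃ E, A E ∧ ¬ Iso E (zero n k)) (h : ∀ E, A E → ∀ i, Exact E E 1 (-1) (atiyah E i)) :
    ∃ a : ℤ, ∀ E, A E ↔ ∃ (B : Type) (_ : Fintype B) (_ : DecidableEq B) (s : B → ℤ),
      Iso E (lb n k B (fun _ => a) s) := by
  obtain ⟨a, ha⟩ := line_of_split hn (isTri_tr hA) (by
    obtain ⟨E, hE, hE'⟩ := hz
    refine ⟨toObj E, (tr_toObj A E).2 hE, ?_⟩
    rwa [← toObj_zero, ← iso_iff]) (by
    intro F hF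
    obtain ⟨F', rfl⟩ : ∃ F', toObj F' = F := ⟨_, toObj_ofObj F⟩
    rw [← split_iff, ← split_iff_atiyah hn]
    exact h F' ((tr_toObj A F').1 hF))
  refine ⟨a, fun E => ?_⟩
  rw [← tr_toObj A E, ha]
  refine exists_congr fun B => exists_congr fun _ => exists_congr fun _ => exists_congr fun s => ?_
  rw [iso_iff, toObj_lb]

end Pool.Agent.PHJ.Pl
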