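import Pool.Agent.PHJ.Defs2

/-!
# The rank of an object

`rank E = ∑ i, (-1)^(s i)` is invariant under isomorphisms and additive on triangles.
-/

noncomputable section

namespace Pool.Agent.PHJ

universe u v

open AW

variable {n : ℕ} {k : Type u} [Field k]

/-- The rank. -/
def rank (E : Obj n k) : ℤ := ∑ i, sgm (E.s i)

theorem sgm_add_one (m : ℤ) : sgm (m + 1) = -sgm m := by
  unfold sgm
  by_cases h : Even m
  · rw [if_pos h, if_neg (by rw [Int.even_add_one]; exact fun h1 => h1 h)]
  · rw [if_neg h, if_pos (by rw [Int.even_add_one]; exact h), neg_neg]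

theorem sgm_sub_one (m : ℤ) : sgm (m - 1) = -sgm m := by
  have h := sgm_add_one (m - 1)
  rw [sub_add_cancel] at h
  rw [h, neg_neg]

theorem rank_cone {E F : Obj n k} (f : E.I → F.I → Coc n k) (hf : f ∈ Cl E F 0 0) :
    rank (cone f hf) = rank F - rank E := by
  unfold rank
  change ∑ i : E.I ⊕ F.I, sgm (Sum.elim (fun i => E.s i - 1) F.s i) = _
  rw [Fintype.sum_sum_type]
  simp only [Sum.elim_inl, Sum.elim_inr, sgm_sub_one, Finset.sum_neg_distrib]
  ring

/-- Evaluation of Laurent polynomials at the point `(1, ..., 1)`. -/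
def ev1 (n : ℕ) (k : Type u) [Field k] : Lau n k →+* k :=
  (AddMonoidAlgebra.lift k k (Fin (n + 1) → ℤ) 1).toRingHom

/-- The value of a cochain at the vertex `0` and at the point `(1, ..., 1)`. -/
def ev (a : Coc n k) : k := ev1 n k (a.at' {0})

theorem ev_zero : ev (0 : Coc n k) = 0 := map_zero _

theorem ev_one : ev (1 : Coc n k) = 1 := by
  unfold ev
  rw [at_one, Finset.card_singleton, if_pos rfl, map_one]

theorem ev_add (a b : Coc n k) : ev (a + b) = ev a + ev b := map_add (ev1 n k) _ _

theorem ev_sub (a b : Coc n k) : ev (a - b) = ev a - ev b := map_sub (ev1 n k) _ _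

theorem ev_neg (a : Coc n k) : ev (-a) = -ev a := map_neg (ev1 n k) _

theorem ev_sum {ι : Type*} (s : Finset ι) (f : ι → Coc n k) :
    ev (∑ i ∈ s, f i) = ∑ i ∈ s, ev (f i) := by
  unfold ev
  rw [at_sum, map_sum]

theorem ev_mul (a b : Coc n k) : ev (a * b) = ev a * ev b := by
  unfold ev
  rw [at_mul, Finset.sum_singleton, map_mul, Finset.filter_singleton, Finset.filter_singleton,
    if_pos le_rfl]

theorem ev_par (a : Coc n k) : ev (par a) = ev a := by
  unfold ev
  rw [at_par, Finset.card_singleton, pow_one, neg_neg, one_mul]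

theorem ev_d (a : Coc n k) : ev (d a) = 0 := by
  unfold ev
  rw [at_d, Finset.sum_singleton, Finset.erase_singleton, at_empty, mul_zero, map_zero]

theorem ev_reg {p e : ℤ} {a : Coc n k} (ha : a ∈ reg n k p e) (hp : p ≠ 0) : ev a = 0 := by
  have h : a.at' {0} = 0 := by
    ext u
    by_contra h
    have h1 := (ha {0} u h).1
    rw [Finset.card_singleton] at h1
    apply hp
    push_cast at h1
    linarith
  unfold ev
  rw [h, map_zero]

theorem ev_parm (m : ℤ) (a : Coc n k) : ev (parm m a) = ev a := by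
  unfold parm
  split_ifs
  · rfl
  · exact ev_par a

/-- The supertrace. -/
def str (E : Obj n k) (f : E.I → E.I → Coc n k) : k := ∑ i, (sgm (E.s i) : k) * ev (f i i)

theorem str_idm (E : Obj n k) : str E (idm E) = (rank E : k) := by
  unfold str rank
  rw [Int.cast_sum]
  refine Finset.sum_congr rfl fun i _ => ?_
  unfold idm
  rw [if_pos rfl, ev_one, mul_one]

theorem str_sub (E : Obj n k) (f g : E.I → E.I → Coc n k) :
    str E (f - g) = str E f - str E g := by
  unfold str
  rw [← Finset.sum_sub_distrib]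
  refine Finset.sum_congr rfl fun i _ => ?_
  rw [Pi.sub_apply, Pi.sub_apply, ev_sub, mul_sub]

theorem str_cmp {E F : Obj n k} {f : E.I → F.I → Coc n k} {g : F.I → E.I → Coc n k}
    (hf : f ∈ Hm E F 0 0) : str E (cmp f g) = str F (cmp g f) := by
  unfold str cmp
  simp only [ev_sum, ev_mul, Finset.mul_sum]
  rw [Finset.sum_comm]
  refine Finset.sum_congr rfl fun j _ => Finset.sum_congr rfl fun i _ => ?_
  by_cases h : E.s i = F.s j
  · rw [h, mul_comm (ev (f i j))]
  · have h1 : ev (f i j) = 0 := ev_reg (hf i j) (by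
      intro h2
      apply h
      linarith)
    rw [h1, zero_mul, mul_zero, mul_zero, mul_zero]

theorem str_exact {E : Obj n k} {f : E.I → E.I → Coc n k} (hf : f ∈ Ex E E 0 0) :
    str E f = 0 := by
  obtain ⟨h, hh, rfl⟩ := hf
  unfold str
  have h0 : ∀ i, ev (dif E E (0 - 1) h i i) =
      ∑ j, ev (h i j) * ev (E.δ j i) + ∑ j, ev (E.δ i j) * ev (h j i) := by
    intro i
    have h1 : sgm (0 - 1) = -1 := by
      unfold sgm
      rw [if_neg (by decide)]
    unfold dif
    rw [h1, neg_one_smul, sub_neg_eq_add, ev_add, ev_add, ev_d, zero_add, ev_sum, ev_sum]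
    simp only [ev_mul, ev_par, ev_parm]
  simp only [h0, mul_add, Finset.sum_add_distrib, Finset.mul_sum]
  rw [Finset.sum_comm (f := fun i j => (sgm (E.s i) : k) * (ev (E.δ i j) * ev (h j i))),
    ← Finset.sum_add_distrib]
  refine Finset.sum_eq_zero fun i _ => ?_
  rw [← Finset.sum_add_distrib]
  refine Finset.sum_eq_zero fun j _ => ?_
  by_cases h2 : E.s i = E.s j + 1
  · rw [h2, sgm_add_one]
    push_cast
    ring
  · have h3 : ev (h i j) = 0 := ev_reg (hh i j) (by
      intro h4
      apply h2
      linarith)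
    rw [h3, zero_mul, mul_zero, mul_zero, mul_zero, add_zero]

theorem rank_iso [CharZero k] {E F : Obj n k} (h : Iso E F) : rank E = rank F := by
  obtain ⟨f, hf, g, hg, h1, h2⟩ := h
  have h3 := str_exact h1
  have h4 := str_exact h2
  rw [str_sub, str_idm, sub_eq_zero] at h3 h4
  have h5 := str_cmp (g := g) hf.1
  rw [h3, h4] at h5
  exact_mod_cast h5

/-- The rank on the Grothendieck group. -/
theorem rank_eq_zero [CharZero k] {A : Obj n k → Prop} (hA : Subsingleton (K0 A)) {E : Obj n k}
    (hE : A E) : rank E = 0 := by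
  let r : FreeAbelianGroup {E : Obj n k // A E} →+ ℤ := FreeAbelianGroup.lift fun E => rank E.1
  have hr : AddSubgroup.closure (K0rel A) ≤ r.ker := by
    rw [AddSubgroup.closure_le]
    rintro x (⟨E, F, h, rfl⟩ | ⟨E, F, G, f, hf, h, rfl⟩)
    · change r _ = 0
      rw [map_sub, FreeAbelianGroup.lift_apply_of, FreeAbelianGroup.lift_apply_of, rank_iso h,
        sub_self]
    · change r _ = 0
      rw [map_sub, map_add, FreeAbelianGroup.lift_apply_of, FreeAbelianGroup.lift_apply_of,
        FreeAbelianGroup.lift_apply_of, rank_iso h, rank_cone]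
      ring
  have h1 : FreeAbelianGroup.of (⟨E, hE⟩ : {E : Obj n k // A E}) ∈
      AddSubgroup.closure (K0rel A) := by
    rw [← QuotientAddGroup.eq_zero_iff]
    exact Subsingleton.elim _ _
  have h2 : r (FreeAbelianGroup.of ⟨E, hE⟩) = 0 := hr h1
  rwa [FreeAbelianGroup.lift_apply_of] at h2

end Pool.Agent.PHJ
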