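import Pool.Agent.PHJ.Lau
import Pool.Agent.PHJ.AlgB

/-!
# Regular cochains

Closed under sums, products, the differential, multiplication by variables and partial derivatives.
-/

noncomputable section

namespace Pool.Agent.PHJ

universe u v

open AW

variable {n : ℕ} {k : Type u} [CommRing k]

/-- `reg` as a submodule. -/
def regS (n : ℕ) (k : Type u) [CommRing k] (p e : ℤ) : Submodule k (Coc n k) where
  carrier := reg n k p e
  zero_mem' := fun I u h => absurd rfl h
  add_mem' := by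
    intro a b ha hb I u h
    by_cases h1 : (a.at' I).coeff u = 0
    · refine hb I u fun h2 => h ?_
      rw [at_add, AddMonoidAlgebra.coeff_add, Finsupp.add_apply, h1, h2, add_zero]
    · exact ha I u h1
  smul_mem' := by
    intro c a ha I u h
    refine ha I u fun h1 => h ?_
    rw [at_smul, AddMonoidAlgebra.coeff_smul, Finsupp.smul_apply, h1, smul_zero]

theorem mem_regS {p e : ℤ} {a : Coc n k} : a ∈ regS n k p e ↔ a ∈ reg n k p e := Iff.rfl

theorem reg_zero (p e : ℤ) : (0 : Coc n k) ∈ reg n k p e := (regS n k p e).zero_mem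

theorem reg_add {p e : ℤ} {a b : Coc n k} (ha : a ∈ reg n k p e) (hb : b ∈ reg n k p e) :
    a + b ∈ reg n k p e := (regS n k p e).add_mem ha hb

theorem reg_sub {p e : ℤ} {a b : Coc n k} (ha : a ∈ reg n k p e) (hb : b ∈ reg n k p e) :
    a - b ∈ reg n k p e := (regS n k p e).sub_mem ha hb

theorem reg_neg {p e : ℤ} {a : Coc n k} (ha : a ∈ reg n k p e) :
    -a ∈ reg n k p e := (regS n k p e).neg_mem ha

theorem reg_smul {p e : ℤ} (c : k) {a : Coc n k} (ha : a ∈ reg n k p e) :
    c • a ∈ reg n k p e := (regS n k p e).smul_mem c ha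

theorem reg_sum {ι : Type*} (s : Finset ι) {p e : ℤ} {f : ι → Coc n k}
    (h : ∀ i ∈ s, f i ∈ reg n k p e) : ∑ i ∈ s, f i ∈ reg n k p e := (regS n k p e).sum_mem h

private theorem reg_intmul (z : ℤ) (f : Lau n k) (u : Fin (n + 1) → ℤ)
    (h : (((z : ℤ) : Lau n k) * f).coeff u ≠ 0) : f.coeff u ≠ 0 := by
  intro h0
  apply h
  have h1 : ((z : ℤ) : Lau n k) * f = (z : k) • f := by
    rw [← zsmul_eq_mul, Int.cast_smul_eq_zsmul]
  rw [h1, AddMonoidAlgebra.coeff_smul_apply, h0, smul_zero]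

private theorem reg_sumne {ι : Type*} {s : Finset ι} {f : ι → Lau n k} {u : Fin (n + 1) → ℤ}
    (h : (∑ i ∈ s, f i).coeff u ≠ 0) : ∃ i ∈ s, (f i).coeff u ≠ 0 := by
  rw [AddMonoidAlgebra.coeff_sum, Finsupp.finsetSum_apply] at h
  exact Finset.exists_ne_zero_of_sum_ne_zero h

private theorem reg_card (K : Finset (Fin (n + 1))) {v : Fin (n + 1)} (hv : v ∈ K) :
    (K.filter (· ≤ v)).card + (K.filter (v ≤ ·)).card = K.card + 1 := by
  have h1 : K.filter (· ≤ v) ∪ K.filter (v ≤ ·) = K := by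
    ext u
    rw [Finset.mem_union, Finset.mem_filter, Finset.mem_filter]
    constructor
    · rintro (h | h)
      · exact h.1
      · exact h.1
    · intro h
      rcases le_total u v with h2 | h2
      · exact Or.inl ⟨h, h2⟩
      · exact Or.inr ⟨h, h2⟩
  have h2 : K.filter (· ≤ v) ∩ K.filter (v ≤ ·) = {v} := by
    ext u
    rw [Finset.mem_inter, Finset.mem_filter, Finset.mem_filter, Finset.mem_singleton]
    constructor
    · rintro ⟨h3, h4⟩
      exact le_antisymm h3.2 h4.2
    · rintro rfl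
      exact ⟨⟨hv, le_rfl⟩, ⟨hv, le_rfl⟩⟩
  have h3 := Finset.card_union_add_card_inter (K.filter (· ≤ v)) (K.filter (v ≤ ·))
  rw [h1, h2, Finset.card_singleton] at h3
  exact h3.symm

private theorem reg_single (i : Fin (n + 1)) : ∑ j, (Pi.single i 1 : Fin (n + 1) → ℤ) j = 1 := by
  simp

private theorem reg_single_nn (i j : Fin (n + 1)) : 0 ≤ (Pi.single i 1 : Fin (n + 1) → ℤ) j := by
  rw [Pi.single_apply]
  split_ifs <;> norm_num

theorem reg_one : (1 : Coc n k) ∈ reg n k 0 0 := by
  classical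
  intro K u h
  rw [at_one] at h
  by_cases h1 : K.card = 1
  · rw [if_pos h1, ← mono_zero, coeff_mono] at h
    by_cases h2 : u = 0
    · subst h2
      refine ⟨by rw [h1]; rfl, ?_, fun i _ => le_rfl⟩
      exact Finset.sum_eq_zero fun i _ => rfl
    · rw [if_neg h2] at h
      exact absurd rfl h
  · rw [if_neg h1] at h
    exact absurd rfl h

theorem reg_mul {p q e e' : ℤ} {a b : Coc n k} (ha : a ∈ reg n k p e) (hb : b ∈ reg n k q e') :
    a * b ∈ reg n k (p + q) (e + e') := by
  intro K u h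
  rw [at_mul] at h
  obtain ⟨v, hv, h1⟩ := reg_sumne h
  obtain ⟨x, y, hx, hy, rfl⟩ := coeff_mul_ne h1
  obtain ⟨h2, h3, h4⟩ := ha _ _ hx
  obtain ⟨h5, h6, h7⟩ := hb _ _ hy
  have h8 := reg_card K hv
  refine ⟨by omega, ?_, fun i hi => ?_⟩
  · rw [← h3, ← h6, ← Finset.sum_add_distrib]
    rfl
  · exact add_nonneg (h4 i fun h9 => hi (Finset.mem_filter.1 h9).1)
      (h7 i fun h9 => hi (Finset.mem_filter.1 h9).1)

theorem reg_d {p e : ℤ} {a : Coc n k} (ha : a ∈ reg n k p e) : d a ∈ reg n k (p + 1) e := by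
  intro K u h
  rw [at_d] at h
  obtain ⟨w, hw, h1⟩ := reg_sumne h
  obtain ⟨h2, h3, h4⟩ := ha _ _ (reg_intmul _ _ _ h1)
  have h5 := Finset.card_erase_add_one hw
  exact ⟨by omega, h3, fun i hi => h4 i fun h6 => hi (Finset.mem_of_mem_erase h6)⟩

theorem reg_par {p e : ℤ} {a : Coc n k} (ha : a ∈ reg n k p e) : par a ∈ reg n k p e := by
  intro K u h
  rw [at_par] at h
  have h1 : (-(-1) ^ K.card * a.at' K : Lau n k) = ((-(-1) ^ K.card : ℤ) : Lau n k) * a.at' K := by
    push_cast
    rfl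
  rw [h1] at h
  exact ha _ _ (reg_intmul _ _ _ h)

theorem par_of_reg {p e : ℤ} {a : Coc n k} (ha : a ∈ reg n k p e) : par a = sgm p • a := by
  have key : ∀ K, (-(-1) ^ K.card * a.at' K : Lau n k) = sgm p • a.at' K := by
    intro K
    by_cases h0 : a.at' K = 0
    · rw [h0, mul_zero, smul_zero]
    · obtain ⟨u, hu⟩ : ∃ u, (a.at' K).coeff u ≠ 0 := by
        by_contra hcon
        push Not at hcon
        apply h0
        ext u
        rw [hcon u]
        rfl
      obtain ⟨h2, -, -⟩ := ha _ _ hu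
      have h3 : p = (K.card : ℤ) - 1 := by omega
      unfold sgm
      rcases Nat.even_or_odd K.card with h4 | h4
      · have h5 : ¬ Even p := by
          rw [h3]
          intro h6
          obtain ⟨c, hc⟩ := h6
          obtain ⟨m, hm⟩ := h4
          omega
        rw [if_neg h5, h4.neg_one_pow, neg_one_smul, neg_one_mul]
      · have h5 : Even p := by
          obtain ⟨m, hm⟩ := h4
          exact ⟨m, by omega⟩
        rw [if_pos h5, h4.neg_one_pow, one_smul, neg_neg, one_mul]
  ext1 K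
  rw [at_par, key K]
  rfl

theorem reg_xv {p e : ℤ} (i : Fin (n + 1)) {a : Coc n k} (ha : a ∈ reg n k p e) :
    (xv i : Lau n k) • a ∈ reg n k p (e + 1) := by
  intro K u h
  rw [at_smul, smul_eq_mul, coeff_xv_mul] at h
  obtain ⟨h2, h3, h4⟩ := ha _ _ h
  refine ⟨h2, ?_, fun j hj => ?_⟩
  · rw [← h3]
    simp only [Pi.sub_apply]
    rw [Finset.sum_sub_distrib, reg_single]
    ring
  · have h5 := h4 j hj
    have h6 := reg_single_nn i j
    rw [Pi.sub_apply] at h5
    omega

theorem reg_pdc {p e : ℤ} (i : Fin (n + 1)) {a : Coc n k} (ha : a ∈ reg n k p e) :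
    pdc i a ∈ reg n k p (e - 1) := by
  intro K u h
  have h0 : (pdc i a).at' K = pd i (a.at' K) := rfl
  rw [h0, coeff_pd] at h
  obtain ⟨h2, h3, h4⟩ := ha _ _ (right_ne_zero_of_mul h)
  refine ⟨h2, ?_, fun j hj => ?_⟩
  · rw [← h3]
    simp only [Pi.add_apply]
    rw [Finset.sum_add_distrib, reg_single]
    ring
  · have h5 := h4 j hj
    rw [Pi.add_apply, Pi.single_apply] at h5
    by_cases h6 : j = i
    · subst h6
      rw [if_pos rfl] at h5
      have h7 : u j + 1 ≠ 0 := by
        intro h8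
        apply left_ne_zero_of_mul h
        rw [h8, Int.cast_zero]
      omega
    · rw [if_neg h6] at h5
      omega

theorem reg_eq_zero {p e : ℤ} (hp : p < 0 ∨ (n : ℤ) < p) {a : Coc n k} (ha : a ∈ reg n k p e) :
    a = 0 := by
  ext1 K
  ext u
  rw [at_zero]
  by_contra h
  have h1 : (a.at' K).coeff u ≠ 0 := h
  obtain ⟨h2, -, -⟩ := ha _ _ h1
  have h3 : K.card ≤ n + 1 := by
    have := Finset.card_le_univ K
    rwa [Fintype.card_fin] at this
  rcases Finset.eq_empty_or_nonempty K with h4 | h4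
  · rw [h4, at_empty] at h1
    exact h1 rfl
  · have h5 := h4.card_pos
    omega

end Pool.Agent.PHJ
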